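import Pool.Agent.Work.MP_c4093f_al.Z.Lin

-- merged part: Pool.Agent.Work.MP_c4093f_al.Z.Flag1
section
/-!
Elementary calculus of flags: germs, continuity, cofinal flags, descent.  All proofs are direct
(take the maximum of the indices and use `Antitone`).  `Simple.cof`: each `T' m` is definable; it
cannot be disjoint from a member `T n`, since some `T' k ≤ T' m ⊓ T n` is nonzero.
-/

namespace Pool.Agent.Work.MP_c4093f_al.Z

open LinearMap

variable {Λ : Type} [Ring Λ] {M N K : Type} [AddCommGroup M] [Module Λ M] [AddCommGroup N]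
  [Module Λ N] [AddCommGroup K] [Module Λ K] {U U₁ U₂ : ℕ → Submodule Λ M}
  {T T₁ : ℕ → Submodule Λ N} {f g : M →ₗ[Λ] N}

theorem Big.self (U : ℕ → Submodule Λ M) (n : ℕ) : Big U (U n) := ⟨n, le_rfl⟩
theorem Big.mono {A B : Submodule Λ M} (h : Big U A) (hAB : A ≤ B) : Big U B := h.imp fun _ h => h.trans hAB
theorem Big.ge (hU : Antitone U) {A : Submodule Λ M} (h : Big U A) (m : ℕ) : ∃ n ≥ m, U n ≤ A := by
  obtain ⟨n, hn⟩ := h
  exact ⟨max n m, le_max_right _ _, (hU (le_max_left _ _)).trans hn⟩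
theorem Big.inf (hU : Antitone U) {A B : Submodule Λ M} (h : Big U A) (h' : Big U B) :
    Big U (A ⊓ B) := by
  obtain ⟨n, hn⟩ := h
  obtain ⟨m, h1, h2⟩ := h'.ge hU n
  exact ⟨m, le_inf ((hU h1).trans hn) h2⟩
theorem Big.iInf (hU : Antitone U) {κ : Type} [Finite κ] {A : κ → Submodule Λ M}
    (h : ∀ i, Big U (A i)) : Big U (⨅ i, A i) := by
  choose n hn using h
  obtain ⟨m, hm⟩ := (Set.finite_range n).bddAbove
  exact ⟨m, le_iInf fun i => (hU (hm ⟨i, rfl⟩)).trans (hn i)⟩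
theorem exists_common (hU : Antitone U) {κ : Type} [Finite κ] {A : κ → Submodule Λ M}
    (h : ∀ i, Big U (A i)) (m : ℕ) : ∃ n ≥ m, ∀ i, U n ≤ A i := by
  obtain ⟨n, h1, h2⟩ := (Big.iInf hU h).ge hU m
  exact ⟨n, h1, le_iInf_iff.1 h2⟩
theorem Cont.big (h : Cont f U T) {B : Submodule Λ N} (hB : Big T B) : Big U (B.comap f) := by
  obtain ⟨n, hn⟩ := hB
  exact (h n).mono (Submodule.comap_mono hn)
theorem Cont.id (U : ℕ → Submodule Λ M) : Cont LinearMap.id U U := fun m => ⟨m, le_rfl⟩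
theorem Cont.zero (U : ℕ → Submodule Λ M) (T : ℕ → Submodule Λ N) : Cont 0 U T := fun m => ⟨0, fun _ _ => (T m).zero_mem⟩
theorem Cont.comp {S : ℕ → Submodule Λ K} {k : N →ₗ[Λ] K} (hk : Cont k T S) (hf : Cont f U T) :
    Cont (k ∘ₗ f) U S := fun m => hf.big (hk m)
theorem Cont.add (hU : Antitone U) (hf : Cont f U T) (hg : Cont g U T) : Cont (f + g) U T := fun m =>
  ((hf m).inf hU (hg m)).mono fun _ h => (T m).add_mem h.1 h.2
theorem Cont.neg (hf : Cont f U T) : Cont (-f) U T := fun m => (hf m).mono fun _ h => (T m).neg_mem h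
theorem Cont.sub (hU : Antitone U) (hf : Cont f U T) (hg : Cont g U T) : Cont (f - g) U T := fun m =>
  ((hf m).inf hU (hg m)).mono fun _ h => (T m).sub_mem h.1 h.2
theorem Cont.sum (hU : Antitone U) {κ : Type} (A : Finset κ) {f : κ → M →ₗ[Λ] N}
    (h : ∀ i ∈ A, Cont (f i) U T) : Cont (∑ i ∈ A, f i) U T :=   Finset.sum_induction f (fun g => Cont g U T) (fun _ _ => Cont.add hU) (Cont.zero U T) h
theorem Cont.congr (hU : Antitone U) (hf : Cont f U T) (h : Zer (g - f) U) : Cont g U T := fun m =>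
  ((hf m).inf hU h).mono fun ξ hξ => by
    have h1 : g ξ - f ξ = 0 := hξ.2
    rw [Submodule.mem_comap, sub_eq_zero.1 h1]
    exact hξ.1
theorem Cont.mono (hf : Cont f U T) (h : ∀ n, T n ≤ T₁ n) : Cont f U T₁ := fun m => (hf m).mono (Submodule.comap_mono (h m))
theorem Zer.cont (h : Zer f U) (T : ℕ → Submodule Λ N) : Cont f U T := fun m => Big.mono h fun ξ hξ => by
  rw [Submodule.mem_comap, mem_ker.1 hξ]; exact (T m).zero_mem
theorem Zer.zero (U : ℕ → Submodule Λ M) : Zer (0 : M →ₗ[Λ] N) U := ⟨0, fun _ _ => rfl⟩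
theorem Zer.comp_left (h : Zer f U) (k : N →ₗ[Λ] K) : Zer (k ∘ₗ f) U := Big.mono h (ker_le_ker_comp f k)
theorem Zer.comp_right {k : N →ₗ[Λ] K} (hk : Zer k T) (hf : Cont f U T) : Zer (k ∘ₗ f) U := hf.big hk
theorem Zer.add (hU : Antitone U) (hf : Zer f U) (hg : Zer g U) : Zer (f + g) U := Big.mono (Big.inf hU hf hg) fun ξ h => by
  rw [mem_ker, LinearMap.add_apply, mem_ker.1 h.1, mem_ker.1 h.2, add_zero]
theorem Zer.neg (hf : Zer f U) : Zer (-f) U := Big.mono hf fun ξ h => by rw [mem_ker, LinearMap.neg_apply, mem_ker.1 h, neg_zero]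
theorem Zer.sub (hU : Antitone U) (hf : Zer f U) (hg : Zer g U) : Zer (f - g) U := by
  rw [sub_eq_add_neg]; exact hf.add hU hg.neg
theorem Zer.symm (h : Zer (f - g) U) : Zer (g - f) U := by
  rw [← neg_sub]; exact h.neg
theorem Zer.trans (hU : Antitone U) {k : M →ₗ[Λ] N} (h : Zer (f - g) U) (h' : Zer (g - k) U) :
    Zer (f - k) U := by
  rw [← sub_add_sub_cancel f g k]; exact h.add hU h'
theorem Zer.of_inj (hU : Antitone U) (hf : Cont f U T) {k : N →ₗ[Λ] K} {n : ℕ}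
    (hk : ∀ ξ ∈ T n, k ξ = 0 → ξ = 0) (h : Zer (k ∘ₗ f) U) : Zer f U := Big.mono (Big.inf hU (hf n) h) fun ξ hξ => hk _ hξ.1 hξ.2
theorem zer_fmap {k : N →ₗ[Λ] K} : Zer k (fmap f U) ↔ Zer (k ∘ₗ f) U := exists_congr fun _ => Submodule.map_le_iff_le_comap
theorem big_fmap {B : Submodule Λ N} : Big (fmap f U) B ↔ Big U (B.comap f) := exists_congr fun _ => Submodule.map_le_iff_le_comap
theorem cont_fmap (f : M →ₗ[Λ] N) (U : ℕ → Submodule Λ M) : Cont f U (fmap f U) := fun m => ⟨m, Submodule.le_comap_map _ _⟩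
theorem cont_of_fmap {S : ℕ → Submodule Λ K} {k : N →ₗ[Λ] K} :
    Cont k (fmap f U) S ↔ Cont (k ∘ₗ f) U S := forall_congr' fun _ => big_fmap
theorem fmap_comp (k : N →ₗ[Λ] K) : fmap (k ∘ₗ f) U = fmap k (fmap f U) := funext fun _ => Submodule.map_comp _ _ _
@[simp] theorem fmap_id : fmap LinearMap.id U = U := funext fun _ => Submodule.map_id _
theorem fmap_ne_bot : (∀ n, fmap f U n ≠ ⊥) ↔ ¬ Zer f U := by
  simp only [Zer, Big, not_exists, fmap, ne_eq, ← le_ker_iff_map]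
theorem anti_fmap (hU : Antitone U) : Antitone (fmap f U) := fun _ _ h => Submodule.map_mono (hU h)
theorem anti_tex (hU : Antitone U) : Antitone (tex U) := antitone_nat_of_succ_le fun n => by
  cases n with
  | zero => exact le_top
  | succ n => exact hU n.le_succ

theorem Cof.refl (U : ℕ → Submodule Λ M) : Cof U U := ⟨Big.self U, Big.self U⟩
theorem Cof.symm (h : Cof U U₁) : Cof U₁ U := ⟨h.2, h.1⟩
theorem Cof.trans (h : Cof U U₁) (h' : Cof U₁ U₂) : Cof U U₂ :=   ⟨fun m => (h'.1 m).elim fun n hn => (h.1 n).mono hn,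
    fun m => (h.2 m).elim fun n hn => (h'.2 n).mono hn⟩
theorem Cof.big (h : Cof U U₁) {A : Submodule Λ M} : Big U A ↔ Big U₁ A :=   ⟨fun ⟨n, hn⟩ => (h.2 n).mono hn, fun ⟨n, hn⟩ => (h.1 n).mono hn⟩
theorem Cof.zer (h : Cof U U₁) : Zer f U ↔ Zer f U₁ := h.big
theorem Cof.cont (h : Cof U U₁) (h' : Cof T T₁) : Cont f U T ↔ Cont f U₁ T₁ :=   ⟨fun hc m => h.big.1 (hc.big (h'.1 m)), fun hc m => h.big.2 (hc.big (h'.2 m))⟩
theorem Cof.fmap (h : Cof U U₁) (f : M →ₗ[Λ] N) : Cof (fmap f U) (fmap f U₁) :=   ⟨fun m => (h.1 m).imp fun _ hn => Submodule.map_mono hn,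
    fun m => (h.2 m).imp fun _ hn => Submodule.map_mono hn⟩
theorem Cof.ne_bot (h : Cof U U₁) (h0 : ∀ n, U n ≠ ⊥) : ∀ n, U₁ n ≠ ⊥ := fun n hn => (h.1 n).elim fun m hm => h0 m (le_bot_iff.1 (hn ▸ hm))
theorem cof_fmap_congr (hU : Antitone U) (h : Zer (f - g) U) : Cof (fmap f U) (fmap g U) :=   ⟨fun m => big_fmap.2 ((cont_fmap g U).congr hU h m),
    fun m => big_fmap.2 ((cont_fmap f U).congr hU h.symm m)⟩
theorem cof_tex (U : ℕ → Submodule Λ M) : Cof (tex U) U := ⟨fun m => ⟨m + 1, le_rfl⟩, fun m => by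
  cases m with
  | zero => exact ⟨0, le_top⟩
  | succ m => exact ⟨m, le_rfl⟩⟩

section
variable [Dim Λ] [Fr Λ M] [Fr Λ N]
theorem Null.ev (hU : Antitone U) (h : Null U) {ε : ℝ} (hε : 0 < ε) :
    ∃ N, ∀ n ≥ N, rho (U n) < ε := (h ε hε).imp fun _ hN _ hn => (rho_mono (hU hn)).trans_lt hN
theorem Null.of_refine (h : Null U) (h' : ∀ m, Big U₁ (U m)) : Null U₁ := fun ε hε => by
  obtain ⟨n, hn⟩ := h ε hε
  exact (h' n).imp fun _ hm => (rho_mono hm).trans_lt hn
theorem Cof.null (h : Cof U U₁) (h0 : Null U) : Null U₁ := h0.of_refine h.2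
theorem Null.fmap (h : Null U) (f : M →ₗ[Λ] N) : Null (fmap f U) := fun ε hε => (h ε hε).imp fun _ hn => (rho_map_le _ _).trans_lt hn
theorem Null.fprod (hU : Antitone U) (hT : Antitone T) (h : Null U) (h' : Null T) :
    Null (fprod U T) := fun ε hε => by
  obtain ⟨n, hn⟩ := h.ev hU (half_pos hε)
  obtain ⟨m, hm⟩ := h'.ev hT (half_pos hε)
  refine ⟨max n m, ?_⟩
  rw [Z.fprod, rho_prod]
  linarith only [hn, hm, hn _ (le_max_left n m), hm _ (le_max_right n m)]
end

end Pool.Agent.Work.MP_c4093f_al.Z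
end

-- merged part: Pool.Agent.Work.MP_c4093f_al.Z.XW
section
/-!
The submodules `XW V W = ∑ n, V n ⊗ W n`.

Plan.  `mem_XW`, hard direction: by induction on `n`, `ξ ∈ (⨆ m < n, ten (V m) (W m)) ⊔ pw (V n)`
(write `ξ = a + b`; `a ∈ ten ⊤ (W n)`, so `b ∈ (ten ⊤ (W n) ⊔ pw (V (n + 1))) ⊓ pw (V n)`, which
is `ten (V n) (W n) ⊔ pw (V (n + 1))` by the modular law and `ten_eq_inf`).  With `N` from
`exists_const`: `ξ ∈ ten ⊤ (W N)` by `mem_ten_sup_pw` with `V = ⊥` and `eq_bot_of_null` applied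
to a span; so the last `b` lies in `ten (V N) (W N)`.  `XW_inf`, `XW_inf_pw` follow from `mem_XW`
and `ten_sup_pw_inf`.  `cpt`: limit along `Filter.hyperfilter ℕ` in the finite type of submodules
(`Ultrafilter.eq_pure_of_finite` for the pushed ultrafilter).
-/

namespace Pool.Agent.Work.MP_c4093f_al.Z

open LinearMap

variable {Λ : Type} [Ring Λ] [Algebra F Λ] {τ : Type} {V V' : ℕ → Submodule Λ Λ}
  {W W' : ℕ → Submodule F (τ → F)}

theorem ten_le_XW (n : ℕ) : ten (V n) (W n) ≤ XW V W :=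
  le_iSup (fun n => ten (V n) (W n)) n
theorem XW_le_iff {X : Submodule Λ (τ → Λ)} : XW V W ≤ X ↔ ∀ n, ten (V n) (W n) ≤ X :=
  iSup_le_iff
theorem XW_mono (h : W ≤ W') : XW V W ≤ XW V W' :=
  iSup_mono fun n => ten_mono le_rfl (h n)
theorem XW_sup : XW V (W ⊔ W') = XW V W ⊔ XW V W' := by
  simp only [XW, Pi.sup_apply, ten_sup, iSup_sup_eq]
theorem XW_of_bot (h : ∀ n, W n = ⊥) : XW V W = ⊥ :=
  le_bot_iff.1 (XW_le_iff.2 fun n => by rw [h n, ten_bot])
theorem XW_le_ten {X : Submodule F (τ → F)} (h : ∀ n, W n ≤ X) : XW V W ≤ ten ⊤ X :=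
  XW_le_iff.2 fun n => ten_mono le_top (h n)
theorem dg_mem_XW {x : E Λ} (h : ∀ n, (V n).map x ≤ V' n) {η : τ → Λ} (hη : η ∈ XW V W) :
    dg τ x η ∈ XW V' W :=
  (XW_le_iff (X := (XW V' W).comap (dg τ x))).2
    (fun n _ k => ten_le_XW n (dg_mem_ten (h n) k)) hη
theorem XW_le_of_agree (hV : Antitone V) {N : ℕ} (h : ∀ n < N, W n ≤ W' n) :
    XW V W ≤ XW V W' ⊔ pw τ (V N) :=
  XW_le_iff.2 fun n => (lt_or_ge n N).elim
    (fun k => le_sup_of_le_left ((ten_mono le_rfl (h n k)).trans (ten_le_XW n)))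
    fun k => le_sup_of_le_right (ten_le_pw.trans (pw_mono (hV k)))
theorem XW_le_first (hV : Antitone V) {j : ℕ} (h : ∀ n < j, W n = ⊥) :
    XW V W ≤ ten (V j) (W j) ⊔ pw τ (V (j + 1)) :=
  XW_le_iff.2 fun n => by
    rcases lt_trichotomy n j with k | rfl | k
    · rw [h n k, ten_bot]
      exact bot_le
    · exact le_sup_left
    · exact le_sup_of_le_right (ten_le_pw.trans (pw_mono (hV k)))
theorem XW_le_ten_sup (hV : Antitone V) {N : ℕ} {X : Submodule F (τ → F)}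
    (h : ∀ n < N, W n ≤ X) : XW V W ≤ ten ⊤ X ⊔ pw τ (V N) :=
  XW_le_iff.2 fun n => (lt_or_ge n N).elim (fun k => le_sup_of_le_left (ten_mono le_top (h n k)))
    fun k => le_sup_of_le_right (ten_le_pw.trans (pw_mono (hV k)))
theorem XW_tex_bot (W : ℕ → Submodule F (τ → F)) :
    XW (tex fun _ => (⊥ : Submodule Λ Λ)) W = ten ⊤ (W 0) := by
  refine le_antisymm (XW_le_iff.2 fun n => ?_)
    (ten_le_XW (V := tex fun _ => (⊥ : Submodule Λ Λ)) (W := W) 0 :)
  cases n
  · exact le_rfl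
  · exact bot_ten.trans_le bot_le

variable [Fintype τ]

theorem exists_const (hW : Monotone W) : ∃ N, ∀ n ≥ N, W n = W N :=
  (WellFoundedGT.monotone_chain_condition ⟨W, hW⟩).imp fun _ h n k => (h n k).symm
theorem XW_eq_finite (hV : Antitone V) {N : ℕ} (h : ∀ n ≥ N, W n = W N) :
    XW V W = ⨆ n ∈ Finset.range (N + 1), ten (V n) (W n) := by
  refine le_antisymm (XW_le_iff.2 fun n => ?_) (iSup₂_le fun n _ => ten_le_XW n)
  rcases le_total n N with k | k
  · exact le_iSup₂_of_le n (Finset.mem_range_succ_iff.2 k) le_rfl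
  · exact le_iSup₂_of_le N (Finset.self_mem_range_succ N) (ten_mono (hV k) (h n k).le)
theorem Def.XW {P : Set (E Λ)} (h : ∀ n, Def P (V n)) (hV : Antitone V) (hW : Monotone W) :
    Def P (XW V W) := by
  obtain ⟨N, k⟩ := exists_const hW
  rw [XW_eq_finite hV k]
  exact Def.biSup _ fun n _ => (h n).ten _
theorem fg_XW (h : ∀ n, (V n).FG) (hV : Antitone V) (hW : Monotone W) : (XW V W).FG := by
  obtain ⟨N, k⟩ := exists_const hW
  rw [XW_eq_finite hV k]
  exact Submodule.fg_biSup _ _ fun n _ => fg_ten (h n) _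
theorem cpt (Ws : ℕ → ℕ → Submodule F (τ → F)) (h : ∀ m, Monotone (Ws m)) :
    ∃ W : ℕ → Submodule F (τ → F), Monotone W ∧ ∀ N m₀, ∃ m ≥ m₀, ∀ n < N, Ws m n = W n := by
  have k : ∀ n, ∃ X, ∀ᶠ m in Filter.hyperfilter ℕ, Ws m n = X := fun n => by
    obtain ⟨X, e⟩ := ((Filter.hyperfilter ℕ).map fun m => Ws m n).eq_pure_of_finite
    exact ⟨X, show {X} ∈ (Filter.hyperfilter ℕ).map fun m => Ws m n from
      e ▸ Set.mem_singleton X⟩
  choose W hW using k
  refine ⟨W, fun a b hab => ?_, fun N m₀ => ?_⟩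
  · obtain ⟨m, h1, h2⟩ := ((hW a).and (hW b)).exists
    exact h1 ▸ h2 ▸ h m hab
  · exact (((Filter.eventually_ge_atTop m₀).filter_mono Nat.hyperfilter_le_atTop).and
      ((Filter.eventually_all_finite (Set.finite_Iio N)).2 fun n _ => hW n)).exists

variable [Dim Λ]

theorem mem_XW (hV : Antitone V) (h0 : Null V) (hW : Monotone W) {ξ : τ → Λ} :
    ξ ∈ XW V W ↔ ξ ∈ pw τ (V 0) ∧ ∀ n, ξ ∈ ten ⊤ (W n) ⊔ pw τ (V (n + 1)) := by
  refine ⟨fun h => ⟨XW_le_iff.2 (fun n => ten_le_pw.trans (pw_mono (hV n.zero_le))) h,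
    fun n => XW_le_ten_sup hV (fun m k => hW (Nat.le_of_lt_succ k)) h⟩, fun ⟨h1, h2⟩ => ?_⟩
  have step : ∀ n c, c ∈ ten ⊤ (W n) → c ∈ pw τ (V n) → c ∈ XW V W := fun n c k1 k2 =>
    ten_le_XW n (ten_eq_inf.ge ⟨k1, k2⟩)
  have key : ∀ n, ∃ a ∈ XW V W, a ∈ ten ⊤ (W n) ∧ ξ - a ∈ pw τ (V n) := fun n => by
    induction n with
    | zero => exact ⟨0, zero_mem _, zero_mem _, by rwa [sub_zero]⟩
    | succ n ih =>
      obtain ⟨a, a1, a2, a3⟩ := ih
      obtain ⟨c, c1, d, d1, rfl⟩ := Submodule.mem_sup.1 (h2 n)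
      have k := step n _ (sub_mem c1 a2) (by
        simpa only [sub_right_comm _ a, add_sub_cancel_right] using
          sub_mem a3 (pw_mono (hV n.le_succ) d1))
      exact ⟨c, by simpa only [sub_add_cancel] using add_mem k a1,
        ten_mono le_rfl (hW n.le_succ) c1, by rwa [add_sub_cancel_left]⟩
  obtain ⟨N, k⟩ := exists_const hW
  have h3 : ξ ∈ ten ⊤ (W N) ⊔ pw τ ⊥ := mem_ten_sup_pw.2 fun φ hφ =>
    (eq_bot_of_null h0 fun n => (Submodule.span_singleton_le_iff_mem _ _).2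
      (hV (by omega : n ≤ N + n + 1) (mem_ten_sup_pw.1 (h2 (N + n)) φ
        (by rwa [k _ (N.le_add_right n)])))).le (Submodule.mem_span_singleton_self _)
  rw [pw_bot, sup_bot_eq] at h3
  obtain ⟨a, a1, a2, a3⟩ := key N
  simpa only [sub_add_cancel] using add_mem (step N _ (sub_mem h3 a2) a3) a1
theorem XW_inf (hV : Antitone V) (h0 : Null V) (hW : Monotone W) (hW' : Monotone W') :
    XW V (W ⊓ W') = XW V W ⊓ XW V W' := by
  ext ξ
  simp only [Submodule.mem_inf, mem_XW hV h0 hW, mem_XW hV h0 hW', mem_XW hV h0 (hW.inf hW'),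
    Pi.inf_apply, ten_sup_pw_inf, forall_and, and_and_and_comm, and_self]
theorem XW_inf_pw (hV : Antitone V) (h0 : Null V) (hW : Monotone W) (N : ℕ) :
    XW V W ⊓ pw τ (V N) = XW V fun n => if n < N then ⊥ else W n := by
  have hm : Monotone fun n => if n < N then ⊥ else W n := fun a b k => by
    beta_reduce
    split_ifs
    exacts [le_rfl, bot_le, by omega, hW k]
  refine le_antisymm (fun ξ h => (mem_XW hV h0 hm).2 ⟨((mem_XW hV h0 hW).1 h.1).1, fun n => ?_⟩)
    (le_inf (XW_mono fun n => ?_) (XW_le_iff.2 fun n => ?_))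
  · split_ifs with k
    · exact Submodule.mem_sup_right (pw_mono (hV k) h.2)
    · exact ((mem_XW hV h0 hW).1 h.1).2 n
  · beta_reduce
    split_ifs
    exacts [bot_le, le_rfl]
  · split_ifs with k
    · exact ten_bot.trans_le bot_le
    · exact ten_le_pw.trans (pw_mono (hV (not_lt.1 k)))

end Pool.Agent.Work.MP_c4093f_al.Z
end

-- merged part: Pool.Agent.Work.MP_c4093f_al.Z.Core
section
/-!
Tight sequences.  Write `κ = rho (Γ ⊓ gx x)` and `Γ_W = Γ ⊓ box (XW V W) (XW V' W)`.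

Plan.  Let `ψ (ξ, η, η') = η' - x η`; it maps `Γ_W` into `XW V' W` (`dg_mem_XW`) with kernel
`Γ_W ⊓ gx`.  This gives `phi_le`; for tight `W` the inequalities are equalities, use
`eq_of_le_of_rho_le`.  `phi_super`: `XW_inf`, `XW_sup`, `rho_sup_add_inf`.  `phi_cont`:
`XW_le_of_agree`, `rho_inf_comap_sup` twice, `rho_pw`.  `attain`, `near_tight`: `cpt` applied to
a sequence with errors `1 / (m + 1)`, then `tight_of_approx`.  `exists_max`: put
`W n = ⨆` of the `W' n` over tight `W'`; the tight sequences are closed under `⊔` and the lattice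
is finite, so for each `N` some tight `W'` agrees with `W` below `N`; `tight_of_approx`.
-/

namespace Pool.Agent.Work.MP_c4093f_al.Z

open LinearMap

variable {Λ : Type} [Ring Λ] [Algebra F Λ] [Dim Λ] {M τ : Type} [AddCommGroup M] [Module Λ M]
  [Fr Λ M] [Fintype τ] {x : E Λ} {V V' : ℕ → Submodule Λ Λ}
  {Γ : Submodule Λ (M × (τ → Λ) × (τ → Λ))} {W W' : ℕ → Submodule F (τ → F)}

/-- the map `(ξ, η, η') ↦ η' - x η` -/
def Core_psi (M τ : Type) [AddCommGroup M] [Module Λ M] (x : E Λ) :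
    (M × (τ → Λ) × (τ → Λ)) →ₗ[Λ] (τ → Λ) :=
  (snd Λ _ _) ∘ₗ (snd Λ M _) - dg τ x ∘ₗ (fst Λ _ _) ∘ₗ (snd Λ M _)

omit [Algebra F Λ] [Dim Λ] [Fr Λ M] [Fintype τ] in
theorem Core_psi_apply (γ : M × (τ → Λ) × (τ → Λ)) :
    Core_psi M τ x γ = γ.2.2 - dg τ x γ.2.1 := rfl

omit [Algebra F Λ] [Dim Λ] [Fr Λ M] [Fintype τ] in
theorem Core_ker : ker (Core_psi M τ x) = gx M τ x := by
  ext γ
  rw [mem_ker, Core_psi_apply, mem_gx, sub_eq_zero]

omit [Fr Λ M] [Fintype τ] in
theorem Core_mem (h : Tri x V V') {γ : M × (τ → Λ) × (τ → Λ)}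
    (hγ : γ ∈ Γ ⊓ box M (XW V W) (XW V' W)) : Core_psi M τ x γ ∈ XW V' W := by
  have h1 := mem_box.1 hγ.2
  rw [Core_psi_apply]
  exact Submodule.sub_mem _ h1.2 (dg_mem_XW h.maps h1.1)

theorem Core_le (h : Tri x V V') (Γ : Submodule Λ (M × (τ → Λ) × (τ → Λ)))
    (W : ℕ → Submodule F (τ → F)) :
    Phi V V' Γ W ≤ rho ((Γ ⊓ box M (XW V W) (XW V' W)) ⊓ gx M τ x) := by
  have h1 := rho_le_inf_ker_add (Core_psi M τ x) (Γ ⊓ box M (XW V W) (XW V' W))
    (B := XW V' W) (fun γ hγ => Core_mem h hγ)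
  rw [Core_ker] at h1
  unfold Phi
  linarith

theorem Core_fg (h : Tri x V V') (hΓ : Γ.FG) (hW : Monotone W) :
    (Γ ⊓ box M (XW V W) (XW V' W)).FG :=
  fg_inf hΓ (Submodule.FG.prod fg_top
    (Submodule.FG.prod (fg_XW h.fg h.anti hW) (fg_XW h.fg' h.anti' hW)))

omit [Algebra F Λ] in
theorem Core_small (h : Tri x V V') (c : ℕ) {ε : ℝ} (hε : 0 < ε) :
    ∃ N, (c : ℝ) * (rho (V N) + 2 * rho (V' N)) ≤ ε := by
  have hc : (0 : ℝ) ≤ c := Nat.cast_nonneg c
  have hδ : 0 < ε / (3 * (c + 1)) := by positivity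
  obtain ⟨n, hn⟩ := h.null _ hδ
  obtain ⟨n', hn'⟩ := h.null' _ hδ
  refine ⟨max n n', ?_⟩
  have h1 := rho_mono (h.anti (le_max_left n n'))
  have h2 := rho_mono (h.anti' (le_max_right n n'))
  have h3 : rho (V (max n n')) + 2 * rho (V' (max n n')) ≤ 3 * (ε / (3 * (c + 1))) := by
    linarith only [hn, hn', h1, h2]
  have h4 : ((c : ℝ) + 1) * (3 * (ε / (3 * (c + 1)))) = ε := by field_simp
  have h5 := mul_le_mul_of_nonneg_left h3 hc
  linarith only [hδ, h4, h5]

theorem phi_le (h : Tri x V V') (Γ : Submodule Λ (M × (τ → Λ) × (τ → Λ)))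
    (W : ℕ → Submodule F (τ → F)) : Phi V V' Γ W ≤ rho (Γ ⊓ gx M τ x) :=
  (Core_le h Γ W).trans (rho_mono (inf_le_inf_right _ inf_le_left))

theorem Tight.le_box (h : Tri x V V') (hΓ : Γ.FG) (hW : Tight x V V' Γ W) :
    Γ ⊓ gx M τ x ≤ box M (XW V W) (XW V' W) := by
  have h1 : (Γ ⊓ box M (XW V W) (XW V' W)) ⊓ gx M τ x = Γ ⊓ gx M τ x := by
    refine eq_of_le_of_rho_le ?_ (inf_le_inf_right _ inf_le_left) (hW.2.trans (Core_le h Γ W))
    rw [← Core_ker]
    exact fg_inf (Core_fg h hΓ hW.1) (fg_ker _)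
  rw [← h1]
  exact inf_le_left.trans inf_le_right

theorem Tight.onto (h : Tri x V V') (hΓ : Γ.FG) (hW : Tight x V V' Γ W) {η : τ → Λ}
    (hη : η ∈ XW V' W) :
    ∃ γ ∈ Γ ⊓ box M (XW V W) (XW V' W), γ.2.2 - dg τ x γ.2.1 = η := by
  have h1 : (Γ ⊓ box M (XW V W) (XW V' W)).map (Core_psi M τ x) = XW V' W := by
    refine eq_of_le_of_rho_le ((Core_fg h hΓ hW.1).map _) ?_ ?_
    · rintro _ ⟨γ, hγ, rfl⟩
      exact Core_mem h hγ
    · have h2 := rho_map_add (Core_psi M τ x) (Γ ⊓ box M (XW V W) (XW V' W))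
      rw [Core_ker] at h2
      have h3 : rho ((Γ ⊓ box M (XW V W) (XW V' W)) ⊓ gx M τ x) ≤ rho (Γ ⊓ gx M τ x) :=
        rho_mono (inf_le_inf_right _ inf_le_left)
      have h4 := hW.2
      unfold Phi at h4
      linarith
  rw [← h1] at hη
  obtain ⟨γ, hγ, rfl⟩ := hη
  exact ⟨γ, hγ, rfl⟩

theorem phi_super (h : Tri x V V') (hW : Monotone W) (hW' : Monotone W') :
    Phi V V' Γ W + Phi V V' Γ W' ≤ Phi V V' Γ (W ⊓ W') + Phi V V' Γ (W ⊔ W') := by
  have h1 := rho_sup_add_inf (Γ ⊓ box M (XW V W) (XW V' W)) (Γ ⊓ box M (XW V W') (XW V' W'))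
  have h2 := rho_sup_add_inf (XW V' W) (XW V' W')
  have h3 : rho (Γ ⊓ box M (XW V W) (XW V' W) ⊔ Γ ⊓ box M (XW V W') (XW V' W')) ≤
      rho (Γ ⊓ box M (XW V (W ⊔ W')) (XW V' (W ⊔ W'))) :=
    rho_mono (sup_le
      (inf_le_inf_left _ (box_mono (XW_mono le_sup_left) (XW_mono le_sup_left)))
      (inf_le_inf_left _ (box_mono (XW_mono le_sup_right) (XW_mono le_sup_right))))
  have h4 : rho ((Γ ⊓ box M (XW V W) (XW V' W)) ⊓ (Γ ⊓ box M (XW V W') (XW V' W'))) ≤
      rho (Γ ⊓ box M (XW V (W ⊓ W')) (XW V' (W ⊓ W'))) := by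
    refine rho_mono ?_
    rintro γ ⟨⟨h5, h6⟩, -, h7⟩
    have h8 := mem_box.1 h6
    have h9 := mem_box.1 h7
    refine ⟨h5, mem_box.2 ?_⟩
    rw [XW_inf h.anti h.null hW hW', XW_inf h.anti' h.null' hW hW']
    exact ⟨⟨h8.1, h9.1⟩, h8.2, h9.2⟩
  rw [← XW_sup, ← XW_inf h.anti' h.null' hW hW'] at h2
  unfold Phi
  linarith only [h1, h2, h3, h4]

theorem Tight.sup (h : Tri x V V') (hW : Tight x V V' Γ W) (hW' : Tight x V V' Γ W') :
    Tight x V V' Γ (W ⊔ W') := by
  refine ⟨hW.1.sup hW'.1, ?_⟩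
  have h1 := phi_super (Γ := Γ) h hW.1 hW'.1
  have h2 := phi_le h Γ (W ⊓ W')
  have h3 := hW.2
  have h4 := hW'.2
  linarith

theorem Tight.inf (h : Tri x V V') (hW : Tight x V V' Γ W) (hW' : Tight x V V' Γ W') :
    Tight x V V' Γ (W ⊓ W') := by
  refine ⟨hW.1.inf hW'.1, ?_⟩
  have h1 := phi_super (Γ := Γ) h hW.1 hW'.1
  have h2 := phi_le h Γ (W ⊔ W')
  have h3 := hW.2
  have h4 := hW'.2
  linarith

theorem phi_cont (hV : Antitone V) (hV' : Antitone V') {N : ℕ} (hN : ∀ n < N, W n = W' n) :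
    Phi V V' Γ W ≤ Phi V V' Γ W' + Fintype.card τ * (rho (V N) + 2 * rho (V' N)) := by
  let p₁ : (M × (τ → Λ) × (τ → Λ)) →ₗ[Λ] (τ → Λ) := (fst Λ _ _) ∘ₗ (snd Λ M _)
  let p₂ : (M × (τ → Λ) × (τ → Λ)) →ₗ[Λ] (τ → Λ) := (snd Λ _ _) ∘ₗ (snd Λ M _)
  have a1 : XW V W ≤ XW V W' ⊔ pw τ (V N) := XW_le_of_agree hV fun n hn => (hN n hn).le
  have a2 : XW V' W ≤ XW V' W' ⊔ pw τ (V' N) := XW_le_of_agree hV' fun n hn => (hN n hn).le
  have a3 : XW V' W' ≤ XW V' W ⊔ pw τ (V' N) := XW_le_of_agree hV' fun n hn => (hN n hn).ge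
  have h1 : rho (Γ ⊓ box M (XW V W) (XW V' W)) ≤
      rho ((Γ ⊓ (XW V' W).comap p₂) ⊓ (XW V W' ⊔ pw τ (V N)).comap p₁) := by
    refine rho_mono ?_
    rintro γ ⟨h5, h6⟩
    have h7 := mem_box.1 h6
    exact ⟨⟨h5, h7.2⟩, a1 h7.1⟩
  have h2 := rho_inf_comap_sup p₁ (Γ ⊓ (XW V' W).comap p₂) (XW V W') (pw τ (V N))
  have h3 : rho ((Γ ⊓ (XW V' W).comap p₂) ⊓ (XW V W').comap p₁) ≤
      rho ((Γ ⊓ (XW V W').comap p₁) ⊓ (XW V' W' ⊔ pw τ (V' N)).comap p₂) := by
    refine rho_mono ?_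
    rintro γ ⟨⟨h5, h6⟩, h7⟩
    exact ⟨⟨h5, h7⟩, a2 h6⟩
  have h4 := rho_inf_comap_sup p₂ (Γ ⊓ (XW V W').comap p₁) (XW V' W') (pw τ (V' N))
  have h5 : rho ((Γ ⊓ (XW V W').comap p₁) ⊓ (XW V' W').comap p₂) ≤
      rho (Γ ⊓ box M (XW V W') (XW V' W')) := by
    refine rho_mono ?_
    rintro γ ⟨⟨h5, h6⟩, h7⟩
    exact ⟨h5, mem_box.2 ⟨h6, h7⟩⟩
  have h6 := (rho_mono a3).trans (rho_sup_le _ _)
  rw [rho_pw] at h2 h4 h6
  unfold Phi
  linarith only [h1, h2, h3, h4, h5, h6]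

theorem tight_of_approx (h : Tri x V V') (hW : Monotone W)
    (ha : ∀ ε > 0, ∀ N, ∃ W', (∀ n < N, W' n = W n) ∧ rho (Γ ⊓ gx M τ x) - ε ≤ Phi V V' Γ W') :
    Tight x V V' Γ W := by
  refine ⟨hW, le_of_forall_pos_le_add fun ε hε => ?_⟩
  obtain ⟨N, hN⟩ := Core_small h (Fintype.card τ) (half_pos hε)
  obtain ⟨W', h1, h2⟩ := ha _ (half_pos hε) N
  have h3 := phi_cont (Γ := Γ) h.anti h.anti' h1
  linarith only [hN, h2, h3]

theorem Core_lim (h : Tri x V V') (Ws : ℕ → ℕ → Submodule F (τ → F)) (hm : ∀ m, Monotone (Ws m))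
    (ha : ∀ m : ℕ, rho (Γ ⊓ gx M τ x) - 1 / ((m : ℝ) + 1) ≤ Phi V V' Γ (Ws m)) :
    ∃ W, Tight x V V' Γ W ∧ ∀ N, ∃ m, ∀ n < N, Ws m n = W n := by
  obtain ⟨W, hW, hc⟩ := cpt Ws hm
  refine ⟨W, tight_of_approx h hW fun ε hε N => ?_, fun N => ?_⟩
  · obtain ⟨m₀, hm₀⟩ := exists_nat_one_div_lt hε
    obtain ⟨m, hm1, hm2⟩ := hc N m₀
    refine ⟨Ws m, hm2, ?_⟩
    have h1 : 1 / ((m : ℝ) + 1) ≤ 1 / ((m₀ : ℝ) + 1) := Nat.one_div_le_one_div hm1
    have h2 := ha m
    linarith only [hm₀, h1, h2]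
  · obtain ⟨m, -, hm2⟩ := hc N 0
    exact ⟨m, hm2⟩

theorem attain (h : Tri x V V')
    (ha : ∀ ε > 0, ∃ W, Monotone W ∧ rho (Γ ⊓ gx M τ x) - ε ≤ Phi V V' Γ W) :
    ∃ W, Tight x V V' Γ W := by
  choose Ws h1 h2 using fun m : ℕ => ha (1 / ((m : ℝ) + 1)) Nat.one_div_pos_of_nat
  obtain ⟨W, hW, -⟩ := Core_lim h Ws h1 h2
  exact ⟨W, hW⟩

theorem near_tight (h : Tri x V V') (Γ : Submodule Λ (M × (τ → Λ) × (τ → Λ))) (N : ℕ) :
    ∃ δ > 0, ∀ W, Monotone W → rho (Γ ⊓ gx M τ x) - δ < Phi V V' Γ W →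
      ∃ W', Tight x V V' Γ W' ∧ ∀ n < N, W' n = W n := by
  by_contra hc
  have h0 : ∀ m : ℕ, ∃ W, Monotone W ∧ rho (Γ ⊓ gx M τ x) - 1 / ((m : ℝ) + 1) < Phi V V' Γ W ∧
      ¬ ∃ W', Tight x V V' Γ W' ∧ ∀ n < N, W' n = W n := by
    intro m
    by_contra h1
    refine hc ⟨1 / ((m : ℝ) + 1), Nat.one_div_pos_of_nat, fun W hW h2 => ?_⟩
    by_contra h3
    exact h1 ⟨W, hW, h2, h3⟩
  choose Ws h1 h2 h3 using h0
  obtain ⟨W, hW, h4⟩ := Core_lim h Ws h1 fun m => (h2 m).le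
  obtain ⟨m, hm⟩ := h4 N
  exact h3 m ⟨W, hW, fun n hn => (hm n hn).symm⟩

theorem exists_max (h : Tri x V V') (hW : Tight x V V' Γ W) :
    ∃ W₁, Tight x V V' Γ W₁ ∧ ∀ W', Tight x V V' Γ W' → W' ≤ W₁ := by
  have h0 : ∀ n, ∃ T, Tight x V V' Γ T ∧ ∀ W', Tight x V V' Γ W' → W' n ≤ T n := by
    intro n
    obtain ⟨_, ⟨T, hT, rfl⟩, hm⟩ := (Set.toFinite
      {X : Submodule F (τ → F) | ∃ T, Tight x V V' Γ T ∧ T n = X}).exists_maximal ⟨_, W, hW, rfl⟩
    refine ⟨T, hT, fun W' hW' => ?_⟩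
    exact le_sup_right.trans (hm ⟨T ⊔ W', Tight.sup h hT hW', rfl⟩ le_sup_left)
  choose T h1 h2 using h0
  have h3 : ∀ N, ∃ W', Tight x V V' Γ W' ∧ ∀ n < N, W' n = T n n := by
    intro N
    induction N with
    | zero => exact ⟨W, hW, fun n hn => absurd hn (Nat.not_lt_zero n)⟩
    | succ N ih =>
      obtain ⟨W', h4, h5⟩ := ih
      refine ⟨W' ⊔ T N, Tight.sup h h4 (h1 N), fun n hn => ?_⟩
      refine le_antisymm (h2 n _ (Tight.sup h h4 (h1 N))) ?_
      rcases Nat.lt_succ_iff_lt_or_eq.1 hn with h6 | rfl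
      · exact (h5 n h6).ge.trans le_sup_left
      · exact le_sup_right
  refine ⟨fun n => T n n, tight_of_approx h
    (fun a b hab => ((h1 a).1 hab).trans (h2 b _ (h1 a))) fun ε hε N => ?_,
    fun W' hW' n => h2 n W' hW'⟩
  obtain ⟨W', h4, h5⟩ := h3 N
  exact ⟨W', h5, by linarith [h4.2]⟩

theorem exists_min (h : Tri x V V') (hW : Tight x V V' Γ W) :
    ∃ W₁, Tight x V V' Γ W₁ ∧ ∀ W', Tight x V V' Γ W' → W₁ ≤ W' := by
  have h0 : ∀ n, ∃ T, Tight x V V' Γ T ∧ ∀ W', Tight x V V' Γ W' → T n ≤ W' n := by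
    intro n
    obtain ⟨_, ⟨T, hT, rfl⟩, hm⟩ := (Set.toFinite
      {X : Submodule F (τ → F) | ∃ T, Tight x V V' Γ T ∧ T n = X}).exists_minimal ⟨_, W, hW, rfl⟩
    refine ⟨T, hT, fun W' hW' => ?_⟩
    exact (hm ⟨T ⊓ W', Tight.inf h hT hW', rfl⟩ inf_le_left).trans inf_le_right
  choose T h1 h2 using h0
  have h3 : ∀ N, ∃ W', Tight x V V' Γ W' ∧ ∀ n < N, W' n = T n n := by
    intro N
    induction N with
    | zero => exact ⟨W, hW, fun n hn => absurd hn (Nat.not_lt_zero n)⟩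
    | succ N ih =>
      obtain ⟨W', h4, h5⟩ := ih
      refine ⟨W' ⊓ T N, Tight.inf h h4 (h1 N), fun n hn => ?_⟩
      refine le_antisymm ?_ (h2 n _ (Tight.inf h h4 (h1 N)))
      rcases Nat.lt_succ_iff_lt_or_eq.1 hn with h6 | rfl
      · exact inf_le_left.trans (h5 n h6).le
      · exact inf_le_right
  refine ⟨fun n => T n n, tight_of_approx h
    (fun a b hab => (h2 a _ (h1 b)).trans ((h1 b).1 hab)) fun ε hε N => ?_,
    fun W' hW' n => h2 n W' hW'⟩
  obtain ⟨W', h4, h5⟩ := h3 N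
  exact ⟨W', h5, by linarith [h4.2]⟩

end Pool.Agent.Work.MP_c4093f_al.Z
end

-- merged part: Pool.Agent.Work.MP_c4093f_al.Z.Sylv
section
/-!
From a faithful rank function on the matrices over a regular ring to a dimension function.

Plan.  `r H` is the supremum of `rk A` over the matrices `A : Matrix (Fin n) ι Λ` with rows in
`H`; it is bounded by `card ι` (`A = A * 1`, and `rk 1 = card ι` by `block`, `one` and invariance
under reindexing, which follows from `mul_left`, `mul_right`).  If the rows of `A` lie in the row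
space of `B` then `A = C * B`, so `r (range B.vecMulLinear) = rk B`.  `compl`: with `B * G * B = B`
the matrix `G * B` is idempotent with row space that of `B`.  `map` for a row space `H` of `B` and
`f = vecMulLinear T`: let `G` be a quasi inverse of `B * T`, `e = B * T * G`; the rows of
`(1 - e) * B` span `H ⊓ ker f`; `rk B = rk (e * B) + rk ((1 - e) * B)` (factor `B` through the
block matrix and back), and `rk (e * B) = rk (B * T)`.  For general `H` take suprema over the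
directed family of row spaces contained in `H`.
-/

namespace Pool.Agent.Work.MP_c4093f_al.Z

open LinearMap

open Matrix

/-- a faithful rank function on the matrices over a ring whose matrices are regular -/
structure Sylv (Λ : Type) [Ring Λ] where
  rk : ∀ {m n : Type} [Fintype m] [Fintype n], Matrix m n Λ → ℝ
  nonneg : ∀ {m n : Type} [Fintype m] [Fintype n] (A : Matrix m n Λ), 0 ≤ rk A
  mul_left : ∀ {m n k : Type} [Fintype m] [Fintype n] [Fintype k] (A : Matrix m n Λ)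
    (B : Matrix n k Λ), rk (A * B) ≤ rk A
  mul_right : ∀ {m n k : Type} [Fintype m] [Fintype n] [Fintype k] (A : Matrix m n Λ)
    (B : Matrix n k Λ), rk (A * B) ≤ rk B
  block : ∀ {m n k l : Type} [Fintype m] [Fintype n] [Fintype k] [Fintype l] (A : Matrix m n Λ)
    (B : Matrix k l Λ), rk (fromBlocks A 0 0 B) = rk A + rk B
  one : rk (1 : Matrix Unit Unit Λ) = 1
  faith : ∀ {m n : Type} [Fintype m] [Fintype n] (A : Matrix m n Λ), rk A ≤ 0 → A = 0
  reg : ∀ {m n : Type} [Fintype m] [Fintype n] (A : Matrix m n Λ), ∃ G : Matrix n m Λ, A * G * A = A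

section SylvAux

variable {Λ : Type} [Ring Λ] (S : Sylv Λ) {ι κ m n : Type} [Fintype ι] [Fintype κ] [Fintype m]
  [Fintype n]

omit [Fintype ι] in
theorem Sylv_row (A : Matrix m ι Λ) (i : m) : A i ∈ range A.vecMulLinear := by
  rw [range_vecMulLinear]
  exact Submodule.subset_span ⟨i, rfl⟩

omit [Fintype ι] in
theorem Sylv_range_le {A : Matrix m ι Λ} {H : Submodule Λ (ι → Λ)} :
    range A.vecMulLinear ≤ H ↔ ∀ i, A i ∈ H := by
  rw [range_vecMulLinear, Submodule.span_le, Set.range_subset_iff]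
  rfl

theorem Sylv_le {A : Matrix m ι Λ} {B : Matrix n ι Λ} (h : ∀ i, A i ∈ range B.vecMulLinear) :
    S.rk A ≤ S.rk B := by
  choose c hc using h
  have : A = Matrix.of c * B := by
    ext i j
    exact (congrFun (hc i) j).symm
  rw [this]
  exact S.mul_right _ _

/-- the ranks of the matrices with rows in `H` -/
def SylvSet (H : Submodule Λ (ι → Λ)) : Set ℝ :=
  {x | ∃ (m : Type) (_ : Fintype m) (A : Matrix m ι Λ), (∀ i, A i ∈ H) ∧ x = S.rk A}

theorem SylvSet_bdd (H : Submodule Λ (ι → Λ)) : BddAbove (SylvSet S H) := by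
  classical
  refine ⟨S.rk (1 : Matrix ι ι Λ), ?_⟩
  rintro _ ⟨m, _, A, -, rfl⟩
  exact Sylv_le S fun i => ⟨A i, Matrix.vecMul_one _⟩

theorem SylvSet_ne (H : Submodule Λ (ι → Λ)) : (SylvSet S H).Nonempty :=
  ⟨_, Unit, inferInstance, 0, fun _ => H.zero_mem, rfl⟩

theorem Sylv_le_sup {H : Submodule Λ (ι → Λ)} {A : Matrix m ι Λ} (h : ∀ i, A i ∈ H) :
    S.rk A ≤ sSup (SylvSet S H) := le_csSup (SylvSet_bdd S H) ⟨m, _, A, h, rfl⟩

theorem Sylv_sup_le {H : Submodule Λ (ι → Λ)} {x : ℝ}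
    (h : ∀ (m : Type) [Fintype m] (A : Matrix m ι Λ), (∀ i, A i ∈ H) → S.rk A ≤ x) :
    sSup (SylvSet S H) ≤ x := by
  refine csSup_le (SylvSet_ne S H) ?_
  rintro _ ⟨m, _, A, hA, rfl⟩
  exact h m A hA

theorem Sylv_sup_range (A : Matrix m ι Λ) : sSup (SylvSet S (range A.vecMulLinear)) = S.rk A :=
  le_antisymm (Sylv_sup_le S fun _ _ _ h => Sylv_le S h) (Sylv_le_sup S (Sylv_row A))

theorem Sylv_split (B : Matrix m ι Λ) (T : Matrix ι κ Λ) : ∃ B' : Matrix m ι Λ,
    range B'.vecMulLinear = range B.vecMulLinear ⊓ ker T.vecMulLinear ∧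
      S.rk (B * T) + S.rk B' = S.rk B := by
  classical
  obtain ⟨G, hG⟩ := S.reg (B * T)
  obtain ⟨e, he⟩ : ∃ e, e = B * T * G := ⟨_, rfl⟩
  have h1 : e * (B * T) = B * T := by rw [he, hG]
  have h2 : e * e = e := by
    conv_lhs => rw [he]
    rw [← Matrix.mul_assoc, hG, he]
  have h3 : B * (T * G * B) = e * B := by rw [he]; simp only [Matrix.mul_assoc]
  have h4 : B * (1 - T * G * B) = (1 - e) * B := by
    rw [Matrix.mul_sub, Matrix.sub_mul, h3, Matrix.mul_one, Matrix.one_mul]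
  have h5 : e * (1 - e) = 0 := by rw [mul_sub, h2, mul_one, sub_self]
  have h6 : (1 - e) * e = 0 := by rw [sub_mul, h2, one_mul, sub_self]
  have h7 : (1 - e) * (1 - e) = 1 - e := by rw [mul_sub, h6, mul_one, sub_zero]
  refine ⟨(1 - e) * B, le_antisymm ?_ ?_, ?_⟩
  · rintro _ ⟨y, rfl⟩
    refine ⟨⟨y ᵥ* (1 - e), Matrix.vecMul_vecMul _ _ _⟩, ?_⟩
    change y ᵥ* ((1 - e) * B) ᵥ* T = 0
    rw [Matrix.vecMul_vecMul, Matrix.mul_assoc, Matrix.sub_mul, h1, Matrix.one_mul, sub_self,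
      Matrix.vecMul_zero]
  · rintro _ ⟨⟨y, rfl⟩, hy⟩
    have hy' : y ᵥ* B ᵥ* T = 0 := hy
    refine ⟨y, ?_⟩
    change y ᵥ* ((1 - e) * B) = y ᵥ* B
    rw [← h4, ← Matrix.vecMul_vecMul, Matrix.vecMul_sub, Matrix.vecMul_one, Matrix.mul_assoc,
      ← Matrix.vecMul_vecMul _ T, hy', Matrix.zero_vecMul, sub_zero]
  · have e1 : S.rk (B * T) = S.rk (e * B) := by
      apply le_antisymm
      · rw [← h1, ← Matrix.mul_assoc]
        exact S.mul_left _ _
      · rw [he, Matrix.mul_assoc]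
        exact S.mul_left _ _
    rw [e1, ← S.block]
    apply le_antisymm
    · have : fromBlocks (e * B) 0 0 ((1 - e) * B) =
          fromRows e (1 - e) * (B * fromCols (T * G * B) (1 - T * G * B)) := by
        rw [Matrix.mul_fromCols, fromRows_mul_fromCols, h3, h4]
        simp only [← Matrix.mul_assoc, h2, h5, h6, h7, Matrix.zero_mul]
      rw [this]
      exact (S.mul_right _ _).trans (S.mul_left _ _)
    · have : B = fromCols (1 : Matrix m m Λ) (1 : Matrix m m Λ) *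
          (fromBlocks (e * B) 0 0 ((1 - e) * B) *
            fromRows (1 : Matrix ι ι Λ) (1 : Matrix ι ι Λ)) := by
        rw [fromBlocks_mul_fromRows, fromCols_mul_fromRows]
        simp only [Matrix.mul_one, Matrix.one_mul, add_zero, zero_add, ← Matrix.add_mul,
          add_sub_cancel]
      conv_lhs => rw [this]
      exact (S.mul_right _ _).trans (S.mul_left _ _)

theorem Sylv_map (T : Matrix ι κ Λ) (H : Submodule Λ (ι → Λ)) :
    sSup (SylvSet S (H.map T.vecMulLinear)) + sSup (SylvSet S (H ⊓ ker T.vecMulLinear)) =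
      sSup (SylvSet S H) := by
  apply le_antisymm
  · rw [← le_sub_iff_add_le]
    refine Sylv_sup_le S fun m _ A hA => ?_
    rw [le_sub_comm]
    refine Sylv_sup_le S fun n _ A' hA' => ?_
    rw [le_sub_iff_add_le']
    choose c hc1 hc2 using hA
    obtain ⟨B', h1, h2⟩ := Sylv_split S (fromRows (Matrix.of c) A') T
    have h3 : S.rk (fromRows (Matrix.of c) A') ≤ sSup (SylvSet S H) :=
      Sylv_le_sup S (by
        rintro (i | i)
        · exact hc1 i
        · exact (hA' i).1)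
    have h4 : S.rk A ≤ S.rk (fromRows (Matrix.of c) A' * T) := Sylv_le S fun i => by
      rw [← hc2 i]
      exact Sylv_row (fromRows (Matrix.of c) A' * T) (Sum.inl i)
    have h5 : S.rk A' ≤ S.rk B' := Sylv_le S fun i => by
      rw [h1]
      exact ⟨Sylv_row (fromRows (Matrix.of c) A') (Sum.inr i), (hA' i).2⟩
    linarith only [h2, h3, h4, h5]
  · refine Sylv_sup_le S fun m _ B hB => ?_
    obtain ⟨B', h1, h2⟩ := Sylv_split S B T
    rw [← h2]
    refine add_le_add (Sylv_le_sup S fun i => ⟨B i, hB i, rfl⟩) (Sylv_le_sup S fun i => ?_)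
    have := Sylv_row B' i
    rw [h1] at this
    exact ⟨Sylv_range_le.2 hB this.1, this.2⟩

end SylvAux

theorem Sylv.exists_dim {Λ : Type} [Ring Λ] (S : Sylv Λ) : ∃ D : Dim Λ,
    ∀ {m n : Type} [Fintype m] [Fintype n] (A : Matrix m n Λ),
      D.r (range A.vecMulLinear) = S.rk A := by
  refine ⟨{ r := fun H => sSup (SylvSet S H)
            mono := fun h => Sylv_sup_le S fun _ _ A hA => Sylv_le_sup S fun i => h (hA i)
            map := fun {ι κ} _ _ f H => ?_
            top := ?_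
            faith := fun {ι} _ H h => ?_
            compl := fun {ι} _ H h => ?_ }, fun A => Sylv_sup_range S A⟩
  · classical
    obtain ⟨T, rfl⟩ := (LinearMap.toMatrixRight' (R := Λ)).symm.surjective f
    exact Sylv_map S T H
  · rw [← S.one, ← Sylv_sup_range]
    congr 2
    exact (range_eq_top.2 fun x => ⟨x, Matrix.vecMul_one x⟩).symm
  · refine (Submodule.eq_bot_iff _).2 fun x hx => ?_
    have := S.faith (Matrix.of fun _ : Unit => x) ((Sylv_le_sup S fun _ => hx).trans h)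
    exact congrFun this ()
  · obtain ⟨n, b, hb⟩ := Submodule.fg_iff_exists_fin_generating_family.1 h
    have hH : range (Matrix.of b).vecMulLinear = H := (range_vecMulLinear _).trans hb
    obtain ⟨G, hG⟩ := S.reg (Matrix.of b)
    refine ⟨_, LinearMap.isCompl_of_proj (f := LinearMap.codRestrict H
      (G * Matrix.of b).vecMulLinear fun x => hH ▸ ⟨x ᵥ* G, Matrix.vecMul_vecMul x G (Matrix.of b)⟩) ?_⟩
    rintro ⟨x, hx⟩
    obtain ⟨y, rfl⟩ := hH.ge hx
    apply Subtype.ext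
    change y ᵥ* Matrix.of b ᵥ* (G * Matrix.of b) = y ᵥ* Matrix.of b
    rw [Matrix.vecMul_vecMul, ← Matrix.mul_assoc, hG]

end Pool.Agent.Work.MP_c4093f_al.Z
end

-- merged part: Pool.Agent.Work.MP_c4093f_al.Z.FinFree
section
/-!
The first moment bound for a random matrix over the field with two elements.

Plan.  Count the pairs `(y, v)` with `v ∈ Γ ⊓ finK y`.  For `v` let `η t = v (inr (inl t))`,
`η' t = v (inr (inr t))`, and let `W v` be the common kernel of the functionals `φ` with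
`∑ t, φ (single t 1) • η t = 0`; its dimension is the dimension `w` of the span of the `η t`.  If
some `y` has `η t ᵥ* y = η' t` for all `t` then `v ∈ finB (W v)`, and the number of such `y` is
`2 ^ (d * d - d * w)` (a coset of the kernel of the surjective restriction map to the span).  So
`∑ y, 2 ^ finrank (Γ ⊓ finK y) ≤ ∑ W, 2 ^ finrank (Γ ⊓ finB W) * 2 ^ (d * d) / 2 ^ (d * w)`; there
are at most `2 ^ 2 ^ card τ` submodules `W`.  Take `W₀` with the largest term and use Markov.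
`union_bound`: double counting; the bad families for one configuration are counted fibrewise
(`Equiv.piSplitAt` or `Function.update`).
-/

namespace Pool.Agent.Work.MP_c4093f_al.Z

open LinearMap

open Matrix

variable {d : ℕ} {ι τ : Type}

/-- a block coordinate -/
def bl (d : ℕ) {m : Type} (i : m) : (m → Fin d → F) →ₗ[F] (Fin d → F) := proj i

/-- vectors with `η' = η y` -/
def finK (ι τ : Type) (y : Matrix (Fin d) (Fin d) F) : Submodule F (ι ⊕ τ ⊕ τ → Fin d → F) :=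
  ⨅ t : τ, ker (bl d (Sum.inr (Sum.inr t)) - y.vecMulLinear ∘ₗ bl d (Sum.inr (Sum.inl t)))

open Classical in
/-- vectors with `η` and `η'` in `V ⊗ W` -/
noncomputable def finB (ι : Type) (d : ℕ) [Fintype τ] (W : Submodule F (τ → F)) :
    Submodule F (ι ⊕ τ ⊕ τ → Fin d → F) :=
  ⨅ φ : (τ → F) →ₗ[F] F, ⨅ _ : ∀ w ∈ W, φ w = 0,
    ker (∑ t, φ (Pi.single t 1) • bl d (Sum.inr (Sum.inl t))) ⊓
      ker (∑ t, φ (Pi.single t 1) • bl d (Sum.inr (Sum.inr t)))

theorem FinFree_nat {V : Type} [AddCommGroup V] [Module F V] [Finite V] (S : Submodule F V) :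
    Nat.card S = 2 ^ Module.finrank F S := by
  rw [Module.natCard_eq_pow_finrank (K := F), Nat.card_zmod]

theorem FinFree_fib (η η' : τ → Fin d → F) [Finite τ] :
    Nat.card {y : Matrix (Fin d) (Fin d) F // ∀ t, η' t = η t ᵥ* y} *
      2 ^ (d * Module.finrank F (range (Matrix.of η).mulVecLin)) ≤
      Nat.card (Matrix (Fin d) (Fin d) F) := by
  choose s hs using fun w : range (Matrix.of η).mulVecLin => w.2
  let f : {y : Matrix (Fin d) (Fin d) F // ∀ t, η' t = η t ᵥ* y} ×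
      (Fin d → range (Matrix.of η).mulVecLin) → Matrix (Fin d) (Fin d) F :=
    fun p => p.1.1 + Matrix.of fun i j => s (p.2 j) i
  have key : ∀ p t j, (η t ᵥ* f p) j = η' t j + (p.2 j).1 t := by
    intro p t j
    rw [Matrix.vecMul_add, Pi.add_apply, ← p.1.2 t, ← hs]
    rfl
  have hf : Function.Injective f := by
    rintro ⟨y, c⟩ ⟨y', c'⟩ h
    have e : c = c' := funext fun j => Subtype.ext (funext fun t => by
      have := key (y, c) t j
      rw [h, key] at this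
      exact (add_left_cancel this).symm)
    subst e
    exact Prod.ext (Subtype.ext (add_right_cancel h)) rfl
  have := Nat.card_le_card_of_injective f hf
  rwa [Nat.card_prod, Nat.card_fun, FinFree_nat, Nat.card_fin, ← pow_mul, mul_comm _ d] at this

theorem FinFree_memK {y : Matrix (Fin d) (Fin d) F} {v : ι ⊕ τ ⊕ τ → Fin d → F} :
    v ∈ finK ι τ y ↔ ∀ t, v (Sum.inr (Sum.inr t)) = v (Sum.inr (Sum.inl t)) ᵥ* y := by
  simp [finK, bl, Submodule.mem_iInf, sub_eq_zero]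

/-- the span of the columns of `η` -/
def FinFreeW (v : ι ⊕ τ ⊕ τ → Fin d → F) : Submodule F (τ → F) :=
  range (Matrix.of fun t => v (Sum.inr (Sum.inl t))).mulVecLin

theorem FinFree_memB [Fintype τ] {y : Matrix (Fin d) (Fin d) F} {v : ι ⊕ τ ⊕ τ → Fin d → F}
    (h : v ∈ finK ι τ y) : v ∈ finB ι d (FinFreeW v) := by
  rw [FinFree_memK] at h
  simp only [finB, Submodule.mem_iInf, Submodule.mem_inf, mem_ker]
  intro φ hφ
  have key : ∀ m : τ → ι ⊕ τ ⊕ τ, (∀ j, (fun t => v (m t) j) ∈ FinFreeW v) →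
      (open Classical in ∑ t, φ (Pi.single t 1) • bl d (m t)) v = 0 := by
    intro m hm
    funext j
    have := hφ _ (hm j)
    rw [open Classical in pi_eq_sum_univ' (fun t => v (m t) j), map_sum] at this
    simpa [bl, mul_comm] using this
  refine ⟨key _ fun j => ⟨Pi.single j 1, ?_⟩, key _ fun j => ⟨fun i => y i j, ?_⟩⟩
  · funext t
    simp
  · funext t
    rw [h t]
    rfl

theorem FinFree_sum [Fintype ι] [Fintype τ] (Γ : Submodule F (ι ⊕ τ ⊕ τ → Fin d → F)) (a b : ℕ)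
    (h : ∀ W : Submodule F (τ → F),
      Module.finrank F ↥(Γ ⊓ finB ι d W) + a ≤ b + d * Module.finrank F W) :
    (∑ y : Matrix (Fin d) (Fin d) F, 2 ^ Module.finrank F ↥(Γ ⊓ finK ι τ y)) * 2 ^ a ≤
      2 ^ 2 ^ Fintype.card τ * (2 ^ b * Nat.card (Matrix (Fin d) (Fin d) F)) := by
  classical
  have := Fintype.ofFinite (Submodule F (τ → F))
  have hc : ∀ S : Submodule F (ι ⊕ τ ⊕ τ → Fin d → F),
      2 ^ Module.finrank F S = ∑ v, if v ∈ S then 1 else 0 := fun S => by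
    rw [← FinFree_nat, Nat.card_eq_fintype_card, Fintype.card_subtype, Finset.card_filter]
  have hW : Fintype.card (Submodule F (τ → F)) ≤ 2 ^ 2 ^ Fintype.card τ := by
    have := Fintype.card_le_of_injective _
      (SetLike.coe_injective (A := Submodule F (τ → F)) (B := τ → F))
    rwa [Fintype.card_set, Fintype.card_fun, ZMod.card] at this
  simp only [hc]
  rw [Finset.sum_comm, ← Finset.sum_fiberwise Finset.univ FinFreeW, Finset.sum_mul]
  refine (Finset.sum_le_card_nsmul _ _ _ fun W _ => ?_).trans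
    (Nat.mul_le_mul_right (2 ^ b * Nat.card (Matrix (Fin d) (Fin d) F)) hW)
  refine Nat.le_of_mul_le_mul_right ?_ (pow_pos two_pos (d * Module.finrank F W))
  have e1 : (∑ v ∈ Finset.univ.filter fun v => FinFreeW v = W,
      ∑ y : Matrix (Fin d) (Fin d) F, if v ∈ Γ ⊓ finK ι τ y then 1 else 0) *
        2 ^ (d * Module.finrank F W) ≤
      2 ^ Module.finrank F ↥(Γ ⊓ finB ι d W) * Nat.card (Matrix (Fin d) (Fin d) F) := by
    rw [hc, Finset.sum_mul, Finset.sum_mul, Finset.sum_filter]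
    refine Finset.sum_le_sum fun v _ => ?_
    split_ifs with h1 h2 h2
    · rw [one_mul, ← h1]
      refine le_trans (Nat.mul_le_mul_right _ ?_)
        (FinFree_fib (fun t => v (Sum.inr (Sum.inl t))) fun t => v (Sum.inr (Sum.inr t)))
      rw [Nat.card_eq_fintype_card, Fintype.card_subtype, Finset.card_filter]
      refine Finset.sum_le_sum fun y _ => ?_
      by_cases h3 : v ∈ Γ ⊓ finK ι τ y
      · rw [if_pos h3, if_pos (FinFree_memK.1 h3.2)]
      · rw [if_neg h3]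
        exact Nat.zero_le _
    · rw [Finset.sum_eq_zero, zero_mul, zero_mul]
      exact fun y _ => if_neg fun h3 => h2 ⟨h3.1, h1 ▸ FinFree_memB h3.2⟩
    · exact Nat.zero_le _
    · exact Nat.zero_le _
  rw [mul_right_comm]
  refine (Nat.mul_le_mul_right _ e1).trans ?_
  rw [mul_right_comm, mul_right_comm (2 ^ b), ← pow_add, ← pow_add]
  exact Nat.mul_le_mul_right _ (Nat.pow_le_pow_right two_pos (h W))

theorem fin_free [Fintype ι] [Fintype τ] (Γ : Submodule F (ι ⊕ τ ⊕ τ → Fin d → F)) (t : ℕ) :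
    Nat.card {y : Matrix (Fin d) (Fin d) F // ∀ W : Submodule F (τ → F),
      Module.finrank F ↥(Γ ⊓ finB ι d W) + t + 2 ^ Fintype.card τ <
        Module.finrank F ↥(Γ ⊓ finK ι τ y) + d * Module.finrank F W} * 2 ^ t ≤
      Nat.card (Matrix (Fin d) (Fin d) F) := by
  classical
  obtain ⟨W₀, h₀⟩ := Finite.exists_max fun W : Submodule F (τ → F) =>
    (Module.finrank F ↥(Γ ⊓ finB ι d W) : ℤ) - (d * Module.finrank F W : ℕ)
  have h1 := FinFree_sum Γ (d * Module.finrank F W₀) (Module.finrank F ↥(Γ ⊓ finB ι d W₀))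
    fun W => by have := h₀ W; omega
  refine Nat.le_of_mul_le_mul_left ?_
    (pow_pos two_pos (2 ^ Fintype.card τ + Module.finrank F ↥(Γ ⊓ finB ι d W₀)))
  rw [← mul_assoc, ← pow_add] at h1
  refine le_trans ?_ h1
  rw [mul_left_comm, ← pow_add, Nat.card_eq_fintype_card, Fintype.card_subtype, Finset.card_filter,
    Finset.sum_mul, Finset.sum_mul]
  refine Finset.sum_le_sum fun y _ => ?_
  split_ifs with h2
  · rw [one_mul, ← pow_add]
    refine Nat.pow_le_pow_right two_pos ?_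
    have := h2 W₀
    omega
  · rw [zero_mul]
    exact Nat.zero_le _

theorem union_bound {X J C : Type} [Finite X] [Nonempty X] [Finite J] [DecidableEq J] [Finite C]
    (i : C → J) (bad : C → (J → X) → Prop) (t : ℕ)
    (h : ∀ c y, Nat.card {a : X // bad c (Function.update y (i c) a)} * 2 ^ t ≤ Nat.card X)
    (hC : Nat.card C < 2 ^ t) : ∃ y, ∀ c, ¬ bad c y := by
  classical
  have := Fintype.ofFinite X
  have := Fintype.ofFinite J
  have := Fintype.ofFinite C
  have hX : 0 < Fintype.card X := Fintype.card_pos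
  have key : ∀ c, (∑ y : J → X, if bad c y then 1 else 0) * 2 ^ t ≤ Fintype.card (J → X) := by
    intro c
    refine Nat.le_of_mul_le_mul_right ?_ hX
    have inv : Function.Involutive fun p : (J → X) × X =>
        (Function.update p.1 (i c) p.2, p.1 (i c)) := fun p => by simp
    have e := Equiv.sum_comp inv.toPerm fun p : (J → X) × X => if bad c p.1 then 1 else 0
    rw [Fintype.sum_prod_type, Fintype.sum_prod_type] at e
    simp only [Function.Involutive.coe_toPerm] at e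
    have e' : (∑ y : J → X, if bad c y then 1 else 0) * Fintype.card X =
        ∑ y : J → X, ∑ _a : X, if bad c y then 1 else 0 := by
      rw [Finset.sum_mul]
      exact Finset.sum_congr rfl fun y _ => by
        rw [Finset.sum_const, Finset.card_univ, smul_eq_mul, mul_comm]
    rw [mul_right_comm, e', ← e, Finset.sum_mul]
    refine (Finset.sum_le_card_nsmul _ _ _ fun y _ => ?_).trans_eq rfl
    have := h c y
    rwa [Nat.card_eq_fintype_card, Nat.card_eq_fintype_card, Fintype.card_subtype,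
      Finset.card_filter] at this
  by_contra hn
  push Not at hn
  have e1 : Fintype.card (J → X) ≤ ∑ c, ∑ y : J → X, if bad c y then 1 else 0 := by
    rw [Finset.sum_comm, Fintype.card_eq_sum_ones]
    refine Finset.sum_le_sum fun y _ => ?_
    obtain ⟨c, hc⟩ := hn y
    exact (if_pos hc).symm.trans_le (Finset.single_le_sum
      (f := fun c => if bad c y then 1 else 0) (fun _ _ => Nat.zero_le _) (Finset.mem_univ c))
  have e2 := Nat.mul_le_mul_right (2 ^ t) e1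
  rw [Finset.sum_mul] at e2
  have e3 := e2.trans (Finset.sum_le_card_nsmul _ _ _ fun c _ => key c)
  rw [Finset.card_univ, smul_eq_mul, mul_comm, ← Nat.card_eq_fintype_card (α := C)] at e3
  exact absurd (Nat.le_of_mul_le_mul_right e3 Fintype.card_pos) hC.not_ge

end Pool.Agent.Work.MP_c4093f_al.Z
end

-- merged part: Pool.Agent.Work.MP_c4093f_al.Z.FinFam
section
/-!
A family of mutually generic matrices at each level.

Plan.  The shapes `(i, t, k, n, c, p₀)` with `p₀ : Fin n → Option ℚ` form a countable type; fix an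
injective code into `ℕ`.  At level `N` a configuration is a shape with code `< N`, together with
`i₀ : Fin N → Bool` and `j : Fin n → Fin N → Bool` with `j l ≠ i₀` whenever `p₀ l = none`; there
are finitely many, say `K N`, independent of `d`.  Put `d N = (N + 1) * (K N + 1)`, so that with
`t = K N` we have `K N < 2 ^ t`; use `union_bound` with `fin_free` (the kernel does not depend on
the coordinate `i₀` of the family).  For given data, eventually the code is `< N`, the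
restrictions of the finitely many sequences different from `i₀` differ from the restriction of
`i₀`, and `K N + 2 ^ t ≤ ε * d N`.
-/

namespace Pool.Agent.Work.MP_c4093f_al.Z

open LinearMap

open Matrix Filter

/-- the diagonal projection of normalised rank about `q` -/
def sLev (d : ℕ) (q : ℚ) : Matrix (Fin d) (Fin d) F :=
  Matrix.diagonal fun a => if (a : ℕ) < ⌊q * d⌋₊ then 1 else 0

theorem sLev_mul (d : ℕ) (q r : ℚ) : sLev d q * sLev d r = sLev d (min q r) := by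
  have key : ∀ q r : ℚ, q ≤ r → ∀ a : Fin d, (a : ℕ) < ⌊q * d⌋₊ → (a : ℕ) < ⌊r * d⌋₊ :=
    fun q r h a ha => ha.trans_le (Nat.floor_mono (mul_le_mul_of_nonneg_right h (Nat.cast_nonneg d)))
  rw [sLev, sLev, sLev, diagonal_mul_diagonal]
  congr 1
  funext a
  rcases le_total q r with h | h
  · rw [min_eq_left h]
    by_cases h1 : (a : ℕ) < ⌊q * d⌋₊
    · rw [if_pos h1, if_pos (key q r h a h1), one_mul]
    · rw [if_neg h1, zero_mul]
  · rw [min_eq_right h]
    by_cases h1 : (a : ℕ) < ⌊r * d⌋₊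
    · rw [if_pos h1, if_pos (key r q h a h1), one_mul]
    · rw [if_neg h1, mul_zero]

theorem sLev_one (d : ℕ) : sLev d 1 = 1 := by
  rw [sLev, ← diagonal_one]
  congr 1
  funext a
  rw [one_mul, Nat.floor_natCast, if_pos a.isLt]

theorem rank_sLev (d : ℕ) {q : ℚ} (h1 : q ≤ 1) :
    Module.finrank F (range (sLev d q).vecMulLinear) = ⌊q * d⌋₊ := by
  have h2 : ⌊q * d⌋₊ ≤ d := Nat.floor_le_of_le (mul_le_of_le_one_left (Nat.cast_nonneg d) h1)
  have e : (sLev d q).vecMulLinear = (sLev d q).mulVecLin := by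
    rw [← mulVecLin_transpose, sLev, diagonal_transpose]
  rw [e]
  refine (Matrix.rank_diagonal _).trans ?_
  rw [Fintype.card_subtype]
  refine Eq.trans ?_ ((Fin.card_filter_val_lt (n := d) (m := ⌊q * d⌋₊)).trans (min_eq_right h2))
  exact congrArg Finset.card (Finset.filter_congr fun a _ => by simp)

/-- the map with coefficients `c` and matrix parameters `a` -/
def affF {d : ℕ} {m κ L : Type} [Fintype m] [Fintype L] (c : L → m → κ → F)
    (a : L → Matrix (Fin d) (Fin d) F) : (m → Fin d → F) →ₗ[F] (κ → Fin d → F) :=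
  LinearMap.pi fun k => ∑ l, ∑ i, c l i k • ((a l).vecMulLinear ∘ₗ proj i)

/-- shapes of the data -/
abbrev FinFamSh : Type := Σ x : ℕ × ℕ × ℕ × ℕ,
  (Fin x.2.2.2 → Fin x.1 ⊕ Fin x.2.1 ⊕ Fin x.2.1 → Fin x.2.2.1 → F) × (Fin x.2.2.2 → Option ℚ)

theorem FinFam_level (e : FinFamSh → ℕ) (he : Function.Injective e) (N : ℕ) :
    ∃ K : ℕ, ∀ d, ∃ Y : (Fin N → Bool) → Matrix (Fin d) (Fin d) F, ∀ s : FinFamSh, e s < N →
      ∀ (i₀ : Fin N → Bool) (j : Fin s.1.2.2.2 → Fin N → Bool), (∀ l, s.2.2 l = none → j l ≠ i₀) →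
      ∃ W : Submodule F (Fin s.1.2.1 → F),
        Module.finrank F ↥(ker (affF s.2.1 fun l => (s.2.2 l).elim (Y (j l)) (sLev d)) ⊓
            finK (Fin s.1.1) (Fin s.1.2.1) (Y i₀)) + d * Module.finrank F W ≤
          Module.finrank F ↥(ker (affF s.2.1 fun l => (s.2.2 l).elim (Y (j l)) (sLev d)) ⊓
            finB (Fin s.1.1) d W) + K + 2 ^ s.1.2.1 := by
  have : Finite {s : FinFamSh // e s < N} :=
    Finite.of_injective (fun s => (⟨e s.1, s.2⟩ : Fin N)) fun s s' h =>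
      Subtype.ext (he (congrArg Fin.val h))
  let C := Σ s : {s : FinFamSh // e s < N},
    {q : (Fin N → Bool) × (Fin s.1.1.2.2.2 → Fin N → Bool) // ∀ l, s.1.2.2 l = none → q.2 l ≠ q.1}
  refine ⟨Nat.card C, fun d => ?_⟩
  obtain ⟨Y, hY⟩ := union_bound (X := Matrix (Fin d) (Fin d) F) (C := C) (fun c => c.2.1.1)
    (fun c Y => ∀ W : Submodule F (Fin c.1.1.1.2.1 → F),
      Module.finrank F ↥(ker (affF c.1.1.2.1 fun l => (c.1.1.2.2 l).elim (Y (c.2.1.2 l)) (sLev d)) ⊓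
          finB (Fin c.1.1.1.1) d W) + Nat.card C + 2 ^ Fintype.card (Fin c.1.1.1.2.1) <
        Module.finrank F ↥(ker (affF c.1.1.2.1 fun l => (c.1.1.2.2 l).elim (Y (c.2.1.2 l))
          (sLev d)) ⊓ finK (Fin c.1.1.1.1) (Fin c.1.1.1.2.1) (Y c.2.1.1)) +
          d * Module.finrank F W) (Nat.card C) (fun c Y => by
      have e1 : ∀ a, (fun l => (c.1.1.2.2 l).elim (Function.update Y c.2.1.1 a (c.2.1.2 l))
          (sLev d)) = fun l => (c.1.1.2.2 l).elim (Y (c.2.1.2 l)) (sLev d) := by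
        intro a
        funext l
        rcases hl : c.1.1.2.2 l with _ | q
        · exact Function.update_of_ne (c.2.2 l hl) _ _
        · rfl
      refine le_trans (le_of_eq ?_) (fin_free (ι := Fin c.1.1.1.1) (τ := Fin c.1.1.1.2.1)
        (ker (affF c.1.1.2.1 fun l => (c.1.1.2.2 l).elim (Y (c.2.1.2 l)) (sLev d))) (Nat.card C))
      refine congrArg (· * 2 ^ Nat.card C) (Nat.card_congr (Equiv.subtypeEquivRight fun a => ?_))
      rw [e1 a, Function.update_self]) Nat.lt_two_pow_self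
  refine ⟨Y, fun s hs i₀ j hj => ?_⟩
  have h := hY ⟨⟨s, hs⟩, ⟨(i₀, j), hj⟩⟩
  push Not at h
  rwa [Fintype.card_fin] at h

theorem fin_fam : ∃ (d : ℕ → ℕ) (y : (ℕ → Bool) → ∀ N, Matrix (Fin (d N)) (Fin (d N)) F),
    (∀ N, N < d N) ∧ ∀ (i t k n : ℕ) (c : Fin n → Fin i ⊕ Fin t ⊕ Fin t → Fin k → F)
      (p : Fin n → ℚ ⊕ (ℕ → Bool)) (j : ℕ → Bool), (∀ l, p l ≠ Sum.inr j) → ∀ ε : ℝ, 0 < ε →
      ∀ᶠ N in atTop, ∃ W : Submodule F (Fin t → F),
        (Module.finrank F ↥(ker (affF c fun l => (p l).elim (sLev (d N)) fun i => y i N) ⊓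
            finK (Fin i) (Fin t) (y j N)) : ℝ) + d N * Module.finrank F W ≤
          Module.finrank F ↥(ker (affF c fun l => (p l).elim (sLev (d N)) fun i => y i N) ⊓
            finB (Fin i) (d N) W) + ε * d N := by
  obtain ⟨e, he⟩ := exists_injective_nat FinFamSh
  choose K hK using FinFam_level e he
  choose Y hY using fun N => hK N ((N + 1) * (K N + 1))
  refine ⟨fun N => (N + 1) * (K N + 1), fun j N => Y N fun m => j m, fun N => by linarith only [mul_nonneg_of_nonpos_of_nonpos (Mathlib.Tactic.Linarith.sub_nonpos_of_le (Mathlib.Tactic.Linarith.natCast_nonneg ℤ N)) (Mathlib.Tactic.Linarith.sub_nonpos_of_le (Mathlib.Tactic.Linarith.natCast_nonneg ℤ (K N)))],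
    fun i t k n c p j hp ε hε => ?_⟩
  obtain ⟨s, hs⟩ : ∃ s : FinFamSh, s = ⟨(i, t, k, n), c, fun l => (p l).getLeft?⟩ := ⟨_, rfl⟩
  have h1 : ∀ᶠ N in atTop, ∀ l j', p l = Sum.inr j' →
      (fun m : Fin N => j' m) ≠ fun m : Fin N => j m := by
    refine eventually_all.2 fun l => ?_
    rcases hl : p l with q | j'
    · exact Eventually.of_forall fun N j' h => absurd h Sum.inl_ne_inr
    · obtain ⟨m, hm⟩ := Function.ne_iff.1 fun h : j' = j => hp l (h ▸ hl)
      filter_upwards [eventually_gt_atTop m] with N hN j'' h h'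
      obtain rfl := Sum.inr.inj h
      exact hm (congrFun h' ⟨m, hN⟩)
  have h2 : ∀ᶠ N : ℕ in atTop, (2 : ℝ) ^ t / ε ≤ N :=
    tendsto_natCast_atTop_atTop.eventually_ge_atTop _
  filter_upwards [h1, h2, eventually_gt_atTop (e s)] with N a1 a2 a3
  subst hs
  obtain ⟨W, hW⟩ := hY N _ a3 (fun m => j m)
    (fun l m => (p l).elim (fun _ => false) fun j' => j' m) (fun l hl => by
      rcases h : p l with q | j'
      · simp [h] at hl
      · exact a1 l j' h)
  refine ⟨W, ?_⟩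
  have e1 : (fun l => ((p l).getLeft?).elim (Y N fun m : Fin N => (p l).elim (fun _ => false)
      fun j' => j' m) (sLev ((N + 1) * (K N + 1)))) = fun l => (p l).elim
      (sLev ((N + 1) * (K N + 1))) fun j' => Y N fun m : Fin N => j' m := by
    funext l
    rcases p l with q | j' <;> rfl
  dsimp only at hW ⊢
  rw [e1] at hW
  have a4 : ((K N : ℝ) + 2 ^ t) ≤ ε * (((N + 1) * (K N + 1) : ℕ) : ℝ) := by
    have b1 : (2 : ℝ) ^ t ≤ ε * (N + 1) := by
      rw [div_le_iff₀ hε] at a2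
      linarith only [hε, a2]
    have b2 : (1 : ℝ) ≤ 2 ^ t := one_le_pow₀ one_le_two
    have b3 : (0 : ℝ) ≤ K N := Nat.cast_nonneg _
    push_cast
    linarith only [b1, b3, b2, mul_le_mul_of_nonneg_right b1 (add_nonneg b3 zero_le_one), mul_nonneg_of_nonpos_of_nonpos (Mathlib.Tactic.Linarith.sub_nonpos_of_le (Mathlib.Tactic.Linarith.natCast_nonneg ℝ (K N))) (Mathlib.Tactic.Linarith.sub_nonpos_of_le b2)]
  have a5 := (Nat.cast_le (α := ℝ)).2 hW
  rw [Nat.cast_add, Nat.cast_mul _ (Module.finrank F W), Nat.cast_add, Nat.cast_add, Nat.cast_pow,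
    Nat.cast_ofNat] at a5
  linarith only [a4, a5]

end Pool.Agent.Work.MP_c4093f_al.Z
end
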