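import Pool.Agent.Work.MP_c4093f_al.Z.Lin

/-!
Definable submodules are projections of kernels of matrices that are affine in the parameters;
reduction of `Free` to such kernels.

Plan.  `Aff` is closed under sums (`L₁ ⊕ L₂`), under composition with rational maps on both sides
(`RatM.exists_bc` and `bc_dg` show that rational maps commute with `dgM`), contains the rational
maps (`a = 1`), hence is closed under `prod`.  `ker_nf`: induction on `Def`; `gr a`: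
`((ξ, η), _) ↦ a ξ - η`; `map g`: hidden variables `M × N` and the equation `g ξ - η = 0`.
`free_of_freeK`: write `Γ = fst (ker f)` with hidden variables `N`; move `N` next to `M`.  The
projection has the same kernel part on `ker f ⊓ gx` and on `ker f ⊓ box` (`rho_map_add`), so it
suffices to treat `ker f`.  Transport along the injective rational map from
`Fin i ⊕ Fin t ⊕ Fin t → Λ` given by the frames and `Fintype.equivFin`; the coefficients come from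
`RatM.exists_bc`; `W` is moved along `funLeft` (`map_bc_ten` or `ten_le_iff`).
-/

namespace Pool.Agent.Work.MP_c4093f_al.Z

open LinearMap

variable {Λ : Type} [Ring Λ] [Algebra F Λ] {M K : Type} [AddCommGroup M] [Module Λ M] [Fr Λ M]
  [AddCommGroup K] [Module Λ K] [Fr Λ K] {P : Set (E Λ)}

/-- maps that are affine in the parameters -/
def Aff (P : Set (E Λ)) (f : M →ₗ[Λ] K) : Prop :=
  ∃ (L : Type) (_ : Fintype L) (a : L → E Λ) (r : L → M →ₗ[Λ] K),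
    (∀ l, a l ∈ P ∨ a l = 1) ∧ (∀ l, RatM (r l)) ∧ f = ∑ l, dgM K (a l) ∘ₗ r l

section
variable {N : Type} [AddCommGroup N] [Module Λ N] [Fr Λ N]

theorem KerNF_comm {g : M →ₗ[Λ] K} (hg : RatM g) (a : E Λ) (ξ : M) :
    g (dgM M a ξ) = dgM K a (g ξ) := by
  obtain ⟨f₀, h⟩ := hg.exists_bc
  apply (Fr.e : K ≃ₗ[Λ] (Fr.ι Λ K → Λ)).injective
  simp only [dgM, comp_apply, LinearEquiv.coe_coe, LinearEquiv.apply_symm_apply, h, bc_dg]

theorem KerNF_dg {a : E Λ} (ha : a ∈ P ∨ a = 1) {r : M →ₗ[Λ] K} (hr : RatM r) :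
    Aff P (dgM K a ∘ₗ r) :=
  ⟨Unit, inferInstance, fun _ => a, fun _ => r, fun _ => ha, fun _ => hr, by simp⟩

theorem KerNF_rat {r : M →ₗ[Λ] K} (hr : RatM r) : Aff P r := by
  have e : dgM K (1 : E Λ) ∘ₗ r = r :=
    LinearMap.ext fun ξ => (Fr.e : K ≃ₗ[Λ] (Fr.ι Λ K → Λ)).symm_apply_apply (r ξ)
  exact e ▸ KerNF_dg (Or.inr rfl) hr

theorem KerNF_add {f g : M →ₗ[Λ] K} (hf : Aff P f) (hg : Aff P g) : Aff P (f + g) := by
  obtain ⟨L, _, a, r, ha, hr, rfl⟩ := hf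
  obtain ⟨L', _, a', r', ha', hr', rfl⟩ := hg
  refine ⟨L ⊕ L', inferInstance, Sum.elim a a', Sum.elim r r', ?_, ?_, ?_⟩
  · rintro (l | l)
    exacts [ha l, ha' l]
  · rintro (l | l)
    exacts [hr l, hr' l]
  · rw [Fintype.sum_sum_type]
    rfl

theorem KerNF_right {f : M →ₗ[Λ] K} (hf : Aff P f) {g : N →ₗ[Λ] M} (hg : RatM g) :
    Aff P (f ∘ₗ g) := by
  obtain ⟨L, _, a, r, ha, hr, rfl⟩ := hf
  refine ⟨L, inferInstance, a, fun l => r l ∘ₗ g, ha, fun l => (hr l).comp hg,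
    LinearMap.ext fun ξ => ?_⟩
  simp only [comp_apply, LinearMap.sum_apply]

theorem KerNF_left {f : M →ₗ[Λ] K} (hf : Aff P f) {g : K →ₗ[Λ] N} (hg : RatM g) :
    Aff P (g ∘ₗ f) := by
  obtain ⟨L, _, a, r, ha, hr, rfl⟩ := hf
  refine ⟨L, inferInstance, a, fun l => g ∘ₗ r l, ha, fun l => hg.comp (hr l),
    LinearMap.ext fun ξ => ?_⟩
  simp only [comp_apply, LinearMap.sum_apply, map_sum, KerNF_comm hg]

theorem KerNF_prod {f : M →ₗ[Λ] K} {g : M →ₗ[Λ] N} (hf : Aff P f) (hg : Aff P g) :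
    Aff P (f.prod g) := by
  have e : inl Λ K N ∘ₗ f + inr Λ K N ∘ₗ g = f.prod g := LinearMap.ext fun ξ => by simp
  exact e ▸ KerNF_add (KerNF_left hf RatM.inl) (KerNF_left hg RatM.inr)

end

theorem KerNF_nf {H : Submodule Λ M} (h : Def P H) :
    ∃ (N K : Type) (_ : AddCommGroup N) (_ : Module Λ N) (_ : Fr Λ N) (_ : AddCommGroup K)
      (_ : Module Λ K) (_ : Fr Λ K) (f : M × N →ₗ[Λ] K), Aff P f ∧
        ∀ ξ, ξ ∈ H ↔ ∃ ν, f (ξ, ν) = 0 := by
  induction h with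
  | gr a ha =>
    refine ⟨Λ, Λ, _, _, inferInstance, _, _, inferInstance, _,
      KerNF_add (KerNF_dg (Or.inl ha) (RatM.fst.comp RatM.fst))
        (KerNF_rat (RatM.snd.comp RatM.fst).neg), fun ξ => ?_⟩
    change _ ↔ ∃ _ : Λ, a ξ.1 + -ξ.2 = 0
    rw [mem_graph_iff, add_neg_eq_zero, eq_comm, exists_const]
  | top M =>
    exact ⟨Λ, Λ, _, _, inferInstance, _, _, inferInstance, _, KerNF_rat RatM.zero,
      fun ξ => ⟨fun _ => ⟨0, rfl⟩, fun _ => trivial⟩⟩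
  | inf _ _ h1 h2 =>
    obtain ⟨N, K, _, _, _, _, _, _, f, hf, h1⟩ := h1
    obtain ⟨N', K', _, _, _, _, _, _, f', hf', h2⟩ := h2
    refine ⟨N × N', K × K', _, _, inferInstance, _, _, inferInstance, _,
      KerNF_prod (KerNF_right hf (RatM.id.prodMap RatM.fst))
        (KerNF_right hf' (RatM.id.prodMap RatM.snd)), fun ξ => ?_⟩
    rw [Submodule.mem_inf, h1, h2]
    exact ⟨fun ⟨⟨ν, e⟩, ν', e'⟩ => ⟨(ν, ν'), Prod.ext e e'⟩,
      fun ⟨ν, e⟩ => ⟨⟨ν.1, congrArg Prod.fst e⟩, ν.2, congrArg Prod.snd e⟩⟩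
  | @map M M' _ _ _ _ _ _ g hg H _ h1 =>
    obtain ⟨N, K, _, _, _, _, _, _, f, hf, h1⟩ := h1
    refine ⟨M × N, K × M', _, _, inferInstance, _, _, inferInstance, _,
      KerNF_prod (KerNF_right hf RatM.snd)
        (KerNF_rat ((hg.comp (RatM.fst.comp RatM.snd)).sub RatM.fst)), fun ξ => ⟨?_, ?_⟩⟩
    · rintro ⟨η, hη, rfl⟩
      obtain ⟨ν, e⟩ := (h1 η).1 hη
      exact ⟨(η, ν), Prod.ext e (sub_self (g η))⟩
    · rintro ⟨ν, e⟩
      exact ⟨ν.1, (h1 _).2 ⟨ν.2, congrArg Prod.fst e⟩, sub_eq_zero.1 (congrArg Prod.snd e)⟩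
  | comap g hg _ h1 =>
    obtain ⟨N, K, _, _, _, _, _, _, f, hf, h1⟩ := h1
    exact ⟨N, K, _, _, inferInstance, _, _, inferInstance, _,
      KerNF_right hf (hg.prodMap RatM.id), fun ξ => h1 (g ξ)⟩

theorem ker_nf {H : Submodule Λ M} (h : Def P H) :
    ∃ (N K : Type) (_ : AddCommGroup N) (_ : Module Λ N) (_ : Fr Λ N) (_ : AddCommGroup K)
      (_ : Module Λ K) (_ : Fr Λ K) (f : M × N →ₗ[Λ] K), Aff P f ∧
        H = (ker f).map (fst Λ M N) := by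
  obtain ⟨N, K, _, _, _, _, _, _, f, hf, h⟩ := KerNF_nf h
  refine ⟨N, K, _, _, inferInstance, _, _, inferInstance, f, hf, Submodule.ext fun ξ => ?_⟩
  rw [h]
  exact ⟨fun ⟨ν, e⟩ => ⟨(ξ, ν), e, rfl⟩, fun ⟨ν, e, e'⟩ => ⟨ν.2, e' ▸ e⟩⟩

/-- the map with coefficients `c` and parameters `a` -/
def affM {m κ L : Type} [Fintype m] [Fintype L] (c : L → m → κ → F) (a : L → E Λ) :
    (m → Λ) →ₗ[Λ] (κ → Λ) := LinearMap.pi fun k => ∑ l, ∑ i, c l i k • (a l ∘ₗ proj i)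

omit [Algebra F Λ] in
variable (Λ) in
/-- splitting of the coordinates into three groups -/
def spl (ι τ : Type) : (ι ⊕ τ ⊕ τ → Λ) →ₗ[Λ] (ι → Λ) × (τ → Λ) × (τ → Λ) :=
  (funLeft Λ Λ Sum.inl).prod
    ((funLeft Λ Λ fun t => Sum.inr (Sum.inl t)).prod (funLeft Λ Λ fun t => Sum.inr (Sum.inr t)))

/-- genericity for kernels of affine matrices -/
def FreeK [Dim Λ] (P : Set (E Λ)) (y : E Λ) : Prop :=
  ∀ (i t k n : ℕ) (c : Fin n → Fin i ⊕ Fin t ⊕ Fin t → Fin k → F) (a : Fin n → E Λ),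
    (∀ l, a l ∈ P ∨ a l = 1) → ∃ W : Submodule F (Fin t → F),
      rho (ker (affM c a) ⊓ (gx (Fin i → Λ) (Fin t) y).comap (spl Λ _ _)) + Module.finrank F W ≤
        rho (ker (affM c a) ⊓ (box (Fin i → Λ) (ten ⊤ W) (ten ⊤ W)).comap (spl Λ _ _))

theorem KerNF_coef {m κ : Type} [Fintype m] [Fintype κ] {r : (m → Λ) →ₗ[Λ] (κ → Λ)}
    (hr : RatM r) : ∃ c : m → κ → F, ∀ ζ k, r ζ k = ∑ i, c i k • ζ i := by
  classical
  have h : ∀ i k, ∃ c : F, r (Pi.single i 1) k = algebraMap F Λ c := fun i k =>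
    (ratPt_self _).1 ((ratPt_pi _).1
      (hr _ (RatM.single i (1 : Λ) ((ratPt_self _).2 ⟨1, (map_one _).symm⟩))) k)
  choose c hc using h
  refine ⟨c, fun ζ k => ?_⟩
  conv_lhs => rw [← Finset.univ_sum_single ζ, map_sum, Finset.sum_apply]
  refine Finset.sum_congr rfl fun i _ => ?_
  rw [show Pi.single i (ζ i) = ζ i • (Pi.single i 1 : m → Λ) by
    rw [← Pi.single_smul, smul_eq_mul, mul_one], map_smul, Pi.smul_apply, hc, smul_eq_mul,
    ← Algebra.commutes, Algebra.smul_def]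

theorem KerNF_affM {m κ : Type} [Fintype m] [Fintype κ] {g : (m → Λ) →ₗ[Λ] (κ → Λ)}
    (hg : Aff P g) : ∃ (n : ℕ) (c : Fin n → m → κ → F) (a : Fin n → E Λ),
      (∀ l, a l ∈ P ∨ a l = 1) ∧ affM c a = g := by
  obtain ⟨L, _, a, r, ha, hr, rfl⟩ := hg
  choose c hc using fun l => KerNF_coef (hr l)
  refine ⟨_, fun l => c ((Fintype.equivFin L).symm l), fun l => a ((Fintype.equivFin L).symm l),
    fun l => ha _, LinearMap.ext fun ζ => funext fun k => ?_⟩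
  simp only [affM, pi_apply, LinearMap.sum_apply, Finset.sum_apply]
  rw [← (Fintype.equivFin L).symm.sum_comp]
  refine Finset.sum_congr rfl fun l _ => ?_
  change _ = a _ (r _ ζ k)
  rw [hc, map_sum]
  exact Finset.sum_congr rfl fun i _ => (map_F_smul _ _ _).symm

theorem KerNF_ten {σ τ : Type} (g : τ → σ) {W : Submodule F (σ → F)} {W' : Submodule F (τ → F)}
    (h : ∀ w ∈ W, w ∘ g ∈ W') {η : σ → Λ} (hη : η ∈ ten ⊤ W) : η ∘ g ∈ ten ⊤ W' :=
  (ten_le_iff (X := (ten ⊤ W').comap (funLeft Λ Λ g))).2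
    (fun w hw _ hζ => tv_mem_ten (h w hw) hζ) hη

theorem KerNF_ten' {σ τ : Type} (ε : τ ≃ σ) (W : Submodule F (σ → F)) (η : σ → Λ) :
    η ∘ ε ∈ ten ⊤ (W.map (LinearEquiv.funCongrLeft F F ε).toLinearMap) ↔ η ∈ ten ⊤ W := by
  refine ⟨fun h => ?_, fun h => KerNF_ten ε (fun w hw => Submodule.mem_map_of_mem hw) h⟩
  have := KerNF_ten (W' := W) ε.symm (by
    rintro _ ⟨w, hw, rfl⟩
    change (w ∘ ε) ∘ ε.symm ∈ W
    rwa [Function.comp_assoc, ε.self_comp_symm, Function.comp_id]) h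
  rwa [Function.comp_assoc, ε.self_comp_symm, Function.comp_id] at this

theorem free_of_freeK [Dim Λ] {y : E Λ} (h : FreeK P y) : Free P y := by
  intro M _ _ _ τ _ Γ hΓ
  obtain ⟨N, K, _, _, _, _, _, _, f, hf, rfl⟩ := ker_nf hΓ
  obtain ⟨i, ⟨δ⟩⟩ := Finite.exists_equiv_fin (Fr.ι Λ (M × N))
  obtain ⟨t, ⟨ε⟩⟩ := Finite.exists_equiv_fin τ
  obtain ⟨k, ⟨κ⟩⟩ := Finite.exists_equiv_fin (Fr.ι Λ K)
  let u : (Fin i ⊕ Fin t ⊕ Fin t → Λ) →ₗ[Λ] M × N :=
    (Fr.e : (M × N) ≃ₗ[Λ] _).symm.toLinearMap ∘ₗ funLeft Λ Λ fun s => Sum.inl (δ s)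
  have hu : RatM u := RatM.frame_symm.comp (RatM.funLeft _)
  let p : (Fin i ⊕ Fin t ⊕ Fin t → Λ) →ₗ[Λ] M × (τ → Λ) × (τ → Λ) := (fst Λ M N ∘ₗ u).prod
    ((funLeft Λ Λ fun s => Sum.inr (Sum.inl (ε s))).prod
      (funLeft Λ Λ fun s => Sum.inr (Sum.inr (ε s))))
  have hp : RatM p := (RatM.fst.comp hu).prod ((RatM.funLeft _).prod (RatM.funLeft _))
  let q : K →ₗ[Λ] (Fin k → Λ) := funLeft Λ Λ κ.symm ∘ₗ (Fr.e : K ≃ₗ[Λ] _).toLinearMap
  have hq : RatM q := (RatM.funLeft _).comp RatM.frame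
  have hq' : ker q = ⊥ := ker_eq_bot.2
    ((funLeft_injective_of_surjective Λ Λ _ κ.symm.surjective).comp (Fr.e : K ≃ₗ[Λ] _).injective)
  have hj : Function.Surjective (p.prod (snd Λ M N ∘ₗ u)) := by
    rintro ⟨⟨m, η, η'⟩, ν⟩
    let ζ : Fin i ⊕ Fin t ⊕ Fin t → Λ := Sum.elim ((Fr.e : (M × N) ≃ₗ[Λ] _) (m, ν) ∘ δ.symm)
      (Sum.elim (η ∘ ε.symm) (η' ∘ ε.symm))
    have e : u ζ = (m, ν) := (Fr.e : (M × N) ≃ₗ[Λ] _).symm_apply_eq.2
      (funext fun s => congrArg ((Fr.e : (M × N) ≃ₗ[Λ] _) (m, ν)) (δ.symm_apply_apply s))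
    exact ⟨ζ, Prod.ext (Prod.ext (congrArg Prod.fst e :) (Prod.ext
      (funext fun s => congrArg η (ε.symm_apply_apply s))
      (funext fun s => congrArg η' (ε.symm_apply_apply s)))) (congrArg Prod.snd e :)⟩
  obtain ⟨n, c, a, ha, e⟩ :=
    KerNF_affM (KerNF_left (KerNF_right hf (hp.prod (RatM.snd.comp hu))) hq)
  obtain ⟨W, hW⟩ := h i t k n c a ha
  refine ⟨W.map (LinearEquiv.funCongrLeft F F ε).toLinearMap, ?_⟩
  have e1 : (ker (affM c a)).map p = (ker f).map (fst Λ _ N) := by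
    rw [e, ker_comp_of_ker_eq_bot _ hq', ker_comp,
      ← Submodule.map_comap_eq_of_surjective hj (ker f), ← Submodule.map_comp,
      Submodule.map_comap_eq_of_surjective hj (ker f)]
    rfl
  have e2 : (gx (Fin i → Λ) (Fin t) y).comap (spl Λ _ _) = (gx M τ y).comap p :=
    Submodule.ext fun ζ => by
      rw [Submodule.mem_comap, Submodule.mem_comap, mem_gx, mem_gx]
      refine ⟨fun h => funext fun s => congrFun h (ε s), fun h => funext fun s => ?_⟩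
      obtain ⟨s, rfl⟩ := ε.surjective s
      exact congrFun h s
  have e3 : (box (Fin i → Λ) (ten ⊤ W) (ten ⊤ W)).comap (spl Λ _ _) =
      (box M (ten ⊤ (W.map (LinearEquiv.funCongrLeft F F ε).toLinearMap))
        (ten ⊤ (W.map (LinearEquiv.funCongrLeft F F ε).toLinearMap))).comap p :=
    Submodule.ext fun ζ => by
      rw [Submodule.mem_comap, Submodule.mem_comap, mem_box, mem_box]
      exact (and_congr (KerNF_ten' ε W _) (KerNF_ten' ε W _)).symm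
  rw [e2, e3, rho_inf_comap, rho_inf_comap, e1] at hW
  rw [LinearEquiv.finrank_map_eq]
  linarith

end Pool.Agent.Work.MP_c4093f_al.Z
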