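import Mathlib

-- merged part: Pool.Agent.Work.MP_c4093f_al.Z.Ten
section
-- merged part: Pool.Agent.Work.MP_c4093f_al.Z.Defs
section
/-!
Definitions for the ZFC construction of a simple regular ring with exactly one indecomposable
injective left module and at least two on the right.  Overview: team store `h40_c4093f_zfc.md`.

`Λ` is a ring with a dimension function on submodules of finite powers of `Λ`; the ring we build
is a subring of `E Λ = End(Λ)`.  A framed module is a module with a fixed isomorphism to a finite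
power of `Λ`.  For a set `P` of endomorphisms, `Def P H` says that the submodule `H` is positively
primitively definable from the graphs of the elements of `P`.
-/

namespace Pool.Agent.Work.MP_c4093f_al.Z

open LinearMap

/-- the field with two elements -/
abbrev F := ZMod 2

/-- endomorphisms of the left module `Λ` -/
abbrev E (Λ : Type) [Ring Λ] := Λ →ₗ[Λ] Λ

/-- framed modules -/
class Fr (Λ : Type) [Ring Λ] (M : Type) [AddCommGroup M] [Module Λ M] where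
  ι : Type
  [fin : Fintype ι]
  e : M ≃ₗ[Λ] (ι → Λ)

attribute [instance_reducible, instance] Fr.fin

/-- a dimension function -/
class Dim (Λ : Type) [Ring Λ] where
  r : ∀ {ι : Type} [Fintype ι], Submodule Λ (ι → Λ) → ℝ
  mono : ∀ {ι : Type} [Fintype ι] {H H' : Submodule Λ (ι → Λ)}, H ≤ H' → r H ≤ r H'
  map : ∀ {ι κ : Type} [Fintype ι] [Fintype κ] (f : (ι → Λ) →ₗ[Λ] (κ → Λ))
    (H : Submodule Λ (ι → Λ)), r (H.map f) + r (H ⊓ ker f) = r H
  top : r (⊤ : Submodule Λ (Unit → Λ)) = 1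
  faith : ∀ {ι : Type} [Fintype ι] {H : Submodule Λ (ι → Λ)}, r H ≤ 0 → H = ⊥
  compl : ∀ {ι : Type} [Fintype ι] {H : Submodule Λ (ι → Λ)}, H.FG → ∃ C, IsCompl H C

variable {Λ : Type} [Ring Λ]

instance frSelf : Fr Λ Λ where
  ι := Unit
  e := (LinearEquiv.funUnique Unit Λ Λ).symm

instance frProd {M N : Type} [AddCommGroup M] [Module Λ M] [Fr Λ M] [AddCommGroup N] [Module Λ N]
    [Fr Λ N] : Fr Λ (M × N) where
  ι := Fr.ι Λ M ⊕ Fr.ι Λ N
  e := (Fr.e.prodCongr Fr.e).trans (LinearEquiv.sumArrowLequivProdArrow _ _ Λ Λ).symm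

instance frPi {σ M : Type} [Fintype σ] [AddCommGroup M] [Module Λ M] [Fr Λ M] :
    Fr Λ (σ → M) where
  ι := σ × Fr.ι Λ M
  e := (LinearEquiv.piCongrRight fun _ => Fr.e).trans (LinearEquiv.curry Λ Λ σ (Fr.ι Λ M)).symm

section
variable {M N : Type} [AddCommGroup M] [Module Λ M] [AddCommGroup N] [Module Λ N]

/-- the dimension of a submodule of a framed module -/
noncomputable def rho [Dim Λ] [Fr Λ M] (H : Submodule Λ M) : ℝ :=
  Dim.r (H.map (Fr.e : M ≃ₗ[Λ] (Fr.ι Λ M → Λ)).toLinearMap)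

/-- the codimension of `B` in `A` -/
noncomputable def cork [Dim Λ] [Fr Λ M] (A B : Submodule Λ M) : ℝ := rho A - rho (A ⊓ B)

/-- `a` acting on each coordinate -/
def dg (τ : Type) (a : E Λ) : (τ → Λ) →ₗ[Λ] (τ → Λ) := a.compLeft τ

/-- the power `U ^ τ` -/
def pw (τ : Type) (U : Submodule Λ M) : Submodule Λ (τ → M) := Submodule.pi Set.univ fun _ => U

/-- triples `(ξ, η, x η)` -/
def gx (M τ : Type) [AddCommGroup M] [Module Λ M] (x : E Λ) :
    Submodule Λ (M × (τ → Λ) × (τ → Λ)) := (⊤ : Submodule Λ M).prod (graph (dg τ x))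

/-- triples `(ξ, η, η')` with `η ∈ X` and `η' ∈ X'` -/
def box (M : Type) [AddCommGroup M] [Module Λ M] {τ : Type} (X X' : Submodule Λ (τ → Λ)) :
    Submodule Λ (M × (τ → Λ) × (τ → Λ)) := (⊤ : Submodule Λ M).prod (X.prod X')

/-- `H` contains a member of the flag `U` -/
def Big (U : ℕ → Submodule Λ M) (H : Submodule Λ M) : Prop := ∃ n, U n ≤ H

/-- `f` is continuous from the flag `U` to the flag `U'` -/
def Cont (f : M →ₗ[Λ] N) (U : ℕ → Submodule Λ M) (U' : ℕ → Submodule Λ N) : Prop :=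
  ∀ m, Big U ((U' m).comap f)

/-- `f` vanishes on the germ of `U` -/
def Zer (f : M →ₗ[Λ] N) (U : ℕ → Submodule Λ M) : Prop := Big U (ker f)

/-- two flags define the same filter -/
def Cof (U U' : ℕ → Submodule Λ M) : Prop := (∀ m, Big U (U' m)) ∧ ∀ m, Big U' (U m)

/-- the image of a flag -/
def fmap (f : M →ₗ[Λ] N) (U : ℕ → Submodule Λ M) : ℕ → Submodule Λ N := fun n => (U n).map f

/-- the product of two flags -/
def fprod (U : ℕ → Submodule Λ M) (U' : ℕ → Submodule Λ N) : ℕ → Submodule Λ (M × N) :=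
  fun n => (U n).prod (U' n)

/-- a flag with `⊤` put in front -/
def tex (U : ℕ → Submodule Λ M) : ℕ → Submodule Λ M
  | 0 => ⊤
  | n + 1 => U n

/-- the dimensions of the members tend to zero -/
def Null [Dim Λ] [Fr Λ M] (U : ℕ → Submodule Λ M) : Prop := ∀ ε > 0, ∃ n, rho (U n) < ε

end

/-- every sequence with `rank (a n - a m) ≤ ε m` has a limit -/
def Complete (Λ : Type) [Ring Λ] [Dim Λ] : Prop :=
  ∀ (a : ℕ → E Λ) (ε : ℕ → ℝ), (∀ m n, m ≤ n → rho (range (a n - a m)) ≤ ε m) →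
    ∃ x : E Λ, ∀ m, rho (range (x - a m)) ≤ ε m

/-- a chain of idempotents of all rational ranks -/
structure Chain [Dim Λ] (s : ℚ → E Λ) : Prop where
  mul : ∀ q r, s q * s r = s (min q r)
  rk : ∀ q : ℚ, 0 ≤ q → q ≤ 1 → rho (range (s q)) = q

/-- the flag of the distinguished simple left module -/
def Zf (s : ℚ → E Λ) : ℕ → Submodule Λ Λ := fun n => range (s (1 / (n + 1)))

/-- the first increasing flag for right modules -/
def Ha (s : ℚ → E Λ) (k : ℕ) : Submodule Λ Λ := ker (s (1 / (k + 2)))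

/-- the second increasing flag for right modules -/
def Hb (s : ℚ → E Λ) (k : ℕ) : Submodule Λ Λ := range (s (1 - 1 / (k + 2)))

/-- the part of the ground set of a splitting step that comes before level `k` -/
def spB (P : Set (E Λ)) (y : ℕ → E Λ) (k : ℕ) : Set (E Λ) := P ∪ y '' Set.Iio (3 * k + 1)

variable [Algebra F Λ]

section
variable {M N : Type} [AddCommGroup M] [Module Λ M] [Fr Λ M] [AddCommGroup N] [Module Λ N]
  [Fr Λ N]

variable (Λ) in
/-- points with coordinates in the prime field -/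
def RatPt (ξ : M) : Prop :=
  ∀ i, ∃ c : F, (Fr.e : M ≃ₗ[Λ] (Fr.ι Λ M → Λ)) ξ i = algebraMap F Λ c

/-- maps whose matrix has entries in the prime field -/
def RatM (f : M →ₗ[Λ] N) : Prop := ∀ ξ, RatPt Λ ξ → RatPt Λ (f ξ)

end

/-- submodules definable from `P` -/
inductive Def (P : Set (E Λ)) : {M : Type} → [AddCommGroup M] → [Module Λ M] → [Fr Λ M] →
    Submodule Λ M → Prop
  | gr (a : E Λ) (h : a ∈ P) : Def P (graph a)
  | top (M : Type) [AddCommGroup M] [Module Λ M] [Fr Λ M] : Def P (⊤ : Submodule Λ M)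
  | inf {M : Type} [AddCommGroup M] [Module Λ M] [Fr Λ M] {H H' : Submodule Λ M} :
      Def P H → Def P H' → Def P (H ⊓ H')
  | map {M N : Type} [AddCommGroup M] [Module Λ M] [Fr Λ M] [AddCommGroup N] [Module Λ N] [Fr Λ N]
      (f : M →ₗ[Λ] N) (hf : RatM f) {H : Submodule Λ M} : Def P H → Def P (H.map f)
  | comap {M N : Type} [AddCommGroup M] [Module Λ M] [Fr Λ M] [AddCommGroup N] [Module Λ N]
      [Fr Λ N] (f : M →ₗ[Λ] N) (hf : RatM f) {H : Submodule Λ N} : Def P H → Def P (H.comap f)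

/-- `ζ ↦ ζ ⊗ w` -/
def tv (Λ : Type) [Ring Λ] [Algebra F Λ] {τ : Type} (w : τ → F) : Λ →ₗ[Λ] (τ → Λ) :=
  LinearMap.pi fun t => w t • LinearMap.id

/-- `U ⊗ W` inside `Λ ^ τ` -/
def ten {τ : Type} (U : Submodule Λ Λ) (W : Submodule F (τ → F)) : Submodule Λ (τ → Λ) :=
  ⨆ w ∈ W, U.map (tv Λ w)

open Classical in
/-- base change of a linear map from `F` to `Λ` -/
noncomputable def bc (Λ : Type) [Ring Λ] [Algebra F Λ] {σ τ : Type} [Fintype σ]
    (f : (σ → F) →ₗ[F] (τ → F)) : (σ → Λ) →ₗ[Λ] (τ → Λ) :=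
  ∑ s, tv Λ (f (Pi.single s 1)) ∘ₗ proj s

/-- `∑ n, V n ⊗ W n` -/
def XW {τ : Type} (V : ℕ → Submodule Λ Λ) (W : ℕ → Submodule F (τ → F)) :
    Submodule Λ (τ → Λ) := ⨆ n, ten (V n) (W n)

section
variable {M N : Type} [AddCommGroup M] [Module Λ M] [Fr Λ M] [AddCommGroup N] [Module Λ N]
  [Fr Λ N]

/-- maps with definable graph -/
def DM (P : Set (E Λ)) (f : M →ₗ[Λ] N) : Prop := Def P (graph f)

/-- decreasing sequences of definable submodules -/
def Fl (P : Set (E Λ)) (U : ℕ → Submodule Λ M) : Prop := (∀ n, Def P (U n)) ∧ Antitone U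

/-- the germ module of `U` is a quotient of the sum of the germ modules of the `Y i` -/
def Sem (P : Set (E Λ)) (U : ℕ → Submodule Λ M) {κ : Type} (Y : κ → ℕ → Submodule Λ Λ)
    (p : κ → M →ₗ[Λ] Λ) : Prop :=
  (∀ i, DM P (p i) ∧ Cont (p i) U (Y i)) ∧ ∃ n, ∀ ξ ∈ U n, (∀ i, p i ξ = 0) → ξ = 0

/-- `Sem` over a finite family of flags with the property `Q` -/
def SemQ (P : Set (E Λ)) (U : ℕ → Submodule Λ M) (Q : (ℕ → Submodule Λ Λ) → Prop) : Prop :=
  ∃ (κ : Type) (_ : Fintype κ) (Y : κ → ℕ → Submodule Λ Λ) (p : κ → M →ₗ[Λ] Λ),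
    (∀ i, Q (Y i)) ∧ Sem P U Y p

/-- on the germ of `U`, the `P'` definable submodules are `P` definable -/
def Loc (P P' : Set (E Λ)) (U : ℕ → Submodule Λ M) : Prop :=
  ∀ H : Submodule Λ M, Def P' H → ∃ D, Def P D ∧ D ≤ H ∧ ∃ n, H ⊓ U n ≤ D

/-- `D` is the largest `P` definable submodule of `H` -/
def Larg (P : Set (E Λ)) (H D : Submodule Λ M) : Prop :=
  Def P D ∧ D ≤ H ∧ ∀ D', Def P D' → D' ≤ H → D' ≤ D

end

/-- every definable submodule is the range of a definable projection -/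
def Reg (P : Set (E Λ)) : Prop :=
  ∀ (M : Type) [AddCommGroup M] [Module Λ M] [Fr Λ M] (H : Submodule Λ M), Def P H →
    ∃ π : M →ₗ[Λ] M, DM P π ∧ IsProj H π

/-- the germ module of `U` is simple -/
def Simple (P : Set (E Λ)) (U : ℕ → Submodule Λ Λ) : Prop :=
  (∀ n, U n ≠ ⊥) ∧ ∀ H : Submodule Λ Λ, Def P H → Big U H ∨ ∃ n, H ⊓ U n = ⊥

/-- the germ module of `U` has finitely many endomorphisms -/
def Tame (P : Set (E Λ)) (U : ℕ → Submodule Λ Λ) : Prop :=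
  ∃ A : Finset (E Λ), ∀ b : E Λ, DM P b → Cont b U U → ∃ a ∈ A, Zer (b - a) U

/-- simple and tame -/
def TS (P : Set (E Λ)) (U : ℕ → Submodule Λ Λ) : Prop := Simple P U ∧ Tame P U

/-- simple, with the basis `a` of the endomorphism ring -/
structure TSb (P : Set (E Λ)) (U : ℕ → Submodule Λ Λ) {f : ℕ} (a : Fin f → E Λ) : Prop where
  simple : Simple P U
  dm : ∀ i, DM P (a i)
  cont : ∀ i, Cont (a i) U U
  ind : ∀ c : Fin f → F, Zer (∑ i, c i • a i) U → c = 0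
  span : ∀ b : E Λ, DM P b → Cont b U U → ∃ c : Fin f → F, Zer (b - ∑ i, c i • a i) U

/-- no nonzero continuous definable map -/
def NoMap (P : Set (E Λ)) (U U' : ℕ → Submodule Λ Λ) : Prop :=
  ∀ b : E Λ, DM P b → Cont b U U' → Zer b U

/-- the germ module of `U` has no tame simple submodule -/
def GG (P : Set (E Λ)) (U : ℕ → Submodule Λ Λ) : Prop :=
  ∀ e : E Λ, DM P e → ¬ TS P (fmap e U)

/-- the germ module of `U` is simple as a bimodule over `P` and the infinite ring `I` -/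
structure BS (P : Set (E Λ)) (U : ℕ → Submodule Λ Λ) (I : Set (E Λ)) : Prop where
  dm : ∀ a ∈ I, DM P a
  cont : ∀ a ∈ I, Cont a U U
  mul : ∀ a ∈ I, ∀ b ∈ I, a * b ∈ I
  sub : ∀ a ∈ I, ∀ b ∈ I, a - b ∈ I
  inj : ∀ a ∈ I, Zer a U ∨ ∃ n, ker a ⊓ U n = ⊥
  inf : ∃ b : ℕ → E Λ, (∀ n, b n ∈ I) ∧ ∀ m n, m ≠ n → ¬ Zer (b m - b n) U
  bs : ∀ H : Submodule Λ Λ, Def P H → ¬ Big U H →
    ∃ A : Finset (E Λ), (∀ a ∈ A, a ∈ I) ∧ ∃ n, ∀ ξ ∈ U n, (∀ a ∈ A, a ξ ∈ H) → ξ = 0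

/-- every nonzero germ over `P'` generates a nonzero germ over `P` -/
def WLoc (P P' : Set (E Λ)) (U : ℕ → Submodule Λ Λ) : Prop :=
  ∀ H : Submodule Λ Λ, Def P' H → ¬ Big U H → ∃ D, Def P D ∧ ¬ Big U D ∧ ∃ n, H ⊓ U n ≤ D

/-- the germ module of `U` is not uniform -/
def Kill (P : Set (E Λ)) (U : ℕ → Submodule Λ Λ) : Prop :=
  ∃ z₁ z₂ : E Λ, DM P z₁ ∧ DM P z₂ ∧ ¬ Zer z₁ U ∧ ¬ Zer z₂ U ∧
    ∀ m, Big U ((U m ⊓ ker z₁) ⊔ (U m ⊓ ker z₂))

/-- the germ module of `U` is generated by copies of the distinguished simple module -/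
def SGen (s : ℚ → E Λ) (P : Set (E Λ)) (U : ℕ → Submodule Λ Λ) : Prop :=
  SemQ P U fun Y => Y = Zf s

/-- the invariant that gives two points on the right -/
def RPerp (s : ℚ → E Λ) (P : Set (E Λ)) : Prop :=
  ∀ Γ : Submodule Λ (Λ × Λ), Def P Γ → Γ.map (fst Λ Λ Λ) = ⊤ →
    ∃ k, ∀ ξ : Λ, (ξ, (0 : Λ)) ∈ Γ ⊔ (Ha s k).prod (Hb s k)

/-- every `P'` definable submodule of `Λ` has a largest `P` definable submodule -/
def MinO (P P' : Set (E Λ)) : Prop := ∀ H : Submodule Λ Λ, Def P' H → ∃ D, Larg P H D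

/-- properties of finite character -/
def Lim (φ : Set (E Λ) → Prop) : Prop :=
  ∀ P, (∀ A : Finset (E Λ), ↑A ⊆ P → ∃ P₁, ↑A ⊆ P₁ ∧ P₁ ⊆ P ∧ φ P₁) → φ P

open Classical in
/-- an enumeration of the definable submodules of `Λ`, when there is one -/
noncomputable def enum (P : Set (E Λ)) : ℕ → Submodule Λ Λ :=
  if h : ∃ u : ℕ → Submodule Λ Λ, ∀ H, Def P H → ∃ n, u n = H then h.choose else fun _ => ⊥

variable [Dim Λ]

/-- `y` is generic over `P` -/
def Free (P : Set (E Λ)) (y : E Λ) : Prop :=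
  ∀ (M : Type) [AddCommGroup M] [Module Λ M] [Fr Λ M] (τ : Type) [Fintype τ]
    (Γ : Submodule Λ (M × (τ → Λ) × (τ → Λ))), Def P Γ → ∃ W : Submodule F (τ → F),
      rho (Γ ⊓ gx M τ y) + Module.finrank F W ≤ rho (Γ ⊓ box M (ten ⊤ W) (ten ⊤ W))

/-- each `y n` is generic over `P` and the earlier ones -/
def FreeSeq (P : Set (E Λ)) (y : ℕ → E Λ) : Prop := ∀ n, Free (P ∪ y '' Set.Iio n) (y n)

/-- the lower bound for the dimension of `Γ ⊓ gx x` attached to `W` -/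
noncomputable def Phi {M τ : Type} [AddCommGroup M] [Module Λ M] [Fr Λ M] [Fintype τ]
    (V V' : ℕ → Submodule Λ Λ) (Γ : Submodule Λ (M × (τ → Λ) × (τ → Λ)))
    (W : ℕ → Submodule F (τ → F)) : ℝ :=
  rho (Γ ⊓ box M (XW V W) (XW V' W)) - rho (XW V' W)

/-- `W` is monotone and its bound is attained -/
def Tight {M τ : Type} [AddCommGroup M] [Module Λ M] [Fr Λ M] [Fintype τ] (x : E Λ)
    (V V' : ℕ → Submodule Λ Λ) (Γ : Submodule Λ (M × (τ → Λ) × (τ → Λ)))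
    (W : ℕ → Submodule F (τ → F)) : Prop :=
  Monotone W ∧ rho (Γ ⊓ gx M τ x) ≤ Phi V V' Γ W

/-- two null flags and a map from the first to the second -/
structure Tri (x : E Λ) (V V' : ℕ → Submodule Λ Λ) : Prop where
  fg : ∀ n, (V n).FG
  fg' : ∀ n, (V' n).FG
  anti : Antitone V
  anti' : Antitone V'
  null : Null V
  null' : Null V'
  maps : ∀ n, (V n).map x ≤ V' n

/-- `x` is generic over `P` among the maps with `x (V n) ≤ V' n` -/
structure Gen (P : Set (E Λ)) (x : E Λ) (V V' : ℕ → Submodule Λ Λ) : Prop where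
  tri : Tri x V V'
  dV : ∀ n, Def P (V n)
  dV' : ∀ n, Def P (V' n)
  tight : ∀ (M : Type) [AddCommGroup M] [Module Λ M] [Fr Λ M] (τ : Type) [Fintype τ]
    (Γ : Submodule Λ (M × (τ → Λ) × (τ → Λ))), Def P Γ → ∃ W, Tight x V V' Γ W

/-- `x` is the sum of the layers `e' n * y n * (e n - e (n + 1))` -/
def Lay (P : Set (E Λ)) (y : ℕ → E Λ) (V V' : ℕ → Submodule Λ Λ) (x : E Λ) : Prop :=
  ∃ e e' : ℕ → E Λ, (∀ n, DM P (e n) ∧ IsProj (V n) (e n)) ∧
    (∀ n, DM P (e' n) ∧ IsProj (V' n) (e' n)) ∧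
    ∀ m, rho (range (x - ∑ n ∈ Finset.range m, e' n * y n * (e n - e (n + 1)))) ≤ rho (V' m)

/-- endomorphisms whose graph is a limit of definable submodules -/
def Cl (P : Set (E Λ)) : Set (E Λ) :=
  {a | ∀ ε > 0, ∃ H : Submodule Λ (Λ × Λ), Def P H ∧ cork (graph a) H < ε ∧ cork H (graph a) < ε}

/-- definable submodules have rational dimension -/
def RatRk (P : Set (E Λ)) : Prop :=
  ∀ (M : Type) [AddCommGroup M] [Module Λ M] [Fr Λ M] (H : Submodule Λ M), Def P H →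
    ∃ q : ℚ, rho H = q

/-- `P` contains generic elements over its finite subsets -/
def Spare (s : ℚ → E Λ) (P : Set (E Λ)) : Prop :=
  ∀ A : Finset (E Λ), ↑A ⊆ P → ∃ y ∈ P, Free (Set.range s ∪ ↑A) y

/-- on small `P` definable submodules, `P'` defines nothing new -/
def Loc0 (P P' : Set (E Λ)) : Prop :=
  ∀ (M : Type) [AddCommGroup M] [Module Λ M] [Fr Λ M] (H : Submodule Λ M), Def P' H →
    ∃ D, Def P D ∧ D ≤ H ∧ ∃ δ > 0, ∀ U, Def P U → rho U < δ → H ⊓ U ≤ D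

/-- growth of codimensions along the flag -/
def KK (P : Set (E Λ)) (U : ℕ → Submodule Λ Λ) (g : ℕ → ℚ) : Prop :=
  ∀ H : Submodule Λ Λ, Def P H → ¬ Big U H → ∀ C : ℝ, ∃ N, ∀ j ≥ N, C * g j ≤ cork (U j) H

/-- the facts that pass to every generic extension -/
structure Pers0 (s : ℚ → E Λ) (P P' : Set (E Λ)) : Prop where
  min : MinO P P'
  rp : RPerp s P → RPerp s P'
  rat : RatRk P → RatRk P'

/-- the facts about null flags over `P₀` that pass from `P` to `P'` -/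
structure Pers (P₀ P P' : Set (E Λ)) (ok : (ℕ → Submodule Λ Λ) → Prop) : Prop where
  gg : ∀ Y, Fl P₀ Y → Null Y → GG P Y → GG P' Y
  bs : ∀ Y I, Fl P₀ Y → Null Y → BS P Y I → BS P' Y I
  kk : ∀ Y g, Fl P₀ Y → Null Y → GG P Y → KK P Y g → KK P' Y g
  ts : ∀ Y {f : ℕ} (a : Fin f → E Λ), Fl P₀ Y → Null Y → ok Y → TSb P Y a → TSb P' Y a
  nm : ∀ Y Y', Fl P₀ Y → Null Y → ok Y → TS P Y → Fl P₀ Y' → Null Y' → ok Y' → TS P Y' →
    NoMap P Y Y' → NoMap P' Y Y'

section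
variable {M : Type} [AddCommGroup M] [Module Λ M] [Fr Λ M] {σ : Type} [Fintype σ]

/-- local description of `H` near zero -/
structure RD (P : Set (E Λ)) (x : E Λ) (V : ℕ → Submodule Λ Λ) (H D : Submodule Λ M)
    (Γ : Submodule Λ (M × (σ → Λ) × (σ → Λ))) : Prop where
  fg : H.FG
  dD : Def P D
  dΓ : Def P Γ
  le : D ≤ H
  fib : ∀ ξ, (ξ, (0 : σ → Λ), (0 : σ → Λ)) ∈ Γ ↔ ξ ∈ D
  loc : ∀ N, ∃ δ > 0, ∀ U, Def P U → rho U < δ → ∀ ξ ∈ H ⊓ U,
    ∃ η ∈ pw σ (V N), (ξ, η, dg σ x η) ∈ Γ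

/-- strictness of the local description -/
def Strict (V V' : ℕ → Submodule Λ Λ) (Γ : Submodule Λ (M × (σ → Λ) × (σ → Λ))) : Prop :=
  ∃ N, ∀ k ≥ N, ∀ W : Submodule F (σ → F), W ≠ ⊥ →
    rho (Γ.comap (inr Λ M _) ⊓ (ten (V k) W).prod (ten (V' k) W)) <
      Module.finrank F W * rho (V' k)

omit [Fr Λ M] [Fintype σ] [Dim Λ] in
/-- the consequence of strictness used for splitting steps -/
def Str2 (U : ℕ → Submodule Λ Λ) (c : E Λ) (Γ : Submodule Λ (M × (σ → Λ) × (σ → Λ))) : Prop :=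
  ∀ w : σ → F, w ≠ 0 → ∀ j, (¬ ∀ ζ ∈ U j, ((0 : M), tv Λ w ζ, (0 : σ → Λ)) ∈ Γ) ∧
    ¬ ∀ ζ ∈ U j, ((0 : M), (0 : σ → Λ), tv Λ w ζ) ∈ Γ ∧
      ((0 : M), (0 : σ → Λ), tv Λ w (c ζ)) ∈ Γ

omit [Fr Λ M] [Fintype σ] [Dim Λ] in
/-- the type of a map with respect to a local description -/
def Typ (U : ℕ → Submodule Λ Λ) (c : E Λ) (Γ : Submodule Λ (M × (σ → Λ) × (σ → Λ)))
    (h : Λ →ₗ[Λ] M) (w : (σ → F) × (σ → F) × (σ → F)) : Prop :=
  ∃ j, ∀ ζ ∈ U j, (h ζ, tv Λ w.1 ζ, tv Λ w.2.1 ζ + tv Λ w.2.2 (c ζ)) ∈ Γ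

/-- the local alternative of a splitting step -/
structure SL (P : Set (E Λ)) (y : ℕ → E Λ) (U : ℕ → Submodule Λ Λ) (g : ℕ → ℚ)
    (H D : Submodule Λ M) (𝒞 : Finset (Λ →ₗ[Λ] M)) (C : ℝ) : Prop where
  dD : Def (P ∪ Set.range y) D
  le : D ≤ H
  dm : ∀ h ∈ 𝒞, DM (P ∪ Set.range y) h
  nz : ∀ h ∈ 𝒞, ¬ Big U (D.comap h)
  alt : ∀ k N, ∃ δ > 0, ∀ Y, Def (spB P y k) Y → rho Y < δ → H ⊓ Y ≤ D ∨ ∃ j ≥ N, ∃ h ∈ 𝒞,
    cork (U j) ((Y ⊔ D).comap h) ≤ C * g j ∧ rho (H ⊓ Y) - rho (D ⊓ Y) ≤ C * g j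

end

/-- setting of a merging step -/
structure MgSet (P : Set (E Λ)) (x : E Λ) (V V' : ℕ → Submodule Λ Λ) {f : ℕ} (a : Fin f → E Λ) :
    Prop where
  gen : Gen P x V V'
  ts : TSb P V a
  inv : ∀ k i, (V (k + 1)).map (a i) ≤ V (k + 1)
  rk : ∀ k, rho (V (k + 1)) = f * rho (V' (k + 1))
  top : V' 0 = ⊤

/-- source flag of a splitting step -/
def spV (s : ℚ → E Λ) (U : ℕ → Submodule Λ Λ) (g : ℕ → ℚ) (e y : ℕ → E Λ) :
    ℕ → Submodule Λ Λ :=
  tex fun k => range (e k * y (3 * k + 3) * s (g k)) ⊔ U (k + 1)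

/-- target flag of a splitting step -/
def spV' (s : ℚ → E Λ) (U : ℕ → Submodule Λ Λ) (g : ℕ → ℚ) (e y : ℕ → E Λ) :
    ℕ → Submodule Λ Λ :=
  tex fun k => (range (e k * y (3 * k + 2) * s (g k / 4)) ⊔ U (k + 1)) ⊔
    (range (e k * y (3 * k + 1) * s (g k / 4)) ⊔ U (k + 1)).map (y 0)

/-- numerical data of a splitting step -/
structure SpNum (P : Set (E Λ)) (U : ℕ → Submodule Λ Λ) (g : ℕ → ℚ) (e : ℕ → E Λ) : Prop where
  fl : Fl P U
  ne : ∀ k, U k ≠ ⊥
  proj : ∀ k, DM P (e k) ∧ IsProj (U k) (e k)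
  half : 2 * rho (U 0) ≤ 1
  pos : ∀ k, 0 < g k
  le : ∀ k, g k ≤ rho (U k)
  next : ∀ k : ℕ, (k + 6) * rho (U (k + 1)) ≤ g k

/-- setting of a splitting step -/
structure SpSet (s : ℚ → E Λ) (P : Set (E Λ)) (y : ℕ → E Λ) (U : ℕ → Submodule Λ Λ) (g : ℕ → ℚ)
    (e : ℕ → E Λ) (x : E Λ) : Prop where
  chain : Chain s
  base : Set.range s ⊆ P
  num : SpNum P U g e
  free : FreeSeq P y
  reg : Reg (P ∪ Set.range y)
  gen : Gen (P ∪ Set.range y) x (spV s U g e y) (spV' s U g e y)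

end Pool.Agent.Work.MP_c4093f_al.Z
end

-- merged part: Pool.Agent.Work.MP_c4093f_al.Z.Rho1
section
/-!
Calculus of the dimension function `rho` on framed modules.

Plan.  `rho_map_add`, `rho_mono`, `eq_bot_of_rho`, `exists_compl`: transport the fields of `Dim`
along the frames (`f` becomes `e ∘ f ∘ e.symm`).  `rho_bot`: `rho_map_add` with `H = ⊥`.
`rho_prod`: `rho_map_add` for `fst`, the kernel part `⊥.prod H'` goes injectively onto `H'` by
`snd`.  `rho_sup_add_inf`: `rho_map_add` for `coprod id id` on `A.prod B`.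
`rho_pi`: induction on a finset of coordinates (submodule of the families supported in it).
`eq_of_le_of_rho_le`: take a complement `C` of `A`; `rho (B ⊓ C) = 0`, then the modular law.
`fg_ker`: the range is a summand (`exists_proj`), hence projective, so `f` has a linear section
`σ` on its range and `ker f` is the range of `1 - σ f`.  `fg_inf`, `fg_comap`: a finitely generated
`B` is the kernel of `1 - π`, and `A ⊓ ker g = π_A '' ker (g π_A)`.
`cork_triangle`: modular law for `A ⊓ B` and `B ⊓ C` inside `B`.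
-/

namespace Pool.Agent.Work.MP_c4093f_al.Z

open LinearMap

variable {Λ : Type} [Ring Λ] {M N : Type} [AddCommGroup M] [Module Λ M] [Fr Λ M]
  [AddCommGroup N] [Module Λ N] [Fr Λ N]

theorem fg_top : (⊤ : Submodule Λ M).FG :=
  (Module.Finite.equiv (Fr.e : M ≃ₗ[Λ] (Fr.ι Λ M → Λ)).symm).fg_top

theorem fg_range (f : M →ₗ[Λ] N) : (range f).FG := by
  rw [range_eq_map]
  exact fg_top.map f

theorem fg_graph (f : M →ₗ[Λ] N) : (graph f).FG := by
  rw [graph_eq_range_prod]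
  exact fg_range _

theorem fg_pi {σ : Type} [Fintype σ] {U : σ → Submodule Λ M} (h : ∀ s, (U s).FG) :
    (Submodule.pi Set.univ U).FG := Submodule.fg_pi h

variable [Dim Λ]

theorem rho_map_add (f : M →ₗ[Λ] N) (H : Submodule Λ M) :
    rho (H.map f) + rho (H ⊓ ker f) = rho H := by
  have h := Dim.map (Λ := Λ) ((Fr.e : N ≃ₗ[Λ] (Fr.ι Λ N → Λ)).toLinearMap ∘ₗ f ∘ₗ
    (Fr.e : M ≃ₗ[Λ] (Fr.ι Λ M → Λ)).symm.toLinearMap)
    (H.map (Fr.e : M ≃ₗ[Λ] (Fr.ι Λ M → Λ)).toLinearMap)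
  have h1 : (H.map (Fr.e : M ≃ₗ[Λ] (Fr.ι Λ M → Λ)).toLinearMap).map
      ((Fr.e : N ≃ₗ[Λ] (Fr.ι Λ N → Λ)).toLinearMap ∘ₗ f ∘ₗ
        (Fr.e : M ≃ₗ[Λ] (Fr.ι Λ M → Λ)).symm.toLinearMap) =
      (H.map f).map (Fr.e : N ≃ₗ[Λ] (Fr.ι Λ N → Λ)).toLinearMap := by
    rw [← Submodule.map_comp, ← Submodule.map_comp]
    congr 1
    ext ξ
    simp
  have h2 : H.map (Fr.e : M ≃ₗ[Λ] (Fr.ι Λ M → Λ)).toLinearMap ⊓
      ker ((Fr.e : N ≃ₗ[Λ] (Fr.ι Λ N → Λ)).toLinearMap ∘ₗ f ∘ₗ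
        (Fr.e : M ≃ₗ[Λ] (Fr.ι Λ M → Λ)).symm.toLinearMap) =
      (H ⊓ ker f).map (Fr.e : M ≃ₗ[Λ] (Fr.ι Λ M → Λ)).toLinearMap := by
    ext η
    simp only [Submodule.mem_inf, Submodule.mem_map_equiv, mem_ker, comp_apply,
      LinearEquiv.coe_coe, LinearEquiv.map_eq_zero_iff]
  rw [h1, h2] at h
  exact h

theorem rho_mono {A B : Submodule Λ M} (h : A ≤ B) : rho A ≤ rho B :=
  Dim.mono (Submodule.map_mono h)

@[simp] theorem rho_bot : rho (⊥ : Submodule Λ M) = 0 := by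
  have h := rho_map_add (LinearMap.id : M →ₗ[Λ] M) ⊥
  rw [Submodule.map_bot, bot_inf_eq] at h
  linarith

theorem rho_nonneg (A : Submodule Λ M) : 0 ≤ rho A := rho_bot (Λ := Λ) (M := M) ▸ rho_mono bot_le

@[simp] theorem rho_top_self : rho (⊤ : Submodule Λ Λ) = 1 := by
  rw [rho, Submodule.map_top, LinearEquiv.range]
  exact Dim.top

theorem rho_le_one (A : Submodule Λ Λ) : rho A ≤ 1 := rho_top_self (Λ := Λ) ▸ rho_mono le_top

theorem eq_bot_of_rho {A : Submodule Λ M} (h : rho A ≤ 0) : A = ⊥ :=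
  (Submodule.map_eq_bot_iff (e := (Fr.e : M ≃ₗ[Λ] (Fr.ι Λ M → Λ)))).1 (Dim.faith h)

theorem rho_pos {A : Submodule Λ M} (h : A ≠ ⊥) : 0 < rho A :=
  lt_of_not_ge fun k => h (eq_bot_of_rho k)

theorem top_ne_bot_self : (⊤ : Submodule Λ Λ) ≠ ⊥ := fun h => by
  have h1 := rho_top_self (Λ := Λ)
  rw [h, rho_bot] at h1
  exact zero_ne_one h1

theorem exists_compl {A : Submodule Λ M} (h : A.FG) : ∃ C, IsCompl A C := by
  obtain ⟨C, hC⟩ := Dim.compl (h.map (Fr.e : M ≃ₗ[Λ] (Fr.ι Λ M → Λ)).toLinearMap)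
  refine ⟨(Submodule.orderIsoMapComap (Fr.e : M ≃ₗ[Λ] (Fr.ι Λ M → Λ))).symm C, ?_⟩
  rw [(Submodule.orderIsoMapComap (Fr.e : M ≃ₗ[Λ] (Fr.ι Λ M → Λ))).isCompl_iff,
    OrderIso.apply_symm_apply]
  exact hC

theorem exists_proj {A : Submodule Λ M} (h : A.FG) : ∃ π : M →ₗ[Λ] M, IsProj A π := by
  obtain ⟨C, hC⟩ := exists_compl h
  exact ⟨A.projection C hC, fun x => Submodule.projection_apply_mem hC x,
    fun x hx => Submodule.projection_apply_left hC ⟨x, hx⟩⟩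

theorem rho_map_le (f : M →ₗ[Λ] N) (A : Submodule Λ M) : rho (A.map f) ≤ rho A := by
  linarith [rho_map_add f A, rho_nonneg (A ⊓ ker f)]

theorem rho_map_of_inj (f : M →ₗ[Λ] N) {A : Submodule Λ M} (h : ∀ ξ ∈ A, f ξ = 0 → ξ = 0) :
    rho (A.map f) = rho A := by
  have h1 := rho_map_add f A
  rwa [(Submodule.eq_bot_iff (A ⊓ ker f)).2 fun ξ k => h ξ k.1 k.2, rho_bot, add_zero] at h1

theorem rho_le_of_inj (f : M →ₗ[Λ] N) {A : Submodule Λ M} {B : Submodule Λ N}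
    (h : ∀ ξ ∈ A, f ξ = 0 → ξ = 0) (hB : ∀ ξ ∈ A, f ξ ∈ B) : rho A ≤ rho B := by
  rw [← rho_map_of_inj f h]
  exact rho_mono (Submodule.map_le_iff_le_comap.2 hB)

theorem rho_le_of_onto (f : M →ₗ[Λ] N) {A : Submodule Λ M} {B : Submodule Λ N}
    (h : ∀ η ∈ B, ∃ ξ ∈ A, f ξ = η) : rho B ≤ rho A :=
  (rho_mono (A := B) (B := A.map f) h).trans (rho_map_le f A)

theorem rho_range_add_ker (f : M →ₗ[Λ] N) :
    rho (range f) + rho (ker f) = rho (⊤ : Submodule Λ M) := by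
  have h := rho_map_add f ⊤
  rwa [Submodule.map_top, top_inf_eq] at h

theorem rho_prod (A : Submodule Λ M) (B : Submodule Λ N) : rho (A.prod B) = rho A + rho B := by
  have h := rho_map_add (fst Λ M N) (A.prod B)
  have h1 := rho_map_of_inj (snd Λ M N) (A := A.prod B ⊓ ker (fst Λ M N))
    fun ξ k k' => Prod.ext k.2 k'
  have h2 : (A.prod B ⊓ ker (fst Λ M N)).map (snd Λ M N) = B := by
    apply le_antisymm
    · rintro _ ⟨ξ, k, rfl⟩
      exact k.1.2
    · intro η k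
      exact ⟨(0, η), ⟨⟨A.zero_mem, k⟩, rfl⟩, rfl⟩
  rw [Submodule.prod_map_fst] at h
  rw [h2] at h1
  linarith

theorem rho_sup_add_inf (A B : Submodule Λ M) : rho (A ⊔ B) + rho (A ⊓ B) = rho A + rho B := by
  have h := rho_map_add ((LinearMap.id : M →ₗ[Λ] M).coprod LinearMap.id) (A.prod B)
  have h1 := rho_map_of_inj (fst Λ M M)
    (A := A.prod B ⊓ ker ((LinearMap.id : M →ₗ[Λ] M).coprod LinearMap.id)) fun ξ k k' => by
      have k1 : ξ.1 + ξ.2 = 0 := k.2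
      have k2 : ξ.1 = 0 := k'
      rw [k2, zero_add] at k1
      exact Prod.ext k2 k1
  have h2 : (A.prod B ⊓ ker ((LinearMap.id : M →ₗ[Λ] M).coprod LinearMap.id)).map (fst Λ M M) =
      A ⊓ B := by
    apply le_antisymm
    · rintro _ ⟨ξ, k, rfl⟩
      have k1 : ξ.1 + ξ.2 = 0 := k.2
      refine ⟨k.1.1, ?_⟩
      change ξ.1 ∈ B
      rw [eq_neg_of_add_eq_zero_left k1]
      exact B.neg_mem k.1.2
    · intro η k
      exact ⟨(η, -η), ⟨⟨k.1, B.neg_mem k.2⟩, add_neg_cancel η⟩, rfl⟩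
  rw [map_coprod_prod, Submodule.map_id, Submodule.map_id, rho_prod] at h
  rw [h2] at h1
  linarith

theorem rho_sup_le (A B : Submodule Λ M) : rho (A ⊔ B) ≤ rho A + rho B := by
  linarith [rho_sup_add_inf A B, rho_nonneg (A ⊓ B)]

theorem rho_pi {σ : Type} [Fintype σ] (U : σ → Submodule Λ M) :
    rho (Submodule.pi Set.univ U) = ∑ s, rho (U s) := by
  classical
  have key : ∀ t : Finset σ,
      rho (Submodule.pi Set.univ fun s => if s ∈ t then U s else ⊥) = ∑ s ∈ t, rho (U s) := by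
    intro t
    induction t using Finset.induction_on with
    | empty =>
      rw [Finset.sum_empty, ← rho_bot (Λ := Λ) (M := σ → M)]
      congr 1
      refine (Submodule.eq_bot_iff _).2 fun ξ k => funext fun s => ?_
      simpa using k s trivial
    | insert a t ha ih =>
      have h := rho_map_add (proj a : (σ → M) →ₗ[Λ] M)
        (Submodule.pi Set.univ fun s => if s ∈ insert a t then U s else ⊥)
      have h1 : (Submodule.pi Set.univ fun s => if s ∈ insert a t then U s else ⊥).map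
          (proj a : (σ → M) →ₗ[Λ] M) = U a := by
        apply le_antisymm
        · rintro _ ⟨ξ, k, rfl⟩
          simpa using k a trivial
        · intro η k
          refine ⟨Pi.single a η, fun s _ => ?_, by simp⟩
          by_cases hs : s = a
          · subst hs
            simpa using k
          · rw [Pi.single_eq_of_ne hs]
            exact Submodule.zero_mem _
      have h2 : (Submodule.pi Set.univ fun s => if s ∈ insert a t then U s else ⊥) ⊓
          ker (proj a : (σ → M) →ₗ[Λ] M) =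
          Submodule.pi Set.univ fun s => if s ∈ t then U s else ⊥ := by
        apply le_antisymm
        · rintro ξ ⟨k, k'⟩ s _
          have k1 : ξ a = 0 := k'
          by_cases hs : s = a
          · rw [hs, k1]
            exact Submodule.zero_mem _
          · simpa [hs] using k s trivial
        · intro ξ k
          have k1 : ξ a = 0 := by simpa [ha] using k a trivial
          refine ⟨fun s _ => ?_, k1⟩
          by_cases hs : s = a
          · rw [hs, k1]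
            exact Submodule.zero_mem _
          · simpa [hs] using k s trivial
      rw [h1, h2, ih] at h
      rw [Finset.sum_insert ha, h]
  simpa using key Finset.univ

theorem rho_pw (σ : Type) [Fintype σ] (U : Submodule Λ M) :
    rho (pw σ U) = Fintype.card σ * rho U := by
  rw [pw, rho_pi, Finset.sum_const, Finset.card_univ, nsmul_eq_mul]

theorem rho_inf_comap (f : M →ₗ[Λ] N) (A : Submodule Λ M) (B : Submodule Λ N) :
    rho (A ⊓ B.comap f) = rho (A ⊓ ker f) + rho (A.map f ⊓ B) := by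
  have h := rho_map_add f (A ⊓ B.comap f)
  rw [← Submodule.map_inf_eq_map_inf_comap, inf_assoc,
    inf_eq_right.2 (ker_le_comap f : ker f ≤ B.comap f)] at h
  linarith

theorem rho_inf_comap_sup (f : M →ₗ[Λ] N) (A : Submodule Λ M) (X Y : Submodule Λ N) :
    rho (A ⊓ (X ⊔ Y).comap f) ≤ rho (A ⊓ X.comap f) + rho Y := by
  rw [rho_inf_comap, rho_inf_comap]
  have h1 := rho_sup_add_inf (A.map f ⊓ (X ⊔ Y)) X
  have h2 : rho (A.map f ⊓ (X ⊔ Y) ⊔ X) ≤ rho (X ⊔ Y) :=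
    rho_mono (sup_le inf_le_right le_sup_left)
  have h3 : rho (A.map f ⊓ (X ⊔ Y) ⊓ X) ≤ rho (A.map f ⊓ X) :=
    rho_mono (inf_le_inf_right _ inf_le_left)
  linarith [rho_sup_le X Y]

theorem rho_le_inf_ker_add (f : M →ₗ[Λ] N) (A : Submodule Λ M) {B : Submodule Λ N}
    (h : ∀ ξ ∈ A, f ξ ∈ B) : rho A ≤ rho (A ⊓ ker f) + rho B := by
  have h1 : rho (A.map f) ≤ rho B := rho_mono (Submodule.map_le_iff_le_comap.2 h)
  linarith [rho_map_add f A]

end Pool.Agent.Work.MP_c4093f_al.Z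
end

-- merged part: Pool.Agent.Work.MP_c4093f_al.Z.Rho
section
/-!
Calculus of the dimension function `rho` on framed modules.

Plan.  `rho_map_add`, `rho_mono`, `eq_bot_of_rho`, `exists_compl`: transport the fields of `Dim`
along the frames (`f` becomes `e ∘ f ∘ e.symm`).  `rho_bot`: `rho_map_add` with `H = ⊥`.
`rho_prod`: `rho_map_add` for `fst`, the kernel part `⊥.prod H'` goes injectively onto `H'` by
`snd`.  `rho_sup_add_inf`: `rho_map_add` for `coprod id id` on `A.prod B`.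
`rho_pi`: induction on a finset of coordinates (submodule of the families supported in it).
`eq_of_le_of_rho_le`: take a complement `C` of `A`; `rho (B ⊓ C) = 0`, then the modular law.
`fg_ker`: the range is a summand (`exists_proj`), hence projective, so `f` has a linear section
`σ` on its range and `ker f` is the range of `1 - σ f`.  `fg_inf`, `fg_comap`: a finitely generated
`B` is the kernel of `1 - π`, and `A ⊓ ker g = π_A '' ker (g π_A)`.
`cork_triangle`: modular law for `A ⊓ B` and `B ⊓ C` inside `B`.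
-/

namespace Pool.Agent.Work.MP_c4093f_al.Z

open LinearMap

variable {Λ : Type} [Ring Λ] [Dim Λ] {M N : Type} [AddCommGroup M] [Module Λ M] [Fr Λ M]
  [AddCommGroup N] [Module Λ N] [Fr Λ N]

theorem rho_graph (f : M →ₗ[Λ] N) : rho (graph f) = rho (⊤ : Submodule Λ M) := by
  rw [graph_eq_range_prod, range_eq_map]
  refine rho_map_of_inj _ fun ξ _ h => ?_
  simpa using congrArg Prod.fst h

theorem rho_range_add_le (f g : M →ₗ[Λ] N) :
    rho (range (f + g)) ≤ rho (range f) + rho (range g) := by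
  refine le_trans (rho_mono ?_) (rho_sup_le _ _)
  rintro _ ⟨x, rfl⟩
  exact Submodule.add_mem_sup (mem_range_self f x) (mem_range_self g x)

theorem rho_range_dg (τ : Type) [Fintype τ] (a : E Λ) :
    rho (range (dg τ a)) = Fintype.card τ * rho (range a) := by
  rw [← rho_pw]
  congr 1
  ext η
  constructor
  · rintro ⟨ξ, rfl⟩ t _
    exact ⟨ξ t, rfl⟩
  · intro h
    choose ξ hξ using fun t => h t (Set.mem_univ t)
    exact ⟨ξ, funext hξ⟩

theorem eq_of_le_of_rho_le {A B : Submodule Λ M} (hA : A.FG) (h : A ≤ B) (hr : rho B ≤ rho A) :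
    A = B := by
  obtain ⟨C, hC⟩ := exists_compl hA
  have h1 : A ⊔ C ⊓ B = B := by
    rw [← sup_inf_assoc_of_le C h, hC.sup_eq_top, top_inf_eq]
  have h2 : A ⊓ (C ⊓ B) = ⊥ := by
    rw [← inf_assoc, hC.inf_eq_bot, bot_inf_eq]
  have h3 := rho_sup_add_inf A (C ⊓ B)
  rw [h1, h2, rho_bot] at h3
  have h4 : C ⊓ B = ⊥ := eq_bot_of_rho (by linarith)
  rw [h4, sup_bot_eq] at h1
  exact h1

theorem eq_bot_of_null {V : ℕ → Submodule Λ M} (hV : Null V) {A : Submodule Λ M}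
    (h : ∀ n, A ≤ V n) : A = ⊥ := by
  refine eq_bot_of_rho (le_of_forall_pos_le_add fun ε hε => ?_)
  obtain ⟨n, hn⟩ := hV ε hε
  have := rho_mono (h n)
  linarith

theorem fg_ker (f : M →ₗ[Λ] N) : (ker f).FG := by
  obtain ⟨π, hπ⟩ := exists_proj (fg_range f)
  haveI : Module.Projective Λ N :=
    Module.Projective.of_equiv (Fr.e : N ≃ₗ[Λ] (Fr.ι Λ N → Λ)).symm
  obtain ⟨σ, hσ⟩ := Module.projective_lifting_property f.rangeRestrict
    (π.codRestrict (range f) hπ.map_mem) f.surjective_rangeRestrict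
  have hs : ∀ y, f (σ y) = π y := fun y => by
    simpa using congrArg Subtype.val (LinearMap.congr_fun hσ y)
  have : ker f = range (LinearMap.id - σ ∘ₗ f) := by
    ext x
    constructor
    · intro hx
      refine ⟨x, ?_⟩
      rw [mem_ker] at hx
      simp [hx]
    · rintro ⟨y, rfl⟩
      rw [mem_ker]
      simp [hs, hπ.map_id _ (mem_range_self f y)]
  rw [this]
  exact fg_range _

theorem fg_inf {A B : Submodule Λ M} (hA : A.FG) (hB : B.FG) : (A ⊓ B).FG := by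
  obtain ⟨p, hp⟩ := exists_proj hA
  obtain ⟨q, hq⟩ := exists_proj hB
  have : A ⊓ B = (ker ((LinearMap.id - q) ∘ₗ p)).map p := by
    ext x
    constructor
    · rintro ⟨ha, hb⟩
      refine ⟨x, ?_, hp.map_id x ha⟩
      simp [hp.map_id x ha, hq.map_id x hb]
    · rintro ⟨y, hy, rfl⟩
      refine ⟨hp.map_mem y, ?_⟩
      have h1 : p y = q (p y) := by simpa [sub_eq_zero] using hy
      rw [h1]
      exact hq.map_mem _
  rw [this]
  exact (fg_ker _).map p

theorem fg_comap (f : M →ₗ[Λ] N) {B : Submodule Λ N} (hB : B.FG) : (B.comap f).FG := by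
  obtain ⟨q, hq⟩ := exists_proj hB
  have : B.comap f = ker ((LinearMap.id - q) ∘ₗ f) := by
    ext x
    constructor
    · intro hx
      simp [hq.map_id (f x) hx]
    · intro hx
      have h1 : f x = q (f x) := by simpa [sub_eq_zero] using hx
      rw [Submodule.mem_comap, h1]
      exact hq.map_mem _
  rw [this]
  exact fg_ker _

theorem cork_nonneg (A B : Submodule Λ M) : 0 ≤ cork A B := by
  exact sub_nonneg.2 (rho_mono inf_le_left)

theorem cork_le (A B : Submodule Λ M) : cork A B ≤ rho A := by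
  have := rho_nonneg (A ⊓ B)
  unfold cork
  linarith

theorem cork_eq_sup (A B : Submodule Λ M) : cork A B = rho (A ⊔ B) - rho B := by
  have := rho_sup_add_inf A B
  unfold cork
  linarith

theorem cork_of_le {A B : Submodule Λ M} (h : A ≤ B) : cork A B = 0 := by
  unfold cork
  rw [inf_of_le_left h, sub_self]

theorem cork_pos {A B : Submodule Λ M} (hA : A.FG) (hB : B.FG) (h : ¬ A ≤ B) : 0 < cork A B := by
  by_contra hc
  have h1 : rho A ≤ rho (A ⊓ B) := by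
    unfold cork at hc
    linarith
  exact h (inf_eq_left.1 (eq_of_le_of_rho_le (fg_inf hA hB) inf_le_left h1))

theorem cork_triangle (A B C : Submodule Λ M) : cork A C ≤ cork A B + cork B C := by
  have h1 := rho_sup_add_inf (A ⊓ B) (B ⊓ C)
  have h2 : rho (A ⊓ B ⊔ B ⊓ C) ≤ rho B := rho_mono (sup_le inf_le_right inf_le_left)
  have h3 : rho (A ⊓ B ⊓ (B ⊓ C)) ≤ rho (A ⊓ C) :=
    rho_mono (inf_le_inf inf_le_left inf_le_right)
  unfold cork
  linarith

theorem cork_mono_left {A A' : Submodule Λ M} (h : A ≤ A') (B : Submodule Λ M) :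
    cork A B ≤ cork A' B := by
  rw [cork_eq_sup, cork_eq_sup]
  exact sub_le_sub_right (rho_mono (sup_le_sup_right h B)) _

theorem cork_mono_right (A : Submodule Λ M) {B B' : Submodule Λ M} (h : B ≤ B') :
    cork A B' ≤ cork A B := by
  exact sub_le_sub_left (rho_mono (inf_le_inf_left A h)) _

theorem cork_map (f : M →ₗ[Λ] N) (A B : Submodule Λ M) : cork (A.map f) (B.map f) ≤ cork A B := by
  have h1 := rho_map_add f A
  have h2 := rho_map_add f (A ⊓ B)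
  have h3 : rho ((A ⊓ B).map f) ≤ rho (A.map f ⊓ B.map f) := rho_mono (Submodule.map_inf_le f)
  have h4 : rho (A ⊓ B ⊓ ker f) ≤ rho (A ⊓ ker f) := rho_mono (inf_le_inf_right _ inf_le_left)
  unfold cork
  linarith

theorem cork_comap (f : M →ₗ[Λ] N) (A B : Submodule Λ N) :
    cork (A.comap f) (B.comap f) ≤ cork A B := by
  have h1 := rho_inf_comap f ⊤ A
  have h2 := rho_inf_comap f ⊤ (A ⊓ B)
  have h3 := cork_mono_left (inf_le_right : (⊤ : Submodule Λ M).map f ⊓ A ≤ A) B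
  rw [top_inf_eq] at h1 h2
  unfold cork at h3 ⊢
  rw [← Submodule.comap_inf]
  rw [inf_assoc] at h3
  linarith

theorem cork_inf_inf (A B A' B' : Submodule Λ M) :
    cork (A ⊓ A') (B ⊓ B') ≤ cork A B + cork A' B' := by
  have h1 := cork_triangle (A ⊓ A') (B ⊓ A') (B ⊓ B')
  have h2 := cork_mono_left (inf_le_left : A ⊓ A' ≤ A) B
  have h3 := cork_mono_left (inf_le_right : B ⊓ A' ≤ A') B'
  have e1 : A ⊓ A' ⊓ (B ⊓ A') = A ⊓ A' ⊓ B := by
    ext x
    simp only [Submodule.mem_inf]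
    tauto
  have e2 : B ⊓ A' ⊓ (B ⊓ B') = B ⊓ A' ⊓ B' := by
    ext x
    simp only [Submodule.mem_inf]
    tauto
  unfold cork at *
  rw [e1, e2] at h1
  linarith

theorem cork_comap_le (f : M →ₗ[Λ] N) (X : Submodule Λ M) (A B : Submodule Λ N) :
    cork X (B.comap f) ≤ cork X (A.comap f) + cork A B := by
  have h1 := cork_triangle X (A.comap f) (B.comap f)
  have h2 := cork_comap f A B
  linarith

theorem cork_graph (f g : M →ₗ[Λ] N) : cork (graph f) (graph g) = rho (range (f - g)) := by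
  have e : graph f ⊓ graph g = (ker (f - g)).map (LinearMap.id.prod f) := by
    ext ⟨x, y⟩
    constructor
    · rintro ⟨h1, h2⟩
      have h1' : y = f x := h1
      have h2' : y = g x := h2
      refine ⟨x, ?_, ?_⟩
      · simp [← h1', ← h2']
      · simp [h1']
    · rintro ⟨z, hz, h⟩
      have h1 : z = x := congrArg Prod.fst h
      have h2 : f z = y := congrArg Prod.snd h
      have h3 : f z = g z := by simpa [sub_eq_zero] using hz
      subst h1
      exact ⟨h2.symm, h2.symm.trans h3⟩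
  have h1 : rho ((ker (f - g)).map (LinearMap.id.prod f)) = rho (ker (f - g)) :=
    rho_map_of_inj _ fun ξ _ h => by simpa using congrArg Prod.fst h
  have h2 := rho_range_add_ker (f - g)
  unfold cork
  rw [e, h1, rho_graph]
  linarith

theorem cork_top_prod (A : Submodule Λ M) (B : Submodule Λ N) :
    cork ⊤ (A.prod B) = cork ⊤ A + cork ⊤ B := by
  have h := rho_prod (⊤ : Submodule Λ M) (⊤ : Submodule Λ N)
  rw [Submodule.prod_top] at h
  unfold cork
  rw [top_inf_eq, top_inf_eq, top_inf_eq, rho_prod, h]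
  ring

end Pool.Agent.Work.MP_c4093f_al.Z
end

-- merged part: Pool.Agent.Work.MP_c4093f_al.Z.DefApi1
section
/-!
Closure properties of rational maps, definable submodules and definable maps.

Plan.  `RatPt` unfolds by `rfl` on products and powers.  `Def.prod`: `comap fst ⊓ comap snd`.
`Def.sup`: image of `A.prod B` under `coprod id id`.  `Def.bot`: image of `⊤` under `0`.
`RatM.dm`: the graph is the image of `⊤` under `prod id f`.  `Def.mapD`: image of
`graph f ⊓ comap fst H` under `snd`.  `DM.comp`: project the set of triples.  `Def.fg`,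
`Def.finite`, `Def.of_dm`: induction on `Def` (see `Def.mono`).
-/

namespace Pool.Agent.Work.MP_c4093f_al.Z

open LinearMap

variable {Λ : Type} [Ring Λ] [Algebra F Λ] {M N K L : Type} [AddCommGroup M] [Module Λ M] [Fr Λ M]
  [AddCommGroup N] [Module Λ N] [Fr Λ N] [AddCommGroup K] [Module Λ K] [Fr Λ K]
  [AddCommGroup L] [Module Λ L] [Fr Λ L] {σ τ : Type} [Fintype σ] [Fintype τ] {P P' : Set (E Λ)}

theorem ratPt_prod (ξ : M × N) : RatPt Λ ξ ↔ RatPt Λ ξ.1 ∧ RatPt Λ ξ.2 := by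
  constructor
  · intro h; exact ⟨fun i => h (Sum.inl i), fun i => h (Sum.inr i)⟩
  · rintro ⟨h1, h2⟩ (i | i)
    · exact h1 i
    · exact h2 i

theorem ratPt_pi (ξ : σ → M) : RatPt Λ ξ ↔ ∀ s, RatPt Λ (ξ s) :=
  ⟨fun h s i => h (s, i), fun h i => h i.1 i.2⟩

theorem ratPt_self (ξ : Λ) : RatPt Λ ξ ↔ ∃ c : F, ξ = algebraMap F Λ c :=
  ⟨fun h => h (), fun h _ => h⟩

theorem Def.mono (h : P ⊆ P') {H : Submodule Λ M} (hH : Def P H) : Def P' H := by
  induction hH with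
  | gr a ha => exact .gr a (h ha)
  | top M => exact .top M
  | inf _ _ h1 h2 => exact .inf h1 h2
  | map f hf _ h1 => exact .map f hf h1
  | comap f hf _ h1 => exact .comap f hf h1

theorem RatPt.zero : RatPt Λ (0 : M) := fun _ => ⟨0, by simp⟩
theorem RatPt.add {ξ η : M} (h : RatPt Λ ξ) (h' : RatPt Λ η) : RatPt Λ (ξ + η) := fun i => by
  obtain ⟨c, hc⟩ := h i
  obtain ⟨c', hc'⟩ := h' i
  exact ⟨c + c', by simp [hc, hc']⟩
theorem RatPt.neg {ξ : M} (h : RatPt Λ ξ) : RatPt Λ (-ξ) := fun i => by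
  obtain ⟨c, hc⟩ := h i
  exact ⟨-c, by rw [map_neg, Pi.neg_apply, hc, map_neg]⟩

theorem RatM.id : RatM (LinearMap.id : M →ₗ[Λ] M) := fun _ h => h
theorem RatM.zero : RatM (0 : M →ₗ[Λ] N) := fun _ _ => RatPt.zero
theorem RatM.comp {g : N →ₗ[Λ] K} {f : M →ₗ[Λ] N} (hg : RatM g) (hf : RatM f) :
    RatM (g ∘ₗ f) := fun ξ h => hg _ (hf ξ h)
theorem RatM.add {f g : M →ₗ[Λ] N} (hf : RatM f) (hg : RatM g) : RatM (f + g) := fun ξ h => (hf ξ h).add (hg ξ h)
theorem RatM.neg {f : M →ₗ[Λ] N} (hf : RatM f) : RatM (-f) := fun ξ h => (hf ξ h).neg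
theorem RatM.sub {f g : M →ₗ[Λ] N} (hf : RatM f) (hg : RatM g) : RatM (f - g) := by
  rw [sub_eq_add_neg]; exact hf.add hg.neg
theorem RatM.sum {κ : Type} (T : Finset κ) {f : κ → M →ₗ[Λ] N} (h : ∀ i ∈ T, RatM (f i)) :
    RatM (∑ i ∈ T, f i) :=   Finset.sum_induction f RatM (fun _ _ => RatM.add) RatM.zero h
theorem RatM.fst : RatM (LinearMap.fst Λ M N) := fun ξ h => ((ratPt_prod ξ).1 h).1
theorem RatM.snd : RatM (LinearMap.snd Λ M N) := fun ξ h => ((ratPt_prod ξ).1 h).2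
theorem RatM.inl : RatM (LinearMap.inl Λ M N) := fun _ h => (ratPt_prod _).2 ⟨h, RatPt.zero⟩
theorem RatM.inr : RatM (LinearMap.inr Λ M N) := fun _ h => (ratPt_prod _).2 ⟨RatPt.zero, h⟩
theorem RatM.prod {f : M →ₗ[Λ] N} {g : M →ₗ[Λ] K} (hf : RatM f) (hg : RatM g) :
    RatM (f.prod g) := fun ξ h => (ratPt_prod _).2 ⟨hf ξ h, hg ξ h⟩
theorem RatM.coprod {f : M →ₗ[Λ] K} {g : N →ₗ[Λ] K} (hf : RatM f) (hg : RatM g) :
    RatM (f.coprod g) := fun ξ h =>
  (hf _ ((ratPt_prod ξ).1 h).1).add (hg _ ((ratPt_prod ξ).1 h).2)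
theorem RatM.prodMap {f : M →ₗ[Λ] N} {g : K →ₗ[Λ] L} (hf : RatM f) (hg : RatM g) :
    RatM (f.prodMap g) := fun ξ h =>
  (ratPt_prod _).2 ⟨hf _ ((ratPt_prod ξ).1 h).1, hg _ ((ratPt_prod ξ).1 h).2⟩
theorem RatM.proj (s : σ) : RatM (LinearMap.proj s : (σ → M) →ₗ[Λ] M) := fun ξ h => (ratPt_pi ξ).1 h s
theorem RatM.single [DecidableEq σ] (s : σ) : RatM (LinearMap.single Λ (fun _ : σ => M) s) := fun ξ h =>
  (ratPt_pi _).2 fun t => by
    by_cases ht : t = s
    · subst ht; simpa using h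
    · simpa [Pi.single_eq_of_ne ht] using RatPt.zero
theorem RatM.pi {f : σ → M →ₗ[Λ] N} (h : ∀ s, RatM (f s)) : RatM (LinearMap.pi f) := fun ξ hξ => (ratPt_pi _).2 fun s => h s ξ hξ
theorem RatM.funLeft (g : σ → τ) : RatM (LinearMap.funLeft Λ M g) := fun ξ h => (ratPt_pi _).2 fun s => (ratPt_pi ξ).1 h (g s)
theorem RatM.frame : RatM (Fr.e : M ≃ₗ[Λ] (Fr.ι Λ M → Λ)).toLinearMap := fun _ h => (ratPt_pi _).2 fun i => (ratPt_self _).2 (h i)
theorem RatM.frame_symm : RatM (Fr.e : M ≃ₗ[Λ] (Fr.ι Λ M → Λ)).symm.toLinearMap := fun ξ h i => by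
  simpa using (ratPt_self _).1 ((ratPt_pi ξ).1 h i)
theorem RatM.tv (w : τ → F) : RatM (tv Λ w) := fun ξ h => (ratPt_pi _).2 fun t => (ratPt_self _).2 (by
  obtain ⟨c, rfl⟩ := (ratPt_self ξ).1 h
  exact ⟨w t * c, by simp [Z.tv, Algebra.smul_def]⟩)
theorem RatM.bc (f : (σ → F) →ₗ[F] (τ → F)) : RatM (bc Λ f) := RatM.sum _ fun s _ => (RatM.tv _).comp (RatM.proj s)
theorem RatM.smul_id (c : F) : RatM (c • LinearMap.id : E Λ) := fun ξ h => (ratPt_self _).2 (by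
  obtain ⟨c', rfl⟩ := (ratPt_self ξ).1 h
  exact ⟨c * c', by simp [Algebra.smul_def]⟩)

end Pool.Agent.Work.MP_c4093f_al.Z
end

-- merged part: Pool.Agent.Work.MP_c4093f_al.Z.DefApi
section
/-!
Closure properties of rational maps, definable submodules and definable maps.

Plan.  `RatPt` unfolds by `rfl` on products and powers.  `Def.prod`: `comap fst ⊓ comap snd`.
`Def.sup`: image of `A.prod B` under `coprod id id`.  `Def.bot`: image of `⊤` under `0`.
`RatM.dm`: the graph is the image of `⊤` under `prod id f`.  `Def.mapD`: image of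
`graph f ⊓ comap fst H` under `snd`.  `DM.comp`: project the set of triples.  `Def.fg`,
`Def.finite`, `Def.of_dm`: induction on `Def` (see `Def.mono`).
-/

namespace Pool.Agent.Work.MP_c4093f_al.Z

open LinearMap

variable {Λ : Type} [Ring Λ] [Algebra F Λ] {M N K L : Type} [AddCommGroup M] [Module Λ M] [Fr Λ M]
  [AddCommGroup N] [Module Λ N] [Fr Λ N] [AddCommGroup K] [Module Λ K] [Fr Λ K]
  [AddCommGroup L] [Module Λ L] [Fr Λ L] {σ τ : Type} [Fintype σ] [Fintype τ] {P P' : Set (E Λ)}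

theorem Def.ofDefApi {A B : Submodule Λ M} (h : Def P A) (e : ∀ ξ, ξ ∈ B ↔ ξ ∈ A) : Def P B :=
  (Submodule.ext e : B = A) ▸ h

theorem Def.bot : Def P (⊥ : Submodule Λ M) := by
  simpa using Def.map (P := P) (0 : M →ₗ[Λ] M) RatM.zero (Def.top M)
theorem Def.prod {A : Submodule Λ M} {B : Submodule Λ N} (hA : Def P A) (hB : Def P B) :
    Def P (A.prod B) :=
  ((hA.comap _ RatM.fst).inf (hB.comap _ RatM.snd)).ofDefApi fun _ => Iff.rfl
theorem Def.sup {A B : Submodule Λ M} (hA : Def P A) (hB : Def P B) : Def P (A ⊔ B) := by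
  simpa using (hA.prod hB).map _ (RatM.id.coprod RatM.id)
theorem Def.iInf {U : σ → Submodule Λ M} (h : ∀ s, Def P (U s)) : Def P (⨅ s, U s) := by
  classical
  have : ∀ T : Finset σ, Def P (⨅ s ∈ T, U s) := fun T => by
    induction T using Finset.induction_on with
    | empty => simpa using Def.top M
    | insert a T _ ih => rw [Finset.iInf_insert]; exact (h a).inf ih
  simpa using this Finset.univ
theorem Def.iSup {U : σ → Submodule Λ M} (h : ∀ s, Def P (U s)) : Def P (⨆ s, U s) := by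
  classical
  have : ∀ T : Finset σ, Def P (⨆ s ∈ T, U s) := fun T => by
    induction T using Finset.induction_on with
    | empty => simpa using Def.bot
    | insert a T _ ih => rw [Finset.iSup_insert]; exact (h a).sup ih
  simpa using this Finset.univ
theorem Def.biInf {κ : Type} (T : Finset κ) {U : κ → Submodule Λ M} (h : ∀ s ∈ T, Def P (U s)) :
    Def P (⨅ s ∈ T, U s) := by
  rw [iInf_subtype']
  exact Def.iInf fun s : T => h s s.2
theorem Def.biSup {κ : Type} (T : Finset κ) {U : κ → Submodule Λ M} (h : ∀ s ∈ T, Def P (U s)) :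
    Def P (⨆ s ∈ T, U s) := by
  rw [iSup_subtype']
  exact Def.iSup fun s : T => h s s.2
theorem Def.pi {U : σ → Submodule Λ M} (h : ∀ s, Def P (U s)) :
    Def P (Submodule.pi Set.univ U) :=
  (Def.iInf fun s => (h s).comap _ (RatM.proj s)).ofDefApi fun ξ => by
    simp [Submodule.mem_pi, Submodule.mem_iInf]
theorem Def.pw {U : Submodule Λ M} (h : Def P U) : Def P (pw σ U) :=
  Def.pi fun _ => h
theorem Def.box {X X' : Submodule Λ (τ → Λ)} (h : Def P X) (h' : Def P X') :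
    Def P (box M X X') :=
  (Def.top M).prod (h.prod h')
theorem Def.fg [Dim Λ] {H : Submodule Λ M} (h : Def P H) : H.FG := by
  induction h with
  | gr a _ => exact fg_graph a
  | top M => exact fg_top
  | inf _ _ h1 h2 => exact fg_inf h1 h2
  | map f _ _ h1 => exact h1.map f
  | comap f _ _ h1 => exact fg_comap f h1
theorem Def.finite {H : Submodule Λ M} (h : Def P H) :
    ∃ A : Finset (E Λ), ↑A ⊆ P ∧ Def (↑A : Set (E Λ)) H := by
  classical
  induction h with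
  | gr a ha => exact ⟨{a}, by simpa using ha, .gr a (by simp)⟩
  | top M => exact ⟨∅, by simp, .top M⟩
  | inf _ _ h1 h2 =>
    obtain ⟨A, a1, a2⟩ := h1
    obtain ⟨B, b1, b2⟩ := h2
    exact ⟨A ∪ B, by simp [a1, b1], (a2.mono (by simp)).inf (b2.mono (by simp))⟩
  | map f hf _ h1 => exact h1.imp fun A hA => ⟨hA.1, hA.2.map f hf⟩
  | comap f hf _ h1 => exact h1.imp fun A hA => ⟨hA.1, hA.2.comap f hf⟩
theorem Def.of_dm (h : ∀ a ∈ P', DM P a) {H : Submodule Λ M} (hH : Def P' H) : Def P H := by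
  induction hH with
  | gr a ha => exact h a ha
  | top M => exact .top M
  | inf _ _ h1 h2 => exact .inf h1 h2
  | map f hf _ h1 => exact .map f hf h1
  | comap f hf _ h1 => exact .comap f hf h1
theorem Def.of_range {y : ℕ → E Λ} {H : Submodule Λ M} (h : Def (P ∪ Set.range y) H) :
    ∃ n, Def (P ∪ y '' Set.Iio n) H := by
  have mono : ∀ {m n : ℕ}, m ≤ n → P ∪ y '' Set.Iio m ⊆ P ∪ y '' Set.Iio n := fun k =>
    Set.union_subset_union_right _ (Set.image_mono (Set.Iio_subset_Iio k))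
  induction h with
  | gr a ha =>
    rcases ha with ha | ⟨n, rfl⟩
    · exact ⟨0, .gr a (.inl ha)⟩
    · exact ⟨n + 1, .gr _ (.inr ⟨n, Nat.lt_succ_self n, rfl⟩)⟩
  | top M => exact ⟨0, .top M⟩
  | inf _ _ h1 h2 =>
    obtain ⟨m, hm⟩ := h1
    obtain ⟨n, hn⟩ := h2
    exact ⟨max m n, (hm.mono (mono (le_max_left m n))).inf (hn.mono (mono (le_max_right m n)))⟩
  | map f hf _ h1 => exact h1.imp fun _ hA => hA.map f hf
  | comap f hf _ h1 => exact h1.imp fun _ hA => hA.comap f hf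
theorem Def.spB {y : ℕ → E Λ} {H : Submodule Λ M} (h : Def (P ∪ Set.range y) H) :
    ∃ k, Def (spB P y k) H :=
  h.of_range.imp fun n hn => hn.mono
    (Set.union_subset_union_right _ (Set.image_mono (Set.Iio_subset_Iio (by omega))))
omit [Algebra F Λ] in
theorem spB_mono (P : Set (E Λ)) (y : ℕ → E Λ) : Monotone (spB P y) :=
  fun _ _ k => Set.union_subset_union_right _ (Set.image_mono (Set.Iio_subset_Iio (by omega)))
omit [Algebra F Λ] in
theorem subset_spB (P : Set (E Λ)) (y : ℕ → E Λ) (k : ℕ) : P ⊆ spB P y k :=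
  Set.subset_union_left
omit [Algebra F Λ] in
theorem spB_subset (P : Set (E Λ)) (y : ℕ → E Λ) (k : ℕ) : spB P y k ⊆ P ∪ Set.range y :=
  Set.union_subset_union_right _ (Set.image_subset_range _ _)

theorem RatM.dm {f : M →ₗ[Λ] N} (h : RatM f) : DM P f := by
  rw [DM, graph_eq_range_prod, range_eq_map]
  exact (Def.top M).map _ (RatM.id.prod h)
theorem DM.of_mem {a : E Λ} (h : a ∈ P) : DM P a :=
  Def.gr a h
theorem DM.mono (h : P ⊆ P') {f : M →ₗ[Λ] N} (hf : DM P f) : DM P' f :=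
  Def.mono h hf
theorem Def.mapD {f : M →ₗ[Λ] N} (hf : DM P f) {H : Submodule Λ M} (h : Def P H) :
    Def P (H.map f) :=
  ((Def.inf hf (h.comap _ RatM.fst)).map _ RatM.snd).ofDefApi fun η =>
    ⟨fun ⟨ξ, h1, h2⟩ => ⟨(ξ, η), ⟨h2.symm, h1⟩, rfl⟩,
      fun ⟨ξ, ⟨h1, h2⟩, h3⟩ => ⟨ξ.1, h2, h1.symm.trans h3⟩⟩
theorem Def.comapD {f : M →ₗ[Λ] N} (hf : DM P f) {H : Submodule Λ N} (h : Def P H) :
    Def P (H.comap f) :=
  ((Def.inf hf (h.comap _ RatM.snd)).map _ RatM.fst).ofDefApi fun ξ =>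
    ⟨fun h1 => ⟨(ξ, f ξ), ⟨rfl, h1⟩, rfl⟩, by
      rintro ⟨⟨ξ, η⟩, ⟨h1, h2⟩, rfl⟩
      obtain rfl : η = f ξ := h1
      exact h2⟩
theorem DM.ker {f : M →ₗ[Λ] N} (hf : DM P f) : Def P (ker f) :=
  Def.bot.comapD hf
theorem DM.range {f : M →ₗ[Λ] N} (hf : DM P f) : Def P (range f) :=
  range_eq_map f ▸ (Def.top M).mapD hf
theorem DM.id : DM P (LinearMap.id : M →ₗ[Λ] M) :=
  RatM.id.dm
theorem DM.one : DM P (1 : E Λ) :=
  DM.id
theorem DM.zero : DM P (0 : M →ₗ[Λ] N) :=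
  RatM.zero.dm
theorem DM.comp {g : N →ₗ[Λ] K} {f : M →ₗ[Λ] N} (hg : DM P g) (hf : DM P f) :
    DM P (g ∘ₗ f) :=
  ((Def.inf (Def.comap _ ((RatM.fst (N := K)).prodMap RatM.id) hf)
    (Def.comap _ (RatM.snd.prod (RatM.snd.comp RatM.fst)) hg)).map _ RatM.fst).ofDefApi fun ξ =>
    ⟨fun h1 => ⟨(ξ, f ξ.1), ⟨rfl, h1⟩, rfl⟩, by
      rintro ⟨⟨⟨ξ, ζ⟩, η⟩, ⟨h1, h2⟩, rfl⟩
      obtain rfl : η = f ξ := h1
      exact h2⟩
theorem DM.mul {a b : E Λ} (ha : DM P a) (hb : DM P b) : DM P (a * b) :=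
  ha.comp hb
theorem DM.prod {f : M →ₗ[Λ] N} {g : M →ₗ[Λ] K} (hf : DM P f) (hg : DM P g) :
    DM P (f.prod g) :=
  (Def.inf (Def.comap _ (RatM.id.prodMap (RatM.fst (N := K))) hf)
    (Def.comap _ (RatM.id.prodMap RatM.snd) hg)).ofDefApi fun _ => Prod.ext_iff
theorem DM.add {f g : M →ₗ[Λ] N} (hf : DM P f) (hg : DM P g) : DM P (f + g) := by
  simpa using (RatM.id.coprod RatM.id).dm.comp (hf.prod hg)
theorem DM.neg {f : M →ₗ[Λ] N} (hf : DM P f) : DM P (-f) := by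
  simpa using RatM.id.neg.dm.comp hf
theorem DM.sub {f g : M →ₗ[Λ] N} (hf : DM P f) (hg : DM P g) : DM P (f - g) :=
  sub_eq_add_neg f g ▸ hf.add hg.neg
theorem DM.sum {κ : Type} (T : Finset κ) {f : κ → M →ₗ[Λ] N} (h : ∀ i ∈ T, DM P (f i)) :
    DM P (∑ i ∈ T, f i) :=
  Finset.sum_induction f (DM P) (fun _ _ => DM.add) DM.zero h
theorem DM.smul (c : F) {a : E Λ} (ha : DM P a) : DM P (c • a) :=
  (RatM.smul_id c).dm.comp ha
theorem DM.coprod {f : M →ₗ[Λ] K} {g : N →ₗ[Λ] K} (hf : DM P f) (hg : DM P g) :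
    DM P (f.coprod g) :=
  (hf.comp RatM.fst.dm).add (hg.comp RatM.snd.dm)
theorem DM.prodMap {f : M →ₗ[Λ] N} {g : K →ₗ[Λ] L} (hf : DM P f) (hg : DM P g) :
    DM P (f.prodMap g) :=
  (hf.comp RatM.fst.dm).prod (hg.comp RatM.snd.dm)
theorem DM.pi {f : σ → M →ₗ[Λ] N} (h : ∀ s, DM P (f s)) : DM P (LinearMap.pi f) :=
  (Def.iInf fun s => Def.comap _ (RatM.id.prodMap (RatM.proj s)) (h s)).ofDefApi fun ξ => by
    simp [Submodule.mem_iInf, funext_iff]
theorem DM.dg {a : E Λ} (ha : DM P a) : DM P (dg τ a) :=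
  DM.pi fun t => ha.comp (RatM.proj t).dm
theorem DM.fst : DM P (LinearMap.fst Λ M N) := RatM.fst.dm
theorem DM.snd : DM P (LinearMap.snd Λ M N) := RatM.snd.dm
theorem DM.inl : DM P (LinearMap.inl Λ M N) := RatM.inl.dm
theorem DM.inr : DM P (LinearMap.inr Λ M N) := RatM.inr.dm
theorem DM.proj (s : σ) : DM P (LinearMap.proj s : (σ → M) →ₗ[Λ] M) := (RatM.proj s).dm
theorem DM.tv (w : τ → F) : DM P (tv Λ w) := (RatM.tv w).dm
theorem DM.bc (f : (σ → F) →ₗ[F] (τ → F)) : DM P (bc Λ f) := (RatM.bc f).dm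
theorem Def.gx {x : E Λ} (h : DM P x) : Def P (gx M τ x) :=
  (Def.top M).prod h.dg

/-- a definable relation that is total and single valued is the graph of a definable map -/
theorem exists_dm {Γ : Submodule Λ (M × N)} (h : Def P Γ) (tot : ∀ ξ, ∃ η, (ξ, η) ∈ Γ)
    (uni : ∀ η, ((0 : M), η) ∈ Γ → η = 0) : ∃ f : M →ₗ[Λ] N, DM P f ∧ ∀ ξ, (ξ, f ξ) ∈ Γ := by
  choose f hf using tot
  have key : ∀ ξ η, (ξ, η) ∈ Γ → η = f ξ := fun ξ η k =>
    sub_eq_zero.1 (uni _ (by simpa using Γ.sub_mem k (hf ξ)))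
  refine ⟨⟨⟨f, fun x y => (key _ _ (Γ.add_mem (hf x) (hf y))).symm⟩,
    fun c x => (key _ _ (Γ.smul_mem c (hf x))).symm⟩,
    h.ofDefApi fun ξ => ⟨fun k => ?_, key _ _⟩, hf⟩
  obtain ⟨ξ, η⟩ := ξ
  obtain rfl : η = f ξ := k
  exact hf ξ

/-- the ring of definable endomorphisms -/
def dcl (P : Set (E Λ)) : Subring (E Λ) where
  carrier := {a | DM P a}
  mul_mem' := DM.mul
  one_mem' := DM.one
  add_mem' := DM.add
  zero_mem' := DM.zero
  neg_mem' := DM.neg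

theorem mem_dcl {a : E Λ} : a ∈ dcl P ↔ DM P a := Iff.rfl

end Pool.Agent.Work.MP_c4093f_al.Z
end

-- merged part: Pool.Agent.Work.MP_c4093f_al.Z.Ten1
section
/-!
The submodules `ten U W = U ⊗ W` of `τ → Λ` and base change `bc`.

Plan.  First `bc_tv`, `bc_apply`, functoriality (both sides are linear in `ξ`, and
`ξ = ∑ s, tv (Pi.single s 1) (ξ s)`).  For `W` choose a projection `r` of `τ → F` onto `W`
(`Submodule.exists_isCompl`): `bc r` maps `pw U` into `ten U W` and fixes `ten ⊤ W`; this gives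
`ten_eq_inf`.  `mem_ten_sup_pw`: write `ξ = bc r ξ + bc (1 - r) ξ`; the coordinates of the second
term are given by the functionals `proj t ∘ (1 - r)` which kill `W`.  `ten_sup_pw_inf`: a
functional that kills `W ⊓ W'` is a sum of functionals that kill `W`, resp. `W'`
(`Subspace.dualAnnihilator_inf_eq`).  `rho_ten`: `ten U W` is the image of `pw (Fin n) U` under
`bc j` for the basis map `j`, and `bc j` is injective since `j` has a left inverse.
-/

namespace Pool.Agent.Work.MP_c4093f_al.Z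

open LinearMap

variable {Λ : Type} [Ring Λ] [Algebra F Λ] {M N : Type} [AddCommGroup M] [Module Λ M]
  [AddCommGroup N] [Module Λ N] {σ τ κ : Type} {U U' V : Submodule Λ Λ}
  {W W' : Submodule F (τ → F)}

@[simp] theorem tv_apply (w : τ → F) (ζ : Λ) (t : τ) : tv Λ w ζ t = w t • ζ := rfl
omit [Algebra F Λ] in
@[simp] theorem dg_apply (a : E Λ) (η : τ → Λ) (t : τ) : dg τ a η t = a (η t) := rfl
omit [Algebra F Λ] in
theorem mem_pw {A : Submodule Λ M} {η : τ → M} : η ∈ pw τ A ↔ ∀ t, η t ∈ A := by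
  simp [pw, Submodule.mem_pi]
omit [Algebra F Λ] in
theorem mem_gx {x : E Λ} {γ : M × (τ → Λ) × (τ → Λ)} : γ ∈ gx M τ x ↔ γ.2.2 = dg τ x γ.2.1 := by
  simp [gx, Submodule.mem_prod, LinearMap.mem_graph_iff]
omit [Algebra F Λ] in
theorem mem_box {X X' : Submodule Λ (τ → Λ)} {γ : M × (τ → Λ) × (τ → Λ)} :
    γ ∈ box M X X' ↔ γ.2.1 ∈ X ∧ γ.2.2 ∈ X' := by
  simp [box, Submodule.mem_prod]
omit [Algebra F Λ] in
theorem box_mono {X X' Y Y' : Submodule Λ (τ → Λ)} (h : X ≤ Y) (h' : X' ≤ Y') :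
    box M X X' ≤ box M Y Y' := fun _ hγ =>
  mem_box.2 ⟨h (mem_box.1 hγ).1, h' (mem_box.1 hγ).2⟩
omit [Algebra F Λ] in
theorem pw_mono {A B : Submodule Λ M} (h : A ≤ B) : pw τ A ≤ pw τ B := fun _ hη =>
  mem_pw.2 fun t => h (mem_pw.1 hη t)
omit [Algebra F Λ] in
@[simp] theorem pw_top : pw τ (⊤ : Submodule Λ M) = ⊤ :=
  eq_top_iff.2 fun _ _ => mem_pw.2 fun _ => trivial
omit [Algebra F Λ] in
@[simp] theorem pw_bot : pw τ (⊥ : Submodule Λ M) = ⊥ :=
  eq_bot_iff.2 fun _ hη => funext fun t => mem_pw.1 hη t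

theorem map_F_smul (a : E Λ) (c : F) (ζ : Λ) : a (c • ζ) = c • a ζ := by
  rw [Algebra.smul_def, Algebra.smul_def, ← smul_eq_mul, ← smul_eq_mul, a.map_smul]
theorem F_smul_mem {ζ : Λ} (c : F) (h : ζ ∈ U) : c • ζ ∈ U := by
  rw [Algebra.smul_def, ← smul_eq_mul]
  exact U.smul_mem _ h
theorem tv_add (w w' : τ → F) : tv Λ (w + w') = tv Λ w + tv Λ w' := by
  refine LinearMap.ext fun ζ => funext fun t => ?_
  simp [add_smul]
@[simp] theorem tv_zero : tv Λ (0 : τ → F) = 0 := by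
  refine LinearMap.ext fun ζ => funext fun t => ?_
  simp
theorem tv_smul (c : F) (w : τ → F) (ζ : Λ) : tv Λ (c • w) ζ = tv Λ w (c • ζ) := by
  funext t
  simp [smul_smul, mul_comm]
theorem tv_inj {w : τ → F} (h : w ≠ 0) {ζ : Λ} (h0 : tv Λ w ζ = 0) : ζ = 0 := by
  obtain ⟨t, ht⟩ := Function.ne_iff.1 h
  have h1 : w t • ζ = 0 := congrFun h0 t
  have ht' : w t ≠ 0 := ht
  rw [← one_smul F ζ, ← inv_mul_cancel₀ ht', mul_smul, h1, smul_zero]
theorem dg_tv (a : E Λ) (w : τ → F) (ζ : Λ) : dg τ a (tv Λ w ζ) = tv Λ w (a ζ) := by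
  funext t
  simp
theorem tv_mem_ten {w : τ → F} {ζ : Λ} (hw : w ∈ W) (h : ζ ∈ U) : tv Λ w ζ ∈ ten U W :=
  (le_iSup₂_of_le (f := fun w (_ : w ∈ W) => U.map (tv Λ w)) w hw le_rfl)
    (Submodule.mem_map_of_mem h)
theorem ten_le_iff {X : Submodule Λ (τ → Λ)} :
    ten U W ≤ X ↔ ∀ w ∈ W, ∀ ζ ∈ U, tv Λ w ζ ∈ X := by
  refine ⟨fun h w hw ζ hζ => h (tv_mem_ten hw hζ), fun h => iSup₂_le fun w hw => ?_⟩
  rintro _ ⟨ζ, hζ, rfl⟩
  exact h w hw ζ hζ
theorem ten_mono (h : U ≤ U') (h' : W ≤ W') : ten U W ≤ ten U' W' :=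
  ten_le_iff.2 fun _ hw _ hζ => tv_mem_ten (h' hw) (h hζ)
@[simp] theorem ten_bot : ten U (⊥ : Submodule F (τ → F)) = ⊥ := by
  refine eq_bot_iff.2 (ten_le_iff.2 fun w hw ζ _ => ?_)
  rw [(Submodule.mem_bot F).1 hw, tv_zero]
  exact Submodule.zero_mem _
@[simp] theorem bot_ten : ten (⊥ : Submodule Λ Λ) W = ⊥ := by
  refine eq_bot_iff.2 (ten_le_iff.2 fun w _ ζ hζ => ?_)
  rw [(Submodule.mem_bot Λ).1 hζ, map_zero]
  exact Submodule.zero_mem _
theorem ten_le_pw : ten U W ≤ pw τ U :=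
  ten_le_iff.2 fun w _ _ hζ => mem_pw.2 fun t => F_smul_mem (w t) hζ
theorem ten_sup : ten U (W ⊔ W') = ten U W ⊔ ten U W' := by
  refine le_antisymm (ten_le_iff.2 fun w hw ζ hζ => ?_)
    (sup_le (ten_mono le_rfl le_sup_left) (ten_mono le_rfl le_sup_right))
  obtain ⟨a, ha, b, hb, rfl⟩ := Submodule.mem_sup.1 hw
  rw [tv_add, LinearMap.add_apply]
  exact Submodule.add_mem_sup (tv_mem_ten ha hζ) (tv_mem_ten hb hζ)
theorem sup_ten : ten (U ⊔ U') W = ten U W ⊔ ten U' W := by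
  refine le_antisymm (ten_le_iff.2 fun w hw ζ hζ => ?_)
    (sup_le (ten_mono le_sup_left le_rfl) (ten_mono le_sup_right le_rfl))
  obtain ⟨a, ha, b, hb, rfl⟩ := Submodule.mem_sup.1 hζ
  rw [map_add]
  exact Submodule.add_mem_sup (tv_mem_ten hw ha) (tv_mem_ten hw hb)
theorem ten_span_single (w : τ → F) : ten U (Submodule.span F {w}) = U.map (tv Λ w) := by
  refine le_antisymm (ten_le_iff.2 fun v hv ζ hζ => ?_) ?_
  · obtain ⟨c, rfl⟩ := Submodule.mem_span_singleton.1 hv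
    rw [tv_smul]
    exact Submodule.mem_map_of_mem (F_smul_mem c hζ)
  · rintro _ ⟨ζ, hζ, rfl⟩
    exact tv_mem_ten (Submodule.mem_span_singleton_self w) hζ
theorem map_dg_ten (a : E Λ) : (ten U W).map (dg τ a) = ten (U.map a) W := by
  refine le_antisymm (Submodule.map_le_iff_le_comap.2 (ten_le_iff.2 fun w hw ζ hζ => ?_))
    (ten_le_iff.2 ?_)
  · rw [Submodule.mem_comap, dg_tv]
    exact tv_mem_ten hw (Submodule.mem_map_of_mem hζ)
  · rintro w hw _ ⟨ζ, hζ, rfl⟩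
    rw [← dg_tv]
    exact Submodule.mem_map_of_mem (tv_mem_ten hw hζ)
theorem dg_mem_ten {a : E Λ} (h : U.map a ≤ U') {η : τ → Λ} (hη : η ∈ ten U W) :
    dg τ a η ∈ ten U' W := by
  have h1 : dg τ a η ∈ ten (U.map a) W := map_dg_ten a ▸ Submodule.mem_map_of_mem hη
  exact ten_mono h le_rfl h1

section
variable [Fintype σ]

open Classical in
theorem bc_apply (f : (σ → F) →ₗ[F] (τ → F)) (η : σ → Λ) (t : τ) :
    bc Λ f η t = ∑ s, f (Pi.single s 1) t • η s := by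
  simp [bc, LinearMap.sum_apply, Finset.sum_apply]
theorem bc_tv (f : (σ → F) →ₗ[F] (τ → F)) (w : σ → F) (ζ : Λ) :
    bc Λ f (tv Λ w ζ) = tv Λ (f w) ζ := by
  classical
  funext t
  rw [bc_apply, tv_apply]
  conv_rhs => rw [pi_eq_sum_univ' w, map_sum, Finset.sum_apply, Finset.sum_smul]
  refine Finset.sum_congr rfl fun s _ => ?_
  rw [tv_apply, smul_smul, map_smul, Pi.smul_apply, smul_eq_mul, mul_comm]
theorem Ten1_ext {f g : (σ → Λ) →ₗ[Λ] M} (h : ∀ w ζ, f (tv Λ w ζ) = g (tv Λ w ζ)) : f = g := by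
  classical
  refine LinearMap.ext fun η => ?_
  have h1 : η = ∑ s, tv Λ (Pi.single s (1 : F)) (η s) := by
    funext t
    rw [Finset.sum_apply, Finset.sum_eq_single t]
    · simp
    · intro s _ hs
      simp [Pi.single_eq_of_ne hs.symm]
    · simp
  rw [h1, map_sum, map_sum]
  exact Finset.sum_congr rfl fun s _ => h _ _
@[simp] theorem bc_id : bc Λ (LinearMap.id : (σ → F) →ₗ[F] (σ → F)) = LinearMap.id := by
  refine Ten1_ext fun w ζ => ?_
  rw [bc_tv]
  rfl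
theorem bc_comp [Fintype τ] (g : (τ → F) →ₗ[F] (κ → F)) (f : (σ → F) →ₗ[F] (τ → F)) :
    bc Λ (g ∘ₗ f) = bc Λ g ∘ₗ bc Λ f := by
  refine Ten1_ext fun w ζ => ?_
  rw [LinearMap.comp_apply, bc_tv, bc_tv, bc_tv]
  rfl
theorem bc_sub (f g : (σ → F) →ₗ[F] (τ → F)) : bc Λ (f - g) = bc Λ f - bc Λ g := by
  refine LinearMap.ext fun η => funext fun t => ?_
  simp [bc_apply, sub_smul, Finset.sum_sub_distrib]
theorem bc_dg (f : (σ → F) →ₗ[F] (τ → F)) (a : E Λ) (η : σ → Λ) :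
    bc Λ f (dg σ a η) = dg τ a (bc Λ f η) := by
  funext t
  simp [bc_apply, map_sum]
theorem bc_mem_pw (f : (σ → F) →ₗ[F] (τ → F)) {η : σ → Λ} (h : η ∈ pw σ U) :
    bc Λ f η ∈ pw τ U := by
  refine mem_pw.2 fun t => ?_
  rw [bc_apply]
  exact U.sum_mem fun s _ => F_smul_mem _ (mem_pw.1 h s)
theorem map_bc_ten (f : (σ → F) →ₗ[F] (τ → F)) (X : Submodule F (σ → F)) :
    (ten U X).map (bc Λ f) = ten U (X.map f) := by
  refine le_antisymm (Submodule.map_le_iff_le_comap.2 (ten_le_iff.2 fun w hw ζ hζ => ?_))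
    (ten_le_iff.2 ?_)
  · rw [Submodule.mem_comap, bc_tv]
    exact tv_mem_ten (Submodule.mem_map_of_mem hw) hζ
  · rintro _ ⟨w, hw, rfl⟩ ζ hζ
    rw [← bc_tv]
    exact Submodule.mem_map_of_mem (tv_mem_ten hw hζ)
theorem bc_inj {f : (σ → F) →ₗ[F] (τ → F)} [Fintype τ] (h : Function.Injective f) :
    Function.Injective (bc Λ f) := by
  obtain ⟨g, hg⟩ := f.exists_leftInverse_of_injective (LinearMap.ker_eq_bot.2 h)
  have h1 : bc Λ g ∘ₗ bc Λ f = LinearMap.id := by rw [← bc_comp, hg, bc_id]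
  exact Function.LeftInverse.injective (g := bc Λ g) fun η => LinearMap.congr_fun h1 η
end

end Pool.Agent.Work.MP_c4093f_al.Z
end

-- merged part: Pool.Agent.Work.MP_c4093f_al.Z.Ten
section
/-!
The submodules `ten U W = U ⊗ W` of `τ → Λ` and base change `bc`.

Plan.  First `bc_tv`, `bc_apply`, functoriality (both sides are linear in `ξ`, and
`ξ = ∑ s, tv (Pi.single s 1) (ξ s)`).  For `W` choose a projection `r` of `τ → F` onto `W`
(`Submodule.exists_isCompl`): `bc r` maps `pw U` into `ten U W` and fixes `ten ⊤ W`; this gives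
`ten_eq_inf`.  `mem_ten_sup_pw`: write `ξ = bc r ξ + bc (1 - r) ξ`; the coordinates of the second
term are given by the functionals `proj t ∘ (1 - r)` which kill `W`.  `ten_sup_pw_inf`: a
functional that kills `W ⊓ W'` is a sum of functionals that kill `W`, resp. `W'`
(`Subspace.dualAnnihilator_inf_eq`).  `rho_ten`: `ten U W` is the image of `pw (Fin n) U` under
`bc j` for the basis map `j`, and `bc j` is injective since `j` has a left inverse.
-/

namespace Pool.Agent.Work.MP_c4093f_al.Z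

open LinearMap

variable {Λ : Type} [Ring Λ] [Algebra F Λ] {M N : Type} [AddCommGroup M] [Module Λ M]
  [AddCommGroup N] [Module Λ N] {σ τ κ : Type} {U U' V : Submodule Λ Λ}
  {W W' : Submodule F (τ → F)}

variable [Fintype τ]

instance finite_sub : Finite (Submodule F (τ → F)) :=
  Finite.of_injective _ SetLike.coe_injective

theorem Ten_bc_mem [Fintype σ] {κ : Type} (f : (σ → F) →ₗ[F] (κ → F)) {η : σ → Λ}
    (h : η ∈ pw σ U) : bc Λ f η ∈ ten U (range f) := by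
  rw [bc, LinearMap.sum_apply]
  exact Submodule.sum_mem _ fun s _ => tv_mem_ten (mem_range_self f _) (mem_pw.1 h s)

omit [Fintype τ] in
theorem Ten_proj (W : Submodule F (τ → F)) :
    ∃ r : (τ → F) →ₗ[F] (τ → F), range r ≤ W ∧ ∀ w ∈ W, r w = w := by
  obtain ⟨r, hr⟩ := W.subtype.exists_leftInverse_of_injective W.ker_subtype
  refine ⟨W.subtype ∘ₗ r, ?_, fun w hw => congrArg Subtype.val (LinearMap.congr_fun hr ⟨w, hw⟩)⟩
  rintro _ ⟨w, rfl⟩
  exact (r w).2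

theorem Ten_fix {r : (τ → F) →ₗ[F] (τ → F)} (h : ∀ w ∈ W, r w = w) {ξ : τ → Λ}
    (hξ : ξ ∈ ten U W) : bc Λ r ξ = ξ :=
  (ten_le_iff (X := eqLocus (bc Λ r) LinearMap.id)).2
    (fun w hw ζ _ => (bc_tv r w ζ).trans (by rw [h w hw]; rfl)) hξ

open Classical in
theorem Ten_fun (φ : (τ → F) →ₗ[F] F) (ξ : τ → Λ) :
    ∑ t, φ (Pi.single t 1) • ξ t = bc Λ (LinearMap.pi fun _ : Unit => φ) ξ () :=
  (bc_apply (LinearMap.pi fun _ : Unit => φ) ξ ()).symm

@[simp] theorem ten_top : ten U (⊤ : Submodule F (τ → F)) = pw τ U := by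
  refine le_antisymm ten_le_pw fun η h => ?_
  have := Ten_bc_mem LinearMap.id h
  rwa [bc_id, range_id] at this
theorem ten_eq_inf : ten U W = ten ⊤ W ⊓ pw τ U := by
  refine le_antisymm (le_inf (ten_mono le_top le_rfl) ten_le_pw) fun η h => ?_
  obtain ⟨r, h1, h2⟩ := Ten_proj W
  rw [← Ten_fix h2 h.1]
  exact ten_mono le_rfl h1 (Ten_bc_mem r h.2)
open Classical in
theorem mem_ten_sup_pw {ξ : τ → Λ} : ξ ∈ ten ⊤ W ⊔ pw τ V ↔
    ∀ φ : (τ → F) →ₗ[F] F, (∀ w ∈ W, φ w = 0) → ∑ t, φ (Pi.single t 1) • ξ t ∈ V := by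
  constructor
  · intro h φ hφ
    obtain ⟨a, ha, b, hb, rfl⟩ := Submodule.mem_sup.1 h
    have h1 : bc Λ (LinearMap.pi fun _ : Unit => φ) a = 0 :=
      (ten_le_iff (X := ker (bc Λ (LinearMap.pi fun _ : Unit => φ)))).2 (fun w hw ζ _ => by
        rw [mem_ker, bc_tv]
        funext u
        simp [hφ w hw]) ha
    rw [Ten_fun, map_add, h1, zero_add]
    exact mem_pw.1 (bc_mem_pw _ hb) ()
  · intro h
    obtain ⟨r, h1, h2⟩ := Ten_proj W
    refine Submodule.mem_sup.2 ⟨bc Λ r ξ, ten_mono le_rfl h1 (Ten_bc_mem r (mem_pw.2 fun _ => trivial)),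
      bc Λ (LinearMap.id - r) ξ, mem_pw.2 fun t => ?_, by simp [bc_sub]⟩
    rw [bc_apply]
    exact h (proj t ∘ₗ (LinearMap.id - r)) fun w hw => by simp [h2 w hw]
theorem ten_sup_pw_inf :
    ten ⊤ (W ⊓ W') ⊔ pw τ V = (ten ⊤ W ⊔ pw τ V) ⊓ (ten ⊤ W' ⊔ pw τ V) := by
  refine le_antisymm (le_inf (sup_le_sup_right (ten_mono le_rfl inf_le_left) _)
    (sup_le_sup_right (ten_mono le_rfl inf_le_right) _)) fun ξ h => mem_ten_sup_pw.2 fun φ hφ => ?_
  have h1 : φ ∈ (W ⊓ W').dualAnnihilator := (Submodule.mem_dualAnnihilator φ).2 hφ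
  rw [Subspace.dualAnnihilator_inf_eq] at h1
  obtain ⟨a, ha, b, hb, rfl⟩ := Submodule.mem_sup.1 h1
  simp only [LinearMap.add_apply, add_smul, Finset.sum_add_distrib]
  exact V.add_mem (mem_ten_sup_pw.1 h.1 a ((Submodule.mem_dualAnnihilator a).1 ha))
    (mem_ten_sup_pw.1 h.2 b ((Submodule.mem_dualAnnihilator b).1 hb))
theorem ten_inf : ten U (W ⊓ W') = ten U W ⊓ ten U W' := by
  have := ten_sup_pw_inf (V := (⊥ : Submodule Λ Λ)) (W := W) (W' := W')
  simp only [pw_bot, sup_bot_eq] at this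
  rw [ten_eq_inf, this, inf_inf_distrib_right, ← ten_eq_inf, ← ten_eq_inf]

theorem Ten_ker [Fintype σ] (f : (σ → F) →ₗ[F] (τ → F)) :
    ker (bc Λ f) = ten (⊤ : Submodule Λ Λ) (ker f) := by
  refine le_antisymm (fun ξ h => ?_) (ten_le_iff.2 fun w hw ζ _ => by
    rw [mem_ker, bc_tv, mem_ker.1 hw, tv_zero, LinearMap.zero_apply])
  have := (mem_ten_sup_pw (W := ker f) (V := ⊥) (ξ := ξ)).2 fun φ hφ => by
    have h1 : φ ∈ (ker f).dualAnnihilator := (Submodule.mem_dualAnnihilator φ).2 hφ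
    rw [← range_dualMap_eq_dualAnnihilator_ker] at h1
    obtain ⟨ψ, rfl⟩ := h1
    rw [Ten_fun, show (LinearMap.pi fun _ : Unit => f.dualMap ψ) =
      (LinearMap.pi fun _ : Unit => ψ) ∘ₗ f from rfl, bc_comp, comp_apply, mem_ker.1 h, map_zero]
    exact Submodule.zero_mem _
  rwa [pw_bot, sup_bot_eq] at this

theorem Ten_quot (W : Submodule F (τ → F)) :
    ∃ (n : ℕ) (q : (τ → F) →ₗ[F] (Fin n → F)), Function.Surjective q ∧ ker q = W :=
  ⟨_, (Module.finBasis F ((τ → F) ⧸ W)).equivFun.toLinearMap ∘ₗ W.mkQ,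
    (Module.finBasis F ((τ → F) ⧸ W)).equivFun.surjective.comp W.mkQ_surjective, by
      rw [LinearEquiv.ker_comp, Submodule.ker_mkQ]⟩

theorem comap_bc_ten [Fintype σ] (f : (σ → F) →ₗ[F] (τ → F)) :
    (ten (⊤ : Submodule Λ Λ) W).comap (bc Λ f) = ten ⊤ (W.comap f) := by
  obtain ⟨n, q, -, rfl⟩ := Ten_quot W
  rw [← Ten_ker, ← ker_comp, ← ker_comp, ← bc_comp, Ten_ker]
theorem ker_bc [Fintype σ] (f : (σ → F) →ₗ[F] (τ → F)) :
    ker (bc Λ f) = ten (⊤ : Submodule Λ Λ) (ker f) := Ten_ker f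
theorem exists_quot (W : Submodule F (τ → F)) :
    ∃ (n : ℕ) (q : (τ → F) →ₗ[F] (Fin n → F)), Function.Surjective q ∧ ker q = W := Ten_quot W
theorem exists_basis_map (W : Submodule F (τ → F)) :
    ∃ j : (Fin (Module.finrank F W) → F) →ₗ[F] (τ → F), Function.Injective j ∧ range j = W :=
  ⟨W.subtype ∘ₗ (Module.finBasis F W).equivFun.symm.toLinearMap,
    W.injective_subtype.comp (Module.finBasis F W).equivFun.symm.injective, by
      rw [LinearEquiv.range_comp, Submodule.range_subtype]⟩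

theorem Ten_map [Fintype σ] {κ : Type} (j : (σ → F) →ₗ[F] (κ → F)) :
    ten U (range j) = (pw σ U).map (bc Λ j) := by
  rw [← ten_top, map_bc_ten, Submodule.map_top]

theorem Def.ten {P : Set (E Λ)} (h : Def P U) (W : Submodule F (τ → F)) : Def P (ten U W) := by
  obtain ⟨j, -, h2⟩ := exists_basis_map W
  rw [← h2, Ten_map]
  exact h.pw.map _ (RatM.bc j)
theorem fg_ten (h : U.FG) (W : Submodule F (τ → F)) : (ten U W).FG := by
  obtain ⟨j, -, h2⟩ := exists_basis_map W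
  rw [← h2, Ten_map]
  exact (fg_pi fun _ => h).map _
theorem rho_ten [Dim Λ] (U : Submodule Λ Λ) (W : Submodule F (τ → F)) :
    rho (ten U W) = Module.finrank F W * rho U := by
  obtain ⟨j, h1, h2⟩ := exists_basis_map W
  have := Ten_map (U := U) j
  rw [h2] at this
  rw [this, rho_map_of_inj _ fun ξ _ h => bc_inj h1 (h.trans (map_zero _).symm), rho_pw,
    Fintype.card_fin]

/-- a rational map is a base change in the frames -/
theorem RatM.exists_bc [Fr Λ M] [Fr Λ N] {f : M →ₗ[Λ] N} (h : RatM f) :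
    ∃ f₀ : (Fr.ι Λ M → F) →ₗ[F] (Fr.ι Λ N → F), ∀ ξ,
      (Fr.e : N ≃ₗ[Λ] (Fr.ι Λ N → Λ)) (f ξ) = Z.bc Λ f₀ ((Fr.e : M ≃ₗ[Λ] (Fr.ι Λ M → Λ)) ξ) := by
  classical
  have h1 : ∀ i, RatPt Λ ((Fr.e : M ≃ₗ[Λ] (Fr.ι Λ M → Λ)).symm (Z.tv Λ (Pi.single i 1) 1)) :=
    fun i j => ⟨(Pi.single i 1 : _ → F) j, by
      rw [LinearEquiv.apply_symm_apply, tv_apply, Algebra.algebraMap_eq_smul_one]⟩
  choose c hc using fun i => h _ (h1 i)
  refine ⟨(Pi.basisFun F _).constr F c, fun ξ => ?_⟩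
  have h2 : (Fr.e : N ≃ₗ[Λ] (Fr.ι Λ N → Λ)).toLinearMap ∘ₗ f ∘ₗ
      (Fr.e : M ≃ₗ[Λ] (Fr.ι Λ M → Λ)).symm.toLinearMap = Z.bc Λ ((Pi.basisFun F _).constr F c) := by
    refine (Pi.basisFun Λ _).ext fun i => ?_
    have h3 : Pi.basisFun Λ _ i = Z.tv Λ (Pi.single i 1) 1 := by
      funext j
      rw [Pi.basisFun_apply, tv_apply]
      by_cases hj : j = i
      · rw [hj, Pi.single_eq_same, Pi.single_eq_same, one_smul]
      · rw [Pi.single_eq_of_ne hj, Pi.single_eq_of_ne hj, zero_smul]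
    rw [h3, bc_tv, ← Pi.basisFun_apply, Module.Basis.constr_basis]
    funext j
    rw [tv_apply, ← Algebra.algebraMap_eq_smul_one, ← hc, Pi.basisFun_apply]
    rfl
  rw [← h2]
  simp

end Pool.Agent.Work.MP_c4093f_al.Z
end
end

-- merged part: Pool.Agent.Work.MP_c4093f_al.Z.Lin
section
/-!
Structure of definable submodules.

Plan.  `str`: induction on `Def` with `RatM.exists_bc`, `map_bc_ten`, `comap_bc_ten`, `ten_inf`,
`bc_dg`.  Case `gr a`: `W` is the set of `w` with `w (inr ()) = c * w (inl ())`.  Case `map`: if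
`η = f ξ` has coordinates in `range t` then `η = f (t ξ)`.
`lin`: prove it first with an arbitrary finite index type `τ` in place of `Fin n`, by induction on
`Def` (`gr`: `τ = Unit` if `a = x`, else `τ = Empty`; `inf`: `τ₁ ⊕ τ₂` with `funLeft inl`,
`funLeft inr`; `map f`: image under `f.prodMap id`; `comap f`: preimage), then reindex.
`countable_def`: for a finite set `A` by induction on `A`, for all framed `M` at once (empty set:
`str` with `t = 1`, finitely many `W`; insert: `lin`), then `Def.finite` and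
`Set.countable_setOf_finite_subset`.
-/

namespace Pool.Agent.Work.MP_c4093f_al.Z

open LinearMap

variable {Λ : Type} [Ring Λ] [Algebra F Λ] {M : Type} [AddCommGroup M] [Module Λ M] [Fr Λ M]
  {P : Set (E Λ)}

/-- `a` acting on each coordinate of a framed module -/
def dgM (M : Type) [AddCommGroup M] [Module Λ M] [Fr Λ M] (a : E Λ) : M →ₗ[Λ] M :=
  (Fr.e : M ≃ₗ[Λ] (Fr.ι Λ M → Λ)).symm.toLinearMap ∘ₗ dg _ a ∘ₗ
    (Fr.e : M ≃ₗ[Λ] (Fr.ι Λ M → Λ)).toLinearMap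

omit [Algebra F Λ] in
theorem Lin_e_dgM (a : E Λ) (ξ : M) : (Fr.e : M ≃ₗ[Λ] (Fr.ι Λ M → Λ)) (dgM M a ξ) =
    dg _ a ((Fr.e : M ≃ₗ[Λ] (Fr.ι Λ M → Λ)) ξ) :=
  (Fr.e : M ≃ₗ[Λ] (Fr.ι Λ M → Λ)).apply_symm_apply _

theorem Lin_rat_dgM {N : Type} [AddCommGroup N] [Module Λ N] [Fr Λ N] {f : M →ₗ[Λ] N}
    (hf : RatM f) (a : E Λ) (ξ : M) : f (dgM M a ξ) = dgM N a (f ξ) := by
  obtain ⟨f₀, h⟩ := hf.exists_bc
  refine (Fr.e : N ≃ₗ[Λ] (Fr.ι Λ N → Λ)).injective ?_
  rw [h, Lin_e_dgM, Lin_e_dgM, bc_dg, h]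

theorem dgM_mem {t : E Λ} (hP : ∀ a ∈ P, a * t = t * a) {H : Submodule Λ M} (h : Def P H) :
    ∀ ξ ∈ H, dgM M t ξ ∈ H := by
  induction h with
  | gr a ha =>
    intro ξ hξ
    rw [mem_graph_iff] at hξ ⊢
    have h1 : (dgM (Λ × Λ) t ξ).1 = t ξ.1 := Lin_rat_dgM RatM.fst t ξ
    have h2 : (dgM (Λ × Λ) t ξ).2 = t ξ.2 := Lin_rat_dgM RatM.snd t ξ
    rw [h1, h2, hξ]
    exact (LinearMap.congr_fun (hP a ha) ξ.1).symm
  | top M => exact fun _ _ => trivial
  | inf _ _ h1 h2 => exact fun ξ hξ => ⟨h1 ξ hξ.1, h2 ξ hξ.2⟩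
  | map f hf _ h1 =>
    rintro _ ⟨ξ, hξ, rfl⟩
    exact ⟨_, h1 ξ hξ, Lin_rat_dgM hf t ξ⟩
  | comap f hf _ h1 =>
    intro ξ hξ
    rw [Submodule.mem_comap, Lin_rat_dgM hf]
    exact h1 _ hξ

omit [Algebra F Λ] in
theorem Lin_dg_fix {τ : Type} {t : E Λ} (ht : t * t = t) {η : τ → Λ} (h : η ∈ pw τ (range t)) :
    dg τ t η = η := by
  funext i
  obtain ⟨ζ, h1⟩ := mem_pw.1 h i
  rw [dg_apply, ← h1]
  exact LinearMap.congr_fun ht ζ

omit [Algebra F Λ] in
theorem Lin_dg_mem {τ : Type} (t : E Λ) (η : τ → Λ) : dg τ t η ∈ pw τ (range t) :=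
  mem_pw.2 fun i => ⟨η i, rfl⟩

theorem str {t : E Λ} (ht : t * t = t) (hP : ∀ a ∈ P, a * t = t * a ∧ ∃ c : F, a * t = c • t)
    {H : Submodule Λ M} (h : Def P H) : ∃ W : Submodule F (Fr.ι Λ M → F), ∀ ξ : M,
      (Fr.e : M ≃ₗ[Λ] (Fr.ι Λ M → Λ)) ξ ∈ pw _ (range t) →
        (ξ ∈ H ↔ (Fr.e : M ≃ₗ[Λ] (Fr.ι Λ M → Λ)) ξ ∈ ten (⊤ : Submodule Λ Λ) W) := by
  induction h with
  | gr a ha =>
    obtain ⟨-, c, hc⟩ := hP a ha
    let φ : (Unit ⊕ Unit → F) →ₗ[F] (Unit → F) :=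
      LinearMap.pi fun _ => proj (Sum.inr ()) - c • proj (Sum.inl ())
    refine ⟨ker φ, fun ξ hξ => ?_⟩
    obtain ⟨ζ, h1⟩ : ξ.1 ∈ range t := mem_pw.1 hξ (Sum.inl ())
    have h2 : a ξ.1 = c • ξ.1 := by
      rw [← h1]
      exact LinearMap.congr_fun hc ζ
    have h3 : ∀ η : Unit ⊕ Unit → Λ, bc Λ φ η () = η (Sum.inr ()) - c • η (Sum.inl ()) := by
      intro η
      rw [bc_apply]
      simp [φ, sub_eq_add_neg, add_comm, -ZMod.neg_eq_self_mod_two]
    have h4 : ten (⊤ : Submodule Λ Λ) (ker φ) = ker (bc Λ φ) := (ker_bc φ).symm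
    refine Iff.trans ?_ (SetLike.ext_iff.1 h4 _).symm
    rw [mem_graph_iff, h2, mem_ker, funext_iff, Unique.forall_iff]
    exact (sub_eq_zero.symm.trans (by rw [h3]; rfl))
  | top M => exact ⟨⊤, fun ξ _ => by simp⟩
  | inf _ _ h1 h2 =>
    obtain ⟨W, h1⟩ := h1
    obtain ⟨W', h2⟩ := h2
    exact ⟨W ⊓ W', fun ξ hξ => by
      rw [ten_inf, Submodule.mem_inf, Submodule.mem_inf, h1 ξ hξ, h2 ξ hξ]⟩
  | @map M N _ _ _ _ _ _ f hf H hH h1 =>
    obtain ⟨W, h1⟩ := h1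
    obtain ⟨f₀, h2⟩ := hf.exists_bc
    refine ⟨W.map f₀, fun η hη => ?_⟩
    rw [← map_bc_ten]
    constructor
    · rintro ⟨ξ, hξ, rfl⟩
      refine ⟨_, (h1 (dgM M t ξ) ?_).1 (dgM_mem (fun a ha => (hP a ha).1) hH ξ hξ), ?_⟩
      · rw [Lin_e_dgM]
        exact Lin_dg_mem _ _
      · rw [← h2, Lin_rat_dgM hf, Lin_e_dgM, Lin_dg_fix ht hη]
    · rintro ⟨ζ, h3, h4⟩
      refine ⟨(Fr.e : M ≃ₗ[Λ] (Fr.ι Λ M → Λ)).symm (dg _ t ζ), (h1 _ ?_).2 ?_,
        (Fr.e : N ≃ₗ[Λ] (Fr.ι Λ N → Λ)).injective ?_⟩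
      · rw [LinearEquiv.apply_symm_apply]
        exact Lin_dg_mem _ _
      · rw [LinearEquiv.apply_symm_apply]
        exact dg_mem_ten le_top h3
      · rw [h2, LinearEquiv.apply_symm_apply, bc_dg, h4, Lin_dg_fix ht hη]
  | comap f hf _ h1 =>
    obtain ⟨W, h1⟩ := h1
    obtain ⟨f₀, h2⟩ := hf.exists_bc
    refine ⟨W.comap f₀, fun ξ hξ => ?_⟩
    rw [← comap_bc_ten, Submodule.mem_comap, Submodule.mem_comap, ← h2]
    exact h1 _ (by rw [h2]; exact bc_mem_pw f₀ hξ)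

/-- reindexing the auxiliary coordinates -/
theorem Lin_rat_re {σ τ : Type} [Fintype σ] [Fintype τ] (g : σ → τ) :
    RatM ((LinearMap.id : M →ₗ[Λ] M).prodMap ((funLeft Λ Λ g).prodMap (funLeft Λ Λ g))) :=
  RatM.id.prodMap ((RatM.funLeft g).prodMap (RatM.funLeft g))

theorem Lin_gen {x : E Λ} {H : Submodule Λ M} (h : Def (insert x P) H) :
    ∃ (τ : Type) (_ : Fintype τ) (Γ : Submodule Λ (M × (τ → Λ) × (τ → Λ))), Def P Γ ∧
      ∀ ξ, ξ ∈ H ↔ ∃ η, (ξ, η, dg τ x η) ∈ Γ := by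
  induction h with
  | gr a ha =>
    rcases ha with rfl | ha
    · refine ⟨Unit, inferInstance, _, Def.comap (fst Λ (Λ × Λ) _ -
        ((proj ()).prodMap (proj ())) ∘ₗ snd Λ _ ((Unit → Λ) × (Unit → Λ)))
        (RatM.fst.sub (((RatM.proj ()).prodMap (RatM.proj ())).comp RatM.snd)) Def.bot,
        fun ξ => ?_⟩
      rw [mem_graph_iff]
      constructor
      · intro h
        exact ⟨fun _ => ξ.1, sub_eq_zero.2 (Prod.ext rfl h)⟩
      · rintro ⟨η, h⟩
        have h1 : ξ = (η (), a (η ())) := sub_eq_zero.1 h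
        rw [h1]
    · exact ⟨Unit, inferInstance, _, Def.comap (fst Λ (Λ × Λ) ((Unit → Λ) × (Unit → Λ))) RatM.fst
        (Def.gr a ha), fun ξ => ⟨fun h => ⟨0, h⟩, fun ⟨_, h⟩ => h⟩⟩
  | top M => exact ⟨Unit, inferInstance, ⊤, Def.top _, fun ξ => ⟨fun _ => ⟨0, trivial⟩,
      fun _ => trivial⟩⟩
  | inf _ _ h1 h2 =>
    obtain ⟨σ, _, Γ, d1, h1⟩ := h1
    obtain ⟨τ, _, Γ', d2, h2⟩ := h2
    refine ⟨σ ⊕ τ, inferInstance, _, Def.inf (Def.comap _ (Lin_rat_re Sum.inl) d1)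
      (Def.comap _ (Lin_rat_re Sum.inr) d2), fun ξ => ?_⟩
    rw [Submodule.mem_inf, h1, h2]
    constructor
    · rintro ⟨⟨η, k1⟩, η', k2⟩
      exact ⟨Sum.elim η η', k1, k2⟩
    · rintro ⟨η, k1, k2⟩
      exact ⟨⟨_, k1⟩, _, k2⟩
  | map f hf _ h1 =>
    obtain ⟨σ, _, Γ, d1, h1⟩ := h1
    refine ⟨σ, inferInstance, _, Def.map (f.prodMap LinearMap.id) (hf.prodMap RatM.id) d1,
      fun ξ => ?_⟩
    constructor
    · rintro ⟨ζ, k1, rfl⟩
      obtain ⟨η, k2⟩ := (h1 ζ).1 k1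
      exact ⟨η, _, k2, rfl⟩
    · rintro ⟨η, ⟨ζ, γ⟩, k1, k2⟩
      obtain ⟨k3, rfl⟩ : f ζ = ξ ∧ γ = (η, dg σ x η) := Prod.ext_iff.1 k2
      exact ⟨ζ, (h1 ζ).2 ⟨η, k1⟩, k3⟩
  | comap f hf _ h1 =>
    obtain ⟨σ, _, Γ, d1, h1⟩ := h1
    exact ⟨σ, inferInstance, _, Def.comap (f.prodMap LinearMap.id) (hf.prodMap RatM.id) d1,
      fun ξ => h1 (f ξ)⟩

theorem lin {x : E Λ} {H : Submodule Λ M} (h : Def (insert x P) H) :
    ∃ (n : ℕ) (Γ : Submodule Λ (M × (Fin n → Λ) × (Fin n → Λ))), Def P Γ ∧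
      H = (Γ ⊓ gx M (Fin n) x).map (fst Λ M _) := by
  obtain ⟨τ, _, Γ, d, h1⟩ := Lin_gen h
  let e := Fintype.equivFin τ
  refine ⟨_, _, Def.comap _ (Lin_rat_re e) d, Submodule.ext fun ξ => ?_⟩
  rw [h1]
  constructor
  · rintro ⟨η, k⟩
    refine ⟨(ξ, η ∘ e.symm, dg _ x (η ∘ e.symm)), ⟨?_, mem_gx.2 rfl⟩, rfl⟩
    have k1 : funLeft Λ Λ e (η ∘ e.symm) = η := funext fun i => congrArg η (e.symm_apply_apply i)
    have k2 : funLeft Λ Λ e (dg _ x (η ∘ e.symm)) = dg _ x η :=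
      funext fun i => congrArg (fun j => x (η j)) (e.symm_apply_apply i)
    change (ξ, funLeft Λ Λ e (η ∘ e.symm), funLeft Λ Λ e (dg _ x (η ∘ e.symm))) ∈ Γ
    rwa [k1, k2]
  · rintro ⟨⟨ζ, η, η'⟩, ⟨k1, k2⟩, rfl⟩
    obtain rfl : η' = dg _ x η := mem_gx.1 k2
    exact ⟨η ∘ e, k1⟩

theorem Lin_fin {A : Set (E Λ)} (hA : A.Finite) : ∀ (M : Type) [AddCommGroup M] [Module Λ M]
    [Fr Λ M], {H : Submodule Λ M | Def A H}.Countable := by
  induction A, hA using Set.Finite.induction_on with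
  | empty =>
    intro M _ _ _
    refine (Set.countable_range fun W : Submodule F (Fr.ι Λ M → F) => (ten ⊤ W).comap
      (Fr.e : M ≃ₗ[Λ] (Fr.ι Λ M → Λ)).toLinearMap).mono fun H hH => ?_
    obtain ⟨W, h⟩ := str (t := 1) (mul_one 1) (fun a ha => absurd ha (Set.notMem_empty a)) hH
    exact ⟨W, Submodule.ext fun ξ => (h ξ (mem_pw.2 fun i => ⟨_, rfl⟩)).symm⟩
  | @insert x A _ _ ih =>
    intro M _ _ _
    refine (Set.countable_iUnion fun n : ℕ => (ih (M × (Fin n → Λ) × (Fin n → Λ))).image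
      fun Γ => (Γ ⊓ gx M (Fin n) x).map (fst Λ M _)).mono fun H hH => ?_
    obtain ⟨n, Γ, h1, h2⟩ := lin hH
    exact Set.mem_iUnion.2 ⟨n, Γ, h1, h2.symm⟩

theorem countable_def (hP : P.Countable) : {H : Submodule Λ M | Def P H}.Countable := by
  refine ((Set.countable_ofPred_finite_subset hP).biUnion fun A hA => Lin_fin hA.1 M).mono
    fun H hH => ?_
  obtain ⟨A, h1, h2⟩ := Def.finite hH
  exact Set.mem_biUnion (show (A : Set (E Λ)) ∈ {t | t.Finite ∧ t ⊆ P} from ⟨A.finite_toSet, h1⟩) h2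

theorem countable_dm (hP : P.Countable) : {a : E Λ | DM P a}.Countable := by
  refine (countable_def (M := Λ × Λ) hP).preimage (f := fun a : E Λ => graph a) fun a b h => ?_
  refine LinearMap.ext fun ξ => ?_
  have h1 : (ξ, a ξ) ∈ graph a := (mem_graph_iff _ _).2 rfl
  exact (mem_graph_iff _ _).1 ((show graph a = graph b from h) ▸ h1)

theorem enum_spec (hP : P.Countable) {H : Submodule Λ Λ} (h : Def P H) : ∃ n, enum P n = H := by
  have h1 : ∃ u : ℕ → Submodule Λ Λ, ∀ H, Def P H → ∃ n, u n = H :=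
    Set.countable_iff_exists_subset_range.1 (countable_def hP)
  rw [enum, dif_pos h1]
  exact h1.choose_spec H h

end Pool.Agent.Work.MP_c4093f_al.Z
end
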