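import Pool.Agent.Work.MP_c4093f_al.PPDefs

/-! The Ziegler spectrum of left `S`-modules (right `A`-modules are left modules over `Aᵐᵒᵖ`),
minimal pairs, the isolation condition and the dual of a set of right points. -/

namespace Pool.Agent.Work.MP_c4093f_al.Z

variable {S : Type} [Ring S]

variable (S) in
/-- Left `S`-modules. -/
structure Mod where
  N : Type
  [grp : AddCommGroup N]
  [mod : Module S N]

attribute [instance] Mod.grp Mod.mod

/-- Pure-injective: injective over pure embeddings. -/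
def PInj (N : Mod S) : Prop :=
  ∀ (B C : Mod S) (i : B.N →ₗ[S] C.N) (f : B.N →ₗ[S] N.N), Pure i →
    ∃ g : C.N →ₗ[S] N.N, g ∘ₗ i = f

/-- Indecomposable. -/
def Indec (N : Mod S) : Prop :=
  Nontrivial N.N ∧ ∀ U V : Submodule S N.N, IsCompl U V → U = ⊥ ∨ V = ⊥

variable (S) in
/-- Indecomposable pure-injective modules. -/
def Pt := {N : Mod S // PInj N ∧ Indec N}

variable (S) in
/-- The Ziegler spectrum: isomorphism classes of indecomposable pure-injective modules. -/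
def Zg := Quot fun N N' : Pt S => Nonempty (N.1.N ≃ₗ[S] N'.1.N)

/-- The class of a module. -/
def cls (N : Pt S) : Zg S := Quot.mk _ N

/-- `ψ ≤ φ` in all modules. -/
def PPLe {n : ℕ} (ψ φ : PP S n) : Prop := ∀ N : Mod S, ψ.ev N.N ⊆ φ.ev N.N

variable (S) in
/-- pp-pairs `φ / ψ`. -/
structure Pair where
  n : ℕ
  φ : PP S n
  ψ : PP S n
  le : PPLe ψ φ

/-- The basic open set `(φ / ψ)`. -/
def Pair.Opn (π : Pair S) : Set (Zg S) := cls '' {N | π.φ.ev N.1.N ≠ π.ψ.ev N.1.N}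

/-- The Ziegler topology. -/
instance zgTop : TopologicalSpace (Zg S) := TopologicalSpace.generateFrom (Set.range Pair.Opn)

/-- `φ / ψ` is `X`-minimal. -/
def Minimal (X : Set (Zg S)) (π : Pair S) : Prop :=
  (π.Opn ∩ X).Nonempty ∧ ∀ θ : PP S π.n, PPLe π.ψ θ → PPLe θ π.φ →
    (∀ N, cls N ∈ X → θ.ev N.1.N = π.φ.ev N.1.N) ∨ ∀ N, cls N ∈ X → θ.ev N.1.N = π.ψ.ev N.1.N

/-- The isolation condition for `X`. -/
def IC (X : Set (Zg S)) : Prop :=
  ∀ Y, IsClosed Y → Y ⊆ X → ∀ p, (∃ O, IsOpen O ∧ O ∩ Y = {p}) →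
    ∃ π : Pair S, Minimal Y π ∧ π.Opn ∩ Y = {p}

/-- The dual set `DX`: the complement of the union of the `(Dψ / Dφ)` with `(φ / ψ) ∩ X = ∅`. -/
def DualSet (X : Set (Zg Sᵐᵒᵖ)) : Set (Zg S) :=
  (⋃ π ∈ {π : Pair Sᵐᵒᵖ | π.Opn ∩ X = ∅},
    cls '' {L | π.ψ.dual.ev L.1.N ≠ π.φ.dual.ev L.1.N})ᶜ

end Pool.Agent.Work.MP_c4093f_al.Z
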