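import Pool.Agent.Work.MP_c4093f_al.Z.FinFam
import Pool.Agent.Work.MP_c4093f_al.Z.Lin
import Pool.Agent.Work.MP_c4093f_al.Z.Zg

-- merged part: Pool.Agent.Work.MP_c4093f_al.Z.Sp1
section
-- merged part: Pool.Agent.Work.MP_c4093f_al.Z.Flag
section
/-!
Elementary calculus of flags: germs, continuity, cofinal flags, descent.  All proofs are direct
(take the maximum of the indices and use `Antitone`).  `Simple.cof`: each `T' m` is definable; it
cannot be disjoint from a member `T n`, since some `T' k ≤ T' m ⊓ T n` is nonzero.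
-/

namespace Pool.Agent.Work.MP_c4093f_al.Z

open LinearMap

variable {Λ : Type} [Ring Λ] {M N K : Type} [AddCommGroup M] [Module Λ M] [AddCommGroup N]
  [Module Λ N] [AddCommGroup K] [Module Λ K] {U U₁ U₂ : ℕ → Submodule Λ M}
  {T T₁ : ℕ → Submodule Λ N} {f g : M →ₗ[Λ] N}

variable [Algebra F Λ] [Fr Λ M] [Fr Λ N] {P P' : Set (E Λ)} {Y Y₁ Y' Y₁' : ℕ → Submodule Λ Λ}
  {s : ℚ → E Λ}

theorem Cont.smul (c : F) {a : E Λ} (h : Cont a Y Y') : Cont (c • a) Y Y' := by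
    exact fun m => (h m).mono fun ξ k => Submodule.smul_of_tower_mem _ c k
theorem Cont.comb (hY : Antitone Y) {n : ℕ} {a : Fin n → E Λ} (h : ∀ i, Cont (a i) Y Y')
    (c : Fin n → F) : Cont (∑ i, c i • a i) Y Y' := by
    exact Cont.sum hY _ fun i _ => (h i).smul _
theorem DM.comb {n : ℕ} {a : Fin n → E Λ} (h : ∀ i, DM P (a i)) (c : Fin n → F) :
    DM P (∑ i, c i • a i) := by
    exact DM.sum _ fun i _ => (h i).smul _
theorem Fl.mono (h : P ⊆ P') (hU : Fl P U) : Fl P' U := by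
    exact ⟨fun n => (hU.1 n).mono h, hU.2⟩
theorem Fl.fmap (hU : Fl P U) (hf : DM P f) : Fl P (fmap f U) := by
    exact ⟨fun n => (hU.1 n).mapD hf, anti_fmap hU.2⟩
theorem Fl.fprod (hU : Fl P U) (hT : Fl P T) : Fl P (fprod U T) := by
    exact ⟨fun n => (hU.1 n).prod (hT.1 n), fun _ _ k => Submodule.prod_mono (hU.2 k) (hT.2 k)⟩
theorem Fl.tex (hU : Fl P U) : Fl P (tex U) := by
    refine ⟨fun n => ?_, anti_tex hU.2⟩
    cases n with
    | zero => exact Def.top M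
    | succ n => exact hU.1 n
theorem Fl.inf (hU : Fl P U) {D : Submodule Λ M} (hD : Def P D) : Fl P fun n => D ⊓ U n := by
    exact ⟨fun n => hD.inf (hU.1 n), fun _ _ k => inf_le_inf_left D (hU.2 k)⟩
theorem Fl.sup (hU : Fl P U) {D : Submodule Λ M} (hD : Def P D) : Fl P fun n => U n ⊔ D := by
    exact ⟨fun n => (hU.1 n).sup hD, fun _ _ k => sup_le_sup_right (hU.2 k) D⟩

theorem Cof.simple (h : Cof Y Y₁) (hY : Simple P Y) : Simple P Y₁ := by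
    refine ⟨h.ne_bot hY.1, fun H hH => (hY.2 H hH).imp h.big.1 fun ⟨n, hn⟩ => ?_⟩
    obtain ⟨k, hk⟩ := h.2 n
    exact ⟨k, le_bot_iff.1 (hn ▸ inf_le_inf_left H hk)⟩
theorem Cof.tame (h : Cof Y Y₁) (hY : Tame P Y) : Tame P Y₁ := by
    exact hY.imp fun A hA b hb hc => (hA b hb ((h.cont h).2 hc)).imp fun _ k => ⟨k.1, h.zer.1 k.2⟩
theorem Cof.ts (h : Cof Y Y₁) (hY : TS P Y) : TS P Y₁ := by
    exact ⟨h.simple hY.1, h.tame hY.2⟩
theorem Cof.tsb (h : Cof Y Y₁) {n : ℕ} {a : Fin n → E Λ} (hY : TSb P Y a) : TSb P Y₁ a := by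
    exact ⟨h.simple hY.simple, hY.dm, fun i => (h.cont h).1 (hY.cont i), fun c k => hY.ind c (h.zer.2 k),
      fun b hb hc => (hY.span b hb ((h.cont h).2 hc)).imp fun _ k => h.zer.1 k⟩
theorem Cof.noMap (h : Cof Y Y₁) (h' : Cof Y' Y₁') (hY : NoMap P Y Y') : NoMap P Y₁ Y₁' := by
    exact fun b hb hc => h.zer.1 (hY b hb ((h.cont h').2 hc))
theorem Cof.gg (h : Cof Y Y₁) (hY : GG P Y) : GG P Y₁ := by
    exact fun e he k => hY e he ((h.symm.fmap e).ts k)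
theorem Cof.kill (h : Cof Y Y₁) (hY : Kill P Y) : Kill P Y₁ := by
    obtain ⟨z₁, z₂, h1, h2, h3, h4, h5⟩ := hY
    refine ⟨z₁, z₂, h1, h2, mt h.zer.2 h3, mt h.zer.2 h4, fun m => ?_⟩
    obtain ⟨k, hk⟩ := h.1 m
    exact h.big.1 ((h5 k).mono (sup_le_sup (inf_le_inf_right _ hk) (inf_le_inf_right _ hk)))
theorem Cof.sGen (h : Cof Y Y₁) (hY : SGen s P Y) : SGen s P Y₁ := by
    obtain ⟨κ, i, W, p, h1, h2, n, h3⟩ := hY
    obtain ⟨k, hk⟩ := h.2 n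
    exact ⟨κ, i, W, p, h1, fun j => ⟨(h2 j).1, (h.cont (Cof.refl _)).1 (h2 j).2⟩, k,
      fun ξ l => h3 ξ (hk l)⟩

theorem Simple.anti (h : P ⊆ P') (hY : Simple P' Y) : Simple P Y := by
    exact ⟨hY.1, fun H hH => hY.2 H (hH.mono h)⟩
theorem Tame.anti (h : P ⊆ P') (hY : Tame P' Y) : Tame P Y := by
    exact hY.imp fun _ hA b hb => hA b (hb.mono h)
theorem TS.anti (h : P ⊆ P') (hY : TS P' Y) : TS P Y := by
    exact ⟨hY.1.anti h, hY.2.anti h⟩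
theorem TSb.anti (h : P ⊆ P') {n : ℕ} {a : Fin n → E Λ} (hY : TSb P' Y a) (ha : ∀ i, DM P (a i)) :
    TSb P Y a := by
    exact ⟨hY.simple.anti h, ha, hY.cont, hY.ind, fun b hb => hY.span b (hb.mono h)⟩
theorem NoMap.anti (h : P ⊆ P') (hY : NoMap P' Y Y') : NoMap P Y Y' := by
    exact fun b hb => hY b (hb.mono h)
theorem Kill.mono (h : P ⊆ P') (hY : Kill P Y) : Kill P' Y := by
    obtain ⟨z₁, z₂, h1, h2, h3⟩ := hY
    exact ⟨z₁, z₂, h1.mono h, h2.mono h, h3⟩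
theorem SGen.mono (h : P ⊆ P') (hY : SGen s P Y) : SGen s P' Y := by
    obtain ⟨κ, i, W, p, h1, h2, h3⟩ := hY
    exact ⟨κ, i, W, p, h1, fun j => ⟨(h2 j).1.mono h, (h2 j).2⟩, h3⟩
theorem SemQ.mono {Q Q' : (ℕ → Submodule Λ Λ) → Prop} (h : P ⊆ P') (hQ : ∀ Y, Q Y → Q' Y)
    (hU : SemQ P U Q) : SemQ P' U Q' := by
    obtain ⟨κ, i, W, p, h1, h2, h3⟩ := hU
    exact ⟨κ, i, W, p, fun j => hQ _ (h1 j), fun j => ⟨(h2 j).1.mono h, (h2 j).2⟩, h3⟩
theorem SemQ.self {Q : (ℕ → Submodule Λ Λ) → Prop} (h : Q Y) : SemQ P Y Q := by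
    exact ⟨Unit, inferInstance, fun _ => Y, fun _ => LinearMap.id, fun _ => h,
      fun _ => ⟨DM.id, Cont.id Y⟩, 0, fun _ _ k => k ()⟩
theorem SemQ.fprod {Q : (ℕ → Submodule Λ Λ) → Prop} (h : Q Y) (h' : Q Y') :
    SemQ P (fprod Y Y') Q := by
    refine ⟨Bool, inferInstance, fun i => cond i Y Y', fun i => cond i (fst Λ Λ Λ) (snd Λ Λ Λ),
      fun i => ?_, fun i => ?_, 0, fun _ _ k => Prod.ext (k true) (k false)⟩
    · cases i
      exacts [h', h]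
    · cases i
      exacts [⟨DM.snd, fun m => ⟨m, fun _ k => k.2⟩⟩, ⟨DM.fst, fun m => ⟨m, fun _ k => k.1⟩⟩]

theorem Simple.inj (hY : Simple P Y) {b : Λ →ₗ[Λ] N} (hb : DM P b) (h : ¬ Zer b Y) :
    ∃ n, ∀ ξ ∈ Y n, b ξ = 0 → ξ = 0 := by
    obtain ⟨n, hn⟩ := (hY.2 _ hb.ker).resolve_left h
    exact ⟨n, fun ξ k1 k2 => (Submodule.eq_bot_iff _).1 hn ξ ⟨k2, k1⟩⟩
theorem Simple.not_zer_id (hY : Simple P Y) : ¬ Zer (LinearMap.id : E Λ) Y := by
    exact fun ⟨n, hn⟩ => hY.1 n (le_bot_iff.1 fun _ k => hn k)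
theorem Simple.cof (hY : Simple P Y) (h : Fl P Y₁) (h0 : ∀ n, Y₁ n ≠ ⊥) (hr : ∀ m, Big Y₁ (Y m)) :
    Cof Y Y₁ := by
    refine ⟨fun m => (hY.2 _ (h.1 m)).resolve_right fun ⟨n, hn⟩ => ?_, hr⟩
    obtain ⟨k, hk⟩ := (Big.self Y₁ m).inf h.2 (hr n)
    exact h0 k (le_bot_iff.1 (hn ▸ hk))
theorem GG.noMap (h : GG P Y) (hY : Fl P Y) (h' : TS P Y') : NoMap P Y Y' := by
    intro b hb hc
    by_contra k
    exact h b hb ((h'.1.cof (hY.fmap hb) (fmap_ne_bot.2 k) fun m => big_fmap.2 (hc m)).ts h')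
theorem SGen.of_map (h : SGen s P Y) (hY : Antitone Y') {b : E Λ} (hb : DM P b) (hc : Cont b Y' Y)
    {n : ℕ} (hi : ∀ ξ ∈ Y' n, b ξ = 0 → ξ = 0) : SGen s P Y' := by
    obtain ⟨κ, i, W, p, h1, h2, m, h3⟩ := h
    obtain ⟨k, hk⟩ := (Big.self Y' n).inf hY (hc m)
    exact ⟨κ, i, W, fun j => p j ∘ₗ b, h1, fun j => ⟨(h2 j).1.comp hb, (h2 j).2.comp hc⟩, k,
      fun ξ l1 l2 => hi ξ (hk l1).1 (h3 _ (hk l1).2 l2)⟩
theorem SGen.exists_map (h : SGen s P Y) (hY : Antitone Y') {b : E Λ} (hc : Cont b Y' Y)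
    (h0 : ¬ Zer b Y') : ∃ c : E Λ, DM P c ∧ Cont c Y (Zf s) ∧ ¬ Zer (c * b) Y' := by
    obtain ⟨κ, i, W, p, h1, h2, m, h3⟩ := h
    by_contra k
    have h4 : ∀ j, Big Y' (ker (p j * b)) := fun j => by_contra fun l =>
      k ⟨p j, (h2 j).1, h1 j ▸ (h2 j).2, l⟩
    exact h0 (((hc m).inf hY (Big.iInf hY h4)).mono fun ξ l =>
      h3 _ l.1 fun j => (Submodule.mem_iInf _).1 l.2 j)

end Pool.Agent.Work.MP_c4093f_al.Z
end

-- merged part: Pool.Agent.Work.MP_c4093f_al.Z.Base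
section
/-!
The chain of idempotents and what it defines.

Plan.  `s 0` has rank zero; `s 1` is an idempotent whose range has full rank
(`eq_of_le_of_rho_le`).  `ratRk_base`: `H` is defined from finitely many `s q`; take a common
denominator `n` and `t i = s ((i + 1) / n) - s (i / n)`, `i < n`, idempotents of rank `1 / n` with
`s q * t i ∈ {0, t i}`.  In the frame, `H ⊓ pw (range (s ((i + 1) / n)))` maps by `dg (t i)` onto
`H ⊓ pw (range (t i)) = ten (range (t i)) W` (`dgM_mem`, `str`, `ten_eq_inf`) with kernel part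
`H ⊓ pw (range (s (i / n)))`; induction on `i`.
`rperp_base`: `k = 0`, `t = s (1 / 2)`: if `(ξ, η) ∈ Γ` then `(t ξ, t η) ∈ Γ` (`dgM_mem`).
`tsb_base`: `Loc0` reduces a submodule of `Λ × Λ` on `(Zf s n).prod (Zf s n)` to one defined from
finitely many `s q`; `str` with `t = s (1 / (n + 1))` below all positive parameters: either the
submodule contains the product, or some `(c₁, c₂) ≠ 0` has `c₁ • ξ + c₂ • η = 0` on it
(`mem_ten_sup_pw`).  Apply this to `H.prod H` and to graphs (characteristic two).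
-/

namespace Pool.Agent.Work.MP_c4093f_al.Z

open LinearMap

variable {Λ : Type} [Ring Λ] [Dim Λ] {s : ℚ → E Λ}

theorem Chain.zero (h : Chain s) {q : ℚ} (hq : q ≤ 0) : s q = 0 := by
  have h0 : s 0 = 0 := by
    have h1 := h.rk 0 le_rfl zero_le_one
    exact range_eq_bot.1 (eq_bot_of_rho (by rw [h1]; simp))
  have h2 := h.mul q 0
  rw [min_eq_left hq, h0, mul_zero] at h2
  exact h2.symm

theorem Chain.one (h : Chain s) {q : ℚ} (hq : 1 ≤ q) : s q = 1 := by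
  have h1 : s 1 = 1 := by
    have h2 := h.rk 1 zero_le_one le_rfl
    have h3 : range (s 1) = ⊤ :=
      eq_of_le_of_rho_le (fg_range _) le_top (by rw [h2, rho_top_self]; simp)
    have h4 := h.mul 1 1
    rw [min_self] at h4
    refine LinearMap.ext fun ξ => ?_
    obtain ⟨η, rfl⟩ : ξ ∈ range (s 1) := h3 ▸ Submodule.mem_top
    exact LinearMap.congr_fun h4 η
  have h2 := h.mul q 1
  rwa [min_eq_right hq, h1, mul_one] at h2

theorem Chain.comm (h : Chain s) (q r : ℚ) : s q * s r = s r * s q := by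
  rw [h.mul, h.mul, min_comm]

theorem Chain.apBase (h : Chain s) (q r : ℚ) (ξ : Λ) : s q (s r ξ) = s (min q r) ξ :=
  LinearMap.congr_fun (h.mul q r) ξ

theorem Chain.range_mono (h : Chain s) {q r : ℚ} (hq : q ≤ r) : range (s q) ≤ range (s r) := by
  rintro _ ⟨ξ, rfl⟩
  exact ⟨s q ξ, by rw [h.apBase, min_eq_right hq]⟩

theorem Chain.rho_sub (h : Chain s) {q r : ℚ} (h0 : 0 ≤ q) (hq : q ≤ r) (h1 : r ≤ 1) :
    rho (range (s r - s q)) = r - q := by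
  have e1 : (range (s r)).map (s q) = range (s q) := by
    rw [← range_comp, ← Module.End.mul_eq_comp, h.mul, min_eq_left hq]
  have e2 : range (s r) ⊓ ker (s q) = range (s r - s q) := by
    apply le_antisymm
    · rintro _ ⟨⟨ξ, rfl⟩, hξ⟩
      have hξ' : s q (s r ξ) = 0 := hξ
      exact ⟨s r ξ, by rw [LinearMap.sub_apply, hξ', h.apBase, min_self, sub_zero]⟩
    · rintro _ ⟨ξ, rfl⟩
      refine ⟨sub_mem ⟨ξ, rfl⟩ (h.range_mono hq ⟨ξ, rfl⟩), ?_⟩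
      change s q (s r ξ - s q ξ) = 0
      rw [map_sub, h.apBase, h.apBase, min_self, min_eq_left hq, sub_self]
  have e3 := rho_map_add (s q) (range (s r))
  rw [e1, e2, h.rk q h0 (hq.trans h1), h.rk r (h0.trans hq) h1] at e3
  linarith

theorem Chain.rho_Zf (h : Chain s) (n : ℕ) : rho (Zf s n) = 1 / (n + 1) := by
  have hn : (0 : ℚ) < n + 1 := by positivity
  have := h.rk (1 / (n + 1)) (by positivity)
    (by rw [div_le_one hn]; linarith [Nat.cast_nonneg (α := ℚ) n])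
  rw [Zf, this]
  push_cast
  rfl

theorem Chain.null_Zf (h : Chain s) : Null (Zf s) := by
  intro ε hε
  obtain ⟨n, hn⟩ := exists_nat_one_div_lt hε
  exact ⟨n, by rwa [h.rho_Zf]⟩

theorem Chain.antiBase (h : Chain s) : Antitone (Zf s) := by
  intro m n hmn
  refine h.range_mono ?_
  have : (m : ℚ) ≤ n := by exact_mod_cast hmn
  gcongr

theorem Chain.neBase (h : Chain s) (n : ℕ) : Zf s n ≠ ⊥ := by
  intro h0
  have h1 := h.rho_Zf n
  rw [h0, rho_bot] at h1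
  have : (0 : ℝ) < 1 / (n + 1) := by positivity
  linarith

omit [Dim Λ] in
/-- the points of a framed module with all coordinates in `U` -/
def cellBase (M : Type) [AddCommGroup M] [Module Λ M] [Fr Λ M] (U : Submodule Λ Λ) :
    Submodule Λ M :=
  (pw (Fr.ι Λ M) U).comap (Fr.e : M ≃ₗ[Λ] (Fr.ι Λ M → Λ)).toLinearMap

section
variable {M : Type} [AddCommGroup M] [Module Λ M] [Fr Λ M]

omit [Dim Λ] in
theorem mem_cellBase {U : Submodule Λ Λ} {ξ : M} :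
    ξ ∈ cellBase M U ↔ (Fr.e : M ≃ₗ[Λ] (Fr.ι Λ M → Λ)) ξ ∈ pw (Fr.ι Λ M) U := Iff.rfl

theorem rho_frameBase (X : Submodule Λ (Fr.ι Λ M → Λ)) :
    rho (X.comap (Fr.e : M ≃ₗ[Λ] (Fr.ι Λ M → Λ)).toLinearMap) = rho X := by
  rw [← rho_map_of_inj (Fr.e : M ≃ₗ[Λ] (Fr.ι Λ M → Λ)).toLinearMap
    (fun ξ _ h0 => (Fr.e : M ≃ₗ[Λ] (Fr.ι Λ M → Λ)).map_eq_zero_iff.1 h0),
    Submodule.map_comap_eq_of_surjective (Fr.e : M ≃ₗ[Λ] (Fr.ι Λ M → Λ)).surjective]

omit [Dim Λ] in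
theorem frame_dgMBase (t : E Λ) (ξ : M) (i : Fr.ι Λ M) :
    (Fr.e : M ≃ₗ[Λ] (Fr.ι Λ M → Λ)) (dgM M t ξ) i = t ((Fr.e : M ≃ₗ[Λ] (Fr.ι Λ M → Λ)) ξ i) := by
  simp [dgM, dg]

end

variable [Algebra F Λ] {P : Set (E Λ)}

theorem Chain.fl_Zf (h : Chain s) (hP : Set.range s ⊆ P) : Fl P (Zf s) :=
  ⟨fun _ => DM.range (DM.of_mem (hP ⟨_, rfl⟩)), h.antiBase⟩

section
variable {M : Type} [AddCommGroup M] [Module Λ M] [Fr Λ M]

omit [Dim Λ] in
theorem finBase {H : Submodule Λ M} (hH : Def (Set.range s) H) :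
    ∃ Q : Finset ℚ, Def (s '' ↑Q) H := by
  obtain ⟨A, hA, hD⟩ := hH.finite
  rw [← Set.image_univ] at hA
  classical
  obtain ⟨Q, -, hQ⟩ := Finset.subset_set_image_iff.1 hA
  refine ⟨Q, hD.mono ?_⟩
  rw [← hQ, Finset.coe_image]

theorem Chain.strBase (h : Chain s) {Q : Finset ℚ} {H : Submodule Λ M} (hH : Def (s '' ↑Q) H)
    {q r : ℚ} (hq : q ≤ r) (hQ : ∀ x ∈ Q, x ≤ q ∨ r ≤ x) :
    ∃ W : Submodule F (Fr.ι Λ M → F), ∀ ξ ∈ cellBase M (range (s r - s q)),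
      (ξ ∈ H ↔ (Fr.e : M ≃ₗ[Λ] (Fr.ι Λ M → Λ)) ξ ∈ ten (⊤ : Submodule Λ Λ) W) := by
  refine str ?_ ?_ hH
  · rw [mul_sub, sub_mul, sub_mul, h.mul, h.mul, h.mul, h.mul, min_self, min_self, min_eq_left hq,
      min_eq_right hq, sub_self, sub_zero]
  · rintro _ ⟨x, hx, rfl⟩
    refine ⟨by rw [mul_sub, sub_mul, h.comm x r, h.comm x q], ?_⟩
    rcases hQ x hx with h1 | h1
    · exact ⟨0, by rw [mul_sub, h.mul, h.mul, min_eq_left h1, min_eq_left (h1.trans hq), sub_self,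
        zero_smul]⟩
    · exact ⟨1, by rw [mul_sub, h.mul, h.mul, min_eq_right h1, min_eq_right (hq.trans h1),
        one_smul]⟩

theorem Chain.stepBase (h : Chain s) {Q : Finset ℚ} {H : Submodule Λ M} (hH : Def (s '' ↑Q) H)
    {q r : ℚ} (h0 : 0 ≤ q) (hq : q ≤ r) (h1 : r ≤ 1) (hQ : ∀ x ∈ Q, x ≤ q ∨ r ≤ x)
    (ih : ∃ a : ℚ, rho (H ⊓ cellBase M (range (s q))) = a) :
    ∃ a : ℚ, rho (H ⊓ cellBase M (range (s r))) = a := by
  obtain ⟨W, hW⟩ := h.strBase hH hq hQ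
  obtain ⟨a, ha⟩ := ih
  have hc : ∀ b ∈ s '' ↑Q, b * (s r - s q) = (s r - s q) * b := by
    rintro _ ⟨x, -, rfl⟩
    rw [mul_sub, sub_mul, h.comm x r, h.comm x q]
  have e1 : (H ⊓ cellBase M (range (s r))).map (dgM M (s r - s q)) =
      (ten (range (s r - s q)) W).comap (Fr.e : M ≃ₗ[Λ] (Fr.ι Λ M → Λ)).toLinearMap := by
    apply le_antisymm
    · rintro _ ⟨ξ, ⟨hξ, -⟩, rfl⟩
      have hm : dgM M (s r - s q) ξ ∈ cellBase M (range (s r - s q)) :=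
        mem_cellBase.2 (mem_pw.2 fun i => ⟨_, (frame_dgMBase _ ξ i).symm⟩)
      rw [Submodule.mem_comap, ten_eq_inf]
      exact ⟨(hW _ hm).1 (dgM_mem hc hH ξ hξ), hm⟩
    · intro ξ hξ
      rw [Submodule.mem_comap, ten_eq_inf] at hξ
      refine ⟨ξ, ⟨(hW ξ hξ.2).2 hξ.1, mem_cellBase.2 (mem_pw.2 fun i => ?_)⟩, ?_⟩
      · obtain ⟨ζ, hζ⟩ := mem_pw.1 hξ.2 i
        have hζ' : (Fr.e : M ≃ₗ[Λ] (Fr.ι Λ M → Λ)) ξ i = s r ζ - s q ζ := hζ.symm
        rw [hζ']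
        exact sub_mem ⟨ζ, rfl⟩ (h.range_mono hq ⟨ζ, rfl⟩)
      · apply (Fr.e : M ≃ₗ[Λ] (Fr.ι Λ M → Λ)).injective
        funext i
        obtain ⟨ζ, hζ⟩ := mem_pw.1 hξ.2 i
        have hζ' : (Fr.e : M ≃ₗ[Λ] (Fr.ι Λ M → Λ)) ξ i = s r ζ - s q ζ := hζ.symm
        rw [frame_dgMBase, hζ', LinearMap.sub_apply, map_sub, map_sub, h.apBase, h.apBase, h.apBase,
          h.apBase, min_self, min_self, min_eq_left hq, min_eq_right hq, sub_self, sub_zero]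
  have e2 : H ⊓ cellBase M (range (s r)) ⊓ ker (dgM M (s r - s q)) =
      H ⊓ cellBase M (range (s q)) := by
    apply le_antisymm
    · rintro ξ ⟨⟨hξ, hr⟩, hk⟩
      refine ⟨hξ, mem_cellBase.2 (mem_pw.2 fun i => ?_)⟩
      obtain ⟨ζ, hζ⟩ := mem_pw.1 (mem_cellBase.1 hr) i
      have hk' := frame_dgMBase (s r - s q) ξ i
      rw [mem_ker.1 hk, map_zero, ← hζ, LinearMap.sub_apply, h.apBase, min_self, Pi.zero_apply,
        eq_comm, sub_eq_zero] at hk'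
      exact ⟨s r ζ, by rw [← hk', hζ]⟩
    · rintro ξ ⟨hξ, hr⟩
      refine ⟨⟨hξ, pw_mono (h.range_mono hq) hr⟩, ?_⟩
      apply (Fr.e : M ≃ₗ[Λ] (Fr.ι Λ M → Λ)).injective
      funext i
      obtain ⟨ζ, hζ⟩ := mem_pw.1 (mem_cellBase.1 hr) i
      rw [frame_dgMBase, ← hζ, LinearMap.sub_apply, h.apBase, h.apBase, min_self, min_eq_right hq,
        sub_self, map_zero, Pi.zero_apply]
  have e3 := rho_map_add (dgM M (s r - s q)) (H ⊓ cellBase M (range (s r)))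
  rw [e1, e2, rho_frameBase, rho_ten, h.rho_sub h0 hq h1, ha] at e3
  exact ⟨Module.finrank F W * (r - q) + a, by rw [← e3]; push_cast; rfl⟩

/-- near zero every definable submodule is a base change -/
theorem Chain.germBase (h : Chain s) (hl : Loc0 (Set.range s) P) {H : Submodule Λ M}
    (hH : Def P H) : ∃ (n : ℕ) (W : Submodule F (Fr.ι Λ M → F)), ∀ ξ ∈ cellBase M (Zf s n),
      (ξ ∈ H ↔ (Fr.e : M ≃ₗ[Λ] (Fr.ι Λ M → Λ)) ξ ∈ ten (⊤ : Submodule Λ Λ) W) := by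
  obtain ⟨D, hD, hDH, δ, hδ, hU⟩ := hl M H hH
  obtain ⟨Q, hQ⟩ := finBase hD
  have hev : ∀ x ∈ Q, ∀ᶠ n : ℕ in Filter.atTop, x ≤ 0 ∨ 1 / ((n : ℚ) + 1) ≤ x := by
    intro x _
    rcases le_or_gt x 0 with hx | hx
    · exact Filter.Eventually.of_forall fun _ => Or.inl hx
    · obtain ⟨m, hm⟩ := exists_nat_one_div_lt hx
      refine (Filter.eventually_ge_atTop m).mono fun n hn => Or.inr (le_trans ?_ hm.le)
      have : (m : ℚ) ≤ n := by exact_mod_cast hn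
      gcongr
  have hev2 : ∀ᶠ n : ℕ in Filter.atTop,
      (Fintype.card (Fr.ι Λ M) : ℝ) * (1 / ((n : ℝ) + 1)) < δ := by
    have := tendsto_one_div_add_atTop_nhds_zero_nat.const_mul (Fintype.card (Fr.ι Λ M) : ℝ)
    rw [mul_zero] at this
    exact this.eventually (gt_mem_nhds hδ)
  obtain ⟨n, hn, hn2⟩ := (((Filter.eventually_all_finset Q).2 hev).and hev2).exists
  obtain ⟨W, hW⟩ := h.strBase hQ (q := 0) (r := 1 / (n + 1)) (by positivity) hn
  rw [h.zero le_rfl, sub_zero] at hW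
  have hle := hU (cellBase M (Zf s n))
    (Def.comap _ RatM.frame (Def.pw ((h.fl_Zf subset_rfl).1 n)))
    (by rwa [cellBase, rho_frameBase, rho_pw, h.rho_Zf])
  exact ⟨n, W, fun ξ hξ => ⟨fun h1 => (hW ξ hξ).1 (hle ⟨h1, hξ⟩), fun h1 => hDH ((hW ξ hξ).2 h1)⟩⟩

theorem Chain.dichBase (h : Chain s) (hl : Loc0 (Set.range s) P) {H : Submodule Λ M}
    (hH : Def P H) : ∃ n : ℕ, cellBase M (Zf s n) ≤ H ∨ ∃ c : Fr.ι Λ M → F, c ≠ 0 ∧
      ∀ ξ ∈ H ⊓ cellBase M (Zf s n), ∑ i, c i • (Fr.e : M ≃ₗ[Λ] (Fr.ι Λ M → Λ)) ξ i = 0 := by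
  obtain ⟨n, W, hW⟩ := h.germBase hl hH
  refine ⟨n, ?_⟩
  by_cases hT : W = ⊤
  · refine Or.inl fun ξ hξ => (hW ξ hξ).2 ?_
    rw [hT, ten_top, pw_top]
    trivial
  · obtain ⟨φ, hφ, hk⟩ := W.exists_le_ker_of_lt_top (lt_top_iff_ne_top.2 hT)
    classical
    refine Or.inr ⟨fun i => φ (Pi.single i 1), fun h0 => hφ ?_, fun ξ hξ => ?_⟩
    · refine LinearMap.pi_ext fun i c => ?_
      have h1 : (Pi.single i c : Fr.ι Λ M → F) = c • Pi.single i 1 := by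
        rw [← Pi.single_smul, smul_eq_mul, mul_one]
      have h2 : φ (Pi.single i 1) = 0 := congrFun h0 i
      rw [h1, map_smul, h2, smul_zero, LinearMap.zero_apply]
    · have h1 := (mem_ten_sup_pw (V := ⊥)).1 (Submodule.mem_sup_left ((hW ξ hξ.2).1 hξ.1)) φ
        fun w hw => hk hw
      convert (Submodule.mem_bot Λ).1 h1

end

theorem ratRk_base (h : Chain s) : RatRk (Set.range s) := by
  intro M _ _ _ H hH
  obtain ⟨Q, hQ⟩ := finBase hH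
  have h0 : ∃ a : ℚ, rho (H ⊓ cellBase M (range (s 0))) = a := by
    refine ⟨0, ?_⟩
    rw [h.zero le_rfl, range_zero, cellBase, pw_bot, Submodule.comap_bot, LinearEquiv.ker,
      inf_bot_eq, rho_bot, Rat.cast_zero]
  have key : ∀ (k : ℕ) (r : ℚ), 0 ≤ r → r ≤ 1 → (Q.filter fun x => 0 < x ∧ x < r).card ≤ k →
      ∃ a : ℚ, rho (H ⊓ cellBase M (range (s r))) = a := by
    intro k
    induction k with
    | zero =>
      intro r hr0 hr1 hc
      refine h.stepBase hQ le_rfl hr0 hr1 (fun x hx => ?_) h0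
      by_contra hcon
      push Not at hcon
      have : x ∈ Q.filter fun x => 0 < x ∧ x < r := Finset.mem_filter.2 ⟨hx, hcon⟩
      rw [Finset.card_eq_zero.1 (Nat.le_zero.1 hc)] at this
      exact Finset.notMem_empty _ this
    | succ k ih =>
      intro r hr0 hr1 hc
      rcases (Q.filter fun x => 0 < x ∧ x < r).eq_empty_or_nonempty with he | hne
      · exact ih r hr0 hr1 (by rw [he]; simp)
      · obtain ⟨q, hq, hmax⟩ := Finset.exists_max_image _ id hne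
        obtain ⟨-, hq0, hqr⟩ := Finset.mem_filter.1 hq
        refine h.stepBase hQ hq0.le hqr.le hr1 (fun x hx => ?_)
          (ih q hq0.le (hqr.le.trans hr1) ?_)
        · by_contra hcon
          push Not at hcon
          exact absurd (hmax x (Finset.mem_filter.2 ⟨hx, hq0.trans hcon.1, hcon.2⟩))
            (not_le.2 hcon.1)
        · have hs : (Q.filter fun x => 0 < x ∧ x < q) ⊆
              (Q.filter fun x => 0 < x ∧ x < r).erase q := by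
            intro x hx
            obtain ⟨h1, h2, h3⟩ := Finset.mem_filter.1 hx
            exact Finset.mem_erase.2 ⟨h3.ne, Finset.mem_filter.2 ⟨h1, h2, h3.trans hqr⟩⟩
          have := Finset.card_le_card hs
          rw [Finset.card_erase_of_mem hq] at this
          omega
  have := key _ 1 zero_le_one le_rfl le_rfl
  rwa [h.one le_rfl, Module.End.one_eq_id, range_id, cellBase, pw_top, Submodule.comap_top,
    inf_top_eq] at this

theorem rperp_base (h : Chain s) : RPerp s (Set.range s) := by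
  intro Γ hΓ htop
  refine ⟨0, fun ξ => ?_⟩
  obtain ⟨⟨ξ', η⟩, hm, rfl⟩ : ξ ∈ Γ.map (fst Λ Λ Λ) := htop ▸ Submodule.mem_top
  have h1 : (s (1 / 2) ξ', s (1 / 2) η) ∈ Γ :=
    dgM_mem (t := s (1 / 2)) (by rintro _ ⟨x, rfl⟩; exact h.comm _ _) hΓ _ hm
  have e1 : (1 : ℚ) / (((0 : ℕ) : ℚ) + 2) = 1 / 2 := by norm_num
  have e2 : (1 : ℚ) - 1 / 2 = 1 / 2 := by norm_num
  refine Submodule.mem_sup.2 ⟨_, h1, (ξ' - s (1 / 2) ξ', -s (1 / 2) η), ⟨?_, ?_⟩, ?_⟩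
  · rw [Ha, e1]
    change s (1 / 2) (ξ' - s (1 / 2) ξ') = 0
    rw [map_sub, h.apBase, min_self, sub_self]
  · rw [Hb, e1, e2]
    exact neg_mem ⟨η, rfl⟩
  · simp

theorem tsb_base (h : Chain s) (hP : Set.range s ⊆ P) (hl : Loc0 (Set.range s) P) :
    TSb P (Zf s) ![1] := by
  have hF : ∀ c : F, c ≠ 0 → c = 1 := by decide
  refine ⟨⟨h.neBase, fun H hH => ?_⟩, fun i => ?_, fun i => ?_, fun c hc => ?_, fun b hb hc => ?_⟩
  · obtain ⟨n, h1 | ⟨c, hc, h1⟩⟩ := h.dichBase hl hH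
    · exact Or.inl ⟨n, fun ξ hξ => h1 (mem_cellBase.2 (mem_pw.2 fun _ => hξ))⟩
    · refine Or.inr ⟨n, eq_bot_iff.2 fun ξ hξ => ?_⟩
      have h2 : ∑ i : Unit, c i • ξ = 0 := h1 ξ ⟨hξ.1, mem_cellBase.2 (mem_pw.2 fun _ => hξ.2)⟩
      have h3 : c () = 1 := hF _ fun h0 => hc (funext fun _ => h0)
      rwa [Fintype.sum_unique, h3, one_smul] at h2
  · rw [Subsingleton.elim i 0]
    exact DM.one
  · rw [Subsingleton.elim i 0]
    exact Cont.id _
  · by_contra h0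
    have h3 : c 0 = 1 := hF _ fun h1 => h0 (funext fun i => by rw [Subsingleton.elim i 0]; exact h1)
    obtain ⟨n, hn⟩ := hc
    refine h.neBase n (eq_bot_iff.2 fun ξ hξ => ?_)
    have := hn hξ
    simpa [h3] using this
  · obtain ⟨n, h1 | ⟨c, hc0, h1⟩⟩ := h.dichBase hl (H := graph b) hb
    · exfalso
      refine h.neBase n (eq_bot_iff.2 fun η hη => ?_)
      have h2 : ((0 : Λ), η) ∈ graph b := h1 (mem_cellBase.2 (mem_pw.2 (by
        rintro (i | i)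
        · exact zero_mem _
        · exact hη)))
      simpa using h2
    · obtain ⟨m, hm, hmb⟩ := (hc n).ge h.antiBase n
      have h2 : ∀ ξ ∈ Zf s m, c (Sum.inl ()) • ξ + c (Sum.inr ()) • b ξ = 0 := by
        intro ξ hξ
        have h3 : ∑ i : Unit ⊕ Unit, c i • Sum.elim (fun _ => ξ) (fun _ => b ξ) i = 0 :=
          h1 (ξ, b ξ) ⟨rfl, mem_cellBase.2 (mem_pw.2 (by
            rintro (i | i)
            · exact h.antiBase hm hξ
            · exact hmb hξ))⟩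
        simpa using h3
      by_cases h4 : c (Sum.inr ()) = 0
      · exfalso
        have h5 : c (Sum.inl ()) = 1 := hF _ fun h0 => hc0 (funext (by
          rintro (i | i)
          · exact h0
          · exact h4))
        refine h.neBase m (eq_bot_iff.2 fun ξ hξ => ?_)
        simpa [h4, h5] using h2 ξ hξ
      · refine ⟨![-c (Sum.inl ())], m, fun ξ hξ => ?_⟩
        have h5 := h2 ξ hξ
        rw [hF _ h4, one_smul, add_comm] at h5
        rw [mem_ker, Fin.sum_univ_one, LinearMap.sub_apply]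
        change b ξ - (-c (Sum.inl ())) • ξ = 0
        rwa [neg_smul, sub_neg_eq_add]

end Pool.Agent.Work.MP_c4093f_al.Z
end

-- merged part: Pool.Agent.Work.MP_c4093f_al.Z.Clo
section
/-!
The metric closure `Cl P`; genericity passes to it.

Plan.  `approx`: induction on `Def` with `cork_inf_inf`, `cork_map`, `cork_comap`.
`Free.cl`: if no `W` works, take the least gap `ε > 0` over the finitely many `W`, approximate `Γ`
by `Γ₀` within `ε / 2`; `rho (Γ ⊓ X) ≤ rho (Γ₀ ⊓ X) + cork Γ Γ₀` (from `cork_inf_inf`).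
`mem_Cl_of_lim`: `cork_graph`, `approx` for the graph of `b`, `cork_triangle`.
`free_one`: apply `Free` with `M = Λ`, `τ = Unit`, `Γ = ⊥.prod ((pw A).prod (pw B))`; a
submodule `W` of `Unit → F` is `⊥` or `⊤`.
-/

namespace Pool.Agent.Work.MP_c4093f_al.Z

open LinearMap

variable {Λ : Type} [Ring Λ] [Algebra F Λ] [Dim Λ] {M : Type} [AddCommGroup M] [Module Λ M]
  [Fr Λ M] {P P' : Set (E Λ)} {y : E Λ}

theorem approx {H : Submodule Λ M} (h : Def (Cl P) H) {ε : ℝ} (hε : 0 < ε) :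
    ∃ H₀ : Submodule Λ M, Def P H₀ ∧ cork H H₀ < ε ∧ cork H₀ H < ε := by
  induction h generalizing ε with
  | gr a ha => exact ha ε hε
  | top M => exact ⟨⊤, .top M, by rwa [cork_of_le le_rfl], by rwa [cork_of_le le_rfl]⟩
  | inf _ _ h1 h2 =>
    obtain ⟨A, a1, a2, a3⟩ := h1 (half_pos hε)
    obtain ⟨B, b1, b2, b3⟩ := h2 (half_pos hε)
    exact ⟨A ⊓ B, a1.inf b1, (cork_inf_inf _ _ _ _).trans_lt (by linarith),
      (cork_inf_inf _ _ _ _).trans_lt (by linarith)⟩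
  | map f hf _ h1 =>
    obtain ⟨A, a1, a2, a3⟩ := h1 hε
    exact ⟨A.map f, a1.map f hf, (cork_map _ _ _).trans_lt a2, (cork_map _ _ _).trans_lt a3⟩
  | comap f hf _ h1 =>
    obtain ⟨A, a1, a2, a3⟩ := h1 hε
    exact ⟨A.comap f, a1.comap f hf, (cork_comap _ _ _).trans_lt a2,
      (cork_comap _ _ _).trans_lt a3⟩

theorem subset_Cl : P ⊆ Cl P := fun a ha _ hε =>
  ⟨_, .gr a ha, by rwa [cork_of_le le_rfl], by rwa [cork_of_le le_rfl]⟩

theorem Cl_mono (h : P ⊆ P') : Cl P ⊆ Cl P' := fun _ ha ε hε => (ha ε hε).imp fun _ hH => ⟨hH.1.mono h, hH.2⟩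

theorem DM.mem_Cl {a : E Λ} (h : DM (Cl P) a) : a ∈ Cl P := fun _ hε => approx h hε

theorem Cl_subset (h : P ⊆ Cl P') : Cl P ⊆ Cl P' := fun a ha ε hε => by
  obtain ⟨H, h1, h2, h3⟩ := ha _ (half_pos hε)
  obtain ⟨H', h4, h5, h6⟩ := approx (h1.mono h) (half_pos hε)
  exact ⟨H', h4, (cork_triangle _ H _).trans_lt (by linarith),
    (cork_triangle _ H _).trans_lt (by linarith)⟩

theorem mem_Cl_of_lim {a : E Λ} (h : ∀ ε > 0, ∃ b : E Λ, DM P b ∧ rho (range (a - b)) < ε) :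
    a ∈ Cl P := fun ε hε => by
  obtain ⟨b, hb, h1⟩ := h ε hε
  refine ⟨_, hb, by rwa [cork_graph], ?_⟩
  rwa [cork_graph, ← neg_sub, LinearMap.range_neg]

theorem Free.mono (h : P ⊆ P') (hy : Free P' y) : Free P y := fun M _ _ _ τ _ Γ hΓ => hy M τ Γ (hΓ.mono h)

theorem Free.cl (hy : Free P y) : Free (Cl P) y := fun M _ _ _ τ _ Γ hΓ => by
  by_contra hc
  simp only [not_exists, not_le] at hc
  obtain ⟨W₀, h0⟩ := Finite.exists_min fun W : Submodule F (τ → F) =>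
    rho (Γ ⊓ gx M τ y) + Module.finrank F W - rho (Γ ⊓ box M (ten ⊤ W) (ten ⊤ W))
  obtain ⟨Γ₀, h1, h2, h3⟩ := approx hΓ (half_pos (sub_pos.2 (hc W₀)))
  obtain ⟨W, hW⟩ := hy M τ Γ₀ h1
  have key : ∀ A B X : Submodule Λ (M × (τ → Λ) × (τ → Λ)),
      rho (A ⊓ X) ≤ rho (B ⊓ X) + cork A B := fun A B X => by
    have h4 := cork_inf_inf A B X X
    rw [cork_of_le (le_refl X), cork] at h4
    linarith [rho_mono (inf_le_right : A ⊓ X ⊓ (B ⊓ X) ≤ B ⊓ X)]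
  linarith [key Γ Γ₀ (gx M τ y), key Γ₀ Γ (box M (ten ⊤ W) (ten ⊤ W)), h0 W]

theorem Free.of_subset_Cl (h : P' ⊆ Cl P) (hy : Free P y) : Free P' y := hy.cl.mono h

theorem FreeSeq.mono {y : ℕ → E Λ} (h : P ⊆ P') (hy : FreeSeq P' y) : FreeSeq P y := fun n => (hy n).mono (Set.union_subset_union_left _ h)

theorem free_one (hy : Free P y) {A B : Submodule Λ Λ} (hA : Def P A) (hB : Def P B) :
    rho (A ⊓ B.comap y) ≤ max 0 (rho A + rho B - 1) := by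
  obtain ⟨W, hW⟩ := hy Λ Unit ((⊥ : Submodule Λ Λ).prod ((pw Unit A).prod (pw Unit B)))
    (Def.bot.prod (hA.pw.prod hB.pw))
  have h1 : rho (A ⊓ B.comap y) ≤
      rho ((⊥ : Submodule Λ Λ).prod ((pw Unit A).prod (pw Unit B)) ⊓ gx Λ Unit y) :=
    rho_le_of_inj ((0 : Λ →ₗ[Λ] Λ).prod ((LinearMap.pi fun _ => LinearMap.id).prod
      (LinearMap.pi fun _ => y))) (fun ξ _ h => congrFun (congrArg (·.2.1) h) ())
      fun ξ hξ => ⟨⟨rfl, mem_pw.2 fun _ => hξ.1, mem_pw.2 fun _ => hξ.2⟩, mem_gx.2 rfl⟩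
  by_cases hb : W = ⊥
  · subst hb
    have : (⊥ : Submodule Λ Λ).prod ((pw Unit A).prod (pw Unit B)) ⊓
        box Λ (ten ⊤ (⊥ : Submodule F (Unit → F))) (ten ⊤ ⊥) = ⊥ := by
      rw [eq_bot_iff, ten_bot]
      rintro ⟨a, b, c⟩ ⟨⟨h2, -⟩, h3⟩
      obtain ⟨h4, h5⟩ := mem_box.1 h3
      exact Prod.ext h2 (Prod.ext h4 h5)
    rw [this, rho_bot, finrank_bot] at hW
    exact le_max_of_le_left (by simpa using h1.trans (by simpa using hW))
  · have h2 : 1 ≤ Module.finrank F W := Submodule.one_le_finrank_iff.2 hb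
    have h3 := rho_mono (inf_le_left : (⊥ : Submodule Λ Λ).prod ((pw Unit A).prod (pw Unit B)) ⊓
      box Λ (ten ⊤ W) (ten ⊤ W) ≤ _)
    rw [rho_prod, rho_prod, rho_pw, rho_pw, rho_bot, Fintype.card_unit] at h3
    have h4 : (1 : ℝ) ≤ Module.finrank F W := by exact_mod_cast h2
    exact le_max_of_le_right (by push_cast at h3; linarith)

end Pool.Agent.Work.MP_c4093f_al.Z
end

-- merged part: Pool.Agent.Work.MP_c4093f_al.Z.Reg
section
/-!
Generic submodules, and regularity of the definable structure.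

Plan.  `gs1`: let `j` be the basis map of `W` (`exists_basis_map`), `n = finrank W`, and `Γ₁` the
set of `(γ, η, η')` with `γ ∈ Γ`, `η ∈ pw (range s)`, `a γ = bc j (dg e η')`.  `fst` maps
`Γ₁ ⊓ gx y` onto the left side.  For `X` given by `Free` put `W' = X.map j`; the rank of
`Γ₁ ⊓ box (ten ⊤ X) (ten ⊤ X)` is at most
`rho (Γ ⊓ comap a (ten U W')) + finrank X * rho (range s) + finrank X * (1 - rho U)` (project to
`γ`; the kernel embeds in `ten (range s) X × ten (ker e) X`).  `gs0`, `gs2`, `gs3`: `free_one`.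
`reg_of_spare`: first a definable complement for `H ≤ Λ`: with `rho H = q` and `y` free over a
finite set defining `H`, `C = range (y * s (1 - q))` has rank `1 - q` and meets `H` in zero
(`gs3`).  For general `M`, induction on a finset `T` of coordinates: every definable `H` supported
in `T` has a definable `C` supported in `T` with `H ⊓ C = ⊥` and `H ⊔ C` everything supported in
`T` (step: `C₀ ⊔ C₁.map (single i)` for complements of the part supported in `T` and of the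
`i`-th coordinate image).  The projection comes from `exists_dm`.
`Reg.sec`: with projections `π₁` onto `fst Γ` and `π₀` onto `comap inr Γ`, apply `exists_dm` to
the pairs `(ξ, η)` with `(π₁ ξ, η) ∈ Γ`, `π₀ η = 0`.
-/

namespace Pool.Agent.Work.MP_c4093f_al.Z

open LinearMap

variable {Λ : Type} [Ring Λ] [Algebra F Λ] {M N K : Type} [AddCommGroup M] [Module Λ M]
  [Fr Λ M] [AddCommGroup N] [Module Λ N] [Fr Λ N] [AddCommGroup K] [Module Λ K] [Fr Λ K]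
  {P : Set (E Λ)}

/-- every definable submodule of `M` has a definable complement -/
def RegC (P : Set (E Λ)) (M : Type) [AddCommGroup M] [Module Λ M] [Fr Λ M] : Prop :=
  ∀ H : Submodule Λ M, Def P H → ∃ C, Def P C ∧ IsCompl H C

theorem Reg_inj {f : M →ₗ[Λ] N} (hf : DM P f) (hi : ∀ ξ, f ξ = 0 → ξ = 0) (h : RegC P N) :
    RegC P M := fun H hH => by
  obtain ⟨C, hC, hc⟩ := h _ (hH.mapD hf)
  refine ⟨C.comap f, hC.comapD hf, Submodule.disjoint_def.2 fun ξ h1 h2 => hi ξ ?_,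
    codisjoint_iff.2 (eq_top_iff.2 fun ξ _ => ?_)⟩
  · exact Submodule.disjoint_def.1 hc.1 _ ⟨ξ, h1, rfl⟩ h2
  · have h1 : f ξ ∈ H.map f ⊔ C := by
      rw [hc.sup_eq_top]
      trivial
    obtain ⟨_, ⟨a, ha, rfl⟩, c, hc', e⟩ := Submodule.mem_sup.1 h1
    refine Submodule.mem_sup.2 ⟨a, ha, ξ - a, ?_, add_sub_cancel a ξ⟩
    show f (ξ - a) ∈ C
    rw [map_sub, ← e, add_sub_cancel_left]
    exact hc'

theorem Reg_prod (h : RegC P M) (h' : RegC P N) : RegC P (M × N) := fun H hH => by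
  obtain ⟨C₀, d₀, c₀⟩ := h _ (Def.comap _ RatM.inl hH)
  obtain ⟨C₁, d₁, c₁⟩ := h' _ (Def.map _ RatM.snd hH)
  refine ⟨C₀.prod C₁, d₀.prod d₁, Submodule.disjoint_def.2 ?_,
    codisjoint_iff.2 (eq_top_iff.2 ?_)⟩
  · rintro ⟨a, b⟩ h1 ⟨h2, h3⟩
    have hb : b = 0 := Submodule.disjoint_def.1 c₁.1 _ ⟨_, h1, rfl⟩ h3
    subst hb
    have ha : a = 0 := Submodule.disjoint_def.1 c₀.1 _ h1 h2
    subst ha
    rfl
  · rintro ⟨a, b⟩ -
    have h1 : b ∈ H.map (snd Λ M N) ⊔ C₁ := by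
      rw [c₁.sup_eq_top]
      trivial
    obtain ⟨_, ⟨⟨a₁, b₁⟩, h2, rfl⟩, c, h3, e⟩ := Submodule.mem_sup.1 h1
    have h4 : a - a₁ ∈ H.comap (inl Λ M N) ⊔ C₀ := by
      rw [c₀.sup_eq_top]
      trivial
    obtain ⟨a₀, h5, c', h6, e'⟩ := Submodule.mem_sup.1 h4
    refine Submodule.mem_sup.2 ⟨(a₁, b₁) + (a₀, 0), H.add_mem h2 h5, (c', c), ⟨h6, h3⟩, ?_⟩
    have e'' : b₁ + c = b := e
    rw [Prod.mk_add_mk, Prod.mk_add_mk, add_zero, e'', add_assoc, e', add_sub_cancel]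

theorem Reg_fin (h : RegC P Λ) (n : ℕ) : RegC P (Fin n → Λ) := by
  induction n with
  | zero => exact Reg_inj DM.zero (fun ξ _ => Subsingleton.elim _ _) h
  | succ n ih =>
    refine Reg_inj ((RatM.funLeft Fin.succ).dm.prod (DM.proj 0)) (fun ξ h0 => ?_) (Reg_prod ih h)
    funext i
    refine Fin.cases ?_ (fun k => ?_) i
    · exact congrArg Prod.snd h0
    · exact congrFun (congrArg Prod.fst h0) k

theorem Reg_all (h : RegC P Λ) (M : Type) [AddCommGroup M] [Module Λ M] [Fr Λ M] : RegC P M := by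
  refine Reg_inj RatM.frame.dm (fun ξ h0 => (LinearEquiv.map_eq_zero_iff _).1 h0) ?_
  refine Reg_inj (RatM.funLeft (Fintype.equivFin (Fr.ι Λ M)).symm).dm (fun ξ h0 => ?_) (Reg_fin h _)
  funext i
  have := congrFun h0 (Fintype.equivFin _ i)
  rwa [LinearMap.funLeft_apply, Equiv.symm_apply_apply] at this

theorem Reg_proj {H C : Submodule Λ M} (hH : Def P H) (hC : Def P C) (hc : IsCompl H C) :
    ∃ π : M →ₗ[Λ] M, DM P π ∧ IsProj H π := by
  have hΓ : Def P (H.comap (snd Λ M M) ⊓ C.comap (fst Λ M M - snd Λ M M)) :=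
    .inf (hH.comapD DM.snd) (hC.comapD (DM.fst.sub DM.snd))
  obtain ⟨π, d, p⟩ := exists_dm hΓ (fun ξ => by
      have h1 : ξ ∈ H ⊔ C := by
        rw [hc.sup_eq_top]
        trivial
      obtain ⟨a, ha, c, hc', e⟩ := Submodule.mem_sup.1 h1
      refine ⟨a, ha, ?_⟩
      show ξ - a ∈ C
      rw [← e, add_sub_cancel_left]
      exact hc')
    (fun η hη => by
      have h2 : 0 - η ∈ C := hη.2
      rw [zero_sub, neg_mem_iff] at h2
      exact Submodule.disjoint_def.1 hc.1 _ hη.1 h2)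
  refine ⟨π, d, fun ξ => (p ξ).1, fun ξ hξ => ?_⟩
  have h3 : ξ - π ξ = 0 := Submodule.disjoint_def.1 hc.1 _ (H.sub_mem hξ (p ξ).1) (p ξ).2
  exact (sub_eq_zero.1 h3).symm

theorem Reg.sec (h : Reg P) {Γ : Submodule Λ (M × N)} (hΓ : Def P Γ) :
    ∃ f : M →ₗ[Λ] N, DM P f ∧ ∀ ξ η, (ξ, η) ∈ Γ → (ξ, f ξ) ∈ Γ := by
  obtain ⟨π₁, d₁, p₁⟩ := h M _ (Def.map _ RatM.fst hΓ)
  obtain ⟨π₀, d₀, p₀⟩ := h N _ (Def.comap _ RatM.inr hΓ)
  have hΔ : Def P (Γ.comap (π₁.prodMap LinearMap.id) ⊓ (ker π₀).comap (snd Λ M N)) :=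
    .inf (hΓ.comapD (d₁.prodMap DM.id)) (d₀.ker.comapD DM.snd)
  obtain ⟨f, hf, hf'⟩ := exists_dm hΔ (fun ξ => by
      obtain ⟨⟨a, η⟩, ha, ha'⟩ := p₁.map_mem ξ
      have ha'' : a = π₁ ξ := ha'
      have h0 : ((0 : M), π₀ η) ∈ Γ := p₀.map_mem η
      refine ⟨η - π₀ η, ?_, ?_⟩
      · have := Γ.sub_mem ha h0
        rw [Prod.mk_sub_mk, sub_zero, ha''] at this
        exact this
      · show π₀ (η - π₀ η) = 0
        rw [map_sub, p₀.map_id _ (p₀.map_mem η), sub_self])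
    (fun η hη => by
      have h1 : (π₁ 0, η) ∈ Γ := hη.1
      have h2 : π₀ η = 0 := hη.2
      rw [map_zero] at h1
      rw [← p₀.map_id η h1, h2])
  refine ⟨f, hf, fun ξ η hξ => ?_⟩
  have h1 : (π₁ ξ, f ξ) ∈ Γ := (hf' ξ).1
  rwa [p₁.map_id ξ ⟨_, hξ, rfl⟩] at h1

theorem Reg.exists_ker (h : Reg P) {H : Submodule Λ M} (hH : Def P H) :
    ∃ d : M →ₗ[Λ] M, DM P d ∧ ker d = H ∧ ∀ ξ, ξ - d ξ ∈ H := by
  obtain ⟨π, d, p⟩ := h M _ hH
  refine ⟨LinearMap.id - π, DM.id.sub d, ?_, fun ξ => ?_⟩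
  · ext ξ
    rw [mem_ker, LinearMap.sub_apply, id_apply, sub_eq_zero]
    exact ⟨fun h => h ▸ p.map_mem ξ, fun h => (p.map_id ξ h).symm⟩
  · rw [LinearMap.sub_apply, id_apply, sub_sub_cancel]
    exact p.map_mem ξ

theorem Reg.factor (h : Reg P) {f : M →ₗ[Λ] N} {g : M →ₗ[Λ] K} (hf : DM P f) (hg : DM P g)
    {U : Submodule Λ M} (hU : Def P U) (hk : ∀ ξ ∈ U, f ξ = 0 → g ξ = 0) :
    ∃ b : N →ₗ[Λ] K, DM P b ∧ ∀ ξ ∈ U, b (f ξ) = g ξ := by
  obtain ⟨b, hb, hb'⟩ := h.sec (hU.mapD (hf.prod hg))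
  refine ⟨b, hb, fun ξ hξ => ?_⟩
  obtain ⟨ξ', hξ', e⟩ := hb' (f ξ) (g ξ) ⟨ξ, hξ, rfl⟩
  have e1 : f ξ' = f ξ := congrArg Prod.fst e
  have e2 : g ξ' = b (f ξ) := congrArg Prod.snd e
  have := hk (ξ' - ξ) (U.sub_mem hξ' hξ) (by rw [map_sub, e1, sub_self])
  rw [map_sub, sub_eq_zero] at this
  rw [← e2, this]

theorem Reg.lift (h : Reg P) {f : N →ₗ[Λ] M} {g : K →ₗ[Λ] M} (hf : DM P f) (hg : DM P g)
    {U : Submodule Λ N} (hU : Def P U) :
    ∃ b : K →ₗ[Λ] N, DM P b ∧ ∀ ξ, g ξ ∈ U.map f → b ξ ∈ U ∧ f (b ξ) = g ξ := by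
  have hΓ : Def P (U.comap (snd Λ K N) ⊓ ker (f ∘ₗ snd Λ K N - g ∘ₗ fst Λ K N)) :=
    .inf (hU.comapD DM.snd) ((hf.comp DM.snd).sub (hg.comp DM.fst)).ker
  obtain ⟨b, hb, hb'⟩ := h.sec hΓ
  refine ⟨b, hb, fun ξ ⟨η, hη, e⟩ => ?_⟩
  obtain ⟨h1, h2⟩ := hb' ξ η ⟨hη, sub_eq_zero.2 e⟩
  exact ⟨h1, sub_eq_zero.1 h2⟩

variable [Dim Λ] {y e s : E Λ} {U U' : Submodule Λ Λ}

theorem gs1 {τ : Type} [Fintype τ] (hy : Free P y) (he : DM P e) (hU : IsProj U e) (hs : DM P s)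
    {Γ : Submodule Λ M} (hΓ : Def P Γ) {a : M →ₗ[Λ] (τ → Λ)} (ha : DM P a)
    (W : Submodule F (τ → F)) : ∃ W' ≤ W,
      rho (Γ ⊓ (ten (range (e * y * s)) W).comap a) +
        Module.finrank F W' * (rho U - rho (range s)) ≤ rho (Γ ⊓ (ten U W').comap a) := by
  obtain ⟨j, hj, hjW⟩ := exists_basis_map W
  obtain ⟨Γ₁, hΓ₁, hm⟩ : ∃ Γ₁ : Submodule Λ (M × (Fin (Module.finrank F W) → Λ) ×
      (Fin (Module.finrank F W) → Λ)), Def P Γ₁ ∧ ∀ γ, γ ∈ Γ₁ ↔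
      (γ.1 ∈ Γ ∧ γ.2.1 ∈ pw _ (range s)) ∧ a γ.1 = bc Λ j (dg _ e γ.2.2) :=
    ⟨_, .inf (.inf (hΓ.comapD DM.fst) (hs.range.pw.comapD (DM.fst.comp DM.snd)))
      ((ha.comp DM.fst).sub ((DM.bc j).comp (he.dg.comp (DM.snd.comp DM.snd)))).ker,
      fun γ => and_congr Iff.rfl sub_eq_zero⟩
  obtain ⟨X, hX⟩ := hy M _ _ hΓ₁
  have hk : Module.finrank F (X.map j) = Module.finrank F X :=
    (Submodule.equivMapOfInjective j hj X).finrank_eq.symm
  refine ⟨X.map j, (LinearMap.map_le_range).trans hjW.le, ?_⟩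
  have h1 : rho (Γ ⊓ (ten (range (e * y * s)) W).comap a) ≤ rho (Γ₁ ⊓ gx M _ y) := by
    refine rho_le_of_onto (fst Λ M _) ?_
    rintro γ ⟨g1, g2⟩
    have g3 : a γ ∈ ten (range (e * y * s)) (Submodule.map j ⊤) := by
      rw [Submodule.map_top, hjW]
      exact g2
    rw [← map_bc_ten, ten_top] at g3
    obtain ⟨ζ, hζ, g4⟩ := g3
    choose ξ hξ using mem_pw.1 hζ
    refine ⟨(γ, fun t => s (ξ t), fun t => y (s (ξ t))), ⟨(hm _).2 ⟨⟨g1, ?_⟩, ?_⟩, ?_⟩, rfl⟩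
    · exact mem_pw.2 fun t => ⟨ξ t, rfl⟩
    · show a γ = bc Λ j (dg _ e fun t => y (s (ξ t)))
      rw [← g4]
      exact congrArg _ (funext fun t => (hξ t).symm)
    · exact mem_gx.2 rfl
  have h2 := rho_le_inf_ker_add (fst Λ M _) (Γ₁ ⊓ box M (ten ⊤ X) (ten ⊤ X))
    (B := Γ ⊓ (ten U (X.map j)).comap a) (fun γ hγ => by
      obtain ⟨⟨g1, -⟩, g5⟩ := (hm γ).1 hγ.1
      refine ⟨g1, ?_⟩
      show a γ.1 ∈ ten U (X.map j)
      rw [g5, ← map_bc_ten]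
      refine ⟨_, dg_mem_ten ?_ (mem_box.1 hγ.2).2, rfl⟩
      rintro _ ⟨ζ, -, rfl⟩
      exact hU.map_mem ζ)
  have h3 := rho_le_of_inj (snd Λ M _) (B := (ten (range s) X).prod (ten (ker e) X))
    (A := (Γ₁ ⊓ box M (ten ⊤ X) (ten ⊤ X)) ⊓ ker (fst Λ M _))
    (fun γ hγ h0 => Prod.ext hγ.2 h0) (fun γ hγ => by
      obtain ⟨⟨g3, g4⟩, g0⟩ := hγ
      obtain ⟨⟨-, g2⟩, g5⟩ := (hm γ).1 g3
      have g6 : γ.1 = 0 := g0
      rw [g6, map_zero] at g5
      have g7 : dg _ e γ.2.2 = 0 := bc_inj hj (by rw [← g5, map_zero])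
      constructor
      · show γ.2.1 ∈ ten (range s) X
        rw [ten_eq_inf]
        exact ⟨(mem_box.1 g4).1, g2⟩
      · show γ.2.2 ∈ ten (ker e) X
        rw [ten_eq_inf]
        exact ⟨(mem_box.1 g4).2, mem_pw.2 fun t => congrFun g7 t⟩)
  have h4 := rho_range_add_ker e
  rw [hU.range, rho_top_self] at h4
  rw [rho_prod, rho_ten, rho_ten, show rho (ker e) = 1 - rho U by linarith] at h3
  rw [hk]
  linarith

theorem gs0 (hy : Free P y) (he : DM P e) (hs : DM P s) (h : rho (range s) ≤ rho (range e)) :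
    (∀ ξ ∈ range s, e (y ξ) = 0 → ξ = 0) ∧ rho (range (e * y * s)) = rho (range s) := by
  have h1 := free_one hy hs.range he.ker
  have h2 := rho_range_add_ker e
  rw [rho_top_self] at h2
  have h3 := eq_bot_of_rho (h1.trans (max_le le_rfl (by linarith)))
  have h4 : ∀ ξ ∈ range s, e (y ξ) = 0 → ξ = 0 := fun ξ hξ h0 =>
    (Submodule.eq_bot_iff _).1 h3 ξ ⟨hξ, h0⟩
  refine ⟨h4, ?_⟩
  have h5 : range (e * y * s) = (range s).map (e * y) := LinearMap.range_comp s (e * y)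
  rw [h5]
  exact rho_map_of_inj _ h4

theorem gs2 (hy : Free P y) (hs : DM P s) (hU : Def P U) (h : rho (range s) ≤ rho U) :
    rho (U ⊓ ker (s * y)) + rho (range s) ≤ rho U := by
  have h1 := free_one hy hU hs.ker
  have h2 := rho_range_add_ker s
  rw [rho_top_self] at h2
  have h3 : ker (s * y) = (ker s).comap y := LinearMap.ker_comp y s
  have h4 := h1.trans (max_le (show 0 ≤ rho U - rho (range s) by linarith) (by linarith))
  rw [h3]
  linarith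

theorem gs3 (hy : Free P y) (hU : Def P U) (hU' : Def P U') (h : rho U + rho U' ≤ 1) :
    ∀ ξ ∈ U, y ξ ∈ U' → ξ = 0 := by
  have h3 := eq_bot_of_rho ((free_one hy hU hU').trans (max_le le_rfl (by linarith)))
  exact fun ξ hξ h0 => (Submodule.eq_bot_iff _).1 h3 ξ ⟨hξ, h0⟩

theorem Spare.free {s : ℚ → E Λ} (h : Spare s P) {H : Submodule Λ M} (hH : Def P H) :
    ∃ (Q : Set (E Λ)) (y : E Λ), Set.range s ⊆ Q ∧ Def Q H ∧ Free Q y ∧ y ∈ P := by
  obtain ⟨A, hA, hA'⟩ := hH.finite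
  obtain ⟨y, hy, hy'⟩ := h A hA
  exact ⟨_, y, Set.subset_union_left, hA'.mono Set.subset_union_right, hy', hy⟩

theorem Reg_self {s : ℚ → E Λ} (hs : Chain s) (hsP : Set.range s ⊆ P) (hr : RatRk P)
    (h : Spare s P) : RegC P Λ := fun H hH => by
  obtain ⟨q, hq⟩ := hr Λ H hH
  have h0 : (0 : ℚ) ≤ q := by exact_mod_cast hq ▸ rho_nonneg H
  have h1 : q ≤ 1 := by exact_mod_cast hq ▸ rho_le_one H
  obtain ⟨Q, y, hQ, hQH, hy, hyP⟩ := h.free hH
  have h2 := hs.rk (1 - q) (by linarith) (by linarith)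
  push_cast at h2
  have ds : DM Q (s (1 - q)) := DM.of_mem (hQ ⟨_, rfl⟩)
  have h3 := gs3 hy ds.range hQH (by rw [h2, hq]; linarith)
  have dC : Def P ((range (s (1 - q))).map y) :=
    (DM.of_mem (hsP ⟨_, rfl⟩)).range.mapD (DM.of_mem hyP)
  have h4 : rho ((range (s (1 - q))).map y) = rho (range (s (1 - q))) :=
    rho_map_of_inj _ fun ξ hξ e => h3 ξ hξ (e ▸ H.zero_mem)
  have h5 : Disjoint H ((range (s (1 - q))).map y) := Submodule.disjoint_def.2 (by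
    rintro _ g1 ⟨ξ, g2, rfl⟩
    rw [h3 ξ g2 g1, map_zero])
  have h6 := rho_sup_add_inf H ((range (s (1 - q))).map y)
  rw [h5.eq_bot, rho_bot, h4, h2, hq] at h6
  refine ⟨_, dC, h5, codisjoint_iff.2 (eq_of_le_of_rho_le (hH.sup dC).fg le_top ?_)⟩
  rw [rho_top_self]
  linarith

theorem reg_of_spare {s : ℚ → E Λ} (hs : Chain s) (hsP : Set.range s ⊆ P) (hr : RatRk P)
    (h : Spare s P) : Reg P := by
  intro M _ _ _ H hH
  obtain ⟨C, hC, hc⟩ := Reg_all (Reg_self hs hsP hr h) M H hH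
  exact Reg_proj hH hC hc

theorem exists_half {s : ℚ → E Λ} (hs : Chain s) (hsP : Set.range s ⊆ P) (hr : RatRk P)
    (h : Spare s P) (hU : Def P U) : ∃ H ≤ U, Def P H ∧ 2 * rho H = rho U := by
  obtain ⟨q, hq⟩ := hr Λ U hU
  have h0 : (0 : ℚ) ≤ q := by exact_mod_cast hq ▸ rho_nonneg U
  have h1 : q ≤ 1 := by exact_mod_cast hq ▸ rho_le_one U
  obtain ⟨e, de, pe⟩ := reg_of_spare hs hsP hr h Λ U hU
  obtain ⟨Q, y, hQ, hQe, hy, hyP⟩ := h.free de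
  have h2 := hs.rk (q / 2) (by linarith) (by linarith)
  have h3 := (gs0 hy hQe (DM.of_mem (hQ ⟨q / 2, rfl⟩)) (by
    rw [h2, pe.range, hq]
    exact_mod_cast (by linarith : q / 2 ≤ q))).2
  refine ⟨range (e * y * s (q / 2)), ?_,
    ((de.mul (DM.of_mem hyP)).mul (DM.of_mem (hsP ⟨q / 2, rfl⟩))).range, ?_⟩
  · rintro _ ⟨ζ, rfl⟩
    exact pe.map_mem _
  · rw [h3, h2, hq]
    push_cast
    ring

end Pool.Agent.Work.MP_c4093f_al.Z
end

-- merged part: Pool.Agent.Work.MP_c4093f_al.Z.Semi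
section
/-!
Simple and semisimple germ modules.

Plan.  `inv_map`: `b` is injective on some `Y n` (`Simple.inj`), `Reg.factor` gives `b'` with
`b' (b ξ) = ξ` on `Y n`, and `Cof Y' (fmap b Y)` by `Simple.cof`.  `TS.fmap`: same `b'`; a
definable `H` is tested through `H.comap b`; an endomorphism `c` of `fmap b Y` gives the
endomorphism `b' * c * b` of `Y`, use the finite set of the `b * a * b'`.
`ss1`: take `J` maximal among the finsets for which some `U n₀` meets `⨅ i ∉ J, ker (p i)` in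
zero.  For `i ∉ J` let `A n = U n ⊓ ⨅ l ∉ insert i J, ker (p l)`; it is nonzero for all `n`,
`p i` is injective on `A n₀`, so `fmap (p i) (A (· + n₀))` is a proper flag refining `Y i`, hence
cofinal with it.  `η i` inverts `p i` on `A n₀` (`Reg.lift`), `η i = 0` for `i ∈ J`.  For `ξ` in a
small `U n`, `ξ - ∑ i, η i (p i ξ) ∈ U n₀` is killed by all `p l`, `l ∉ J`.
`ssn`: `ss1` for the flag `D ⊓ U n`, `π = ∑ i, η i ∘ p i`; choose `n₁ ≥ n₀` with `π (U n₁) ≤ D`;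
`Reg.factor` on `(U n₁).prod D` for the maps `(u, δ) ↦ u + δ` and `(u, δ) ↦ u - π u`.
`GG.big`: `ν ∘ h` is continuous to `U`, each `p i ∘ ν ∘ h` vanishes on the germ (`GG.noMap`).
-/

namespace Pool.Agent.Work.MP_c4093f_al.Z

open LinearMap

variable {Λ : Type} [Ring Λ] [Algebra F Λ] {M N : Type} [AddCommGroup M] [Module Λ M] [Fr Λ M]
  [AddCommGroup N] [Module Λ N] {P : Set (E Λ)} {Y Y' : ℕ → Submodule Λ Λ}
  {U : ℕ → Submodule Λ M}

theorem invSemi (hP : Reg P) (hF : Fl P Y) (hY : Simple P Y) {b : E Λ} (hb : DM P b)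
    (h0 : ¬ Zer b Y) : ∃ (b' : E Λ) (n : ℕ), DM P b' ∧ (∀ ξ ∈ Y n, b' (b ξ) = ξ) ∧
      Cont b' (fmap b Y) Y := by
  obtain ⟨n, hn⟩ := hY.inj hb h0
  obtain ⟨b', h1, h2⟩ := hP.factor hb DM.id (hF.1 n) hn
  refine ⟨b', n, h1, h2, cont_of_fmap.2 ((Cont.id Y).congr hF.2 ⟨n, fun ξ hξ => ?_⟩)⟩
  simpa [sub_eq_zero] using h2 ξ hξ

theorem inv_map (hP : Reg P) (hF : Fl P Y) (hY : Simple P Y) (hY' : Simple P Y') {b : E Λ}
    (hb : DM P b) (hc : Cont b Y Y') (h0 : ¬ Zer b Y) :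
    ∃ b' : E Λ, DM P b' ∧ Cont b' Y' Y ∧ ∃ n, ∀ ξ ∈ Y' n, b' ξ = 0 → ξ = 0 := by
  obtain ⟨b', n, h1, h2, h3⟩ := invSemi hP hF hY hb h0
  have hc' := hY'.cof (hF.fmap hb) (fmap_ne_bot.2 h0) fun m => big_fmap.2 (hc m)
  obtain ⟨k, hk⟩ := hc'.1 n
  refine ⟨b', h1, (hc'.cont (Cof.refl Y)).2 h3, k, fun ξ hξ h => ?_⟩
  obtain ⟨ζ, hζ, rfl⟩ := hk hξ
  rw [h2 ζ hζ] at h
  rw [h, map_zero]

theorem NoMap.symm (hP : Reg P) (hF : Fl P Y) (hA : Antitone Y') (hY : Simple P Y)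
    (hY' : Simple P Y') (h : NoMap P Y' Y) : NoMap P Y Y' := by
  intro b hb hc
  by_contra h0
  obtain ⟨b', h1, h2, n, h3⟩ := inv_map hP hF hY hY' hb hc h0
  obtain ⟨k, hk, h4⟩ := Big.ge hA (h b' h1 h2) n
  exact hY'.1 k (eq_bot_iff.2 fun ξ hξ => h3 ξ (hA hk hξ) (h4 hξ))

theorem TS.fmap (hP : Reg P) (hF : Fl P Y) (hY : TS P Y) {b : E Λ} (hb : DM P b)
    (h0 : ¬ Zer b Y) : TS P (fmap b Y) := by
  classical
  obtain ⟨b', n, h1, h2, h3⟩ := invSemi hP hF hY.1 hb h0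
  obtain ⟨A, hA⟩ := hY.2
  refine ⟨⟨fmap_ne_bot.2 h0, fun H hH => ?_⟩, A.image fun a => b * a * b', fun c hc hcc => ?_⟩
  · refine (hY.1.2 _ (hH.comapD hb)).imp big_fmap.2 ?_
    rintro ⟨k, hk⟩
    refine ⟨k, eq_bot_iff.2 ?_⟩
    rintro _ ⟨h4, ζ, hζ, rfl⟩
    have : ζ = 0 := eq_bot_iff.1 hk ⟨h4, hζ⟩
    rw [this, map_zero]
    exact Submodule.zero_mem _
  · have hcb := hcc.comp (cont_fmap b Y)
    obtain ⟨a, ha, hz⟩ := hA (b' ∘ₗ c ∘ₗ b) (h1.comp (hc.comp hb)) (h3.comp hcb)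
    refine ⟨_, Finset.mem_image_of_mem _ ha, zer_fmap.2 ?_⟩
    refine (Big.inf hF.2 (Big.inf hF.2 hz (hcb n)) (Big.self Y n)).mono ?_
    rintro ζ ⟨⟨k1, ζ', k2, k3⟩, k4⟩
    have k5 : b' (c (b ζ)) = a ζ := by simpa [sub_eq_zero] using k1
    have k6 : b ζ' = c (b ζ) := k3
    rw [← k6, h2 ζ' k2] at k5
    simp [h2 ζ k4, ← k5, k6]

theorem oneSemi (hP : Reg P) (hU : Fl P U) {T : ℕ → Submodule Λ Λ} (hT : Simple P T)
    {p : M →ₗ[Λ] Λ} (hp : DM P p) (hc : Cont p U T) {D : Submodule Λ M} (hD : Def P D)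
    (hne : ∀ n, D ⊓ U n ≠ ⊥) {n₀ : ℕ} (hi : ∀ ξ ∈ D ⊓ U n₀, p ξ = 0 → ξ = 0) :
    ∃ η : Λ →ₗ[Λ] M, (DM P η ∧ Cont η T U) ∧
      ∃ k, ∀ ξ ∈ U k, η (p ξ) ∈ D ⊓ U n₀ ∧ p (η (p ξ)) = p ξ := by
  have hA := hU.inf hD
  have hcof : Cof T (fmap p fun n => D ⊓ U n) := by
    refine hT.cof (hA.fmap hp) (fmap_ne_bot.2 fun h => ?_) fun m => big_fmap.2 ?_
    · obtain ⟨k, hk, h⟩ := Big.ge hA.2 h n₀
      exact hne k (eq_bot_iff.2 fun ξ hξ => hi ξ (hA.2 hk hξ) (h hξ))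
    · obtain ⟨k, hk⟩ := hc m
      exact ⟨k, inf_le_right.trans hk⟩
  obtain ⟨η, h1, h2⟩ := hP.factor hp DM.id (hA.1 n₀) hi
  refine ⟨η, ⟨h1, fun m => (hcof.1 (max m n₀)).mono ?_⟩, ?_⟩
  · rintro _ ⟨ξ, hξ, rfl⟩
    rw [Submodule.mem_comap, h2 ξ (hA.2 (le_max_right m n₀) hξ)]
    exact hU.2 (le_max_left m n₀) hξ.2
  · obtain ⟨k, hk⟩ := hc.big (hcof.1 n₀)
    refine ⟨k, fun ξ hξ => ?_⟩
    obtain ⟨ζ, hζ, e⟩ := hk hξ
    rw [← e, h2 ζ hζ]
    exact ⟨hζ, rfl⟩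

theorem ss1 (hP : Reg P) (hU : Fl P U) {κ : Type} [Fintype κ] {T : κ → ℕ → Submodule Λ Λ}
    {p : κ → M →ₗ[Λ] Λ} (hT : ∀ i, Simple P (T i)) (h : Sem P U T p) :
    ∃ η : κ → Λ →ₗ[Λ] M, (∀ i, DM P (η i) ∧ Cont (η i) (T i) U) ∧
      ∃ n, ∀ ξ ∈ U n, ∑ i, η i (p i ξ) = ξ := by
  classical
  obtain ⟨J, ⟨n₀, h0⟩, hJ⟩ := Finite.exists_le_maximal
    (p := fun J : Finset κ => ∃ n, ∀ ξ ∈ U n, (∀ i ∉ J, p i ξ = 0) → ξ = 0) (a := ∅)
    (h.2.imp fun n hn ξ hξ k => hn ξ hξ fun i => k i (Finset.notMem_empty i)) |>.imp fun _ h => h.2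
  have key : ∀ i, ∃ η : Λ →ₗ[Λ] M, (DM P η ∧ Cont η (T i) U) ∧ ∃ k, ∀ ξ ∈ U k,
      η (p i ξ) ∈ U n₀ ∧ ∀ l ∉ J, p l (η (p i ξ)) = if l = i then p l ξ else 0 := by
    intro i
    by_cases hi : i ∈ J
    · refine ⟨0, ⟨DM.zero, Cont.zero _ _⟩, 0, fun ξ _ => ⟨Submodule.zero_mem _, fun l hl => ?_⟩⟩
      rw [if_neg (by rintro rfl; exact hl hi)]
      simp
    · have hm : ∀ ξ, ξ ∈ ⨅ l ∈ (insert i J)ᶜ, ker (p l) ↔ ∀ l ∉ insert i J, p l ξ = 0 := by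
        intro ξ
        simp only [Submodule.mem_iInf, Finset.mem_compl, mem_ker]
      obtain ⟨η, h1, k, h2⟩ := oneSemi hP hU (hT i) (h.1 i).1 (h.1 i).2
        (Def.biInf (insert i J)ᶜ fun l _ => (h.1 l).1.ker) (n₀ := n₀) (fun n hn => by
          refine hi (hJ (y := insert i J) ⟨n, fun ξ hξ k => ?_⟩ (Finset.subset_insert i J)
            (Finset.mem_insert_self i J))
          exact eq_bot_iff.1 hn ⟨(hm ξ).2 k, hξ⟩) (fun ξ hξ k => h0 ξ hξ.2 fun l hl => by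
          by_cases e : l = i
          · rw [e, k]
          · exact (hm ξ).1 hξ.1 l (by simp [e, hl]))
      refine ⟨η, h1, k, fun ξ hξ => ⟨(h2 ξ hξ).1.2, fun l hl => ?_⟩⟩
      split_ifs with e
      · rw [e, (h2 ξ hξ).2]
      · exact (hm _).1 (h2 ξ hξ).1.1 l (by simp [e, hl])
  choose η h1 k h2 using key
  obtain ⟨n, hn, h3⟩ := exists_common hU.2 (fun i => Big.self U (k i)) n₀
  refine ⟨η, h1, n, fun ξ hξ => (sub_eq_zero.1 (h0 _ ?_ fun l hl => ?_)).symm⟩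
  · exact sub_mem (hU.2 hn hξ) (Submodule.sum_mem _ fun i _ => (h2 i ξ (h3 i hξ)).1)
  · rw [map_sub, map_sum, Finset.sum_congr rfl fun i _ => (h2 i ξ (h3 i hξ)).2 l hl]
    simp

theorem ssa (hP : Reg P) (hU : Fl P U) {κ : Type} [Fintype κ] {T : κ → ℕ → Submodule Λ Λ}
    {p : κ → M →ₗ[Λ] Λ} (hT : ∀ i, Simple P (T i)) (h : Sem P U T p) (e : M →ₗ[Λ] N)
    (he : ∀ i (η : Λ →ₗ[Λ] M), DM P η → Cont η (T i) U → Zer (e ∘ₗ η) (T i)) : Zer e U := by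
  obtain ⟨η, h1, n, h2⟩ := ss1 hP hU hT h
  obtain ⟨k, hk, h3⟩ := exists_common hU.2
    (fun i => (he i (η i) (h1 i).1 (h1 i).2).comp_right (h.1 i).2) n
  refine ⟨k, fun ξ hξ => ?_⟩
  rw [mem_ker, ← h2 ξ (hU.2 hk hξ), map_sum]
  exact Finset.sum_eq_zero fun i _ => h3 i hξ

theorem ssn (hP : Reg P) (hU : Fl P U) (h : SemQ P U (Simple P)) {D : Submodule Λ M}
    (hD : Def P D) : ∃ ν : M →ₗ[Λ] M, DM P ν ∧ Cont ν U U ∧ D ≤ ker ν ∧
      ∃ n, ∀ ξ ∈ U n, ξ - ν ξ ∈ D := by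
  obtain ⟨κ, _, T, p, hT, hp, n, hn⟩ := h
  obtain ⟨η, h1, n₀, h2⟩ := ss1 hP (hU.inf hD) hT (p := p) ⟨fun i => ⟨(hp i).1, fun m => by
    obtain ⟨k, hk⟩ := (hp i).2 m
    exact ⟨k, inf_le_right.trans hk⟩⟩, n, fun ξ hξ => hn ξ hξ.2⟩
  have hπ : DM P (∑ i, η i ∘ₗ p i) := DM.sum _ fun i _ => (h1 i).1.comp (hp i).1
  have hc : Cont (∑ i, η i ∘ₗ p i) U fun n => D ⊓ U n :=
    Cont.sum hU.2 _ fun i _ => (h1 i).2.comp (hp i).2
  have h2' : ∀ ξ ∈ D ⊓ U n₀, (∑ i, η i ∘ₗ p i) ξ = ξ := fun ξ hξ => by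
    simpa using h2 ξ hξ
  generalize ∑ i, η i ∘ₗ p i = π at hπ hc h2'
  obtain ⟨n₁, h3, h4⟩ := Big.ge hU.2 (hc 0) n₀
  obtain ⟨ν, h5, h6⟩ := hP.factor (DM.id.coprod DM.id) ((DM.id.sub hπ).comp DM.fst)
    ((hU.1 n₁).prod hD) (by
      rintro ⟨u, δ⟩ ⟨k1, k2⟩ k3
      have k4 : u = -δ := eq_neg_of_add_eq_zero_left k3
      have := h2' u ⟨by rw [k4]; exact neg_mem k2, hU.2 h3 k1⟩
      simp [this])
  have h7 : ∀ ξ ∈ U n₁, ν ξ = ξ - π ξ := fun ξ hξ => by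
    simpa using h6 (ξ, 0) ⟨hξ, D.zero_mem⟩
  refine ⟨ν, h5, ((Cont.id U).sub hU.2 (hc.mono fun _ => inf_le_right)).congr hU.2
    ⟨n₁, fun ξ hξ => by simp [h7 ξ hξ]⟩, fun δ hδ => ?_, n₁, fun ξ hξ => ?_⟩
  · simpa using h6 (0, δ) ⟨Submodule.zero_mem _, hδ⟩
  · rw [h7 ξ hξ, sub_sub_cancel]
    exact (h4 hξ).1

theorem GG.big (hP : Reg P) (hY : Fl P Y) (hG : GG P Y) (hU : Fl P U) (h : SemQ P U (TS P))
    {D : Submodule Λ M} (hD : Def P D) {k : Λ →ₗ[Λ] M} (hk : DM P k)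
    (hc : Cont k Y fun n => U n ⊔ D) : Big Y (D.comap k) := by
  obtain ⟨ν, h1, h2, h3, n₁, h4⟩ := ssn hP hU (h.mono subset_rfl fun _ h => h.1) hD
  obtain ⟨κ, _, T, p, hT, hp, n, hn⟩ := h
  have hνk : Cont (ν ∘ₗ k) Y U := fun m => by
    obtain ⟨m', hm⟩ := h2 m
    refine (hc m').mono fun ξ hξ => ?_
    obtain ⟨u, hu, δ, hδ, e⟩ := Submodule.mem_sup.1 hξ
    rw [Submodule.mem_comap, comp_apply, ← e, map_add, h3 hδ, add_zero]
    exact hm hu
  have hz := Big.iInf hY.2 fun i =>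
    hG.noMap hY (hT i) _ ((hp i).1.comp (h1.comp hk)) ((hp i).2.comp hνk)
  refine (Big.inf hY.2 (Big.inf hY.2 hz (hνk n)) (hc n₁)).mono ?_
  rintro ξ ⟨⟨k1, k2⟩, k3⟩
  have k4 : ν (k ξ) = 0 := hn _ k2 fun i => (Submodule.mem_iInf _).1 k1 i
  obtain ⟨u, hu, δ, hδ, e⟩ := Submodule.mem_sup.1 k3
  rw [← e, map_add, h3 hδ, add_zero] at k4
  have := h4 u hu
  rw [k4, sub_zero] at this
  rw [Submodule.mem_comap, ← e]
  exact add_mem this hδ

end Pool.Agent.Work.MP_c4093f_al.Z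
end

-- merged part: Pool.Agent.Work.MP_c4093f_al.Z.Tight
section
/-!
A sum of generic layers is generic.  Write `f n = e n - e (n + 1)`,
`x m = ∑ n < m, e' n * y n * f n`.

Plan.  `lay_fin`, induction on `m` for all `M, Γ, α, α'`.  Step: let `Γ₁` be the set of
`(γ, η, η')` with `γ ∈ Γ`, `η = f m (α γ)`, `α' γ - x m (α γ) = e' m η'`, definable over
`B ∪ y '' Iio m`; the left side is at most `rho (Γ₁ ⊓ gx (y m))` (injection).  `Free` gives `W m`.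
Apply the induction hypothesis on `M × (τ → Λ)` to the pairs `(γ, η')` with `γ ∈ Γ`,
`f m (α γ) ∈ ten ⊤ (W m)`, `η' ∈ ten ⊤ (W m)`, with the maps `α γ` and `α' γ - e' m η'`.  Project
to `γ`; the kernel is `ten ⊤ (W m) ⊓ comap (dg (e' m)) X'`, whose rank is computed by
`rho_inf_comap`, `map_dg_ten`, `rho_sup_add_inf`, `rho_ten`.
`Lay.gen`: `rho (Γ ⊓ gx x) ≤ rho (Γ ⊓ gx (x m)) + card τ * rho (V' m)` (`rho_range_dg`); put
`W₁ n = ⨆ i ≤ n, W i` for `n < m` and `⊤` for `n ≥ m`; `η = ∑ n < m, f n η + e m η` since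
`e 0 = 1`, and `f n η ∈ ten ⊤ (W n) ⊓ pw (V n)`; finish with `attain`.
`Lay.tri`: for `ξ ∈ V n`, `f i ξ = 0` for `i < n`, so `x m` maps `V n` into `V' n` and
`(1 - e' n) x (e n) = (1 - e' n) (x - x m) (e n)` has rank at most `rho (V' m)`.
-/

namespace Pool.Agent.Work.MP_c4093f_al.Z

open LinearMap

variable {Λ : Type} [Ring Λ] [Algebra F Λ] [Dim Λ] {P B : Set (E Λ)} {x : E Λ} {y : ℕ → E Λ}
  {V V' : ℕ → Submodule Λ Λ}

theorem Tight_ker {τ : Type} [Fintype τ] (a : E Λ) (W : Submodule F (τ → F))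
    (X : Submodule Λ (τ → Λ)) :
    rho (ten ⊤ W ⊓ X.comap (dg τ a)) + rho (ten (range a) W ⊔ X) = Module.finrank F W + rho X := by
  have h1 := rho_inf_comap (dg τ a) (ten ⊤ W) X
  have h2 := rho_map_add (dg τ a) (ten ⊤ W)
  have h3 := rho_sup_add_inf (ten (range a) W) X
  rw [map_dg_ten, Submodule.map_top] at h1 h2
  rw [rho_ten ⊤, rho_top_self, mul_one] at h2
  linarith

omit [Algebra F Λ] in
theorem Tight_null (h : Null V) {a : ℝ} (ha : ∀ m, a ≤ rho (V m)) : a ≤ 0 :=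
  not_lt.1 fun k => (h a k).elim fun n hn => hn.not_ge (ha n)

omit [Dim Λ] in
theorem Tight_sup {τ : Type} {U : Submodule Λ Λ} {W : ℕ → Submodule F (τ → F)} {T : Finset ℕ}
    {X : Submodule Λ (τ → Λ)} (h : ∀ i ∈ T, ten U (W i) ≤ X) : ten U (⨆ i ∈ T, W i) ≤ X := by
  induction T using Finset.induction_on with
  | empty => simp
  | insert a T _ ih =>
    rw [Finset.iSup_insert, ten_sup]
    exact sup_le (h a (Finset.mem_insert_self _ _))
      (ih fun i hi => h i (Finset.mem_insert_of_mem hi))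

omit [Dim Λ] in
theorem Tight_dm {e e' : ℕ → E Λ} (he : ∀ n, DM P (e n)) (he' : ∀ n, DM P (e' n)) {T : Finset ℕ}
    {Q : Set (E Λ)} (hQ : P ⊆ Q) (hy : ∀ n ∈ T, y n ∈ Q) : DM Q (∑ n ∈ T, e' n * y n * e n) :=
  DM.sum _ fun n hn => (((he' n).mono hQ).mul (.of_mem (hy n hn))).mul ((he n).mono hQ)

theorem lay_fin (hy : FreeSeq B y) {f e' : ℕ → E Λ} (hf : ∀ n, DM B (f n))
    (he : ∀ n, DM B (e' n)) (τ : Type) [Fintype τ] (m : ℕ) (M : Type) [AddCommGroup M]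
    [Module Λ M] [Fr Λ M] (Γ : Submodule Λ M) (α α' : M →ₗ[Λ] (τ → Λ)) (hΓ : Def B Γ)
    (hα : DM B α) (hα' : DM B α') : ∃ W : ℕ → Submodule F (τ → F),
      rho (Γ ⊓ ker (α' - dg τ (∑ n ∈ Finset.range m, e' n * y n * f n) ∘ₗ α)) +
        rho (⨆ n ∈ Finset.range m, ten (range (e' n)) (W n)) ≤
      rho (Γ ⊓ (⨅ n ∈ Finset.range m, (ten ⊤ (W n)).comap (dg τ (f n) ∘ₗ α)) ⊓
        (⨆ n ∈ Finset.range m, ten (range (e' n)) (W n)).comap α') := by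
  induction m generalizing M with
  | zero =>
    refine ⟨fun _ => ⊥, ?_⟩
    simp only [Finset.range_zero, Finset.notMem_empty, iSup_false, iSup_bot, rho_bot, add_zero,
      iInf_false, iInf_top, inf_top_eq, Finset.sum_empty]
    refine rho_mono (inf_le_inf_left _ fun γ h => ?_)
    exact (sub_eq_zero.1 h).trans rfl
  | succ m ih =>
    have hx : DM (B ∪ y '' Set.Iio m) (∑ n ∈ Finset.range m, e' n * y n * f n) :=
      Tight_dm hf he Set.subset_union_left fun n hn => Or.inr ⟨n, Finset.mem_range.1 hn, rfl⟩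
    rw [Finset.sum_range_succ]
    generalize ∑ n ∈ Finset.range m, e' n * y n * f n = z at ih hx
    have hB : B ⊆ B ∪ y '' Set.Iio m := Set.subset_union_left
    obtain ⟨W₀, h2⟩ := hy m M τ (Γ.comap (fst Λ M _) ⊓
      ker (fst Λ _ _ ∘ₗ snd Λ M _ - (dg τ (f m) ∘ₗ α) ∘ₗ fst Λ M _) ⊓
      ker ((α' - dg τ z ∘ₗ α) ∘ₗ fst Λ M _ - dg τ (e' m) ∘ₗ snd Λ _ _ ∘ₗ snd Λ M _))
      (.inf (.inf ((hΓ.mono hB).comapD .fst)
        (DM.ker (.mono hB (.sub (.comp .fst .snd) (.comp (.comp (hf m).dg hα) .fst)))))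
        (DM.ker (.sub (.comp (.sub (hα'.mono hB) (.comp hx.dg (hα.mono hB))) .fst)
          (.mono hB (.comp (he m).dg (.comp .snd .snd))))))
    obtain ⟨W, h4⟩ := ih (M × (τ → Λ))
      ((Γ ⊓ (ten ⊤ W₀).comap (dg τ (f m) ∘ₗ α)).prod (ten ⊤ W₀)) (α ∘ₗ fst Λ M _)
      (α' ∘ₗ fst Λ M _ - dg τ (e' m) ∘ₗ snd Λ M _)
      (.prod (.inf hΓ (.comapD (.comp (hf m).dg hα) (.ten (.top _) _))) (.ten (.top _) _))
      (hα.comp .fst) (.sub (hα'.comp .fst) ((he m).dg.comp .snd))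
    have hW : ∀ n ∈ Finset.range m, Function.update W m W₀ n = W n := fun n hn =>
      Function.update_of_ne (Finset.mem_range.1 hn).ne _ _
    refine ⟨Function.update W m W₀, ?_⟩
    rw [Finset.range_add_one, Finset.iSup_insert, Finset.iInf_insert, Function.update_self,
      biSup_congr (g := fun n => ten (range (e' n)) (W n)) fun n hn => by rw [hW n hn],
      biInf_congr (g := fun n => (ten ⊤ (W n)).comap (dg τ (f n) ∘ₗ α)) fun n hn => by rw [hW n hn]]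
    have h6 := Tight_ker (e' m) W₀ (⨆ n ∈ Finset.range m, ten (range (e' n)) (W n))
    generalize ⨆ n ∈ Finset.range m, ten (range (e' n)) (W n) = X at h4 h6 ⊢
    refine le_of_add_le_add_right (a := Module.finrank F W₀ + rho X) ?_
    refine le_of_eq_of_le (by ring) ((add_le_add_left ((add_le_add_left ((add_le_add_left
      (rho_le_of_inj (LinearMap.id.prod ((dg τ (f m) ∘ₗ α).prod (dg τ (y m) ∘ₗ dg τ (f m) ∘ₗ α)))
        (A := Γ ⊓ ker (α' - dg τ (z + e' m * y m * f m) ∘ₗ α))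
        (fun γ _ h => congrArg Prod.fst h) fun γ h => ?_) _).trans (h2.trans
      (rho_le_of_inj ((fst Λ M _).prod (snd Λ _ _ ∘ₗ snd Λ M _)) (fun γ h k => ?_)
        fun γ h => ?_))) _).trans h4) (rho (ten (range (e' m)) W₀ ⊔ X))).trans ?_)
    · exact ⟨⟨⟨h.1, sub_self _⟩, sub_eq_zero.2 (sub_eq_of_eq_add' (sub_eq_zero.1 h.2))⟩,
        mem_gx.2 rfl⟩
    · have h1 : γ.1 = 0 := congrArg Prod.fst k
      have h3 : γ.2.1 = dg τ (f m) (α γ.1) := sub_eq_zero.1 h.1.1.2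
      rw [h1, map_zero, map_zero] at h3
      exact Prod.ext h1 (Prod.ext h3 (Prod.ext_iff.1 k).2)
    · have h3 : γ.2.1 = dg τ (f m) (α γ.1) := sub_eq_zero.1 h.1.1.2
      exact ⟨⟨⟨h.1.1.1, show dg τ (f m) (α γ.1) ∈ _ from h3 ▸ (mem_box.1 h.2).1⟩,
        (mem_box.1 h.2).2⟩, (sub_right_comm _ _ _).trans h.1.2⟩
    rw [← h6, ← add_assoc]
    refine add_le_add_left ((rho_map_add (fst Λ M _) _).ge.trans (add_le_add (rho_mono ?_)
      (rho_le_of_inj (snd Λ M _) (fun γ h k => ?_) fun γ h => ?_))) _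
    · rintro _ ⟨γ, h, rfl⟩
      refine ⟨⟨h.1.1.1.1, h.1.1.1.2, ?_⟩, ?_⟩
      · have := h.1.2
        simp only [SetLike.mem_coe, Submodule.mem_iInf] at this ⊢
        exact this
      · exact Submodule.mem_sup.2 ⟨_, dg_mem_ten (Submodule.map_top (e' m)).le h.1.1.2, _, h.2,
          add_sub_cancel _ _⟩
    · exact Prod.ext h.2 k
    · have h1 : α' γ.1 - dg τ (e' m) γ.2 ∈ X := h.1.2
      rw [show γ.1 = 0 from h.2, map_zero, zero_sub, neg_mem_iff] at h1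
      exact ⟨h.1.1.1.2, h1⟩

theorem Lay.tri (h : Lay P y V V' x) (hV : Fl P V) (hV' : Fl P V') (h0 : Null V) (h0' : Null V') :
    Tri x V V' := by
  obtain ⟨e, e', he, he', h⟩ := h
  refine ⟨fun n => (hV.1 n).fg, fun n => (hV'.1 n).fg, hV.2, hV'.2, h0, h0', fun n => ?_⟩
  have h1 : range ((1 - e' n) * x * e n) = ⊥ := eq_bot_of_rho (Tight_null h0' fun m =>
    (rho_le_of_onto (1 - e' n) ?_).trans (h m))
  · rintro _ ⟨ξ, hξ, rfl⟩
    have h2 : x (e n ξ) - e' n (x (e n ξ)) = 0 := h1.le (mem_range_self _ ξ)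
    rw [(he n).2.map_id ξ hξ, sub_eq_zero] at h2
    exact h2 ▸ (he' n).2.map_mem _
  rintro _ ⟨ξ, rfl⟩
  refine ⟨_, mem_range_self _ (e n ξ), ?_⟩
  rw [sub_apply x, map_sub, LinearMap.sum_apply, map_sum, Finset.sum_eq_zero, sub_zero]
  · rfl
  intro i _
  rcases lt_or_ge i n with k | k
  · have h2 := (he n).2.map_mem ξ
    rw [Module.End.mul_apply, sub_apply (e i), (he i).2.map_id _ (hV.2 k.le h2),
      (he (i + 1)).2.map_id _ (hV.2 k h2), sub_self, map_zero, map_zero]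
  · exact sub_eq_zero.2 ((he' n).2.map_id _ (hV'.2 k ((he' i).2.map_mem _))).symm

theorem Lay.gen (h : Lay P y V V' x) (hV : Fl P V) (hV' : Fl P V') (h0 : Null V) (h0' : Null V')
    (ht : V 0 = ⊤) (hB : P ⊆ B) (hy : FreeSeq B y) : Gen B x V V' := by
  have hT := h.tri hV hV' h0 h0'
  obtain ⟨e, e', he, he', h⟩ := h
  refine ⟨hT, fun n => (hV.1 n).mono hB, fun n => (hV'.1 n).mono hB,
    fun M _ _ _ τ _ Γ hΓ => attain hT fun ε hε => ?_⟩
  obtain ⟨m, hm⟩ := h0' (ε / (2 * Fintype.card τ + 1)) (by positivity)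
  rw [lt_div_iff₀ (by positivity)] at hm
  obtain ⟨W, h1⟩ := lay_fin hy (f := fun n => e n - e (n + 1))
    (fun n => ((he n).1.sub (he (n + 1)).1).mono hB) (fun n => (he' n).1.mono hB) τ m _ Γ
    (fst Λ _ _ ∘ₗ snd Λ M _) (snd Λ _ _ ∘ₗ snd Λ M _) hΓ (.comp .fst .snd) (.comp .snd .snd)
  simp only [(he' _).2.range] at h1
  have h2 := h m
  generalize ∑ n ∈ Finset.range m, e' n * y n * (e n - e (n + 1)) = z at h1 h2
  obtain ⟨W₁, h3, h4, h5, h6⟩ : ∃ W₁ : ℕ → Submodule F (τ → F), Monotone W₁ ∧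
      (∀ n < m, W n ≤ W₁ n) ∧ ⊤ ≤ W₁ m ∧
      XW V' W₁ ≤ (⨆ n ∈ Finset.range m, ten (V' n) (W n)) ⊔ pw τ (V' m) := by
    have k : ∀ n, (if n < m then W n else ⊤) ≤
        ⨆ i ∈ Finset.range (n + 1), if i < m then W i else ⊤ := fun n =>
      le_biSup (fun i => if i < m then W i else ⊤) (Finset.self_mem_range_succ n)
    refine ⟨fun n => ⨆ i ∈ Finset.range (n + 1), if i < m then W i else ⊤,
      fun a b hab => biSup_mono fun i hi => Finset.range_mono (Nat.succ_le_succ hab) hi,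
      fun n hn => (if_pos hn).ge.trans (k n), (if_neg (lt_irrefl m)).ge.trans (k m),
      XW_le_iff.2 fun n => ?_⟩
    rcases lt_or_ge n m with c | c
    · refine Tight_sup fun i hi => le_sup_of_le_left ?_
      have hi' := Nat.le_of_lt_succ (Finset.mem_range.1 hi)
      rw [if_pos (hi'.trans_lt c)]
      exact (ten_mono (hV'.2 hi') le_rfl).trans
        (le_biSup (fun n => ten (V' n) (W n)) (Finset.mem_range.2 (hi'.trans_lt c)))
    · exact le_sup_of_le_right (ten_le_pw.trans (pw_mono (hV'.2 c)))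
  refine ⟨W₁, h3, ?_⟩
  have h7 := (rho_mono h6).trans (rho_sup_le _ _)
  have h8 := (rho_le_inf_ker_add (snd Λ _ _ ∘ₗ snd Λ M _ - dg τ z ∘ₗ fst Λ _ _ ∘ₗ snd Λ M _)
    (Γ ⊓ gx M τ x) (B := range (dg τ (x - z))) fun γ hγ => ⟨γ.2.1, by
      exact congrArg (· - dg τ z γ.2.1) (mem_gx.1 hγ.2).symm⟩).trans (add_le_add_left (rho_mono (inf_le_inf_right _ inf_le_left)) _)
  have h9 := h1.trans (rho_mono (B := Γ ⊓ box M (XW V W₁) (XW V' W₁)) fun γ hγ =>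
    ⟨hγ.1.1, mem_box.2 ⟨?_, (iSup₂_le fun n hn => (ten_mono le_rfl
      (h4 n (Finset.mem_range.1 hn))).trans (ten_le_XW n) : _ ≤ XW V' W₁) hγ.2⟩⟩)
  · rw [rho_pw] at h7
    rw [rho_range_dg] at h8
    have := mul_le_mul_of_nonneg_left h2 (Fintype.card τ).cast_nonneg
    have := rho_nonneg (V' m)
    rw [Phi]
    linarith
  have e1 : γ.2.1 = ∑ n ∈ Finset.range m, dg τ (e n - e (n + 1)) γ.2.1 + dg τ (e m) γ.2.1 :=
    funext fun t => by
      simp only [Pi.add_apply, Finset.sum_apply, dg_apply, LinearMap.sub_apply]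
      rw [Finset.sum_range_sub' fun n => e n (γ.2.1 t), sub_add_cancel,
        (he 0).2.map_id _ (ht.ge trivial)]
  rw [e1]
  refine add_mem (sum_mem fun n hn => ten_le_XW n
    (ten_mono le_rfl (h4 n (Finset.mem_range.1 hn)) ?_)) (ten_le_XW m (ten_mono le_rfl h5 ?_))
  · rw [ten_eq_inf]
    exact ⟨(biInf_le (fun n => (ten ⊤ (W n)).comap (dg τ (e n - e (n + 1)) ∘ₗ _)) hn) hγ.1.2,
      mem_pw.2 fun t => sub_mem ((he n).2.map_mem _) (hV.2 n.le_succ ((he (n + 1)).2.map_mem _))⟩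
  · rw [ten_top]
    exact mem_pw.2 fun t => (he m).2.map_mem _

theorem Lay.mem_Cl (h : Lay P y V V' x) (h0' : Null V') : x ∈ Cl (P ∪ Set.range y) := by
  obtain ⟨e, e', he, he', h⟩ := h
  refine mem_Cl_of_lim fun ε hε => ?_
  obtain ⟨m, hm⟩ := h0' ε hε
  exact ⟨_, Tight_dm (fun n => (he n).1.sub (he (n + 1)).1) (fun n => (he' n).1)
    Set.subset_union_left fun n _ => Or.inr ⟨n, rfl⟩, (h m).trans_lt hm⟩

theorem exists_lay (hc : Complete Λ) (hP : Reg P) (hV : Fl P V) (hV' : Fl P V') (y : ℕ → E Λ) :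
    ∃ x, Lay P y V V' x := by
  choose e he using fun n => hP Λ (V n) (hV.1 n)
  choose e' he' using fun n => hP Λ (V' n) (hV'.1 n)
  obtain ⟨x, hx⟩ := hc (fun m => ∑ n ∈ Finset.range m, e' n * y n * (e n - e (n + 1)))
    (fun m => rho (V' m)) fun m n hmn => rho_mono (by
      rintro _ ⟨ξ, rfl⟩
      rw [← Finset.sum_Ico_eq_sub _ hmn, LinearMap.sum_apply]
      exact sum_mem fun i hi => hV'.2 (Finset.mem_Ico.1 hi).1 ((he' i).2.map_mem _))
  exact ⟨x, e, e', he, he', hx⟩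

theorem Free.gen (h : Free P x) : Gen P x (tex fun _ => ⊥) (tex fun _ => ⊥) := by
  have h1 : ∀ n, Def P (tex (fun _ => (⊥ : Submodule Λ Λ)) n) := by
    rintro (_ | n)
    exacts [.top _, .bot]
  have h2 : Antitone (tex fun _ => (⊥ : Submodule Λ Λ)) := antitone_nat_of_succ_le fun _ => bot_le
  have h3 : Null (tex fun _ => (⊥ : Submodule Λ Λ)) := fun ε hε => ⟨1, rho_bot.trans_lt hε⟩
  refine ⟨⟨fun n => (h1 n).fg, fun n => (h1 n).fg, h2, h2, h3, h3, ?_⟩, h1, h1,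
    fun M _ _ _ τ _ Γ hΓ => ?_⟩
  · rintro (_ | n)
    exacts [le_top, (Submodule.map_bot x).le]
  obtain ⟨W, hW⟩ := h M τ Γ hΓ
  refine ⟨fun _ => W, monotone_const, ?_⟩
  rw [Phi, XW_tex_bot, rho_ten, rho_top_self, mul_one]
  exact le_sub_iff_add_le.2 hW

end Pool.Agent.Work.MP_c4093f_al.Z
end

-- merged part: Pool.Agent.Work.MP_c4093f_al.Z.Sp1
section
/-!
Splitting steps: the flags, and the splitting itself.  Write `u k = rho (U k)`, `c = y 0`,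
`V = spV s U g e y`, `V' = spV' s U g e y`, `Q k`, `Q' k` for the two summands, so that
`V' (k + 1) = Q k ⊔ (Q' k).map c` with `U (k + 1) ≤ Q k, Q' k ≤ U k`.

Plan.  `sp_c`: `gs3` for `y 0`, free over `P`.  `sp_rho`: `gs0` (each `y n` is free over `P` by
`Free.mono`); lower bound for `V'` from `sp_c` and `rho_sup_add_inf`.
`sp_onto`: let `Γ` be the image of `V (k + 1)` under `ξ ↦ (ξ, fun _ => ξ, 0)`, `τ = Unit`, `W`
tight.  If all `W n = ⊥`, `Phi = 0`.  Else let `n` be least with `W n = ⊤`; `XW V W ≤ pw (V n)`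
and `pw (V' n) ≤ XW V' W`.  For `n ≤ k + 1`, `Phi ≤ v (k + 1) - v' (k + 1)`; for `n > k + 1`,
`Phi ≤ v n ≤ u (k + 1) ≤ v (k + 1) - v' (k + 1)`.  So `x` maps `V (k + 1)` onto a submodule of
`V' (k + 1)` of full rank.
`sp_kill`: `Reg.factor` on `(U 0).prod (U 0)` for `(q, q') ↦ q + c q'` gives `b₁`, `b₂`;
`z i = b i * x`.  `sp_str2`: `Strict` for `span {w}` at a level `k + 1 > j`, with the submodules
`(ten (V (k + 1)) _).prod ⊥` and `⊥.prod (ten (V' (k + 1)) _)`.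
-/

namespace Pool.Agent.Work.MP_c4093f_al.Z

open LinearMap

variable {Λ : Type} [Ring Λ] [Algebra F Λ] [Dim Λ] {s : ℚ → E Λ} {P : Set (E Λ)} {y e : ℕ → E Λ}
  {U : ℕ → Submodule Λ Λ} {g : ℕ → ℚ} {x : E Λ}

theorem SpNum.null (h : SpNum P U g e) : Null U := fun ε hε => by
  obtain ⟨k, hk⟩ := exists_nat_one_div_lt hε
  refine ⟨k + 1, lt_of_le_of_lt ?_ hk⟩
  have h1 := (h.next k).trans ((h.le k).trans (rho_le_one _))
  have h2 := rho_nonneg (U (k + 1))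
  rw [le_div_iff₀ (by positivity)]
  nlinarith

theorem SpNum.Sp1_le (h : SpNum P U g e) (a b : E Λ) (k : ℕ) :
    range (e k * a * b) ⊔ U (k + 1) ≤ U k :=
  sup_le (by rintro _ ⟨ξ, rfl⟩; exact (h.proj k).2.map_mem _) (h.fl.2 k.le_succ)

theorem SpNum.le_spV (h : SpNum P U g e) (s : ℚ → E Λ) (y : ℕ → E Λ) (k : ℕ) :
    U (k + 1) ≤ spV s U g e y (k + 1) ∧ spV s U g e y (k + 1) ≤ U k :=
  ⟨le_sup_right, h.Sp1_le _ _ k⟩

theorem SpNum.cof (h : SpNum P U g e) (s : ℚ → E Λ) (y : ℕ → E Λ) : Cof (spV s U g e y) U :=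
  ⟨fun m => ⟨m + 1, (h.le_spV s y m).2⟩, fun m => by
    rcases m with _ | m
    exacts [⟨0, le_top⟩, ⟨m + 1, (h.le_spV s y m).1⟩]⟩

theorem SpNum.Sp1_fl (h : SpNum P U g e) (hsP : Set.range s ⊆ P) (y : ℕ → E Λ) (a : ℕ → ℕ)
    (r : ℕ → ℚ) : Fl (P ∪ Set.range y) fun k => range (e k * y (a k) * s (r k)) ⊔ U (k + 1) :=
  ⟨fun k => ((((h.proj k).1.mono Set.subset_union_left).mul
    (DM.of_mem (Or.inr (Set.mem_range_self _)))).mul
    (DM.of_mem (Or.inl (hsP ⟨_, rfl⟩)))).range.sup ((h.fl.1 _).mono Set.subset_union_left),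
    antitone_nat_of_succ_le fun _ => (h.Sp1_le _ _ _).trans le_sup_right⟩

theorem SpNum.fl_spV (h : SpNum P U g e) (hsP : Set.range s ⊆ P) (y : ℕ → E Λ) :
    Fl (P ∪ Set.range y) (spV s U g e y) ∧ Fl (P ∪ Set.range y) (spV' s U g e y) ∧
      Null (spV s U g e y) ∧ Null (spV' s U g e y) := by
  have h1 := h.Sp1_fl hsP y (fun k => 3 * k + 2) fun k => g k / 4
  have h2 := (h.Sp1_fl hsP y (fun k => 3 * k + 1) fun k => g k / 4).fmap
    (DM.of_mem (a := y 0) (Or.inr ⟨_, rfl⟩))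
  refine ⟨(h.Sp1_fl hsP y _ _).tex, Fl.tex ⟨fun k => (h1.1 k).sup (h2.1 k), fun a b hab =>
    sup_le_sup (h1.2 hab) (h2.2 hab)⟩, (h.cof s y).symm.null h.null, fun ε hε => ?_⟩
  obtain ⟨n, hn⟩ := h.null (ε / 2) (half_pos hε)
  refine ⟨n + 1, ((rho_sup_le _ _).trans (add_le_add (rho_mono (h.Sp1_le _ _ n))
    ((rho_map_le _ _).trans (rho_mono (h.Sp1_le _ _ n))))).trans_lt (by linarith)⟩

theorem SpNum.mono {P' : Set (E Λ)} (h : SpNum P U g e) (hP : P ⊆ P') : SpNum P' U g e :=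
  ⟨h.fl.mono hP, h.ne, fun k => ⟨(h.proj k).1.mono hP, (h.proj k).2⟩, h.half, h.pos, h.le, h.next⟩

theorem SpSet.Sp1_free (h : SpSet s P y U g e x) (n : ℕ) : Free P (y n) :=
  (h.free n).mono Set.subset_union_left

theorem sp_c (h : SpSet s P y U g e x) : ∀ ζ ∈ U 0, y 0 ζ ∈ U 0 → ζ = 0 :=
  gs3 (h.Sp1_free 0) (h.num.fl.1 0) (h.num.fl.1 0) (by linarith [h.num.half])

theorem SpSet.Sp1_rk (h : SpSet s P y U g e x) (k n : ℕ) {r : ℚ} (h0 : 0 ≤ r) (h1 : r ≤ g k) :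
    rho (range (e k * y n * s r)) = r := by
  have h2 : (r : ℝ) ≤ rho (U k) := (Rat.cast_le.2 h1).trans (h.num.le k)
  have h3 := h.chain.rk r h0 (by exact_mod_cast h2.trans (rho_le_one _))
  rw [(gs0 (h.Sp1_free n) (h.num.proj k).1 (DM.of_mem (h.base ⟨r, rfl⟩)) (by
    rw [h3]
    exact h2.trans (rho_mono fun ξ hξ => ⟨ξ, (h.num.proj k).2.map_id ξ hξ⟩))).2, h3]

theorem sp_rho (h : SpSet s P y U g e x) (k : ℕ) :
    (g k : ℝ) ≤ rho (spV s U g e y (k + 1)) ∧ (g k : ℝ) / 2 ≤ rho (spV' s U g e y (k + 1)) ∧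
      rho (spV' s U g e y (k + 1)) + rho (U (k + 1)) ≤ g k := by
  have p := h.num.pos k
  have l : ∀ n, range (e k * y n * s (g k / 4)) ⊔ U (k + 1) ≤ U 0 := fun n =>
    (h.num.Sp1_le _ _ k).trans (h.num.fl.2 k.zero_le)
  have q : ∀ n, (g k : ℝ) / 4 ≤ rho (range (e k * y n * s (g k / 4)) ⊔ U (k + 1)) ∧
      rho (range (e k * y n * s (g k / 4)) ⊔ U (k + 1)) ≤ g k / 4 + rho (U (k + 1)) := fun n => by
    have := h.Sp1_rk k n (r := g k / 4) (by linarith) (by linarith)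
    push_cast at this
    rw [← this]
    exact ⟨rho_mono le_sup_left, rho_sup_le _ _⟩
  have e1 := rho_sup_add_inf (range (e k * y (3 * k + 2) * s (g k / 4)) ⊔ U (k + 1))
    ((range (e k * y (3 * k + 1) * s (g k / 4)) ⊔ U (k + 1)).map (y 0))
  rw [rho_map_of_inj _ fun ξ hξ h0 => sp_c h ξ (l _ hξ) (by rw [h0]; exact zero_mem _),
    (Submodule.eq_bot_iff (_ ⊓ _)).2 (by
      rintro _ ⟨h1, ξ, hξ, rfl⟩
      rw [sp_c h ξ (l _ hξ) (l _ h1), map_zero]), rho_bot, add_zero] at e1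
  have h1 := q (3 * k + 1)
  have h2 := q (3 * k + 2)
  have h3 := h.num.next k
  have h4 := mul_nonneg (Nat.cast_nonneg (α := ℝ) k) (rho_nonneg (U (k + 1)))
  refine ⟨(h.Sp1_rk k (3 * k + 3) p.le le_rfl).ge.trans (rho_mono le_sup_left),
    le_of_le_of_eq ?_ e1.symm, le_of_eq_of_le (congrArg (· + _) e1) ?_⟩ <;> linarith

theorem sp_onto (h : SpSet s P y U g e x) (k : ℕ) :
    (spV s U g e y (k + 1)).map x = spV' s U g e y (k + 1) := by
  obtain ⟨r1, -, r3⟩ := sp_rho h k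
  have r4 := (h.num.le_spV s y (k + 1)).2
  have ⟨t, dV, _, hT⟩ := h.gen
  generalize spV s U g e y = V at *
  generalize spV' s U g e y = V' at *
  obtain ⟨W, -, hW⟩ := hT Λ Unit ((⊥ : Submodule Λ Λ).prod ((pw Unit (V (k + 1))).prod ⊥))
    (Def.bot.prod ((dV _).pw.prod Def.bot))
  replace hW : rho (V (k + 1) ⊓ ker x) ≤ _ := le_trans ?_ hW
  swap
  · refine rho_le_of_inj ((0 : E Λ).prod ((pi fun _ : Unit => (LinearMap.id : E Λ)).prod
      (0 : Λ →ₗ[Λ] (Unit → Λ)))) (fun ξ _ h0 => congrFun (congrArg (·.2.1) h0) ()) fun ξ hξ => ?_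
    exact ⟨⟨rfl, mem_pw.2 fun _ => hξ.1, rfl⟩, mem_gx.2 (funext fun _ => Eq.symm hξ.2)⟩
  have h2 : ∀ A : Submodule Λ Λ, XW V W ≤ pw Unit A ∨ A = V (k + 1) →
      rho (V (k + 1) ⊓ ker x) ≤ rho A - rho (XW V' W) := fun A hA => by
    refine hW.trans (sub_le_sub_right ?_ _)
    refine rho_le_of_inj (proj () ∘ₗ fst Λ _ _ ∘ₗ snd Λ _ _)
      (fun γ hγ h0 => Prod.ext hγ.1.1 (Prod.ext (funext fun _ => h0) hγ.1.2.2)) fun γ hγ => ?_
    rcases hA with hA | rfl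
    exacts [mem_pw.1 (hA (mem_box.1 hγ.2).1) (), mem_pw.1 hγ.1.2.1 ()]
  have h3 := rho_map_add x (V (k + 1))
  have h4 := rho_nonneg (XW V' W)
  have h5 := rho_nonneg (U (k + 1))
  refine eq_of_le_of_rho_le ((t.fg _).map _) (t.maps _) ?_
  by_cases h0 : ∀ n < k + 2, W n = ⊥
  · have := h2 (U (k + 1)) (Or.inl ((XW_le_first t.anti h0).trans (sup_le
      (ten_le_pw.trans (pw_mono r4)) (pw_mono ((t.anti (k + 2).le_succ).trans r4)))))
    linarith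
  · push Not at h0
    obtain ⟨n, hn, h0⟩ := h0
    have h6 := rho_mono (ten_le_XW (V := V') (W := W) n)
    have h7 : (1 : ℝ) ≤ Module.finrank F (W n) := by
      exact_mod_cast Submodule.one_le_finrank_iff.2 h0
    have h8 := rho_mono (t.anti' (show n ≤ k + 1 by omega))
    have h9 := h2 _ (Or.inr rfl)
    rw [rho_ten] at h6
    nlinarith [rho_nonneg (V' n)]

theorem sp_kill (h : SpSet s P y U g e x) : Kill (insert x (P ∪ Set.range y)) U := by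
  have d0 := (h.num.fl.1 0).mono (Set.subset_union_left (t := Set.range y))
  have dc : DM (P ∪ Set.range y) ((LinearMap.id : E Λ).coprod (y 0)) :=
    DM.id.coprod (DM.of_mem (Or.inr ⟨_, rfl⟩))
  have z : ∀ ξ ∈ (U 0).prod (U 0), (LinearMap.id : E Λ).coprod (y 0) ξ = 0 → ξ = 0 :=
    fun ξ hξ h0 => by
      have e1 : y 0 ξ.2 = -ξ.1 := eq_neg_of_add_eq_zero_right h0
      have e2 := sp_c h ξ.2 hξ.2 (e1 ▸ neg_mem hξ.1)
      rw [e2, map_zero, zero_eq_neg] at e1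
      exact Prod.ext e1 e2
  obtain ⟨b₁, d1, e1⟩ := h.reg.factor dc DM.fst (d0.prod d0) fun ξ hξ h0 => by
    rw [z ξ hξ h0, map_zero]
  obtain ⟨b₂, d2, e2⟩ := h.reg.factor dc DM.snd (d0.prod d0) fun ξ hξ h0 => by
    rw [z ξ hξ h0, map_zero]
  have f1 : ∀ q ∈ U 0, b₁ q = q ∧ b₂ q = 0 := fun q hq =>
    ⟨by simpa using e1 (q, 0) ⟨hq, zero_mem _⟩, by simpa using e2 (q, 0) ⟨hq, zero_mem _⟩⟩
  have f2 : ∀ q ∈ U 0, b₁ (y 0 q) = 0 ∧ b₂ (y 0 q) = q := fun q hq =>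
    ⟨by simpa using e1 (0, q) ⟨zero_mem _, hq⟩, by simpa using e2 (0, q) ⟨zero_mem _, hq⟩⟩
  have dx : DM (insert x (P ∪ Set.range y)) x := DM.of_mem (Set.mem_insert _ _)
  have on : ∀ n, ∀ η ∈ spV' s U g e y (n + 1), ∃ ξ ∈ U n, x ξ = η := fun n η hη => by
    obtain ⟨ξ, hξ, rfl⟩ := (sp_onto h n).ge hη
    exact ⟨ξ, (h.num.le_spV s y n).2 hξ, rfl⟩
  have l := fun n => h.num.fl.2 (Nat.zero_le n)
  refine ⟨b₁ * x, b₂ * x, (d1.mono (Set.subset_insert _ _)).mul dx,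
    (d2.mono (Set.subset_insert _ _)).mul dx, fun ⟨n, hn⟩ => h.num.ne (n + 1)
      ((Submodule.eq_bot_iff _).2 fun q hq => ?_), fun ⟨n, hn⟩ => h.num.ne (n + 1)
      ((Submodule.eq_bot_iff _).2 fun q hq => ?_), fun m => ⟨m + 1, fun ξ hξ => ?_⟩⟩
  · obtain ⟨ξ, hξ, rfl⟩ := on n q (Submodule.mem_sup_left (Submodule.mem_sup_right hq))
    exact (f1 _ (l _ hq)).1.symm.trans (hn hξ)
  · obtain ⟨ξ, hξ, e3⟩ := on n (y 0 q)
      (Submodule.mem_sup_right ⟨q, Submodule.mem_sup_right hq, rfl⟩)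
    exact (f2 _ (l _ hq)).2.symm.trans (e3 ▸ hn hξ)
  · obtain ⟨q, hq, _, ⟨q', hq', rfl⟩, e3⟩ := Submodule.mem_sup.1
      (h.gen.tri.maps (m + 1) ⟨ξ, (h.num.le_spV s y m).1 hξ, rfl⟩)
    obtain ⟨ξ₂, h2, rfl⟩ := on m q (Submodule.mem_sup_left hq)
    refine Submodule.mem_sup.2 ⟨ξ - ξ₂, ⟨sub_mem (h.num.fl.2 m.le_succ hξ) h2, ?_⟩, ξ₂,
      ⟨h2, (f1 _ (l _ (h.num.Sp1_le _ _ m hq))).2⟩, sub_add_cancel _ _⟩
    change b₁ (x (ξ - ξ₂)) = 0
    rw [map_sub, ← e3, add_sub_cancel_left]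
    exact (f2 _ (l _ (h.num.Sp1_le _ _ m hq'))).1

theorem sp_str2 (h : SpSet s P y U g e x) {M σ : Type} [AddCommGroup M] [Module Λ M] [Fr Λ M]
    [Fintype σ] {Γ : Submodule Λ (M × (σ → Λ) × (σ → Λ))}
    (hs : Strict (spV s U g e y) (spV' s U g e y) Γ) : Str2 U (y 0) Γ := fun w hw j => by
  obtain ⟨N, hN⟩ := hs
  have m := Submodule.mem_span_singleton_self (R := F) w
  have h1 := hN (max N j + 1) ((le_max_left _ _).trans (Nat.le_succ _)) (Submodule.span F {w})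
    fun h0 => hw (Submodule.span_singleton_eq_bot.1 h0)
  rw [finrank_span_singleton hw, Nat.cast_one, one_mul] at h1
  obtain ⟨r1, -, r3⟩ := sp_rho h (max N j)
  have l := h.num.fl.2 (le_max_right N j)
  refine ⟨fun h0 => h1.not_ge ?_, fun h0 => h1.not_ge ?_⟩
  · refine le_trans (b := rho (spV s U g e y (max N j + 1)))
      (by linarith [rho_nonneg (U (max N j + 1))]) ?_
    exact rho_le_of_inj (inl Λ (σ → Λ) (σ → Λ) ∘ₗ tv Λ w)
      (fun ξ _ h0 => tv_inj hw (congrArg Prod.fst h0)) fun ξ hξ =>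
      ⟨h0 ξ (l ((h.num.le_spV s y _).2 hξ)), tv_mem_ten m hξ, zero_mem _⟩
  · refine rho_le_of_inj (inr Λ (σ → Λ) _ ∘ₗ tv Λ w) (fun ξ _ h0 => tv_inj hw (congrArg Prod.snd h0))
      fun ξ hξ => ⟨?_, zero_mem _, tv_mem_ten m hξ⟩
    obtain ⟨q, hq, _, ⟨q', hq', rfl⟩, rfl⟩ := Submodule.mem_sup.1 hξ
    rw [map_add]
    exact add_mem (h0 q (l (h.num.Sp1_le _ _ _ hq))).1 (h0 q' (l (h.num.Sp1_le _ _ _ hq'))).2

end Pool.Agent.Work.MP_c4093f_al.Z
end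
end

-- merged part: Pool.Agent.Work.MP_c4093f_al.Z.Sp3
section
-- merged part: Pool.Agent.Work.MP_c4093f_al.Z.ZgPP
section
/-!
pp conditions over a simple ring whose matrices are regular.

Plan.  For `φ = ∃ y, x a + y b = 0` view `b` as the matrix `B t j = b j t` acting on columns, take
`B * G * B = B`; then `x ∈ φ N` iff `(1 - B * G) * A` kills `x`, where `A t i = a i t`.  With a
quasi inverse `H` of `C = (1 - B * G) * A`, the idempotent `ε = 1 - H * C` has `φ N = {x | ε x = x}`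
(`pp_idem`).  A nonzero module is faithful (`SR.simple`), so an inclusion on one nonzero module
gives `ε' * ε = ε`, hence the inclusion everywhere (`pp_le_all`).  `pp_split`: some column `v` of
`ε` has `w = (1 - ε') v ≠ 0`; with a quasi inverse `h` of the column `w`, `f = h * w ≠ 0` is
idempotent, split off `f₁`; `θ` says `∃ y, (1 - ε') (x - v f₁ y) = 0`.  `pp_dual_le`: over `S` let
`b * g * b = b`, `C = a * (1 - g * b)`; then `φ N = {x | x C = 0}` for right modules and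
`Dφ L = C L`.  If `φ ≤ ψ` in the right module `S` and `C * H * C = C`, the rows of `1 - C * H` kill
`C`, hence `C'`, so `C' = C * H * C'`.
The older file `PPa.lean` has a similar development.
-/

namespace Pool.Agent.Work.MP_c4093f_al.Z

/-- simple rings with regular matrices and without primitive idempotents -/
structure SR (S : Type) [Ring S] : Prop where
  nt : Nontrivial S
  reg : ∀ (m l : ℕ) (b : Matrix (Fin m) (Fin l) S), ∃ g : Matrix (Fin l) (Fin m) S, b * g * b = b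
  simple : ∀ a : S, a ≠ 0 → ∃ (n : ℕ) (b c : Fin n → S), ∑ i, b i * a * c i = 1
  split : ∀ e : S, e * e = e → e ≠ 0 →
    ∃ e₁, e₁ * e₁ = e₁ ∧ e * e₁ = e₁ ∧ e₁ * e = e₁ ∧ e₁ ≠ 0 ∧ e₁ ≠ e

variable {S : Type} [Ring S]

section Act

variable {N : Type} [AddCommGroup N] [Module S N] {p q r : ℕ}

/-- matrices act on tuples -/
def ZgPPact (M : Matrix (Fin p) (Fin q) S) (x : Fin q → N) : Fin p → N :=
  fun i => ∑ j, M i j • x j

theorem ZgPPact_mul (M : Matrix (Fin p) (Fin q) S) (M' : Matrix (Fin q) (Fin r) S)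
    (x : Fin r → N) : ZgPPact (M * M') x = ZgPPact M (ZgPPact M' x) := by
  funext i
  simp only [ZgPPact, Matrix.mul_apply, Finset.sum_smul, Finset.smul_sum, mul_smul]
  exact Finset.sum_comm

theorem ZgPPact_one (x : Fin p → N) : ZgPPact (1 : Matrix (Fin p) (Fin p) S) x = x := by
  funext i
  simp [ZgPPact, Matrix.one_apply]

theorem ZgPPact_sub (M M' : Matrix (Fin p) (Fin q) S) (x : Fin q → N) :
    ZgPPact (M - M') x = ZgPPact M x - ZgPPact M' x := by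
  funext i
  simp [ZgPPact, sub_smul]

theorem ZgPPact_nil (x : Fin q → N) : ZgPPact (0 : Matrix (Fin p) (Fin q) S) x = 0 := by
  funext i
  simp [ZgPPact]

theorem ZgPPact_zero (M : Matrix (Fin p) (Fin q) S) : ZgPPact M (0 : Fin q → N) = 0 := by
  funext i
  simp [ZgPPact]

theorem ZgPPact_neg (M : Matrix (Fin p) (Fin q) S) (x : Fin q → N) :
    ZgPPact M (-x) = -ZgPPact M x := by
  funext i
  simp [ZgPPact]

theorem ZgPPact_sub' (M : Matrix (Fin p) (Fin q) S) (x y : Fin q → N) :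
    ZgPPact M (x - y) = ZgPPact M x - ZgPPact M y := by
  funext i
  simp [ZgPPact, smul_sub]

theorem ZgPPact_col (M : Matrix (Fin p) (Fin q) S) (M' : Matrix (Fin q) (Fin r) S) (j : Fin r)
    (m : N) : ZgPPact M (fun i => M' i j • m) = fun t => (M * M') t j • m := by
  funext t
  simp only [ZgPPact, Matrix.mul_apply, Finset.sum_smul, mul_smul]

/-- transpose of a matrix over the opposite ring -/
def ZgPPtr (M : Matrix (Fin p) (Fin q) Sᵐᵒᵖ) : Matrix (Fin q) (Fin p) S :=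
  Matrix.of fun j i => (M i j).unop

theorem ZgPPtr_mul (M : Matrix (Fin p) (Fin q) Sᵐᵒᵖ) (M' : Matrix (Fin q) (Fin r) Sᵐᵒᵖ) :
    ZgPPtr (M * M') = ZgPPtr M' * ZgPPtr M := by
  ext j i
  simp [ZgPPtr, Matrix.mul_apply, Finset.unop_sum]

theorem ZgPPtr_one : ZgPPtr (1 : Matrix (Fin p) (Fin p) Sᵐᵒᵖ) = 1 := by
  ext j i
  simp only [ZgPPtr, Matrix.of_apply, Matrix.one_apply, eq_comm (a := i)]
  split_ifs <;> rfl

theorem ZgPPtr_sub (M M' : Matrix (Fin p) (Fin q) Sᵐᵒᵖ) :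
    ZgPPtr (M - M') = ZgPPtr M - ZgPPtr M' := by
  ext j i
  simp [ZgPPtr]

omit [Ring S] in
theorem ZgPPtr_inj {M M' : Matrix (Fin p) (Fin q) Sᵐᵒᵖ} (h : ZgPPtr M = ZgPPtr M') : M = M' := by
  ext i j
  exact MulOpposite.unop_injective (congrFun (congrFun h j) i)

theorem ZgPP_faith (h : SR S) [Nontrivial N] {a : S} (ha : ∀ m : N, a • m = 0) : a = 0 := by
  by_contra h0
  obtain ⟨n, b, c, hs⟩ := h.simple a h0
  obtain ⟨m, hm⟩ := exists_ne (0 : N)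
  refine hm ?_
  rw [← one_smul S m, ← hs, Finset.sum_smul]
  exact Finset.sum_eq_zero fun i _ => by rw [mul_smul, mul_smul, ha, smul_zero]

theorem ZgPP_faithM (h : SR S) [Nontrivial N] {M : Matrix (Fin p) (Fin q) S}
    (hM : ∀ x : Fin q → N, ZgPPact M x = 0) : M = 0 := by
  ext i j
  refine ZgPP_faith (N := N) h fun m => ?_
  have h1 := congrFun (ZgPPact_col M 1 j m) i
  rw [hM, Matrix.mul_one] at h1
  exact h1.symm

theorem ZgPP_fac (h : SR S) [Nontrivial N] (C : Matrix (Fin p) (Fin q) S)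
    (C' : Matrix (Fin r) (Fin q) S)
    (hC : ∀ x : Fin q → N, ZgPPact C x = 0 → ZgPPact C' x = 0) :
    ∃ K : Matrix (Fin r) (Fin p) S, C' = K * C := by
  obtain ⟨H, hH⟩ := h.reg _ _ C
  refine ⟨C' * H, ?_⟩
  have h1 : C' * (1 - H * C) = 0 := ZgPP_faithM (N := N) h fun x => by
    rw [ZgPPact_mul]
    refine hC _ ?_
    rw [← ZgPPact_mul, Matrix.mul_sub, Matrix.mul_one, ← Matrix.mul_assoc, hH, sub_self,
      ZgPPact_nil]
  rw [Matrix.mul_sub, Matrix.mul_one, sub_eq_zero] at h1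
  rw [Matrix.mul_assoc]
  exact h1

theorem ZgPP_ev {n : ℕ} (φ : PP S n) (x : Fin n → N) : x ∈ φ.ev N ↔
    ∃ y : Fin φ.m → N, ZgPPact (Matrix.of φ.a).transpose x +
      ZgPPact (Matrix.of φ.b).transpose y = 0 :=
  exists_congr fun _ => ⟨fun hy => funext hy, fun hy => congrFun hy⟩

theorem ZgPP_ker {n : ℕ} (φ : PP S n) {G : Matrix (Fin φ.m) (Fin φ.l) S}
    (hG : (Matrix.of φ.b).transpose * G * (Matrix.of φ.b).transpose = (Matrix.of φ.b).transpose)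
    (x : Fin n → N) : x ∈ φ.ev N ↔
      ZgPPact ((1 - (Matrix.of φ.b).transpose * G) * (Matrix.of φ.a).transpose) x = 0 := by
  rw [ZgPP_ev, ZgPPact_mul]
  constructor
  · rintro ⟨y, hy⟩
    rw [eq_neg_of_add_eq_zero_left hy, ZgPPact_neg, ← ZgPPact_mul, Matrix.sub_mul, Matrix.one_mul,
      hG, sub_self, ZgPPact_nil, neg_zero]
  · intro hx
    rw [ZgPPact_sub, ZgPPact_one, ZgPPact_mul] at hx
    exact ⟨-ZgPPact G _, by rw [ZgPPact_neg, ← sub_eq_add_neg, hx]⟩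

theorem ZgPP_dual_ev {n : ℕ} (φ : PP Sᵐᵒᵖ n) (x : Fin n → N) : x ∈ φ.dual.ev N ↔
    ∃ z : Fin φ.l → N, x = ZgPPact (ZgPPtr (Matrix.of φ.a).transpose) z ∧
      ZgPPact (ZgPPtr (Matrix.of φ.b).transpose) z = 0 := by
  refine exists_congr fun z => ?_
  rw [funext_iff, funext_iff]
  refine (Fin.forall_fin_add _).trans
    (and_congr (forall_congr' fun i => ?_) (forall_congr' fun j => ?_))
  · simp [PP.dual, add_neg_eq_zero, ZgPPact, ZgPPtr]
    rfl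
  · simp [PP.dual, ZgPPact, ZgPPtr]
    rfl

theorem ZgPP_dual {n : ℕ} (φ : PP Sᵐᵒᵖ n) {G : Matrix (Fin φ.m) (Fin φ.l) Sᵐᵒᵖ}
    (hG : (Matrix.of φ.b).transpose * G * (Matrix.of φ.b).transpose = (Matrix.of φ.b).transpose)
    (x : Fin n → N) : x ∈ φ.dual.ev N ↔ ∃ w : Fin φ.l → N, x =
      ZgPPact (ZgPPtr ((1 - (Matrix.of φ.b).transpose * G) * (Matrix.of φ.a).transpose)) w := by
  rw [ZgPP_dual_ev, ZgPPtr_mul]
  constructor
  · rintro ⟨z, hz, hz'⟩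
    refine ⟨z, ?_⟩
    rw [ZgPPact_mul, ZgPPtr_sub, ZgPPtr_one, ZgPPtr_mul, ZgPPact_sub, ZgPPact_one, ZgPPact_mul, hz',
      ZgPPact_zero, sub_zero]
    exact hz
  · rintro ⟨w, hw⟩
    refine ⟨_, hw.trans (ZgPPact_mul _ _ _), ?_⟩
    rw [← ZgPPact_mul, ← ZgPPtr_mul, Matrix.sub_mul, Matrix.one_mul, hG, ZgPPtr_sub, sub_self,
      ZgPPact_nil]

end Act

theorem ZgPP_exker (h : SR S) {n : ℕ} (φ : PP S n) : ∃ C : Matrix (Fin φ.l) (Fin n) S,
    ∀ (N : Type) [AddCommGroup N] [Module S N] (x : Fin n → N),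
      x ∈ φ.ev N ↔ ZgPPact C x = 0 := by
  obtain ⟨G, hG⟩ := h.reg _ _ (Matrix.of φ.b).transpose
  exact ⟨_, fun N _ _ x => ZgPP_ker φ hG x⟩

theorem SR.op (h : SR S) : SR Sᵐᵒᵖ := by
  have := h.nt
  refine ⟨inferInstance, fun m l b => ?_, fun a ha => ?_, fun e he h0 => ?_⟩
  · obtain ⟨g, hg⟩ := h.reg _ _ (ZgPPtr b)
    refine ⟨Matrix.of fun i j => MulOpposite.op (g j i), ZgPPtr_inj ?_⟩
    rw [ZgPPtr_mul, ZgPPtr_mul, ← Matrix.mul_assoc]
    exact hg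
  · obtain ⟨n, b, c, hs⟩ := h.simple a.unop fun h1 => ha (MulOpposite.unop_injective h1)
    refine ⟨n, fun i => MulOpposite.op (c i), fun i => MulOpposite.op (b i),
      MulOpposite.unop_injective ?_⟩
    simpa [Finset.unop_sum, mul_assoc] using hs
  · obtain ⟨e₁, h1, h2, h3, h4, h5⟩ := h.split e.unop (congrArg MulOpposite.unop he)
      fun h1 => h0 (MulOpposite.unop_injective h1)
    exact ⟨MulOpposite.op e₁, MulOpposite.unop_injective h1, MulOpposite.unop_injective h3,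
      MulOpposite.unop_injective h2, fun h6 => h4 (congrArg MulOpposite.unop h6),
      fun h6 => h5 (congrArg MulOpposite.unop h6)⟩

theorem SR.reg1 (h : SR S) (a : S) : ∃ g, a * g * a = a := by
  obtain ⟨g, hg⟩ := h.reg 1 1 (Matrix.of fun _ _ => a)
  refine ⟨g 0 0, ?_⟩
  simpa [Matrix.mul_apply] using congrFun (congrFun hg 0) 0

theorem pp_idem (h : SR S) {n : ℕ} (φ : PP S n) : ∃ ε : Matrix (Fin n) (Fin n) S, ε * ε = ε ∧
    ∀ (N : Type) [AddCommGroup N] [Module S N] (x : Fin n → N),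
      x ∈ φ.ev N ↔ ∀ i, ∑ j, ε i j • x j = x i := by
  obtain ⟨C, hC⟩ := ZgPP_exker h φ
  obtain ⟨H, hH⟩ := h.reg _ _ C
  refine ⟨1 - H * C, ?_, fun N _ _ x => ?_⟩
  · rw [Matrix.sub_mul, Matrix.one_mul, Matrix.mul_assoc, Matrix.mul_sub C, Matrix.mul_one,
      ← Matrix.mul_assoc C, hH, sub_self, Matrix.mul_zero, sub_zero]
  · rw [hC]
    refine Iff.trans ?_ (funext_iff (f := ZgPPact (1 - H * C) x) (g := x))
    rw [ZgPPact_sub, ZgPPact_one, sub_eq_self, ZgPPact_mul]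
    refine ⟨fun h1 => by rw [h1, ZgPPact_zero], fun h1 => ?_⟩
    rw [← hH, Matrix.mul_assoc, ZgPPact_mul, ZgPPact_mul, h1, ZgPPact_zero]

theorem pp_le_all (h : SR S) {n : ℕ} (φ ψ : PP S n) (N : Type) [AddCommGroup N] [Module S N]
    [Nontrivial N] (hN : φ.ev N ⊆ ψ.ev N) : PPLe φ ψ := by
  obtain ⟨C, hC⟩ := ZgPP_exker h φ
  obtain ⟨C', hC'⟩ := ZgPP_exker h ψ
  obtain ⟨K, hK⟩ := ZgPP_fac (N := N) h C C' fun x hx => (hC' N x).1 (hN ((hC N x).2 hx))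
  intro M x hx
  rw [hC', hK, ZgPPact_mul, (hC _ x).1 hx, ZgPPact_zero]

theorem pp_split (h : SR S) {n : ℕ} (φ ψ : PP S n) (hle : PPLe ψ φ) (N : Type) [AddCommGroup N]
    [Module S N] (hN : φ.ev N ≠ ψ.ev N) :
    ∃ θ : PP S n, PPLe ψ θ ∧ PPLe θ φ ∧ θ.ev N ≠ φ.ev N ∧ θ.ev N ≠ ψ.ev N := by
  obtain ⟨ε, hε, hφ⟩ := pp_idem h φ
  obtain ⟨ε', -, hψ⟩ := pp_idem h ψ
  have hφ' : ∀ (M : Type) [AddCommGroup M] [Module S M] (x : Fin n → M),
      x ∈ φ.ev M ↔ ZgPPact ε x = x := fun M _ _ x => (hφ M x).trans funext_iff.symm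
  have hψ' : ∀ (M : Type) [AddCommGroup M] [Module S M] (x : Fin n → M),
      x ∈ ψ.ev M ↔ ZgPPact (1 - ε') x = 0 := fun M _ _ x => by
    rw [ZgPPact_sub, ZgPPact_one, sub_eq_zero, eq_comm]
    exact (hψ M x).trans funext_iff.symm
  obtain ⟨x₀, hx₀, hx₀'⟩ : ∃ x, x ∈ φ.ev N ∧ x ∉ ψ.ev N := by
    by_contra hc
    exact hN (Set.Subset.antisymm (fun x hx => by_contra fun hx' => hc ⟨x, hx, hx'⟩)
      (hle (Mod.mk N)))
  have : Nontrivial N := by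
    by_contra hc
    rw [not_nontrivial_iff_subsingleton] at hc
    exact hx₀' ((hψ' N x₀).2 (Subsingleton.elim _ _))
  obtain ⟨W, hW⟩ : ∃ W, W = (1 - ε') * ε := ⟨_, rfl⟩
  obtain ⟨t₀, j, hj⟩ : ∃ t j, W t j ≠ 0 := by
    by_contra hc
    have h0 : W = 0 := by
      ext t j
      exact by_contra fun h1 => hc ⟨t, j, h1⟩
    refine hx₀' ((hψ' N x₀).2 ?_)
    rw [← (hφ' N x₀).1 hx₀, ← ZgPPact_mul, ← hW, h0, ZgPPact_nil]
  obtain ⟨g, hg⟩ := h.reg n 1 (Matrix.of fun t _ => W t j)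
  obtain ⟨f, hf⟩ : ∃ f, f = ∑ t, g 0 t * W t j := ⟨_, rfl⟩
  have hwf : ∀ t, W t j * f = W t j := fun t => by
    simpa [Matrix.mul_apply, hf, Finset.mul_sum, mul_assoc] using congrFun (congrFun hg t) 0
  have hfs : ∀ m : N, ∑ t, g 0 t • W t j • m = f • m := fun m => by
    simp only [hf, Finset.sum_smul, mul_smul]
  have hff : f * f = f := by
    conv_lhs => rw [hf, Finset.sum_mul]
    simp only [← hf, mul_assoc, hwf]
  obtain ⟨f₁, h1, h2, h3, h4, h5⟩ := h.split f hff fun h0 => hj (by rw [← hwf, h0, mul_zero])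
  let θ : PP S n := ⟨1, n, fun i t => (1 - ε') t i, fun _ t => -(W t j * f₁)⟩
  have hθ : ∀ (M : Type) [AddCommGroup M] [Module S M] (x : Fin n → M),
      x ∈ θ.ev M ↔ ∃ y : M, ZgPPact (1 - ε') x = fun t => W t j • f₁ • y := fun M _ _ x => by
    constructor
    · rintro ⟨y, hy⟩
      refine ⟨y (0 : Fin 1), funext fun t => ?_⟩
      have h6 := hy t
      change ZgPPact (1 - ε') x t + ∑ u : Fin 1, (-(W t j * f₁)) • y u = 0 at h6
      rwa [Fin.sum_univ_one, neg_smul, add_neg_eq_zero, mul_smul] at h6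
    · rintro ⟨y, hy⟩
      refine ⟨fun _ => y, fun t => ?_⟩
      change ZgPPact (1 - ε') x t + ∑ _u : Fin 1, (-(W t j * f₁)) • y = 0
      rw [Fin.sum_univ_one, neg_smul, add_neg_eq_zero, mul_smul, hy]
  have hv : ∀ (M : Type) [AddCommGroup M] [Module S M] (m : M),
      ZgPPact (1 - ε') (fun i => ε i j • m) = fun t => W t j • m := fun M _ _ m => by
    rw [ZgPPact_col, hW]
  have hv' : ∀ (M : Type) [AddCommGroup M] [Module S M] (m : M),
      ZgPPact ε (fun i => ε i j • m) = fun i => ε i j • m := fun M _ _ m => by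
    rw [ZgPPact_col, hε]
  refine ⟨θ, fun M x hx => (hθ _ x).2 ⟨0, ?_⟩, fun M x hx => ?_, fun e => h5 ?_, fun e => h4 ?_⟩
  · rw [(hψ' _ x).1 hx]
    funext t
    simp
  · obtain ⟨y, hy⟩ := (hθ _ x).1 hx
    have h6 : (x - fun i => ε i j • f₁ • y) ∈ ψ.ev M.N := by
      rw [hψ', ZgPPact_sub', hy, hv, sub_self]
    have h7 := (hφ' _ _).1 (hle M h6)
    rw [ZgPPact_sub', hv', sub_left_inj] at h7
    exact (hφ' _ x).2 h7
  · rw [← sub_eq_zero]
    refine ZgPP_faith (N := N) h fun m => ?_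
    have h6 : (fun i => ε i j • m) ∈ θ.ev N := by
      rw [e, hφ', hv']
    obtain ⟨y, hy⟩ := (hθ _ _).1 h6
    rw [hv] at hy
    have h7 : f • m = f₁ • y := by
      rw [← hfs, ← h2, mul_smul, ← hfs]
      exact Finset.sum_congr rfl fun t _ => congrArg _ (congrFun hy t)
    rw [sub_smul, sub_eq_zero, ← h3, mul_smul, h7, ← mul_smul, h1]
  · refine ZgPP_faith (N := N) h fun m => ?_
    have h6 : (fun i => ε i j • f₁ • m) ∈ θ.ev N := (hθ _ _).2 ⟨m, hv _ _⟩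
    rw [e, hψ', hv] at h6
    rw [← h2, mul_smul, ← hfs]
    exact Finset.sum_eq_zero fun t _ => by rw [congrFun h6 t, Pi.zero_apply, smul_zero]

theorem pp_dual_le (h : SR S) {n : ℕ} (φ ψ : PP Sᵐᵒᵖ n) (hle : PPLe φ ψ) (L : Type)
    [AddCommGroup L] [Module S L] : ψ.dual.ev L ⊆ φ.dual.ev L := by
  have := h.nt
  obtain ⟨G, hG⟩ := h.op.reg _ _ (Matrix.of φ.b).transpose
  obtain ⟨G', hG'⟩ := h.op.reg _ _ (Matrix.of ψ.b).transpose
  obtain ⟨K, hK⟩ := ZgPP_fac (N := Sᵐᵒᵖ) h.op _ _ fun x hx =>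
    (ZgPP_ker ψ hG' x).1 (hle (Mod.mk Sᵐᵒᵖ) ((ZgPP_ker φ hG x).2 hx))
  intro x hx
  obtain ⟨w, hw⟩ := (ZgPP_dual ψ hG' x).1 hx
  rw [hK, ZgPPtr_mul, ZgPPact_mul] at hw
  exact (ZgPP_dual φ hG x).2 ⟨_, hw⟩

theorem pure_of_inj (h : SR S) {N N' : Type} [AddCommGroup N] [Module S N] [AddCommGroup N']
    [Module S N'] (f : N →ₗ[S] N') (hf : Function.Injective f) : Pure f := by
  refine ⟨hf, fun n φ x hx => ?_⟩
  obtain ⟨C, hC⟩ := ZgPP_exker h φ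
  rw [hC] at hx ⊢
  funext t
  refine hf ?_
  simpa only [ZgPPact, map_sum, map_smul, map_zero, Pi.zero_apply] using congrFun hx t

end Pool.Agent.Work.MP_c4093f_al.Z
end

-- merged part: Pool.Agent.Work.MP_c4093f_al.Z.ZgHull
section
/-!
Points are the indecomposable injective modules.

Plan.  `pinj_iff`: `pure_of_inj`.  In an injective module `Q`, for a submodule `X` take by Zorn a
submodule `C` maximal with `C ⊓ X = ⊥`, and `H ≥ X` maximal with `H ⊓ C = ⊥`; then `H` and `C`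
are complementary when `Q` is injective (standard: a maximal essential extension `H` of `X` in `Q`
is injective by Baer; see `MHull1.lean` for the same proof inside a model).  `pt_unif`: if
`S x ⊓ S y = 0`, a hull of `S x` is a proper nonzero summand.  `exists_pt`: embed `S / L` into an
injective module (`CategoryTheory.Injective.under` in `ModuleCat`, or `CharacterModule`), take a
hull `H` of the simple image; `H` is a summand, hence injective, and indecomposable since the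
image is simple and essential.  `pt_iso`: both points are essential extensions of `S / L`; extend
the inclusion to `g : N → N'`, injective since `N` is uniform, and its range is an injective
nonzero submodule, hence a summand, hence everything.
-/

namespace Pool.Agent.Work.MP_c4093f_al.Z

variable {S : Type} [Ring S]

theorem pinj_iff (h : SR S) (N : Mod S) : PInj N ↔ Module.Injective S N.N := by
  constructor
  · intro hN
    refine ⟨fun X Y _ _ _ _ i hi g => ?_⟩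
    obtain ⟨g', hg⟩ := hN ⟨X⟩ ⟨Y⟩ i g (pure_of_inj h i hi)
    exact ⟨g', fun x => LinearMap.congr_fun hg x⟩
  · intro hN B C i g hi
    obtain ⟨g', hg⟩ := hN.out i hi.1 g
    exact ⟨g', LinearMap.ext hg⟩

/-- a functional submodule of the product lies in the graph of a linear map -/
theorem ZgHull_graph {C N : Type} [AddCommGroup C] [Module S C] [AddCommGroup N] [Module S N]
    (hN : Module.Injective S N) (Γ : Submodule S (C × N))
    (hΓ : ∀ y, ((0 : C), y) ∈ Γ → y = 0) : ∃ g : C →ₗ[S] N, ∀ x y, (x, y) ∈ Γ → g x = y := by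
  obtain ⟨g, h2⟩ := hN.out ((LinearMap.fst S C N) ∘ₗ Γ.subtype) (by
      refine (injective_iff_map_eq_zero _).2 ?_
      rintro ⟨⟨x, y⟩, h⟩ (rfl : x = 0)
      obtain rfl := hΓ y h
      rfl) ((LinearMap.snd S C N) ∘ₗ Γ.subtype)
  exact ⟨g, fun x y h => h2 ⟨(x, y), h⟩⟩

theorem ZgHull_max {B : Type} [AddCommGroup B] [Module S B] (X C0 : Submodule S B)
    (h : Disjoint X C0) : ∃ C : Submodule S B, C0 ≤ C ∧ Disjoint X C ∧
      (∀ V : Submodule S B, C ≤ V → Disjoint X V → V = C) ∧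
      ∀ w ∉ C, ∃ c ∈ C, ∃ r : S, c + r • w ∈ X ∧ c + r • w ≠ 0 := by
  obtain ⟨C, h2, h3⟩ := zorn_le_nonempty₀ {V : Submodule S B | Disjoint X V}
    (fun c hc hch y hy => ⟨sSup c, Submodule.disjoint_def.2 fun x hx hs => by
      obtain ⟨V, hV, hxV⟩ := (Submodule.mem_sSup_of_directed ⟨y, hy⟩ hch.directedOn).1 hs
      exact Submodule.disjoint_def.1 (hc hV) x hx hxV, fun z hz => le_sSup hz⟩) C0 h
  have h4 : ∀ V : Submodule S B, C ≤ V → Disjoint X V → V = C := fun V h5 h6 =>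
    le_antisymm (h3.2 h6 h5) h5
  refine ⟨C, h2, h3.1, h4, fun w hw => ?_⟩
  by_contra h5
  refine hw ?_
  rw [← h4 (C ⊔ Submodule.span S {w}) le_sup_left ?_]
  · exact Submodule.mem_sup_right (Submodule.mem_span_singleton_self w)
  · refine Submodule.disjoint_def.2 fun x hx hx' => ?_
    obtain ⟨c, hc, v, hv, rfl⟩ := Submodule.mem_sup.1 hx'
    obtain ⟨r, rfl⟩ := Submodule.mem_span_singleton.1 hv
    by_contra h0
    exact h5 ⟨c, hc, r, hx, h0⟩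

theorem ZgHull_compl {N : Type} [AddCommGroup N] [Module S N] (hN : Module.Injective S N)
    (X C0 : Submodule S N) (h : Disjoint X C0) :
    ∃ U C : Submodule S N, X ≤ U ∧ C0 ≤ C ∧ IsCompl U C ∧
      ∀ u ∈ U, u ≠ 0 → ∃ r : S, r • u ∈ X ∧ r • u ≠ 0 := by
  obtain ⟨C, h1, h2, h3, h4⟩ := ZgHull_max X C0 h
  obtain ⟨U, h5, h6, h7, -⟩ := ZgHull_max C X h2.symm
  obtain ⟨g, h8⟩ := ZgHull_graph hN (U.comap (LinearMap.snd S N N) ⊓
      C.comap (LinearMap.fst S N N - LinearMap.snd S N N)) fun y hy => by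
    have h9 : (0 : N) - y ∈ C := hy.2
    rw [zero_sub, neg_mem_iff] at h9
    exact Submodule.disjoint_def.1 h6 y h9 hy.1
  have hgU : ∀ u ∈ U, g u = u := fun u hu =>
    h8 u u ⟨hu, show u - u ∈ C by rw [sub_self]; exact C.zero_mem⟩
  have hgC : ∀ c ∈ C, g c = 0 := fun c hc =>
    h8 c 0 ⟨U.zero_mem, show c - 0 ∈ C by rwa [sub_zero]⟩
  have hker : LinearMap.ker g = C := h3 _ hgC
    (Submodule.disjoint_def.2 fun x hx h0 => (hgU x (h5 hx)).symm.trans h0)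
  have hran : LinearMap.range g = U := h7 _ (fun u hu => ⟨u, hgU u hu⟩)
    (Submodule.disjoint_def.2 (by
      rintro _ hc ⟨w, rfl⟩
      by_contra h0
      obtain ⟨c, hc', r, h9, h10⟩ := h4 w fun hw => h0 (hgC w hw)
      refine h10 (Submodule.disjoint_def.1 h2 _ h9 ?_)
      rw [← hgU _ (h5 h9), map_add, hgC c hc', zero_add, map_smul]
      exact C.smul_mem r hc))
  refine ⟨U, C, h5, h1, ⟨h6.symm, Submodule.codisjoint_iff_exists_add_eq.2 fun x => ?_⟩,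
    fun u hu h0 => ?_⟩
  · have h9 : g x ∈ U := hran ▸ LinearMap.mem_range_self g x
    refine ⟨g x, x - g x, h9, ?_, add_sub_cancel _ _⟩
    rw [← hker, LinearMap.mem_ker, map_sub, hgU _ h9, sub_self]
  · obtain ⟨c, hc, r, h9, h10⟩ := h4 u fun hc => h0 (Submodule.disjoint_def.1 h6 u hc hu)
    have h11 : c = 0 := Submodule.disjoint_def.1 h6 c hc
      ((U.add_mem_iff_left (U.smul_mem r hu)).1 (h5 h9))
    rw [h11, zero_add] at h9 h10
    exact ⟨r, h9, h10⟩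

theorem ZgHull_summand {N : Type} [AddCommGroup N] [Module S N] (hN : Module.Injective S N)
    (U C : Submodule S N) (h : IsCompl U C) : Module.Injective S U := by
  refine ⟨fun B D _ _ _ _ i hi f => ?_⟩
  obtain ⟨g, h5⟩ := hN.out i hi (U.subtype ∘ₗ f)
  refine ⟨U.projectionOnto C h ∘ₗ g, fun x => ?_⟩
  have h7 : g (i x) = ((f x : U) : N) := h5 x
  show U.projectionOnto C h (g (i x)) = f x
  rw [h7, Submodule.projectionOnto_apply_left]

theorem ZgHull_ann {N : Type} [AddCommGroup N] [Module S N] {L : Ideal S} (hL : L.IsMaximal)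
    {x : N} (hx : x ≠ 0) (h1 : ∀ a ∈ L, a • x = 0) (r : S) : r • x = 0 ↔ r ∈ L := by
  refine ⟨fun h0 => ?_, h1 r⟩
  by_contra hr
  obtain ⟨y, i, hi, h2⟩ := hL.exists_inv hr
  refine hx ?_
  rw [← one_smul S x, ← h2, add_smul, mul_smul, h0, smul_zero, h1 i hi, add_zero]

theorem ZgHull_embed (A : Type) [AddCommGroup A] [Module S A] :
    ∃ (Q : Mod S) (i : A →ₗ[S] Q.N), Module.Injective S Q.N ∧ Function.Injective i := by
  refine ⟨⟨(CategoryTheory.Injective.under (ModuleCat.of S A) : ModuleCat S).carrier⟩,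
    (CategoryTheory.Injective.ι (ModuleCat.of S A)).hom, ?_, ?_⟩
  · exact Module.injective_module_of_injective_object S _
      (inj := CategoryTheory.Injective.injective_under (ModuleCat.of S A))
  · exact (ModuleCat.mono_iff_injective _).1 inferInstance

theorem pt_unif (h : SR S) (N : Pt S) {x y : N.1.N} (hx : x ≠ 0) (hy : y ≠ 0) :
    ∃ a b : S, a • x = b • y ∧ a • x ≠ 0 := by
  by_contra h0
  obtain ⟨U, C, h1, h2, h3, -⟩ := ZgHull_compl ((pinj_iff h N.1).1 N.2.1)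
    (Submodule.span S {x}) (Submodule.span S {y}) (Submodule.disjoint_def.2 fun z hx hy => by
      obtain ⟨r, rfl⟩ := Submodule.mem_span_singleton.1 hx
      obtain ⟨r', hr⟩ := Submodule.mem_span_singleton.1 hy
      by_contra h4
      exact h0 ⟨r, r', hr.symm, h4⟩)
  rcases N.2.2.2 U C h3 with rfl | rfl
  · exact hx (h1 (Submodule.mem_span_singleton_self x))
  · exact hy (h2 (Submodule.mem_span_singleton_self y))

theorem exists_pt (h : SR S) {L : Ideal S} (hL : L.IsMaximal) :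
    ∃ (N : Pt S) (x : N.1.N), x ≠ 0 ∧ ∀ a ∈ L, a • x = 0 := by
  obtain ⟨Q, i, hQ, hi⟩ := ZgHull_embed (S := S) (S ⧸ L)
  have hs0 : i (Submodule.Quotient.mk 1) ≠ 0 := fun h0 => by
    rw [map_eq_zero_iff i hi, Submodule.Quotient.mk_eq_zero] at h0
    exact hL.ne_top ((Ideal.eq_top_iff_one L).2 h0)
  have hs1 : ∀ a ∈ L, a • i (Submodule.Quotient.mk 1) = 0 := fun a ha => by
    rw [← map_smul, ← Submodule.Quotient.mk_smul, smul_eq_mul, mul_one,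
      (Submodule.Quotient.mk_eq_zero _).2 ha, map_zero]
  generalize i (Submodule.Quotient.mk 1) = s at hs0 hs1
  obtain ⟨U, C, h1, -, h3, h4⟩ := ZgHull_compl hQ (Submodule.span S {s}) ⊥ disjoint_bot_right
  have hsU : s ∈ U := h1 (Submodule.mem_span_singleton_self s)
  have hne : (⟨s, hsU⟩ : U) ≠ 0 := fun h0 => hs0 (congrArg Subtype.val h0)
  have key : ∀ V : Submodule S U, V ≠ ⊥ → (⟨s, hsU⟩ : U) ∈ V := fun V hV => by
    obtain ⟨u, hu, hu0⟩ := Submodule.exists_mem_ne_zero_of_ne_bot hV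
    obtain ⟨r, h5, h6⟩ := h4 u.1 u.2 fun h0 => hu0 (Subtype.ext h0)
    obtain ⟨t, ht⟩ := Submodule.mem_span_singleton.1 h5
    obtain ⟨y, j, hj, h7⟩ := hL.exists_inv (x := t) fun h0 => h6 (ht ▸ hs1 t h0)
    have h8 : (⟨s, hsU⟩ : U) = (y * r) • u := Subtype.ext (by
      show s = (y * r) • u.1
      rw [mul_smul, ← ht, ← mul_smul, eq_sub_of_add_eq h7, sub_smul, one_smul, hs1 j hj, sub_zero])
    rw [h8]
    exact V.smul_mem _ hu
  refine ⟨⟨⟨U⟩, (pinj_iff h _).2 (ZgHull_summand hQ U C h3), ⟨⟨_, _, hne⟩⟩, fun V W hVW => ?_⟩,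
    ⟨s, hsU⟩, hne, fun a ha => Subtype.ext (hs1 a ha)⟩
  by_contra h0
  rw [not_or] at h0
  exact hne (Submodule.disjoint_def.1 hVW.disjoint _ (key V h0.1) (key W h0.2))

theorem pt_iso (h : SR S) {L : Ideal S} (hL : L.IsMaximal) (N N' : Pt S) {x : N.1.N} {x' : N'.1.N}
    (hx : x ≠ 0) (hx' : x' ≠ 0) (h1 : ∀ a ∈ L, a • x = 0) (h2 : ∀ a ∈ L, a • x' = 0) :
    Nonempty (N.1.N ≃ₗ[S] N'.1.N) := by
  have hs := ZgHull_ann hL hx h1
  have hs' := ZgHull_ann hL hx' h2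
  obtain ⟨f, h4⟩ := ZgHull_graph ((pinj_iff h N'.1).1 N'.2.1)
    (Submodule.span S {(x, x')}) fun y hy => by
      obtain ⟨r, hr⟩ := Submodule.mem_span_singleton.1 hy
      obtain ⟨h5, h6⟩ := Prod.ext_iff.1 hr
      exact h6.symm.trans ((hs' r).2 ((hs r).1 h5))
  have h5 : f x = x' := h4 _ _ (Submodule.mem_span_singleton_self _)
  have h6 : Function.Injective f := (injective_iff_map_eq_zero _).2 fun z hz => by
    by_contra h0
    obtain ⟨r, r', h7, h8⟩ := pt_unif h N h0 hx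
    refine h8 (h7.trans ((hs r').2 ((hs' r').1 ?_)))
    rw [← h5, ← map_smul, ← h7, map_smul, hz, smul_zero]
  obtain ⟨g, h7⟩ := ((pinj_iff h N.1).1 N.2.1).out f h6 LinearMap.id
  have h8 : Function.Surjective f := fun y => by
    refine ⟨g y, by_contra fun h0 => ?_⟩
    obtain ⟨r, r', h9, h10⟩ := pt_unif h N' (sub_ne_zero.2 h0) hx'
    refine h10 (h9.trans ((hs' r').2 ((hs r').1 ?_)))
    have h11 := congrArg g h9
    rw [← h5, map_smul, map_smul, map_sub, h7, h7, LinearMap.id_apply, LinearMap.id_apply,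
      sub_self, smul_zero] at h11
    exact h11.symm
  exact ⟨LinearEquiv.ofBijective f ⟨h6, h8⟩⟩

theorem cls_eq {N N' : Pt S} : cls N = cls N' ↔ Nonempty (N.1.N ≃ₗ[S] N'.1.N) := by
  refine ⟨fun h => ?_, fun h => Quot.sound h⟩
  have e : Equivalence fun N N' : Pt S => Nonempty (N.1.N ≃ₗ[S] N'.1.N) :=
    ⟨fun _ => ⟨LinearEquiv.refl _ _⟩, fun ⟨f⟩ => ⟨f.symm⟩, fun ⟨f⟩ ⟨g⟩ => ⟨f.trans g⟩⟩
  exact e.eqvGen_iff.1 (Quot.eqvGen_exact h)

end Pool.Agent.Work.MP_c4093f_al.Z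
end

-- merged part: Pool.Agent.Work.MP_c4093f_al.Z.SysDefs
section
/-!
The transfinite system of steps.  The index `β` carries a countable set `C β` of smaller indices
and a flag `T β` over the generators of `C β`.  Generic elements: `y (none, 0, n)` (spare elements
of the base), `yy β 0 n` (flag elements), `yy β 1 n` (spare elements), `yy β 2 n` (layers).
-/

namespace Pool.Agent.Work.MP_c4093f_al.Z

open LinearMap

/-- the ambient data -/
structure Amb (Λ : Type) [Ring Λ] [Algebra F Λ] [Dim Λ] (I : Type) where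
  s : ℚ → E Λ
  y : Option I × Fin 3 × ℕ → E Λ
  chain : Chain s
  compl : Complete Λ
  free : ∀ j, Free (Set.range s ∪ y '' {j}ᶜ) (y j)

/-- the bookkeeping -/
structure Idx (I : Type) [LinearOrder I] where
  c : I → ℕ → I
  n : I → ℕ → ℕ
  all : ∀ (c' : ℕ → I) (n' : ℕ → ℕ), ∃ β, c β = c' ∧ n β = n' ∧ ∀ k, c' k < β

variable {Λ : Type} [Ring Λ] [Algebra F Λ] [Dim Λ] {I : Type}

/-- the generic elements of one index -/
def Amb.yy (A : Amb Λ I) (β : I) (k : Fin 3) (n : ℕ) : E Λ := A.y (some β, k, n)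

/-- the generators attached to a set of indices -/
def Amb.G (A : Amb Λ I) (x : I → E Λ) (D : Set I) : Set (E Λ) :=
  (Set.range A.s ∪ Set.range fun n => A.y (none, 0, n)) ∪
    ⋃ β ∈ D, insert (x β) (Set.range (A.yy β 1) ∪ Set.range (A.yy β 0))

/-- the condition for a merging step -/
def MgAct (s : ℚ → E Λ) (P P' : Set (E Λ)) (T : ℕ → Submodule Λ Λ) : Prop :=
  Reg P ∧ RatRk P ∧ Fl P T ∧ Null T ∧ ∃ (f : ℕ) (a : Fin f → E Λ), (∀ i, DM P (a i)) ∧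
    TSb P' T a ∧ NoMap P' T (Zf s)

/-- the data of a merging step -/
structure MgD (s : ℚ → E Λ) (P P' : Set (E Λ)) (T : ℕ → Submodule Λ Λ) (y : ℕ → E Λ) (x : E Λ)
    where
  f : ℕ
  a : Fin f → E Λ
  V : ℕ → Submodule Λ Λ
  V' : ℕ → Submodule Λ Λ
  dm : ∀ i, DM P (a i)
  ts : TSb P' T a
  nm : NoMap P' T (Zf s)
  fl : Fl P V
  fl' : Fl P V'
  cof : Cof V T
  cof' : Cof V' (Zf s)
  top : V 0 = ⊤
  top' : V' 0 = ⊤
  inv : ∀ k i, (V (k + 1)).map (a i) ≤ V (k + 1)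
  rk : ∀ k, rho (V (k + 1)) = f * rho (V' (k + 1))
  lay : Lay P y V V' x

/-- the condition for a splitting step -/
def SpAct (P : Set (E Λ)) (z : ℕ → E Λ) (T : ℕ → Submodule Λ Λ) : Prop :=
  Reg P ∧ Reg (P ∪ Set.range z) ∧ Fl P T ∧ Null T ∧ (∀ n, T n ≠ ⊥) ∧ GG P T

/-- the data of a splitting step -/
structure SpD (s : ℚ → E Λ) (P : Set (E Λ)) (z : ℕ → E Λ) (T : ℕ → Submodule Λ Λ) (y : ℕ → E Λ)
    (x : E Λ) where
  U : ℕ → Submodule Λ Λ
  g : ℕ → ℚ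
  e : ℕ → E Λ
  num : SpNum P U g e
  cof : Cof U T
  kk : KK P U g
  lay : Lay (P ∪ Set.range z) y (spV s U g e z) (spV' s U g e z) x

variable [LinearOrder I]

/-- the indices on which `β` depends -/
def Idx.C (X : Idx I) (β : I) : Set I := Set.range (X.c β) ∩ Set.Iio β

/-- sets of indices closed under dependence -/
def Idx.Closed (X : Idx I) (D : Set I) : Prop := ∀ γ ∈ D, X.C γ ⊆ D

/-- the flag attached to `β` -/
noncomputable def tgt (A : Amb Λ I) (X : Idx I) (x : I → E Λ) (β : I) : ℕ → Submodule Λ Λ :=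
  fun k => enum (A.G x (X.C β)) (X.n β k)

/-- the demand on the new element `a` at the index `β` -/
def Spec (A : Amb Λ I) (X : Idx I) (β : I) (P P' : Set (E Λ)) (T : ℕ → Submodule Λ Λ) (a : E Λ) :
    Prop :=
  (X.Closed (X.C β) ∧ MgAct A.s P P' T → Nonempty (MgD A.s P P' T (A.yy β 2) a)) ∧
  (X.Closed (X.C β) ∧ SpAct P (A.yy β 0) T →
    Nonempty (SpD A.s P (A.yy β 0) T (A.yy β 2) a)) ∧
  (¬ (X.Closed (X.C β) ∧ MgAct A.s P P' T) → ¬ (X.Closed (X.C β) ∧ SpAct P (A.yy β 0) T) → a = 0)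

/-- a system of steps -/
structure Sys (Λ : Type) [Ring Λ] [Algebra F Λ] [Dim Λ] (I : Type) [LinearOrder I] where
  A : Amb Λ I
  X : Idx I
  x : I → E Λ
  spec : ∀ β, Spec A X β (A.G x (X.C β)) (A.G x (Set.Iio β)) (tgt A X x β) (x β)

namespace Sys
variable (S : Sys Λ I)

/-- generators -/
abbrev G (D : Set I) : Set (E Λ) := S.A.G S.x D
/-- target flags -/
noncomputable abbrev T (β : I) : ℕ → Submodule Λ Λ := tgt S.A S.X S.x β
/-- the ground set of the step `β` over `D` -/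
abbrev B (D : Set I) (β : I) : Set (E Λ) :=
  (S.G D ∪ Set.range (S.A.yy β 1)) ∪ Set.range (S.A.yy β 0)
/-- `β` is a merging step -/
def Mg (β : I) : Prop := S.X.Closed (S.X.C β) ∧ MgAct S.A.s (S.G (S.X.C β)) (S.G (Set.Iio β)) (S.T β)
/-- `β` is a splitting step -/
def Sp (β : I) : Prop := S.X.Closed (S.X.C β) ∧ SpAct (S.G (S.X.C β)) (S.A.yy β 0) (S.T β)
/-- data of the merging step `β` -/
abbrev MD (β : I) := MgD S.A.s (S.G (S.X.C β)) (S.G (Set.Iio β)) (S.T β) (S.A.yy β 2) (S.x β)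
/-- data of the splitting step `β` -/
abbrev SD (β : I) := SpD S.A.s (S.G (S.X.C β)) (S.A.yy β 0) (S.T β) (S.A.yy β 2) (S.x β)
/-- `β` can be added to `D` -/
def New (D : Set I) (β : I) : Prop := S.X.Closed D ∧ β ∉ D ∧ S.X.C β ⊆ D
/-- the hypotheses of the step `β` hold over `D` -/
def Valid (β : I) (D : Set I) : Prop :=
  (S.Mg β → ∀ d : S.MD β, TSb (S.G D) (S.T β) d.a ∧ NoMap (S.G D) (S.T β) (Zf S.A.s)) ∧
  (S.Sp β → ∀ d : S.SD β, GG (S.G D) d.U ∧ KK (S.G D) d.U d.g)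
/-- no conflict with the step `β` -/
def Ok (β : I) (D : Set I) (Y : ℕ → Submodule Λ Λ) : Prop := S.Mg β → NoMap (S.G D) (S.T β) Y

end Sys

/-- the properties of the final set of generators `P` and of its good countable parts -/
structure Glob (s : ℚ → E Λ) (P : Set (E Λ)) (𝒬 : Set (Set (E Λ))) : Prop where
  chain : Chain s
  base : Set.range s ⊆ P
  reg : Reg P
  rat : RatRk P
  spare : Spare s P
  simple : Simple P (Zf s)
  rp : RPerp s P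
  sub : ∀ Q ∈ 𝒬, Q ⊆ P ∧ Q.Countable ∧ Set.range s ⊆ Q ∧ Reg Q ∧ MinO Q P
  refl : ∀ (w : Bool → E Λ → E Λ) (z : ℕ → E Λ), (∀ i a, DM P a → DM P (w i a)) →
    (∀ n, DM P (z n)) → ∃ Q ∈ 𝒬, (∀ n, DM Q (z n)) ∧ ∀ i a, DM Q a → DM Q (w i a)
  tsgen : ∀ Q ∈ 𝒬, ∀ T, Fl Q T → Null T → TS Q T → SGen s P T
  kill : ∀ Q ∈ 𝒬, ∀ T, Fl Q T → Null T → (∀ n, T n ≠ ⊥) → GG Q T → Kill P T
  kill0 : ∀ Q ∈ 𝒬, ∀ T, Fl Q T → ¬ Null T → Kill P T
  bs : ∀ Q ∈ 𝒬, ∀ T J, Fl Q T → Null T → BS Q T J → BS P T J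

end Pool.Agent.Work.MP_c4093f_al.Z
end

-- merged part: Pool.Agent.Work.MP_c4093f_al.Z.Ideal
section
/-!
Left ideals of the ring of definable endomorphisms and their traces on countable parts.

Plan.  `mem_of_ker_le`: `Reg.factor` with `U = ⊤`.  `exists_ker_le`: induction; for two elements
`k₁, k₂` take `d` from `Reg.exists_ker` for `ker k₁ ⊓ ker k₂`, and factor `d` through
`k₁.prod k₂`: `d = (b ∘ inl) * k₁ + (b ∘ inr) * k₂`.  `exists_trace`: enumerate the countably many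
`k ∈ K` with `DM Q k` (`countable_dm`; `0` is one of them), `U n = ⨅ m ≤ n, ker (k m)`.
`null_of_max`: otherwise let `r > 0` be the infimum of the `rho (ker k)`; take `k` with
`rho (ker k) < 2 * r`, `H` from `exists_half`, `a` with kernel `H`.  If `a ∈ K` then `r ≤ rho H`.
Else `b * a - 1 ∈ K`, and `k' ∈ K` with `ker k' ≤ ker k ⊓ ker (b * a - 1)` has `ker k' ⊓ H = ⊥`.
`not_unif`: if `a * z₁ - b * z₂` vanishes on `U m` then `a * z₁` vanishes on both summands.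
-/

namespace Pool.Agent.Work.MP_c4093f_al.Z

open LinearMap

/-- `A / K` is uniform (or zero) -/
def Unif {A : Type} [Ring A] (K : Ideal A) : Prop :=
  ∀ a b, a ∉ K → b ∉ K → ∃ c d, c * a - d * b ∈ K ∧ c * a ∉ K

theorem unif_of_max {A : Type} [Ring A] {K : Ideal A} (h : K.IsMaximal) : Unif K := by
  intro a b ha hb
  obtain ⟨c, i, hi, e⟩ := h.exists_inv ha
  obtain ⟨d, j, hj, e'⟩ := h.exists_inv hb
  refine ⟨c, d, ?_, fun k => h.ne_top ((Ideal.eq_top_iff_one K).2 (e ▸ K.add_mem k hi))⟩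
  rw [eq_sub_of_add_eq e, eq_sub_of_add_eq e', sub_sub_sub_cancel_left]
  exact K.sub_mem hj hi

theorem exists_inv_of_max {A : Type} [Ring A] {K : Ideal A} (h : K.IsMaximal) {a : A}
    (ha : a ∉ K) : ∃ b, b * a - 1 ∈ K := by
  obtain ⟨c, i, hi, e⟩ := h.exists_inv ha
  refine ⟨c, ?_⟩
  rw [eq_sub_of_add_eq e, sub_sub_cancel_left]
  exact K.neg_mem hi

theorem max_swap {A : Type} [Ring A] {J K : Ideal A} (hJ : J.IsMaximal) (hK : K.IsMaximal) {c : A}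
    (hc : c ∉ K) (h : ∀ p ∈ J, p * c ∈ K) : ∃ c', c' ∉ J ∧ ∀ p ∈ K, p * c' ∈ J := by
  obtain ⟨c', h1⟩ := exists_inv_of_max hK hc
  have h2 : J = Submodule.comap (toSpanSingleton A A c) K := hJ.eq_of_le
    (fun k => hc (by simpa using (Ideal.eq_top_iff_one _).1 k)) h
  refine ⟨c', fun k => hK.ne_top ((Ideal.eq_top_iff_one K).2 ?_), fun p hp => ?_⟩
  · simpa using K.sub_mem (h c' k) h1
  · rw [h2]
    change p * c' * c ∈ K
    simpa [mul_sub, mul_assoc] using K.add_mem (K.mul_mem_left p h1) hp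

variable {Λ : Type} [Ring Λ] [Algebra F Λ] {P Q : Set (E Λ)} {K : Ideal (dcl P)}
  {U : ℕ → Submodule Λ Λ}

/-- the elements that vanish on the germ of `U` -/
def zerI (P : Set (E Λ)) (U : ℕ → Submodule Λ Λ) (hU : Antitone U) : Ideal (dcl P) where
  carrier := {a | Zer (a : E Λ) U}
  zero_mem' := Zer.zero U
  add_mem' := fun ha hb => Zer.add hU ha hb
  smul_mem' := fun c _ ha => Zer.comp_left ha (c : E Λ)

theorem mem_zerI {hU : Antitone U} {a : dcl P} : a ∈ zerI P U hU ↔ Zer (a : E Λ) U := Iff.rfl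

theorem zerI_max (hP : Reg P) (hU : Fl P U) (h : Simple P U) : (zerI P U hU.2).IsMaximal := by
  refine Ideal.isMaximal_iff.2 ⟨h.not_zer_id, fun J a hJ ha ha' => ?_⟩
  obtain ⟨n, hn⟩ := h.inj a.2 ha
  obtain ⟨b, hb, e⟩ := hP.factor a.2 DM.id (hU.1 n) hn
  have h1 : 1 - (⟨b, hb⟩ : dcl P) * a ∈ J := hJ ⟨n, fun ξ hξ => sub_eq_zero.2 (e ξ hξ).symm⟩
  simpa using J.add_mem h1 (J.mul_mem_left ⟨b, hb⟩ ha')

theorem mem_of_ker_le (hP : Reg P) {k a : dcl P} (hk : k ∈ K)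
    (h : ker (k : E Λ) ≤ ker (a : E Λ)) : a ∈ K := by
  obtain ⟨b, hb, e⟩ := hP.factor k.2 a.2 (Def.top _) fun ξ _ hξ => h hξ
  have : a = (⟨b, hb⟩ : dcl P) * k := Subtype.ext (LinearMap.ext fun ξ => (e ξ trivial).symm)
  exact this ▸ K.mul_mem_left _ hk

theorem Ideal_two (hP : Reg P) {k k' : dcl P} (hk : k ∈ K) (hk' : k' ∈ K) :
    ∃ a ∈ K, ker (a : E Λ) ≤ ker (k : E Λ) ∧ ker (a : E Λ) ≤ ker (k' : E Λ) := by
  obtain ⟨d, hd, e, -⟩ := hP.exists_ker ((DM.ker k.2).inf (DM.ker k'.2))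
  obtain ⟨b, hb, e'⟩ := hP.factor (DM.prod k.2 k'.2) hd (Def.top _) fun ξ _ hξ =>
    e.ge ⟨congrArg Prod.fst hξ, congrArg Prod.snd hξ⟩
  refine ⟨⟨d, hd⟩, ?_, le_inf_iff.1 e.le⟩
  have : (⟨d, hd⟩ : dcl P) = (⟨_, hb.comp DM.inl⟩ : dcl P) * k + (⟨_, hb.comp DM.inr⟩ : dcl P) * k' :=
    Subtype.ext (LinearMap.ext fun ξ => (e' ξ trivial).symm.trans (by
      change _ = b (_, 0) + b (0, _)
      rw [← map_add, Prod.mk_add_mk, add_zero, zero_add]
      rfl))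
  exact this ▸ K.add_mem (K.mul_mem_left _ hk) (K.mul_mem_left _ hk')

theorem exists_ker_le (hP : Reg P) {κ : Type} [Finite κ] {k : κ → dcl P} (hk : ∀ i, k i ∈ K) :
    ∃ a ∈ K, ∀ i, ker (a : E Λ) ≤ ker (k i : E Λ) := by
  classical
  have := Fintype.ofFinite κ
  suffices h : ∀ T : Finset κ, ∃ a ∈ K, ∀ i ∈ T, ker (a : E Λ) ≤ ker (k i : E Λ) from
    (h Finset.univ).imp fun a ha => ⟨ha.1, fun i => ha.2 i (Finset.mem_univ i)⟩
  intro T
  induction T using Finset.induction_on with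
  | empty => exact ⟨0, K.zero_mem, fun i hi => absurd hi (Finset.notMem_empty i)⟩
  | insert j T _ ih =>
    obtain ⟨a, ha, h⟩ := ih
    obtain ⟨b, hb, h1, h2⟩ := Ideal_two hP ha (hk j)
    exact ⟨b, hb, Finset.forall_mem_insert _ _ _ |>.2 ⟨h2, fun i hi => h1.trans (h i hi)⟩⟩

/-- `U` is the flag of the part of `K` that is definable over `Q` -/
structure Trace (Q : Set (E Λ)) (K : Ideal (dcl P)) (U : ℕ → Submodule Λ Λ) : Prop where
  fl : Fl Q U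
  ker_le : ∀ n, ∃ k ∈ K, ker (k : E Λ) ≤ U n
  zer : ∀ k ∈ K, DM Q (k : E Λ) → Zer (k : E Λ) U

theorem exists_trace (hP : Reg P) (hQ : Q.Countable) (K : Ideal (dcl P)) : ∃ U, Trace Q K U := by
  have h1 : {k : dcl P | k ∈ K ∧ DM Q (k : E Λ)}.Countable :=
    ((countable_dm hQ).preimage Subtype.val_injective).mono fun _ h => h.2
  obtain ⟨k, hk⟩ := h1.exists_eq_range ⟨0, K.zero_mem, DM.zero⟩
  have h2 : ∀ m, k m ∈ K ∧ DM Q (k m : E Λ) := fun m => hk.ge ⟨m, rfl⟩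
  refine ⟨fun n => ⨅ m ∈ Finset.range (n + 1), ker (k m : E Λ),
    ⟨fun n => Def.biInf _ fun m _ => (h2 m).2.ker, fun n n' h => biInf_mono fun m hm =>
      Finset.range_mono (Nat.succ_le_succ h) hm⟩, fun n => ?_, fun a ha ha' => ?_⟩
  · obtain ⟨a, ha, h⟩ := exists_ker_le hP (κ := Finset.range (n + 1)) fun i => (h2 i).1
    exact ⟨a, ha, le_iInf₂ fun m hm => h ⟨m, hm⟩⟩
  · obtain ⟨m, rfl⟩ := hk.le ⟨ha, ha'⟩
    exact ⟨m, iInf₂_le m (Finset.self_mem_range_succ m)⟩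

theorem Trace.mem (hP : Reg P) (h : Trace Q K U) {a : dcl P} (ha : Zer (a : E Λ) U) : a ∈ K := by
  obtain ⟨n, hn⟩ := ha
  obtain ⟨k, hk, h'⟩ := h.ker_le n
  exact mem_of_ker_le hP hk (h'.trans hn)

theorem Trace.exists_ne (hP : Reg P) (h : Trace Q K U) (hK : K ≠ ⊤) {κ : Type} [Finite κ]
    {k : κ → dcl P} (hk : ∀ i, k i ∈ K) (n : ℕ) :
    ∃ ξ ∈ U n, ξ ≠ 0 ∧ ∀ i, (k i : E Λ) ξ = 0 := by
  obtain ⟨a, ha, h1⟩ := h.ker_le n
  obtain ⟨b, hb, h2⟩ := exists_ker_le hP hk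
  obtain ⟨c, hc, h3, h4⟩ := Ideal_two hP ha hb
  have h5 : ker (c : E Λ) ≠ ⊥ := fun e =>
    hK ((Ideal.eq_top_iff_one K).2 (mem_of_ker_le hP hc (e.le.trans bot_le)))
  obtain ⟨ξ, h6, h7⟩ := Submodule.exists_mem_ne_zero_of_ne_bot h5
  exact ⟨ξ, h1 (h3 h6), h7, fun i => h2 i (h4 h6)⟩

theorem Trace.ne_bot (hP : Reg P) (h : Trace Q K U) (hK : K ≠ ⊤) (n : ℕ) : U n ≠ ⊥ := by
  obtain ⟨ξ, h1, h2, -⟩ := h.exists_ne hP hK (κ := Empty) (k := fun i => i.elim) (fun i => i.elim) n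
  exact (Submodule.ne_bot_iff _).2 ⟨ξ, h1, h2⟩

theorem not_unif (hU : Antitone U) (hK : ∀ a : dcl P, a ∈ K ↔ Zer (a : E Λ) U) (h : Kill P U) :
    ¬ Unif K := by
  obtain ⟨z₁, z₂, d₁, d₂, h₁, h₂, h⟩ := h
  intro hu
  obtain ⟨c, d, h3, h4⟩ := hu ⟨z₁, d₁⟩ ⟨z₂, d₂⟩ (mt (hK _).1 h₁) (mt (hK _).1 h₂)
  obtain ⟨m, hm⟩ := (hK _).1 h3
  refine h4 ((hK _).2 ((h m).mono (sup_le (fun ξ hξ => ?_) fun ξ hξ => ?_)))
  · change c.1 (z₁ ξ) = 0
    rw [show z₁ ξ = 0 from hξ.2, map_zero]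
  · have h5 : c.1 (z₁ ξ) - d.1 (z₂ ξ) = 0 := hm hξ.1
    rwa [show z₂ ξ = 0 from hξ.2, map_zero, sub_zero] at h5

theorem null_of_max [Dim Λ] {s : ℚ → E Λ} {𝒬 : Set (Set (E Λ))} (h : Glob s P 𝒬)
    (hK : K.IsMaximal) {ε : ℝ} (hε : 0 < ε) : ∃ k ∈ K, rho (ker (k : E Λ)) < ε := by
  have step : ∀ k ∈ K, ∃ k' ∈ K, 2 * rho (ker (k' : E Λ)) ≤ rho (ker (k : E Λ)) := fun k hk => by
    obtain ⟨H, h1, h2, h3⟩ := exists_half h.chain h.base h.rat h.spare (DM.ker k.2)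
    obtain ⟨a, ha, rfl, -⟩ := h.reg.exists_ker h2
    by_cases h4 : (⟨a, ha⟩ : dcl P) ∈ K
    · exact ⟨_, h4, h3.le⟩
    obtain ⟨b, hb⟩ := exists_inv_of_max hK h4
    obtain ⟨c, hc, h5, h6⟩ := Ideal_two h.reg hk hb
    have h7 : ker (c : E Λ) ⊓ ker a = ⊥ := (Submodule.eq_bot_iff _).2 fun ξ hξ => by
      have h8 : b.1 (a ξ) - ξ = 0 := h6 hξ.1
      rwa [show a ξ = 0 from hξ.2, map_zero, zero_sub, neg_eq_zero] at h8
    have h8 := rho_sup_add_inf (ker (c : E Λ)) (ker a)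
    rw [h7, rho_bot] at h8
    have h9 := rho_mono (sup_le h5 h1)
    exact ⟨c, hc, by linarith⟩
  have key : ∀ n : ℕ, ∃ k ∈ K, rho (ker (k : E Λ)) ≤ (1 / 2) ^ n := fun n => by
    induction n with
    | zero => exact ⟨0, K.zero_mem, (rho_le_one _).trans_eq (pow_zero _).symm⟩
    | succ n ih =>
      obtain ⟨k, hk, h1⟩ := ih
      obtain ⟨k', hk', h2⟩ := step k hk
      exact ⟨k', hk', by rw [pow_succ]; linarith⟩
  obtain ⟨n, hn⟩ := exists_pow_lt_of_lt_one hε (one_half_lt_one (α := ℝ))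
  exact (key n).imp fun k hk => ⟨hk.1, hk.2.trans_lt hn⟩

end Pool.Agent.Work.MP_c4093f_al.Z
end

-- merged part: Pool.Agent.Work.MP_c4093f_al.Z.ZgMain
section
/-!
The isolation condition on the two sides.

Plan.  `opn_triv`: `pp_le_all`.  So every open set is empty or everything (induction on
`TopologicalSpace.GenerateOpen`).  `ic_of_two`: a closed set with an isolated point `p` is
everything, and the open set is everything, so `univ = {p}`.  `two_pts`: maximal left ideals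
`L₁ ⊇ I₁`, `L₂ ⊇ I₂` and the points of `exists_pt`; if `g` is an isomorphism, `pt_unif` gives
`a • g x₁ = b • x₂ ≠ 0`; since `S x₁` is simple, `g x₁ = c • x₂`; with `c - l * c ∈ I₂` we get
`g x₁ = l • g x₁ = 0`.  `one_pt`: for a point `N` and `x ≠ 0`, the annihilator `K` of `x` is
`Unif` by `pt_unif`; `c • x` is killed by `L`; `pt_iso`.  `not_ic`: `Y = univ = {p}` and
`pp_split`.  `dual_univ`: an empty `π.Opn` gives `φ = ψ` on a right point, so `pp_le_all`,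
`pp_dual_le`.
-/

namespace Pool.Agent.Work.MP_c4093f_al.Z

variable {S : Type} [Ring S]

theorem opn_triv (h : SR S) (π : Pair S) : π.Opn = ∅ ∨ π.Opn = Set.univ := by
  refine (Set.eq_empty_or_nonempty _).imp_right fun ⟨_, N₀, h0, _⟩ => ?_
  refine Set.eq_univ_of_forall fun p => ?_
  obtain ⟨N, rfl⟩ := Quot.exists_rep p
  refine ⟨N, fun e => h0 ?_, rfl⟩
  have := N.2.2.1
  exact Set.Subset.antisymm (pp_le_all h π.φ π.ψ N.1.N e.subset N₀.1) (π.le N₀.1)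

theorem ZgMain_open (h : SR S) {O : Set (Zg S)} (hO : IsOpen O) : O = ∅ ∨ O = Set.univ := by
  have hO' : TopologicalSpace.GenerateOpen (Set.range (Pair.Opn (S := S))) O := hO
  clear hO
  induction hO' with
  | basic s hs =>
    obtain ⟨π, rfl⟩ := hs
    exact opn_triv h π
  | univ => exact Or.inr rfl
  | inter s t _ _ hs ht =>
    rcases hs with rfl | rfl
    · exact Or.inl (Set.empty_inter _)
    · rwa [Set.univ_inter]
  | sUnion T _ hT =>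
    by_cases h1 : Set.univ ∈ T
    · exact Or.inr (Set.eq_univ_of_univ_subset (Set.subset_sUnion_of_mem h1))
    · exact Or.inl (Set.sUnion_eq_empty.2 fun t ht =>
        (hT t ht).resolve_right fun e => h1 (e ▸ ht))

theorem ic_of_two (h : SR S) (h2 : ∃ p q : Zg S, p ≠ q) : IC (Set.univ : Set (Zg S)) := by
  rintro Y hY - p ⟨O, hO, e⟩
  exfalso
  have hp : p ∈ O ∩ Y := e ▸ Set.mem_singleton p
  have h1 : O = Set.univ := (ZgMain_open h hO).resolve_left fun e => by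
    rw [e] at hp
    exact hp.1
  have h3 : Y = Set.univ := by
    rcases ZgMain_open h hY.isOpen_compl with e | e
    · exact Set.compl_empty_iff.1 e
    · exact absurd hp.2 (e.ge (Set.mem_univ p))
  rw [h1, h3, Set.univ_inter] at e
  obtain ⟨a, b, hab⟩ := h2
  exact hab ((e.le (Set.mem_univ a)).trans (e.le (Set.mem_univ b)).symm)

theorem two_pts (h : SR S) {I₁ I₂ : Ideal S} (h1 : (1 : S) ∉ I₁) (h2 : (1 : S) ∉ I₂)
    (hp : ∀ b, ∃ l ∈ I₁, b - l * b ∈ I₂) : ∃ p q : Zg S, p ≠ q := by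
  obtain ⟨L₁, hL₁, l1⟩ := Ideal.exists_le_maximal I₁ ((Ideal.ne_top_iff_one I₁).2 h1)
  obtain ⟨L₂, hL₂, l2⟩ := Ideal.exists_le_maximal I₂ ((Ideal.ne_top_iff_one I₂).2 h2)
  obtain ⟨N₁, x₁, hx₁, a1⟩ := exists_pt h hL₁
  obtain ⟨N₂, x₂, hx₂, a2⟩ := exists_pt h hL₂
  refine ⟨cls N₁, cls N₂, fun e => ?_⟩
  obtain ⟨g⟩ := cls_eq.1 e
  have hg : g x₁ ≠ 0 := fun e => hx₁ (g.map_eq_zero_iff.1 e)
  have k1 : ∀ l ∈ L₁, l • g x₁ = 0 := fun l hl => by rw [← map_smul, a1 l hl, map_zero]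
  obtain ⟨a, b, hab, ha⟩ := pt_unif h N₂ hg hx₂
  obtain ⟨y, i, hi, hy⟩ := hL₁.exists_inv (fun hl => ha (k1 a hl))
  have hc : g x₁ = (y * b) • x₂ := by
    rw [← one_smul S (g x₁), ← hy, add_smul, k1 i hi, add_zero, mul_smul, hab, mul_smul]
  obtain ⟨l, hl, hl'⟩ := hp (y * b)
  have h3 := a2 _ (l2 hl')
  rw [sub_smul, mul_smul l, ← hc, k1 l (l1 hl), sub_zero] at h3
  exact hg h3

theorem one_pt (h : SR S) {L : Ideal S} (hL : L.IsMaximal)
    (hB : ∀ K : Ideal S, K ≠ ⊤ → Unif K → ∃ c, c ∉ K ∧ ∀ p ∈ L, p * c ∈ K) :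
    ∃ p : Zg S, Set.univ = {p} := by
  obtain ⟨N₀, x₀, hx₀, a0⟩ := exists_pt h hL
  refine ⟨cls N₀, (Set.eq_univ_of_forall fun p => ?_).symm⟩
  obtain ⟨N, rfl⟩ := Quot.exists_rep p
  have := N.2.2.1
  obtain ⟨x, hx⟩ := exists_ne (0 : N.1.N)
  let K : Ideal S := LinearMap.ker (LinearMap.toSpanSingleton S N.1.N x)
  have hK : ∀ a, a ∈ K ↔ a • x = 0 := fun a => Iff.rfl
  obtain ⟨c, hc, hc'⟩ := hB K ((Ideal.ne_top_iff_one K).2 fun e => hx (by
      simpa using (hK 1).1 e)) fun a b ha hb => by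
    obtain ⟨c, d, e, e'⟩ := pt_unif h N (fun e => ha ((hK a).2 e)) (fun e => hb ((hK b).2 e))
    refine ⟨c, d, (hK _).2 ?_, fun e'' => e' ?_⟩
    · rw [sub_smul, mul_smul, mul_smul, e, sub_self]
    · rw [← mul_smul]
      exact (hK _).1 e''
  exact cls_eq.2 (pt_iso h hL N N₀ (x := c • x) (fun e => hc ((hK c).2 e)) hx₀
    (fun a ha => by
      rw [← mul_smul]
      exact (hK _).1 (hc' a ha)) a0)

theorem not_ic (h : SR S) (h1 : ∃ p : Zg S, Set.univ = {p}) : ¬ IC (Set.univ : Set (Zg S)) := by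
  obtain ⟨p, hp⟩ := h1
  intro hI
  obtain ⟨π, ⟨⟨_, ⟨N, hN, -⟩, -⟩, hm⟩, -⟩ := hI Set.univ isClosed_univ subset_rfl p
    ⟨Set.univ, isOpen_univ, by rw [Set.univ_inter, hp]⟩
  obtain ⟨θ, t1, t2, t3, t4⟩ := pp_split h π.φ π.ψ π.le N.1.N hN
  rcases hm θ t1 t2 with e | e
  · exact t3 (e N (Set.mem_univ _))
  · exact t4 (e N (Set.mem_univ _))

theorem dual_univ (h : SR S) : DualSet (Set.univ : Set (Zg Sᵐᵒᵖ)) = Set.univ := by
  have := h.nt
  obtain ⟨L, hL⟩ := Ideal.exists_maximal Sᵐᵒᵖ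
  obtain ⟨N, x, hx, -⟩ := exists_pt h.op hL
  refine Set.eq_univ_of_forall fun p hp => ?_
  simp only [Set.mem_iUnion] at hp
  obtain ⟨π, hπ, M, hM, -⟩ := hp
  have h1 : π.φ.ev N.1.N = π.ψ.ev N.1.N := by
    by_contra e
    have h2 : cls N ∈ π.Opn ∩ Set.univ := ⟨⟨N, e, rfl⟩, Set.mem_univ _⟩
    rw [show π.Opn ∩ Set.univ = ∅ from hπ] at h2
    exact h2
  have := N.2.2.1
  exact hM (Set.Subset.antisymm
    (pp_dual_le h π.φ π.ψ (pp_le_all h.op π.φ π.ψ N.1.N h1.subset) M.1.N)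
    (pp_dual_le h π.ψ π.φ π.le M.1.N))

theorem zg_main (h : SR S) {L : Ideal S} (hL : L.IsMaximal)
    (hB : ∀ K : Ideal S, K ≠ ⊤ → Unif K → ∃ c, c ∉ K ∧ ∀ p ∈ L, p * c ∈ K)
    {I₁ I₂ : Submodule Sᵐᵒᵖ S} (h1 : (1 : S) ∉ I₁) (h2 : (1 : S) ∉ I₂)
    (hp : ∀ b, ∃ l ∈ I₁, b - b * l ∈ I₂) :
    DualSet (Set.univ : Set (Zg Sᵐᵒᵖ)) = Set.univ ∧ IC (Set.univ : Set (Zg Sᵐᵒᵖ)) ∧
      ¬ IC (Set.univ : Set (Zg S)) := by
  refine ⟨dual_univ h, ic_of_two h.op ?_, not_ic h (one_pt h hL hB)⟩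
  let u : Sᵐᵒᵖ →ₗ[Sᵐᵒᵖ] S := LinearMap.toSpanSingleton Sᵐᵒᵖ S 1
  have hu : ∀ a, u a = a.unop := fun a => by
    simp [u, LinearMap.toSpanSingleton_apply, MulOpposite.smul_eq_mul_unop]
  refine two_pts h.op (I₁ := I₁.comap u) (I₂ := I₂.comap u) ?_ ?_ fun b => ?_
  · rwa [Submodule.mem_comap, hu]
  · rwa [Submodule.mem_comap, hu]
  · obtain ⟨l, hl, hl'⟩ := hp b.unop
    refine ⟨MulOpposite.op l, ?_, ?_⟩
    · rwa [Submodule.mem_comap, hu]
    · rwa [Submodule.mem_comap, hu]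

end Pool.Agent.Work.MP_c4093f_al.Z
end

-- merged part: Pool.Agent.Work.MP_c4093f_al.Z.Tame
section
/-!
Finite and infinite endomorphism rings of simple germ modules.

Plan.  `exists_tsb`: call `a : Fin f → E Λ` good if all `a i` are definable, continuous and the
field `ind` holds.  For good `a` the `2 ^ f` combinations are pairwise different on the germ, so
`2 ^ f ≤ card A` for the finite set of `Tame`; take `f` maximal; `span` follows since otherwise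
`Fin.cons b a` is good (coefficients are `0` or `1`).
`bs_of_not_tame`: choose `b n` recursively outside the classes of the earlier ones.
`BS.gg`: let `T = fmap e Y` be simple and tame.  `ker e` is not big, so `bs` gives `A`; `Y` is
`Sem` over copies of `T` through the maps `e * a`, `a ∈ A`.  `ssa` with `id` gives a continuous
`η : T → Y` that is not zero on the germ.  The maps `e * a * b n * η` are endomorphisms of `T`;
by pigeonhole on `A → (finite set)` there are `m ≠ n` with `e * a * (b m - b n) * η` zero on the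
germ for all `a`; so `(b m - b n) * η` is zero on the germ, and `inj` gives that `η` is.
-/

namespace Pool.Agent.Work.MP_c4093f_al.Z

open LinearMap

variable {Λ : Type} [Ring Λ] [Algebra F Λ] {P : Set (E Λ)} {Y : ℕ → Submodule Λ Λ} {f : ℕ}
  {a : Fin f → E Λ} {I : Set (E Λ)}

theorem TSb.tame (h : TSb P Y a) : Tame P Y := by
  classical
  refine ⟨Finset.univ.image fun c : Fin f → F => ∑ i, c i • a i, fun b hb hc => ?_⟩
  obtain ⟨c, hc⟩ := h.span b hb hc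
  exact ⟨_, Finset.mem_image.2 ⟨c, Finset.mem_univ _, rfl⟩, hc⟩

theorem TSb.ts (h : TSb P Y a) : TS P Y := ⟨h.simple, h.tame⟩

theorem TSb.pos (h : TSb P Y a) : 0 < f := by
  rcases Nat.eq_zero_or_pos f with rfl | h0
  · obtain ⟨c, hc⟩ := h.span LinearMap.id DM.id (Cont.id Y)
    rw [Finset.univ_eq_empty, Finset.sum_empty, sub_zero] at hc
    exact absurd hc h.simple.not_zer_id
  · exact h0

theorem TSb.inj_all (h : TSb P Y a) (hY : Antitone Y) :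
    ∃ n, ∀ c : Fin f → F, c ≠ 0 → ∀ ξ ∈ Y n, (∑ i, c i • a i) ξ = 0 → ξ = 0 := by
  have h1 : ∀ c : Fin f → F, ∃ n, c ≠ 0 → ∀ ξ ∈ Y n, (∑ i, c i • a i) ξ = 0 → ξ = 0 := by
    intro c
    by_cases hc : c = 0
    · exact ⟨0, fun h0 => absurd hc h0⟩
    · obtain ⟨n, hn⟩ := h.simple.inj (DM.comb h.dm c) (fun h0 => hc (h.ind c h0))
      exact ⟨n, fun _ => hn⟩
  choose n hn using h1
  refine ⟨Finset.univ.sup n, fun c hc ξ hξ => hn c hc ξ (hY ?_ hξ)⟩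
  exact Finset.le_sup (Finset.mem_univ c)

theorem TSb.one (h : TSb P Y ![1]) {b : E Λ} (hb : DM P b) (hc : Cont b Y Y) :
    ∃ c : F, ∃ n, ∀ ξ ∈ Y n, b ξ = c • ξ := by
  obtain ⟨c, n, hn⟩ := h.span b hb hc
  refine ⟨c 0, n, fun ξ hξ => ?_⟩
  have h1 := hn hξ
  rw [mem_ker, Fin.sum_univ_one, LinearMap.sub_apply, sub_eq_zero] at h1
  exact h1

/-- families that are independent on the germ -/
def TameGood (P : Set (E Λ)) (Y : ℕ → Submodule Λ Λ) {f : ℕ} (a : Fin f → E Λ) : Prop :=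
  (∀ i, DM P (a i)) ∧ (∀ i, Cont (a i) Y Y) ∧ ∀ c : Fin f → F, Zer (∑ i, c i • a i) Y → c = 0

theorem Tame_bound (hY : Antitone Y) (h : Tame P Y) :
    ∃ n, ∀ (f : ℕ) (a : Fin f → E Λ), TameGood P Y a → f < n := by
  obtain ⟨A, hA⟩ := h
  refine ⟨A.card, fun f a ha => ?_⟩
  choose g hg1 hg2 using fun c : Fin f → F =>
    hA _ (DM.comb ha.1 c) (Cont.comb hY ha.2.1 c)
  have hinj : Function.Injective fun c : Fin f → F => (⟨g c, hg1 c⟩ : A) := by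
    intro c c' hcc
    have h1 : g c = g c' := congrArg Subtype.val hcc
    have h2 := hg2 c'
    rw [← h1] at h2
    have h3 := Zer.trans hY (hg2 c) h2.symm
    rw [← sub_eq_zero]
    refine ha.2.2 _ ?_
    have h4 : ∑ i, (c - c') i • a i = ∑ i, c i • a i - ∑ i, c' i • a i := by
      rw [← Finset.sum_sub_distrib]
      exact Finset.sum_congr rfl fun i _ => LinearMap.ext fun ξ => sub_smul (c i) (c' i) (a i ξ)
    rw [h4]
    exact h3
  have h5 := Fintype.card_le_of_injective _ hinj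
  rw [Fintype.card_fun, ZMod.card, Fintype.card_fin, Fintype.card_coe] at h5
  exact lt_of_lt_of_le (Nat.lt_two_pow_self) h5

theorem Tame_cons (ha : TameGood P Y a) {b : E Λ} (hb : DM P b) (hc : Cont b Y Y)
    (h : ∀ c : Fin f → F, ¬ Zer (b - ∑ i, c i • a i) Y) :
    TameGood P Y (Fin.cons b a : Fin (f + 1) → E Λ) := by
  refine ⟨fun i => Fin.cases hb (fun j => ha.1 j) i, fun i => Fin.cases hc (fun j => ha.2.1 j) i,
    fun c h0 => ?_⟩
  rw [Fin.sum_univ_succ] at h0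
  simp only [Fin.cons_zero, Fin.cons_succ] at h0
  have h1 : ∀ x : F, x = 0 ∨ x = 1 := by decide
  rcases h1 (c 0) with h2 | h2
  · rw [h2, zero_smul, zero_add] at h0
    have h3 := ha.2.2 (fun i => c i.succ) h0
    funext i
    exact Fin.cases h2 (fun j => congrFun h3 j) i
  · rw [h2, one_smul] at h0
    refine absurd ?_ (h fun i => - c i.succ)
    have h4 : ∑ i, (- c i.succ) • a i = - ∑ i : Fin f, c i.succ • a i := by
      rw [← Finset.sum_neg_distrib]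
      exact Finset.sum_congr rfl fun i _ => LinearMap.ext fun ξ => neg_smul (c i.succ) (a i ξ)
    rw [h4, sub_neg_eq_add]
    exact h0

theorem exists_tsb (hY : Antitone Y) (h : TS P Y) : ∃ (f : ℕ) (a : Fin f → E Λ), TSb P Y a := by
  by_contra hc
  obtain ⟨n, hn⟩ := Tame_bound hY h.2
  have h1 : ∀ f : ℕ, ∃ a : Fin f → E Λ, TameGood P Y a := by
    intro f
    induction f with
    | zero => exact ⟨Fin.elim0, fun i => i.elim0, fun i => i.elim0,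
        fun c _ => Subsingleton.elim _ _⟩
    | succ f ih =>
      obtain ⟨a, ha⟩ := ih
      by_contra h2
      refine hc ⟨f, a, h.1, ha.1, ha.2.1, ha.2.2, fun b hb hcb => ?_⟩
      by_contra h3
      exact h2 ⟨_, Tame_cons ha hb hcb fun c h4 => h3 ⟨c, h4⟩⟩
  obtain ⟨a, ha⟩ := h1 n
  exact lt_irrefl n (hn n a ha)

theorem bs_of_not_tame (hY : Antitone Y) (h : Simple P Y) (ht : ¬ Tame P Y) :
    BS P Y {b | DM P b ∧ Cont b Y Y} := by
  refine ⟨fun a ha => ha.1, fun a ha => ha.2,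
    fun a ha b hb => ⟨DM.mul ha.1 hb.1, Cont.comp ha.2 hb.2⟩,
    fun a ha b hb => ⟨DM.sub ha.1 hb.1, Cont.sub hY ha.2 hb.2⟩,
    fun a ha => h.2 _ ha.1.ker, ?_, fun H hH hB => ?_⟩
  · obtain ⟨b, h1, h2⟩ := exists_seq_of_forall_finset_exists
      (fun b : E Λ => DM P b ∧ Cont b Y Y) (fun a b => ¬ Zer (b - a) Y) (by
        intro A _
        by_contra h3
        refine ht ⟨A, fun b hb hc => ?_⟩
        by_contra h4
        exact h3 ⟨b, ⟨hb, hc⟩, fun a ha h5 => h4 ⟨a, ha, h5⟩⟩)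
    refine ⟨b, h1, fun m n hmn h3 => ?_⟩
    rcases lt_or_gt_of_ne hmn with h4 | h4
    · exact h2 m n h4 h3.symm
    · exact h2 n m h4 h3
  · obtain ⟨n, hn⟩ := (h.2 H hH).resolve_left hB
    refine ⟨{1}, fun a ha => ?_, n, fun ξ hξ h1 => ?_⟩
    · rw [Finset.mem_singleton.1 ha]
      exact ⟨DM.one, Cont.id Y⟩
    · have h2 : ξ ∈ H ⊓ Y n := ⟨h1 1 (Finset.mem_singleton_self _), hξ⟩
      rw [hn] at h2
      exact h2

theorem BS.gg (hP : Reg P) (hY : Fl P Y) (h : BS P Y I) : GG P Y := by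
  intro e he hT
  have h0 : ¬ Zer e Y := fmap_ne_bot.1 hT.1.1
  have hA : Antitone (fmap e Y) := anti_fmap hY.2
  obtain ⟨A, hAI, n₀, hn₀⟩ := h.bs (ker e) he.ker h0
  have hc : ∀ a : A, Cont (e * a.1) Y (fmap e Y) := fun a =>
    Cont.comp (cont_fmap e Y) (h.cont _ (hAI _ a.2))
  have hd : ∀ a : A, DM P (e * a.1) := fun a => DM.mul he (h.dm _ (hAI _ a.2))
  have hS : Sem P Y (fun _ : A => fmap e Y) (fun a => e * a.1) :=
    ⟨fun a => ⟨hd a, hc a⟩, n₀, fun ξ hξ h1 => hn₀ ξ hξ fun a ha => h1 ⟨a, ha⟩⟩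
  refine h0 (Zer.comp_left (f := LinearMap.id) ?_ e)
  refine ssa hP hY (fun _ => hT.1) hS LinearMap.id fun _ η hη hηc => ?_
  refine Zer.comp_left ?_ _
  obtain ⟨B, hB⟩ := hT.2
  obtain ⟨b, hbI, hb⟩ := h.inf
  choose g hg1 hg2 using fun (n : ℕ) (a : A) => hB (e * a.1 * (b n * η))
    (DM.mul (hd a) (DM.mul (h.dm _ (hbI n)) hη))
    (Cont.comp (hc a) (Cont.comp (h.cont _ (hbI n)) hηc))
  obtain ⟨m, n, hmn, hg⟩ := Finite.exists_ne_map_eq_of_infinite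
    fun (n : ℕ) (a : A) => (⟨g n a, hg1 n a⟩ : B)
  have hI := h.sub _ (hbI m) _ (hbI n)
  have h1 : ∀ a : A, Zer (e * a.1 * ((b m - b n) * η)) (fmap e Y) := by
    intro a
    have h2 : g m a = g n a := congrArg Subtype.val (congrFun hg a)
    have h3 := hg2 n a
    rw [← h2] at h3
    have h4 := Zer.trans hA (hg2 m a) h3.symm
    rw [sub_mul, mul_sub]
    exact h4
  have h5 : Zer ((b m - b n) ∘ₗ η) (fmap e Y) := by
    obtain ⟨N₁, hN₁⟩ := Cont.comp (h.cont _ hI) hηc n₀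
    obtain ⟨N, hN, hall⟩ := exists_common hA h1 N₁
    refine ⟨N, fun ξ hξ => hn₀ _ (hN₁ (hA hN hξ)) fun a ha => ?_⟩
    exact hall ⟨a, ha⟩ hξ
  obtain ⟨k, hk⟩ := (h.inj _ hI).resolve_left (hb m n hmn)
  refine Zer.of_inj hA hηc (n := k) (fun ξ hξ h6 => ?_) h5
  have h7 : ξ ∈ ker (b m - b n) ⊓ Y k := ⟨h6, hξ⟩
  rw [hk] at h7
  exact h7

end Pool.Agent.Work.MP_c4093f_al.Z
end

-- merged part: Pool.Agent.Work.MP_c4093f_al.Z.ThmA
section
/-!
Every simple left module is the distinguished one.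

Plan.  Witness functions on `E Λ` (value `0` when the condition fails): `w true a` is `b` with
`b * a - 1 ∈ K` when `a ∉ K`; `w false a` is `k ∈ K` with `k * a ∉ K` when there is one; `z n ∈ K`
has `rho (ker (z n)) < 1 / (n + 1)` (`null_of_max`).  Take `Q` from `refl`, `U` from
`exists_trace`.  `U` is null, and simple over `Q` (`Reg.exists_ker` over `Q`).
Tame case: `tsgen` gives maps `p i`; by `Trace.exists_ne` some `p i ∉ K`; `Zer.comp_right` and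
`Trace.mem`.  Other case: `bs_of_not_tame` and the field `bs` give `BS P U J`.  Every `b ∈ J`
has `K b ⊆ K` (by `w false`), so every `k ∈ K` vanishes on the germ (field `bs` for `ker k` and
`Trace.exists_ne`).  `BS.gg` over `Q`, the field `kill`, `not_unif`, `unif_of_max`.
-/

namespace Pool.Agent.Work.MP_c4093f_al.Z

open LinearMap

variable {Λ : Type} [Ring Λ] [Algebra F Λ] [Dim Λ] {s : ℚ → E Λ} {P : Set (E Λ)}
  {𝒬 : Set (Set (E Λ))} {K : Ideal (dcl P)}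

theorem thmA (h : Glob s P 𝒬) (hK : K.IsMaximal) :
    ∃ c : dcl P, c ∉ K ∧ ∀ p : dcl P, Zer (p : E Λ) (Zf s) → p * c ∈ K := by
  classical
  have hne := hK.ne_top
  have k1 : ∀ a : E Λ, ∃ b : dcl P, ∀ ha : DM P a, (⟨a, ha⟩ : dcl P) ∉ K → b * ⟨a, ha⟩ - 1 ∈ K := by
    intro a
    by_cases ha : ∃ ha : DM P a, (⟨a, ha⟩ : dcl P) ∉ K
    · obtain ⟨ha, h1⟩ := ha
      exact (exists_inv_of_max hK h1).imp fun b hb _ _ => hb
    · exact ⟨0, fun h1 h2 => (ha ⟨h1, h2⟩).elim⟩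
  have k2 : ∀ a : E Λ, ∃ k : dcl P, k ∈ K ∧ ∀ ha : DM P a,
      k * ⟨a, ha⟩ ∈ K → ∀ k' ∈ K, k' * ⟨a, ha⟩ ∈ K := by
    intro a
    by_cases ha : ∃ ha : DM P a, ∃ k' ∈ K, k' * ⟨a, ha⟩ ∉ K
    · obtain ⟨ha, k, h1, h2⟩ := ha
      exact ⟨k, h1, fun _ h => (h2 h).elim⟩
    · exact ⟨0, K.zero_mem, fun h1 _ k' h2 => by_contra fun h3 => ha ⟨h1, k', h2, h3⟩⟩
  choose w1 hw1 using k1
  choose w2 hw2 hw2' using k2
  choose z hz hz' using fun n : ℕ => null_of_max h hK (Nat.one_div_pos_of_nat (n := n))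
  obtain ⟨Q, hQ, hzQ, hwQ⟩ := h.refl (fun i a => if i then w1 a else w2 a) (fun n => z n)
    (fun i a _ => by cases i; exacts [(w2 a).2, (w1 a).2]) fun n => (z n).2
  obtain ⟨hQP, hQc, -, hQr, -⟩ := h.sub Q hQ
  obtain ⟨U, hU⟩ := exists_trace h.reg hQc K
  have hA := hU.fl.2
  have h0 : Null U := fun ε hε => by
    obtain ⟨n, hn⟩ := exists_nat_one_div_lt hε
    obtain ⟨m, hm⟩ := hU.zer _ (hz n) (hzQ n)
    exact ⟨m, (rho_mono hm).trans_lt ((hz' n).trans hn)⟩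
  have hS : Simple Q U := ⟨hU.ne_bot h.reg hne, fun H hH => by
    obtain ⟨a, ha, rfl, -⟩ := hQr.exists_ker hH
    by_cases haK : (⟨a, ha.mono hQP⟩ : dcl P) ∈ K
    · exact Or.inl (hU.zer _ haK ha)
    · obtain ⟨n, hn⟩ := hU.zer _ (hw1 a _ haK) (((hwQ true a ha).mul ha).sub DM.one)
      refine Or.inr ⟨n, eq_bot_iff.2 fun ξ hξ => ?_⟩
      have h1 : (w1 a : E Λ) (a ξ) - ξ = 0 := hn hξ.2
      rw [mem_ker.1 hξ.1, map_zero, zero_sub, neg_eq_zero] at h1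
      exact h1⟩
  by_cases ht : Tame Q U
  · obtain ⟨κ, _, Y, p, hY, hp, n, hn⟩ := h.tsgen Q hQ U hU.fl h0 ⟨hS, ht⟩
    by_contra hc
    obtain ⟨ξ, h1, h2, h3⟩ := hU.exists_ne h.reg hne (k := fun i => ⟨p i, (hp i).1⟩)
      (fun i => by_contra fun hi => hc ⟨_, hi, fun a ha => hU.mem h.reg
        (Zer.comp_right ha (hY i ▸ (hp i).2))⟩) n
    exact h2 (hn ξ h1 h3)
  exfalso
  have hB := bs_of_not_tame hA hS ht
  have hB' := h.bs Q hQ U _ hU.fl h0 hB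
  refine not_unif hA (fun k => ⟨fun hk => by_contra fun hz => ?_, hU.mem h.reg⟩)
    (h.kill Q hQ U hU.fl h0 hS.1 (hB.gg hQr hU.fl)) (unif_of_max hK)
  obtain ⟨A, hAI, n, hn⟩ := hB'.bs _ (DM.ker k.2) hz
  obtain ⟨ξ, h1, h2, h3⟩ := hU.exists_ne h.reg hne
    (k := fun a : A => k * ⟨a, (hAI a a.2).1.mono hQP⟩)
    (fun a => hw2' a _ (hU.mem h.reg (Zer.comp_right
      (hU.zer _ (hw2 a) (hwQ false a (hAI a a.2).1)) (hAI a a.2).2)) k hk) n
  exact h2 (hn ξ h1 fun a ha => h3 ⟨a, ha⟩)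

end Pool.Agent.Work.MP_c4093f_al.Z
end

-- merged part: Pool.Agent.Work.MP_c4093f_al.Z.ThmB
section
/-!
Every left ideal is induced from a countable part; every uniform cyclic module contains the
distinguished simple module.

Plan.  `pin`: for `d ∉ K` take a maximal left ideal `K'` above `{b | b * d ∈ K}`
(`Ideal.exists_le_maximal`); `thmA`, `zerI_max`, `max_swap` give `c = w d`, not zero on the germ
of `Zf s`, such that `b * d ∈ K` implies that `b * c` is zero on it.  Take `Q` from `refl`, `U` from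
`exists_trace`.  For `z ∈ K` let `D` be the largest `Q` definable submodule of `H = ker z`
(`MinO`), `d` from `Reg.exists_ker` over `Q`.  If `d ∈ K` then `U n ≤ D ≤ H`.  Else let `b` have
kernel `H.map d ≤ H`; `b * d ∈ K` (`mem_of_ker_le`), so `(Zf s n).map c ≤ H.map d`; it is then
contained in `D = ker d` and in the range of the idempotent `d`, so it is zero.
`thmB`: suppose not.  If `U` is not null use `kill0`.  Otherwise `GG Q U`: if `fmap e U` is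
simple and tame, `tsgen` and `SGen.exists_map` (for `cont_fmap`) give `c * e ∉ K` continuous to
`Zf s`.  Then `kill` and `not_unif`.
-/

namespace Pool.Agent.Work.MP_c4093f_al.Z

open LinearMap

variable {Λ : Type} [Ring Λ] [Algebra F Λ] [Dim Λ] {s : ℚ → E Λ} {P : Set (E Λ)}
  {𝒬 : Set (Set (E Λ))} {K : Ideal (dcl P)}

theorem pin (h : Glob s P 𝒬) (K : Ideal (dcl P)) :
    ∃ Q ∈ 𝒬, ∃ U, Trace Q K U ∧ ∀ a : dcl P, a ∈ K ↔ Zer (a : E Λ) U := by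
  classical
  have hZ := h.chain.fl_Zf h.base
  have k1 : ∀ a : E Λ, ∃ c : dcl P, ∀ ha : DM P a, (⟨a, ha⟩ : dcl P) ∉ K →
      ¬ Zer (c : E Λ) (Zf s) ∧ ∀ b : dcl P, b * ⟨a, ha⟩ ∈ K → Zer ((b * c : dcl P) : E Λ) (Zf s) := by
    intro a
    by_cases ha : ∃ ha : DM P a, (⟨a, ha⟩ : dcl P) ∉ K
    · obtain ⟨ha, h1⟩ := ha
      obtain ⟨K', hK', hle⟩ := Ideal.exists_le_maximal
        (Submodule.comap (toSpanSingleton (dcl P) (dcl P) ⟨a, ha⟩) K) (by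
          rw [Ideal.ne_top_iff_one]
          simpa [Submodule.mem_comap] using h1)
      obtain ⟨c, hc, hc'⟩ := thmA h hK'
      obtain ⟨c', h2, h3⟩ := max_swap (zerI_max h.reg hZ h.simple) hK' hc hc'
      exact ⟨c', fun _ _ => ⟨h2, fun b hb => h3 b (hle (by simpa [Submodule.mem_comap] using hb))⟩⟩
    · exact ⟨0, fun h1 h2 => (ha ⟨h1, h2⟩).elim⟩
  choose w hw using k1
  obtain ⟨Q, hQ, -, hwQ⟩ := h.refl (fun _ a => w a) (fun _ => 0) (fun _ a _ => (w a).2)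
    fun _ => DM.zero
  obtain ⟨hQP, hQc, hsQ, hQr, hmin⟩ := h.sub Q hQ
  obtain ⟨U, hU⟩ := exists_trace h.reg hQc K
  refine ⟨Q, hQ, U, hU, fun z => ⟨fun hz => ?_, hU.mem h.reg⟩⟩
  obtain ⟨D, hD, hDH, hmax⟩ := hmin _ (DM.ker z.2)
  obtain ⟨d, hd, rfl, hdd⟩ := hQr.exists_ker hD
  by_cases hdK : (⟨d, hd.mono hQP⟩ : dcl P) ∈ K
  · exact (hU.zer _ hdK hd).mono hDH
  exfalso
  obtain ⟨h1, h2⟩ := hw d _ hdK
  obtain ⟨b, hb, hkb, -⟩ := h.reg.exists_ker ((DM.ker z.2).mapD (hd.mono hQP))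
  obtain ⟨n, hn⟩ := h2 ⟨b, hb⟩ (mem_of_ker_le h.reg hz fun ξ hξ => by
    change b (d ξ) = 0
    rw [← mem_ker, hkb]
    exact Submodule.mem_map_of_mem hξ)
  have h3 : (Zf s n).map (w d : E Λ) ≤ (ker (z : E Λ)).map d := by
    rintro _ ⟨ξ, hξ, rfl⟩
    rw [← hkb]
    exact hn hξ
  have h4 := hmax _ (((h.chain.fl_Zf hsQ).1 n).mapD (hwQ true d hd)) (h3.trans (by
    rintro _ ⟨ξ, hξ, rfl⟩
    have := Submodule.sub_mem _ hξ (hDH (hdd ξ))
    rwa [sub_sub_cancel] at this))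
  refine h1 ⟨n, fun ξ hξ => ?_⟩
  obtain ⟨η, -, hη⟩ := h3 (Submodule.mem_map_of_mem hξ)
  have h5 : d ((w d : E Λ) ξ) = 0 := h4 (Submodule.mem_map_of_mem hξ)
  have h6 : d (η - d η) = 0 := hdd η
  rw [map_sub, hη, h5, sub_zero] at h6
  exact h6

theorem thmB (h : Glob s P 𝒬) (hK : K ≠ ⊤) (hU : Unif K) :
    ∃ c : dcl P, c ∉ K ∧ ∀ p : dcl P, Zer (p : E Λ) (Zf s) → p * c ∈ K := by
  by_contra hc
  obtain ⟨Q, hQ, U, hT, hKU⟩ := pin h K
  obtain ⟨hQP, -⟩ := h.sub Q hQ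
  refine not_unif hT.fl.2 hKU ?_ hU
  by_cases h0 : Null U
  swap
  · exact h.kill0 Q hQ U hT.fl h0
  refine h.kill Q hQ U hT.fl h0 (hT.ne_bot h.reg hK) fun e he hts => ?_
  obtain ⟨c, h1, h2, h3⟩ := (h.tsgen Q hQ _ (hT.fl.fmap he) (h0.fmap e) hts).exists_map hT.fl.2
    (cont_fmap e U) (fmap_ne_bot.1 hts.1.1)
  exact hc ⟨⟨c * e, h1.mul (he.mono hQP)⟩, fun hk => h3 ((hKU _).1 hk), fun p hp =>
    (hKU _).2 (Zer.comp_right hp (h2.comp (cont_fmap e U)))⟩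

end Pool.Agent.Work.MP_c4093f_al.Z
end

-- merged part: Pool.Agent.Work.MP_c4093f_al.Z.Data
section
/-!
Choice of the flags of the two kinds of steps.

Plan.  `exists_mg_flags`: the products `a i * a j` agree with combinations of the `a l` on some
`T m` (field `span`, `exists_common`); put
`V = tex fun k => T (k + m) ⊓ ⨅ i, comap (a i) (T (k + m))`, whose members have rational positive
rank `q k ≤ 1` tending to zero, and `V' = tex fun k => range (s (q k / f))` (`TSb.pos`).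
`exists_sp_num`: enumerate the definable `H` that are not big as `H 0, H 1, …` (`countable_def`;
`⊥` is one of them).  Recursively choose increasing indices `n k` and rationals
`0 < g k ≤ rho (T (n k))` with `(k + 1) * g k ≤ cork (T (n k)) (H i)` for `i ≤ k` (`cork_pos`) and
`(k + 6) * rho (T (n (k + 1))) ≤ g k`; put `U k = T (n k)`.
-/

namespace Pool.Agent.Work.MP_c4093f_al.Z

open LinearMap

variable {Λ : Type} [Ring Λ] [Algebra F Λ] [Dim Λ] {s : ℚ → E Λ} {P : Set (E Λ)}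
  {T : ℕ → Submodule Λ Λ}

theorem exists_mg_flags (hs : Chain s) (hsP : Set.range s ⊆ P) (hr : RatRk P) (hT : Fl P T)
    (h0 : Null T) {f : ℕ} {a : Fin f → E Λ} (h : TSb P T a) :
    ∃ V V' : ℕ → Submodule Λ Λ, Fl P V ∧ Fl P V' ∧ Cof V T ∧ Cof V' (Zf s) ∧ V 0 = ⊤ ∧ V' 0 = ⊤ ∧
      (∀ k i, (V (k + 1)).map (a i) ≤ V (k + 1)) ∧
      ∀ k, rho (V (k + 1)) = f * rho (V' (k + 1)) := by
  choose c hc using fun p : Fin f × Fin f => h.span (a p.1 * a p.2) ((h.dm _).mul (h.dm _))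
    ((h.cont p.1).comp (h.cont p.2))
  obtain ⟨m, -, hm⟩ := exists_common hT.2 hc 0
  let V : ℕ → Submodule Λ Λ := fun k => T (k + m) ⊓ ⨅ i, (T (k + m)).comap (a i)
  have v1 : Fl P V := ⟨fun k => (hT.1 _).inf (Def.iInf fun i => (hT.1 _).comapD (h.dm i)),
    fun k l hkl => inf_le_inf (hT.2 (by omega))
      (iInf_mono fun i => Submodule.comap_mono (hT.2 (by omega)))⟩
  have v2 : Cof V T := ⟨fun j => ⟨j, inf_le_left.trans (hT.2 (by omega))⟩,
    fun k => (Big.self T _).inf hT.2 (Big.iInf hT.2 fun i => h.cont i _)⟩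
  choose q hq using fun k => hr Λ (V k) (v1.1 k)
  have hf : (1 : ℚ) ≤ f := by exact_mod_cast h.pos
  have hf0 : (0 : ℚ) < f := one_pos.trans_le hf
  have q0 : ∀ k, 0 < q k := fun k => by
    have := rho_pos (v2.symm.ne_bot h.simple.1 k)
    rw [hq] at this
    exact_mod_cast this
  have q1 : ∀ k, q k ≤ 1 := fun k => by
    have := rho_le_one (V k)
    rw [hq] at this
    exact_mod_cast this
  have q2 : Antitone q := fun k l hkl => by
    have := rho_mono (v1.2 hkl)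
    rw [hq, hq] at this
    exact_mod_cast this
  have q3 : ∀ k, q k / f ≤ q k := fun k => div_le_self (q0 k).le hf
  let V' : ℕ → Submodule Λ Λ := fun k => range (s (q k / f))
  have w1 : Fl P V' := ⟨fun k => (DM.of_mem (hsP ⟨_, rfl⟩)).range,
    fun k l hkl => hs.range_mono (div_le_div_of_nonneg_right (q2 hkl) hf0.le)⟩
  have w2 : Cof V' (Zf s) := by
    refine ⟨fun n => ?_, fun k => ?_⟩
    · obtain ⟨k, hk⟩ := v2.symm.null h0 (1 / (n + 1)) (by positivity)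
      refine ⟨k, hs.range_mono ((q3 k).trans ?_)⟩
      rw [hq] at hk
      refine (Rat.cast_le (K := ℝ)).1 ?_
      push_cast
      exact hk.le
    · obtain ⟨n, hn⟩ := exists_nat_one_div_lt (div_pos (q0 k) hf0)
      exact ⟨n, hs.range_mono hn.le⟩
  refine ⟨tex V, tex V', v1.tex, w1.tex, (cof_tex V).trans v2, (cof_tex V').trans w2, rfl, rfl,
    fun k i => ?_, fun k => ?_⟩
  · rintro _ ⟨ξ, ⟨h1, h2⟩, rfl⟩
    have h3 := (Submodule.mem_iInf _).1 h2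
    refine ⟨h3 i, (Submodule.mem_iInf _).2 fun l => ?_⟩
    have h4 : a l (a i ξ) - (∑ j, c (l, i) j • a j) ξ = 0 :=
      hm (l, i) (hT.2 (Nat.le_add_left m k) h1)
    rw [Submodule.mem_comap, sub_eq_zero.1 h4, LinearMap.sum_apply]
    exact Submodule.sum_mem _ fun j _ => F_smul_mem _ (h3 j)
  · change rho (V k) = f * rho (range (s (q k / f)))
    rw [hs.rk _ (div_pos (q0 k) hf0).le ((q3 k).trans (q1 k)), hq]
    exact_mod_cast (mul_div_cancel₀ (q k) hf0.ne').symm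

theorem Data_pos (p : ℕ → Prop) (c : ℕ → ℝ) (h : ∀ i, p i → 0 < c i) (k : ℕ) :
    ∃ δ > 0, ∀ i < k, p i → δ ≤ c i := by
  induction k with
  | zero => exact ⟨1, one_pos, fun i hi => absurd hi (Nat.not_lt_zero i)⟩
  | succ k ih =>
    obtain ⟨δ, h1, h2⟩ := ih
    by_cases hk : p k
    · refine ⟨min δ (c k), lt_min h1 (h k hk), fun i hi hp => ?_⟩
      rcases Nat.lt_succ_iff_lt_or_eq.1 hi with hi | rfl
      exacts [(min_le_left _ _).trans (h2 i hi hp), min_le_right _ _]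
    · refine ⟨δ, h1, fun i hi hp => ?_⟩
      rcases Nat.lt_succ_iff_lt_or_eq.1 hi with hi | rfl
      exacts [h2 i hi hp, absurd hp hk]

theorem exists_sp_num (hc : P.Countable) (hP : Reg P) (hT : Fl P T) (h0 : Null T)
    (hne : ∀ n, T n ≠ ⊥) : ∃ U g e, SpNum P U g e ∧ Cof U T ∧ KK P U g := by
  have h1 : ∀ k n : ℕ, ∃ g : ℚ, 0 < g ∧ g ≤ rho (T n) ∧ ∀ i < k, Def P (enum P i) ∧
      ¬ Big T (enum P i) → k * g ≤ cork (T n) (enum P i) := by
    intro k n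
    obtain ⟨δ, d1, d2⟩ := Data_pos (fun i => Def P (enum P i) ∧ ¬ Big T (enum P i))
      (fun i => cork (T n) (enum P i))
      (fun i hi => cork_pos (hT.1 n).fg hi.1.fg fun e => hi.2 ⟨n, e⟩) k
    obtain ⟨g, g1, g2⟩ := exists_rat_btwn (lt_min (rho_pos (hne n))
      (show 0 < δ / (k + 1) by positivity))
    refine ⟨g, by exact_mod_cast g1, (g2.trans_le (min_le_left _ _)).le,
      fun i hi hp => le_trans ?_ (d2 i hi hp)⟩
    have g3 := (lt_div_iff₀ (by positivity)).1 (g2.trans_le (min_le_right _ _))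
    nlinarith
  choose G g1 g2 g3 using h1
  have h2 : ∀ k n : ℕ, ∃ n' > n, (k + 6) * rho (T n') ≤ G k n := by
    intro k n
    have g4 : (0 : ℝ) < G k n := by exact_mod_cast g1 k n
    obtain ⟨N, hN⟩ := h0.ev hT.2 (show (0 : ℝ) < G k n / (k + 6) by positivity)
    refine ⟨max N (n + 1), lt_max_of_lt_right (Nat.lt_succ_self n), ?_⟩
    rw [mul_comm]
    exact ((lt_div_iff₀ (by positivity)).1 (hN _ (le_max_left _ _))).le
  choose X x1 x2 using h2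
  obtain ⟨n₀, h3⟩ := h0 (1 / 2) (by norm_num)
  let n : ℕ → ℕ := fun k => Nat.rec n₀ X k
  have h4 : StrictMono n := strictMono_nat_of_lt_succ fun k => x1 k (n k)
  have h5 : Cof (fun k => T (n k)) T := ⟨fun m => ⟨m, hT.2 (h4.le_apply)⟩, fun m => Big.self T _⟩
  choose e he using fun k => hP Λ (T (n k)) (hT.1 _)
  refine ⟨fun k => T (n k), fun k => G k (n k), e, ⟨⟨fun k => hT.1 _, hT.2.comp_monotone
    h4.monotone⟩, fun k => hne _, he, ?_, fun k => g1 _ _, fun k => g2 _ _,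
    fun k => x2 k (n k)⟩, h5, fun H hH hB C => ?_⟩
  · change 2 * rho (T n₀) ≤ 1
    linarith
  · obtain ⟨i, rfl⟩ := enum_spec hc hH
    refine ⟨max (i + 1) ⌈C⌉₊, fun j hj => le_trans ?_
      (g3 j (n j) i (le_of_max_le_left hj) ⟨hH, fun k => hB (h5.big.2 k)⟩)⟩
    exact mul_le_mul_of_nonneg_right (Nat.ceil_le.1 (le_of_max_le_right hj))
      (by exact_mod_cast (g1 j (n j)).le)

end Pool.Agent.Work.MP_c4093f_al.Z
end

-- merged part: Pool.Agent.Work.MP_c4093f_al.Z.Sp2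
section
/-!
Splitting steps: the basic inequality.  Notation as in `Sp1`; `G k, P₂ k, P₃ k` are the three
generic ranges of ranks `g k, g k / 4, g k / 4`.

Plan.  Let `Γ₁ = Γ ⊓ comap fst Y ⊓ box (pw (V (N + 1))) (pw (V' (N + 1)))` and `W` tight for it.
By `hloc`, `rho (H ⊓ Y) ≤ rho (Γ₁ ⊓ gx)`.  By `XW_inf_pw` replace `W` by `W'`, which is `⊥` up to
level `N`: `rho (H ⊓ Y) ≤ rho (Γ ⊓ comap fst Y ⊓ box (XW V W') (XW V' W')) - rho (XW V' W')`.
If all `W' n = ⊥`, the right side is `rho (D ⊓ Y)` by `fib`, and `eq_of_le_of_rho_le` gives the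
first case.  Else let `j + 1` be the first level with `X = W' (j + 1) ≠ ⊥`.  `XW_le_first`,
`sup_ten`, `map_dg_ten`: `XW V W' ≤ ten (G j) X ⊔ pw (U (j + 1))` and
`XW V' W' ≤ (ten (P₂ j) X ⊔ (ten (P₃ j) X).map (dg c)) ⊔ (pw (U (j + 1)) ⊔ (pw (U (j + 1))).map
(dg c))`; remove the small parts with `rho_inf_comap_sup` (cost `3 * card σ * u (j + 1)`).  Lift to
`Γ₂ = comap (sp4 c) (Γ ⊓ comap fst Y)` on `M × (σ → Λ) × (σ → Λ) × (σ → Λ)`, definable over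
`spB P y j`, and apply `gs1` three times: for `y (3 j + 3)`, `y (3 j + 2)`, `y (3 j + 1)`.  Finally
project by `snd`; the kernel part has rank `rho (D ⊓ Y)`.  Also
`rho (XW V' W') ≥ finrank X * g j / 2` (`ten_le_XW`, `rho_ten`, `sp_rho`).
-/

namespace Pool.Agent.Work.MP_c4093f_al.Z

open LinearMap

variable {Λ : Type} [Ring Λ] [Algebra F Λ] [Dim Λ] {s : ℚ → E Λ} {P : Set (E Λ)} {y e : ℕ → E Λ}
  {U : ℕ → Submodule Λ Λ} {g : ℕ → ℚ} {x : E Λ} {M σ : Type} [AddCommGroup M] [Module Λ M]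

omit [Algebra F Λ] [Dim Λ] in
/-- `(ξ, η, q, q') ↦ (ξ, η, q + c q')` -/
def sp4 (M σ : Type) [AddCommGroup M] [Module Λ M] (c : E Λ) :
    M × (σ → Λ) × (σ → Λ) × (σ → Λ) →ₗ[Λ] M × (σ → Λ) × (σ → Λ) :=
  LinearMap.id.prodMap (LinearMap.id.prodMap (LinearMap.id.coprod (dg σ c)))

omit [Algebra F Λ] [Dim Λ] in
/-- the triples `(η, q, q')` with `(ξ, η, q + c q') ∈ Γ` for some `ξ ∈ Y` -/
def spG (c : E Λ) (Γ : Submodule Λ (M × (σ → Λ) × (σ → Λ))) (Y : Submodule Λ M) :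
    Submodule Λ ((σ → Λ) × (σ → Λ) × (σ → Λ)) :=
  ((Γ ⊓ Y.comap (fst Λ M _)).comap (sp4 M σ c)).map (snd Λ M _)

omit [Algebra F Λ] [Dim Λ] in
/-- the part of `Γ` with the last three coordinates in `A, B, C` -/
def Sp2T (Γ : Submodule Λ (M × (σ → Λ) × (σ → Λ) × (σ → Λ))) (A B C : Submodule Λ (σ → Λ)) :
    Submodule Λ (M × (σ → Λ) × (σ → Λ) × (σ → Λ)) := Γ ⊓ (A.prod (B.prod C)).comap (snd Λ M _)

omit [Algebra F Λ] [Dim Λ] in
theorem Sp2_mem {Γ : Submodule Λ (M × (σ → Λ) × (σ → Λ) × (σ → Λ))} {A B C : Submodule Λ (σ → Λ)}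
    {γ : M × (σ → Λ) × (σ → Λ) × (σ → Λ)} :
    γ ∈ Sp2T Γ A B C ↔ γ ∈ Γ ∧ γ.2.1 ∈ A ∧ γ.2.2.1 ∈ B ∧ γ.2.2.2 ∈ C := Iff.rfl

variable [Fr Λ M] [Fintype σ]

omit [Dim Λ] in
theorem Sp2_def {Γ : Submodule Λ (M × (σ → Λ) × (σ → Λ) × (σ → Λ))} {A B C : Submodule Λ (σ → Λ)}
    (h : Def P Γ) (hA : Def P A) (hB : Def P B) (hC : Def P C) : Def P (Sp2T Γ A B C) :=
  h.inf ((hA.prod (hB.prod hC)).comap _ RatM.snd)

omit [Algebra F Λ] in
theorem Sp2_box (Γ : Submodule Λ (M × (σ → Λ) × (σ → Λ))) (A A' B B' : Submodule Λ (σ → Λ)) :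
    rho (Γ ⊓ box M (A ⊔ A') (B ⊔ B')) ≤ rho (Γ ⊓ box M A B) + rho A' + rho B' := by
  have e : ∀ A B : Submodule Λ (σ → Λ), Γ ⊓ box M A B =
      Γ ⊓ A.comap (fst Λ _ _ ∘ₗ snd Λ M _) ⊓ B.comap (snd Λ _ _ ∘ₗ snd Λ M _) := fun A B => by
    ext γ
    simp only [Submodule.mem_inf, mem_box, and_assoc]
    rfl
  have h1 := rho_inf_comap_sup (snd Λ _ _ ∘ₗ snd Λ M _)
    (Γ ⊓ (A ⊔ A').comap (fst Λ _ _ ∘ₗ snd Λ M _)) B B'
  have h2 := rho_inf_comap_sup (fst Λ _ _ ∘ₗ snd Λ M _) (Γ ⊓ B.comap (snd Λ _ _ ∘ₗ snd Λ M _)) A A'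
  rw [inf_right_comm] at h2
  rw [e, e, inf_right_comm Γ (A.comap _)]
  linarith

omit [Dim Λ] [Fr Λ M] [Fintype σ] in
theorem Sp2_first {V : ℕ → Submodule Λ Λ} {W : ℕ → Submodule F (σ → F)} (hV : Antitone V) {j : ℕ}
    (h : ∀ n < j, W n = ⊥) {A B : Submodule Λ Λ} (h1 : V j ≤ A ⊔ B) (h2 : V (j + 1) ≤ B) :
    XW V W ≤ ten A (W j) ⊔ pw σ B :=
  (XW_le_first hV h).trans (sup_le ((ten_mono h1 le_rfl).trans
    (sup_ten.le.trans (sup_le_sup_left ten_le_pw _))) ((pw_mono h2).trans le_sup_right))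

/-- the three generic maps of level `j` -/
theorem Sp2_gen (h : SpSet s P y U g e x) {j : ℕ}
    {Γ : Submodule Λ (M × (σ → Λ) × (σ → Λ) × (σ → Λ))} (hΓ : Def (spB P y j) Γ)
    (X : Submodule F (σ → F)) : ∃ X₁ ≤ X, ∃ X₂ ≤ X, ∃ X₃ ≤ X,
      rho (Sp2T Γ (ten (range (e j * y (3 * j + 3) * s (g j))) X)
        (ten (range (e j * y (3 * j + 2) * s (g j / 4))) X)
        (ten (range (e j * y (3 * j + 1) * s (g j / 4))) X)) +
      Module.finrank F X₁ * (rho (U j) - g j) + Module.finrank F X₂ * (rho (U j) - g j / 4) +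
      Module.finrank F X₃ * (rho (U j) - g j / 4) ≤
        rho (Sp2T Γ (ten (U j) X₁) (ten (U j) X₂) (ten (U j) X₃)) := by
  have g0 := h.num.pos j
  have g1 : g j ≤ 1 := by exact_mod_cast (h.num.le j).trans (rho_le_one _)
  have r1 := h.chain.rk (g j) g0.le g1
  have r2 : rho (range (s (g j / 4))) = g j / 4 := by
    rw [h.chain.rk (g j / 4) (by linarith) (by linarith)]
    push_cast
    rfl
  have de : ∀ n, DM (P ∪ y '' Set.Iio n) (e j) := fun n =>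
    (h.num.proj j).1.mono Set.subset_union_left
  have ds : ∀ n q, DM (P ∪ y '' Set.Iio n) (s q) := fun n q => .of_mem (.inl (h.base ⟨q, rfl⟩))
  have dU : ∀ n (X : Submodule F (σ → F)), Def (P ∪ y '' Set.Iio n) (ten (U j) X) := fun n X =>
    ((h.num.fl.1 j).mono Set.subset_union_left).ten X
  have dG : ∀ n m q, m < n → Def (P ∪ y '' Set.Iio n) (ten (range (e j * y m * s q)) X) :=
    fun n m q hm => (((de n).mul (.of_mem (.inr ⟨m, hm, rfl⟩))).mul (ds n q)).range.ten X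
  have dΓ : ∀ n, 3 * j + 1 ≤ n → Def (P ∪ y '' Set.Iio n) Γ := fun n hn =>
    hΓ.mono (Set.union_subset_union_right _ (Set.image_mono (Set.Iio_subset_Iio hn)))
  have e1 : ∀ A B C, Sp2T Γ ⊤ B C ⊓ Submodule.comap (fst Λ _ _ ∘ₗ snd Λ M _) A = Sp2T Γ A B C :=
    fun A B C => Submodule.ext fun γ =>
      ⟨fun k => ⟨k.1.1, k.2, k.1.2.2⟩, fun k => ⟨⟨k.1, trivial, k.2.2⟩, k.2.1⟩⟩
  have e2 : ∀ A B C, Sp2T Γ A ⊤ C ⊓ Submodule.comap (fst Λ _ _ ∘ₗ snd Λ _ _ ∘ₗ snd Λ M _) B =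
      Sp2T Γ A B C := fun A B C => Submodule.ext fun γ =>
    ⟨fun k => ⟨k.1.1, k.1.2.1, k.2, k.1.2.2.2⟩, fun k => ⟨⟨k.1, k.2.1, trivial, k.2.2.2⟩, k.2.2.1⟩⟩
  have e3 : ∀ A B C, Sp2T Γ A B ⊤ ⊓ Submodule.comap (snd Λ _ _ ∘ₗ snd Λ _ _ ∘ₗ snd Λ M _) C =
      Sp2T Γ A B C := fun A B C => Submodule.ext fun γ =>
    ⟨fun k => ⟨k.1.1, k.1.2.1, k.1.2.2.1, k.2⟩, fun k => ⟨⟨k.1, k.2.1, k.2.2.1, trivial⟩, k.2.2.2⟩⟩
  obtain ⟨X₁, l1, k1⟩ := gs1 (h.free (3 * j + 3)) (de _) (h.num.proj j).2 (ds _ (g j))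
    (Sp2_def (dΓ _ (by omega)) (.top _) (dG _ (3 * j + 2) (g j / 4) (by omega))
      (dG _ (3 * j + 1) (g j / 4) (by omega))) (DM.fst.comp DM.snd) X
  obtain ⟨X₂, l2, k2⟩ := gs1 (h.free (3 * j + 2)) (de _) (h.num.proj j).2 (ds _ (g j / 4))
    (Sp2_def (dΓ _ (by omega)) (dU _ X₁) (.top _) (dG _ (3 * j + 1) (g j / 4) (by omega)))
    (DM.fst.comp (DM.snd.comp DM.snd)) X
  obtain ⟨X₃, l3, k3⟩ := gs1 (h.free (3 * j + 1)) (de _) (h.num.proj j).2 (ds _ (g j / 4))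
    (Sp2_def (dΓ _ le_rfl) (dU _ X₁) (dU _ X₂) (.top _)) (DM.snd.comp (DM.snd.comp DM.snd)) X
  rw [e1, e1, r1] at k1
  rw [e2, e2, r2] at k2
  rw [e3, e3, r2] at k3
  exact ⟨X₁, l1, X₂, l2, X₃, l3, by linarith⟩

theorem sp_star (h : SpSet s P y U g e x) {H D Y : Submodule Λ M}
    {Γ : Submodule Λ (M × (σ → Λ) × (σ → Λ))} {N : ℕ} (hΓ : Def (spB P y N) Γ)
    (hY : Def (spB P y N) Y) (hle : D ≤ H)
    (fib : ∀ ξ, (ξ, (0 : σ → Λ), (0 : σ → Λ)) ∈ Γ ↔ ξ ∈ D)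
    (hloc : ∀ ξ ∈ H ⊓ Y, ∃ η ∈ pw σ (spV s U g e y (N + 1)), (ξ, η, dg σ x η) ∈ Γ) :
    H ⊓ Y ≤ D ∨ ∃ j ≥ N, ∃ X X₁ X₂ X₃ : Submodule F (σ → F), X ≠ ⊥ ∧ X₁ ≤ X ∧ X₂ ≤ X ∧ X₃ ≤ X ∧
      (rho (H ⊓ Y) - rho (D ⊓ Y)) +
        cork ((ten (U j) X₁).prod ((ten (U j) X₂).prod (ten (U j) X₃))) (spG (y 0) Γ Y) ≤
      Module.finrank F X₁ * g j + (Module.finrank F X₂ + Module.finrank F X₃) * (g j / 4) -
        Module.finrank F X * (g j / 2) + 3 * Fintype.card σ * rho (U (j + 1)) := by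
  classical
  have tri := h.gen.tri
  have d0 : Def (spB P y N) (Γ ⊓ Y.comap (fst Λ M _)) := hΓ.inf (hY.comap _ RatM.fst)
  obtain ⟨W, hW, t1⟩ := h.gen.tight M σ _ ((d0.mono (spB_subset P y N)).inf
    (Def.box (h.gen.dV (N + 1)).pw (h.gen.dV' (N + 1)).pw))
  have t2 : rho (H ⊓ Y) ≤ rho (Γ ⊓ Y.comap (fst Λ M _) ⊓ box M (pw σ (spV s U g e y (N + 1)))
      (pw σ (spV' s U g e y (N + 1))) ⊓ gx M σ x) := rho_le_of_onto (fst Λ M _) fun ξ hξ => by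
    obtain ⟨η, h1, h2⟩ := hloc ξ hξ
    exact ⟨(ξ, η, dg σ x η), ⟨⟨⟨h2, hξ.2⟩, mem_box.2 ⟨h1, mem_pw.2 fun t =>
      tri.maps _ ⟨_, mem_pw.1 h1 t, rfl⟩⟩⟩, mem_gx.2 rfl⟩, rfl⟩
  have e1 := XW_inf_pw tri.anti tri.null hW (N + 1)
  have e2 := XW_inf_pw tri.anti' tri.null' hW (N + 1)
  obtain ⟨W', hW'⟩ : ∃ W' : ℕ → Submodule F (σ → F), W' = fun n => if n < N + 1 then ⊥ else W n :=
    ⟨_, rfl⟩
  rw [← hW'] at e1 e2
  have t3 : rho (H ⊓ Y) + rho (XW (spV' s U g e y) W') ≤ rho (Γ ⊓ Y.comap (fst Λ M _) ⊓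
      box M (XW (spV s U g e y) W') (XW (spV' s U g e y) W')) := by
    have k1 : rho (XW (spV' s U g e y) W') ≤ rho (XW (spV' s U g e y) W) :=
      rho_mono (e2.ge.trans inf_le_left)
    refine ((add_le_add_right k1 _).trans (le_sub_iff_add_le.1 (t2.trans t1))).trans
      (rho_mono fun γ hγ => ⟨hγ.1.1, ?_⟩)
    rw [← e1, ← e2]
    exact mem_box.2 ⟨⟨(mem_box.1 hγ.2).1, (mem_box.1 hγ.1.2).1⟩, (mem_box.1 hγ.2).2,
      (mem_box.1 hγ.1.2).2⟩
  by_cases hb : ∃ n, W' n ≠ ⊥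
  swap
  · have hb' : ∀ n, W' n = ⊥ := fun n => not_not.1 (not_exists.1 hb n)
    rw [XW_of_bot hb', XW_of_bot hb', rho_bot, add_zero] at t3
    have dD : Def (spB P y N) D := by
      rw [show D = Γ.comap (inl Λ M _) from Submodule.ext fun ξ => (fib ξ).symm]
      exact hΓ.comap _ RatM.inl
    refine Or.inl ((eq_of_le_of_rho_le (dD.inf hY).fg (inf_le_inf_right _ hle) (t3.trans
      (rho_le_of_inj (fst Λ M _) ?_ ?_))).ge.trans inf_le_left)
    · rintro ⟨ξ, η, η'⟩ hγ (rfl : ξ = 0)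
      obtain ⟨rfl : η = 0, rfl : η' = 0⟩ := mem_box.1 hγ.2
      rfl
    · rintro ⟨ξ, η, η'⟩ hγ
      obtain ⟨rfl : η = 0, rfl : η' = 0⟩ := mem_box.1 hγ.2
      exact ⟨(fib ξ).1 hγ.1.1, hγ.1.2⟩
  obtain ⟨j, hj, j1, j2⟩ : ∃ j ≥ N, W' (j + 1) ≠ ⊥ ∧ ∀ n < j + 1, W' n = ⊥ := by
    have k1 := Nat.find_spec hb
    have k2 : ¬ Nat.find hb < N + 1 := fun k => k1 ((congrFun hW' _).trans (if_pos k))
    refine ⟨Nat.find hb - 1, by omega, ?_⟩
    rw [show Nat.find hb - 1 + 1 = Nat.find hb by omega]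
    exact ⟨k1, fun n hn => not_not.1 (Nat.find_min hb hn)⟩
  have d2 : Def (spB P y j) ((Γ ⊓ Y.comap (fst Λ M _)).comap (sp4 M σ (y 0))) :=
    (d0.mono (spB_mono P y hj)).comapD (DM.id.prodMap (DM.id.prodMap (DM.id.coprod
      (DM.of_mem (.inr ⟨0, Nat.succ_pos _, rfl⟩)).dg)))
  obtain ⟨X₁, l1, X₂, l2, X₃, l3, t4⟩ := Sp2_gen h d2 (W' (j + 1))
  refine Or.inr ⟨j, hj, _, X₁, X₂, X₃, j1, l1, l2, l3, ?_⟩
  have a1 := Sp2_first tri.anti j2 (A := range (e j * y (3 * j + 3) * s (g j))) (B := U (j + 1))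
    le_rfl (h.num.le_spV s y (j + 1)).2
  have le : ∀ m q, range (e (j + 1) * y m * s q) ⊔ U (j + 1 + 1) ≤ U (j + 1) := fun m q =>
    sup_le (by rintro _ ⟨ζ, rfl⟩; exact (h.num.proj _).2.map_mem _) (h.num.fl.2 (Nat.le_succ _))
  have a2 := Sp2_first tri.anti' j2 (A := range (e j * y (3 * j + 2) * s (g j / 4)) ⊔
    (range (e j * y (3 * j + 1) * s (g j / 4))).map (y 0)) (B := U (j + 1) ⊔ (U (j + 1)).map (y 0))
    (by rw [sup_sup_sup_comm, ← Submodule.map_sup]; exact le_rfl)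
    (sup_le_sup (le _ _) (Submodule.map_mono (le _ _)))
  rw [sup_ten, ← map_dg_ten] at a2
  have t5 := t3.trans ((rho_mono (inf_le_inf_left _ (box_mono a1 a2))).trans (Sp2_box _ _ _ _ _))
  have t6 := rho_le_of_onto (sp4 M σ (y 0)) (A := Sp2T ((Γ ⊓ Y.comap (fst Λ M _)).comap
    (sp4 M σ (y 0))) (ten (range (e j * y (3 * j + 3) * s (g j))) (W' (j + 1)))
      (ten (range (e j * y (3 * j + 2) * s (g j / 4))) (W' (j + 1)))
      (ten (range (e j * y (3 * j + 1) * s (g j / 4))) (W' (j + 1))))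
    (B := Γ ⊓ Y.comap (fst Λ M _) ⊓ box M
      (ten (range (e j * y (3 * j + 3) * s (g j))) (W' (j + 1)))
      (ten (range (e j * y (3 * j + 2) * s (g j / 4))) (W' (j + 1)) ⊔
        (ten (range (e j * y (3 * j + 1) * s (g j / 4))) (W' (j + 1))).map (dg σ (y 0)))) (by
      rintro ⟨ξ, η, η'⟩ ⟨k1, k2⟩
      obtain ⟨k3, k4⟩ := mem_box.1 k2
      obtain ⟨q, hq, _, ⟨q', hq', rfl⟩, rfl : q + _ = η'⟩ := Submodule.mem_sup.1 k4
      exact ⟨(ξ, η, q, q'), Sp2_mem.2 ⟨k1, k3, hq, hq'⟩, rfl⟩)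
  have t7 := rho_inf_comap (snd Λ M _) ((Γ ⊓ Y.comap (fst Λ M _)).comap (sp4 M σ (y 0)))
    ((ten (U j) X₁).prod ((ten (U j) X₂).prod (ten (U j) X₃)))
  have t8 : rho ((Γ ⊓ Y.comap (fst Λ M _)).comap (sp4 M σ (y 0)) ⊓ ker (snd Λ M _)) ≤
      rho (D ⊓ Y) := by
    refine rho_le_of_inj (fst Λ M _) ?_ ?_
    · rintro ⟨ξ, η⟩ ⟨-, rfl : η = 0⟩ (rfl : ξ = 0)
      rfl
    · rintro ⟨ξ, η⟩ ⟨⟨k1, k2⟩, rfl : η = 0⟩
      exact ⟨(fib ξ).1 (by simpa [sp4] using k1), k2⟩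
  have t9 := rho_mono (ten_le_XW (V := spV' s U g e y) (W := W') (j + 1))
  have t10 := mul_le_mul_of_nonneg_left (sp_rho h j).2.1
    (Nat.cast_nonneg (Module.finrank F (W' (j + 1))))
  have t11 := mul_le_mul_of_nonneg_left ((rho_sup_le (U (j + 1)) ((U (j + 1)).map (y 0))).trans
    (add_le_add_right (rho_map_le _ _) _)) (Nat.cast_nonneg (Fintype.card σ))
  rw [rho_ten] at t9
  rw [rho_pw, rho_pw] at t5
  rw [cork, inf_comm _ (spG _ _ _), rho_prod, rho_prod, rho_ten, rho_ten, rho_ten, spG]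
  rw [Sp2T.eq_1 _ (ten (U j) X₁)] at t4
  linarith

end Pool.Agent.Work.MP_c4093f_al.Z
end

-- merged part: Pool.Agent.Work.MP_c4093f_al.Z.Sp3
section
/-!
Splitting steps: the local alternative.

Plan.  For `w : (σ → F) × (σ → F) × (σ → F)` let `t w ζ = (tv w.1 ζ, tv w.2.1 ζ, tv w.2.2 ζ)`, and
call `w` good if `comap (t w) (spG c Γ ⊤)` is big.  For good `w`, `Reg.sec` (or `Reg.lift`) gives
a definable `h w` of type `w`, on `U (j w)`.  Let `𝒞` be the set of the `h w`, `w` good, with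
`comap (h w) D` not big, and `C = 2 * card σ`.  Given `k, N` choose `N'` above `k`, `N`, a level
over which `Γ` is definable (`Def.spB`), all `j w`, the bounds of `KK` with the constant `C + 1`
for the `w` that are not good, and with `12 * card σ < N' + 6`; take `δ` from `loc (N' + 1)` and
apply `sp_star`.  Its right side is at most `C * g j` (field `next`), and both terms on the left
are nonnegative.  For `w` in `X₁ × X₂ × X₃`, `cork (U j) (comap (t w) (spG c Γ Y))` is at most the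
`cork` term (`cork_comap_le` or `cork_mono_left`), so `w` is good, and
`U j ⊓ comap (t w) (spG c Γ Y) ≤ comap (h w) (Y ⊔ D)` by `fib`.  It remains to find `w` with
`h w ∈ 𝒞`.  If `X₁ ≠ ⊥` take `(w₁, 0, 0)` and the first half of `Str2`.  If `X₁ = ⊥` the right
side is negative unless `X₂ = X₃ = X`; then one of `(0, w₁, 0)`, `(0, 0, w₁)` works by the second
half of `Str2`.
-/

namespace Pool.Agent.Work.MP_c4093f_al.Z

open LinearMap

variable {Λ : Type} [Ring Λ] [Algebra F Λ] [Dim Λ] {s : ℚ → E Λ} {P : Set (E Λ)} {y e : ℕ → E Λ}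
  {U : ℕ → Submodule Λ Λ} {g : ℕ → ℚ} {x : E Λ} {M σ : Type} [AddCommGroup M] [Module Λ M]
  [Fr Λ M] [Fintype σ]

omit [Dim Λ] in
/-- `ζ ↦ (ζ ⊗ w₁, ζ ⊗ w₂, ζ ⊗ w₃)` -/
def Sp3t (Λ : Type) [Ring Λ] [Algebra F Λ] {σ : Type} (w : (σ → F) × (σ → F) × (σ → F)) :
    Λ →ₗ[Λ] (σ → Λ) × (σ → Λ) × (σ → Λ) := (tv Λ w.1).prod ((tv Λ w.2.1).prod (tv Λ w.2.2))

omit [Dim Λ] [Fr Λ M] [Fintype σ] in
theorem Sp3_mem {c : E Λ} {Γ : Submodule Λ (M × (σ → Λ) × (σ → Λ))} {Y : Submodule Λ M}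
    {w : (σ → F) × (σ → F) × (σ → F)} {ζ : Λ} : ζ ∈ (spG c Γ Y).comap (Sp3t Λ w) ↔
      ∃ ξ ∈ Y, (ξ, tv Λ w.1 ζ, tv Λ w.2.1 ζ + tv Λ w.2.2 (c ζ)) ∈ Γ := by
  rw [← dg_tv]
  constructor
  · rintro ⟨⟨ξ, γ⟩, ⟨h1, h2⟩, h3⟩
    obtain rfl : γ = Sp3t Λ w ζ := h3
    exact ⟨ξ, h2, h1⟩
  · rintro ⟨ξ, h1, h2⟩
    exact ⟨(ξ, Sp3t Λ w ζ), ⟨h2, h1⟩, rfl⟩

omit [Dim Λ] in
theorem Sp3_def {c : E Λ} {Γ : Submodule Λ (M × (σ → Λ) × (σ → Λ))} (hc : DM P c)
    (hΓ : Def P Γ) (w : (σ → F) × (σ → F) × (σ → F)) : Def P ((spG c Γ ⊤).comap (Sp3t Λ w)) :=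
  Def.comapD ((DM.tv _).prod ((DM.tv _).prod (DM.tv _))) (Def.map _ RatM.snd
    (Def.comapD (DM.id.prodMap (DM.id.prodMap (DM.id.coprod hc.dg)))
      (hΓ.inf (Def.comap _ RatM.fst (Def.top _)))))

omit [Dim Λ] in
theorem Sp3_sec {c : E Λ} {Γ : Submodule Λ (M × (σ → Λ) × (σ → Λ))} (hr : Reg P) (hc : DM P c)
    (hΓ : Def P Γ) (w : (σ → F) × (σ → F) × (σ → F)) : ∃ k : Λ →ₗ[Λ] M, DM P k ∧
      ∀ ζ ξ, (ξ, tv Λ w.1 ζ, tv Λ w.2.1 ζ + tv Λ w.2.2 (c ζ)) ∈ Γ →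
        (k ζ, tv Λ w.1 ζ, tv Λ w.2.1 ζ + tv Λ w.2.2 (c ζ)) ∈ Γ :=
  hr.sec (Def.comapD ((DM.snd (M := Λ) (N := M)).prod (((DM.tv w.1).comp DM.fst).prod
    (((DM.tv w.2.1).add ((DM.tv w.2.2).comp hc)).comp DM.fst))) hΓ)

omit [Dim Λ] [Fr Λ M] in
theorem Sp3_find {c : E Λ} {Γ : Submodule Λ (M × (σ → Λ) × (σ → Λ))} (hU : Antitone U)
    (hs : Str2 U c Γ) {X X₁ X₂ X₃ : Submodule F (σ → F)} (hX : X ≠ ⊥) (h2 : X₂ ≤ X) (h3 : X₃ ≤ X)
    (h : X₁ = ⊥ → 2 * Module.finrank F X ≤ Module.finrank F X₂ + Module.finrank F X₃) :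
    ∃ w : (σ → F) × (σ → F) × (σ → F), (w.1 ∈ X₁ ∧ w.2.1 ∈ X₂ ∧ w.2.2 ∈ X₃) ∧
      ∀ j, ¬ ∀ ζ ∈ U j, ((0 : M), tv Λ w.1 ζ, tv Λ w.2.1 ζ + tv Λ w.2.2 (c ζ)) ∈ Γ := by
  by_cases h1 : X₁ = ⊥
  · have k2 := Submodule.finrank_mono h2
    have k3 := Submodule.finrank_mono h3
    have k := h h1
    obtain rfl : X₂ = X := Submodule.eq_of_le_of_finrank_le h2 (by omega)
    obtain rfl : X₃ = X₂ := Submodule.eq_of_le_of_finrank_le h3 (by omega)
    obtain ⟨w, hw, h0⟩ := Submodule.exists_mem_ne_zero_of_ne_bot hX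
    by_contra hn
    push Not at hn
    obtain ⟨i, hi⟩ := hn (0, w, 0) ⟨X₁.zero_mem, hw, X₃.zero_mem⟩
    obtain ⟨j, hj⟩ := hn (0, 0, w) ⟨X₁.zero_mem, X₃.zero_mem, hw⟩
    refine (hs w h0 (max i j)).2 fun ζ hζ => ⟨?_, ?_⟩
    · simpa [tv_zero] using hi ζ (hU (le_max_left i j) hζ)
    · simpa [tv_zero] using hj ζ (hU (le_max_right i j) hζ)
  · obtain ⟨w, hw, h0⟩ := Submodule.exists_mem_ne_zero_of_ne_bot h1
    refine ⟨(w, 0, 0), ⟨hw, X₂.zero_mem, X₃.zero_mem⟩, fun j hj => (hs w h0 j).1 fun ζ hζ => ?_⟩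
    simpa [tv_zero] using hj ζ hζ

theorem Sp3_num {n d d₁ d₂ d₃ j : ℕ} {a b t u : ℝ} (ha : 0 ≤ a) (hb : 0 ≤ b) (ht : 0 < t)
    (hu : 0 ≤ u) (hn : (j + 6) * u ≤ t) (hj : 24 * n ≤ j) (h1 : d₁ ≤ n) (h2 : d₂ ≤ d) (h3 : d₃ ≤ d)
    (h : a + b ≤ d₁ * t + (d₂ + d₃) * (t / 4) - d * (t / 2) + 3 * n * u) :
    a ≤ (n + 1) * t ∧ b ≤ (n + 1) * t ∧ (d₁ = 0 → 2 * d ≤ d₂ + d₃) := by
  have k1 : (24 * n : ℝ) ≤ j := by exact_mod_cast hj
  have k2 : 24 * n * u ≤ t := (mul_le_mul_of_nonneg_right (by linarith) hu).trans hn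
  have k3 : (d₁ : ℝ) * t ≤ n * t := mul_le_mul_of_nonneg_right (by exact_mod_cast h1) ht.le
  have k4 : ((d₂ : ℝ) + d₃) * t ≤ 2 * d * t :=
    mul_le_mul_of_nonneg_right (by exact_mod_cast (by omega : d₂ + d₃ ≤ 2 * d)) ht.le
  refine ⟨by nlinarith, by nlinarith, fun h0 => ?_⟩
  by_contra hc
  have k5 : ((d₂ : ℝ) + d₃ + 1) * t ≤ 2 * d * t :=
    mul_le_mul_of_nonneg_right (by exact_mod_cast (by omega : d₂ + d₃ + 1 ≤ 2 * d)) ht.le
  subst h0
  push_cast at h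
  nlinarith

theorem sp_loc (h : SpSet s P y U g e x) (hK : KK (P ∪ Set.range y) U g) {H D : Submodule Λ M}
    {Γ : Submodule Λ (M × (σ → Λ) × (σ → Λ))}
    (hR : RD (P ∪ Set.range y) x (spV s U g e y) H D Γ) (hs : Str2 U (y 0) Γ) :
    ∃ (𝒞 : Finset (Λ →ₗ[Λ] M)) (C : ℝ), SL P y U g H D 𝒞 C ∧
      ∀ k ∈ 𝒞, ∃ w, Typ U (y 0) Γ k w := by
  classical
  have hc : DM (P ∪ Set.range y) (y 0) := DM.of_mem (Or.inr ⟨0, rfl⟩)
  have hU := h.num.fl.2
  choose k hk hk' using Sp3_sec h.reg hc hR.dΓ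
  let G := fun w => (spG (y 0) Γ ⊤).comap (Sp3t Λ w)
  have hT : ∀ w, Big U (G w) → Typ U (y 0) Γ (k w) w := fun w ⟨j, hj⟩ => ⟨j, fun ζ hζ => by
    obtain ⟨ξ, -, hξ⟩ := Sp3_mem.1 (hj hζ)
    exact hk' w ζ ξ hξ⟩
  let T := Finset.univ.filter fun w => Big U (G w) ∧ ¬ Big U (D.comap (k w))
  have hm : ∀ f ∈ T.image k, ∃ w, (Big U (G w) ∧ ¬ Big U (D.comap (k w))) ∧ k w = f := fun f hf => by
    simpa [T] using hf
  refine ⟨T.image k, Fintype.card σ + 1, ⟨hR.dD, hR.le, fun f hf => ?_, fun f hf => ?_,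
    fun l N => ?_⟩, fun f hf => ?_⟩
  · obtain ⟨w, -, rfl⟩ := hm f hf
    exact hk w
  · obtain ⟨w, hw, rfl⟩ := hm f hf
    exact hw.2
  swap
  · obtain ⟨w, hw, rfl⟩ := hm f hf
    exact ⟨w, hT w hw.1⟩
  have hn : ∀ w, ∃ n, ∀ j ≥ n, ¬ Big U (G w) →
      (Fintype.card σ + 2 : ℝ) * g j ≤ cork (U j) (G w) := fun w => by
    by_cases hw : Big U (G w)
    · exact ⟨0, fun _ _ h' => absurd hw h'⟩
    · exact (hK _ (Sp3_def hc hR.dΓ w) hw _).imp fun _ h' j hj _ => h' j hj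
  choose n hn using hn
  obtain ⟨n₀, hn₀⟩ := Finite.exists_le n
  obtain ⟨m, hΓ⟩ := hR.dΓ.spB
  obtain ⟨δ, hδ, hl⟩ := hR.loc (l + N + m + n₀ + 24 * Fintype.card σ + 1)
  refine ⟨δ, hδ, fun Y hY hY' => ?_⟩
  refine (sp_star h (hΓ.mono (spB_mono P y (by omega))) (hY.mono (spB_mono P y (by omega)))
    hR.le hR.fib (hl Y (hY.mono (spB_subset P y l)) hY')).imp_right ?_
  rintro ⟨j, hj, X, X₁, X₂, X₃, hX, -, h2, h3, h4⟩
  have hg : (0 : ℝ) < g j := by exact_mod_cast h.num.pos j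
  obtain ⟨k1, k2, k3⟩ := Sp3_num (sub_nonneg.2 (rho_mono (inf_le_inf_right Y hR.le)))
    (cork_nonneg _ _) hg (rho_nonneg _) (h.num.next j) (by omega)
    ((Submodule.finrank_le X₁).trans (Module.finrank_fintype_fun_eq_card F).le)
    (Submodule.finrank_mono h2) (Submodule.finrank_mono h3) h4
  obtain ⟨w, hw, hz⟩ := Sp3_find hU hs (X₁ := X₁) hX h2 h3 fun h0 => k3 (by rw [h0, finrank_bot])
  have k4 : cork (U j) ((spG (y 0) Γ Y).comap (Sp3t Λ w)) ≤ (Fintype.card σ + 1) * g j := by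
    refine (cork_comap_le _ _ _ _).trans ((add_le_add_left (cork_of_le fun ζ hζ => ?_).le _).trans
      ((zero_add _).le.trans k2))
    exact ⟨tv_mem_ten hw.1 hζ, tv_mem_ten hw.2.1 hζ, tv_mem_ten hw.2.2 hζ⟩
  have k5 : Big U (G w) := by
    by_contra h0
    have h5 := hn w j (by have := hn₀ w; omega) h0
    have h6 : cork (U j) (G w) ≤ _ := (cork_mono_right _ fun ζ hζ => by
      obtain ⟨ξ, -, hξ⟩ := Sp3_mem.1 hζ
      exact Sp3_mem.2 ⟨ξ, trivial, hξ⟩).trans k4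
    linarith
  refine ⟨j, by omega, k w, Finset.mem_image_of_mem k (Finset.mem_filter.2
    ⟨Finset.mem_univ _, k5, fun h0 => ?_⟩), (cork_mono_right _ fun ζ hζ => ?_).trans k4, k1⟩
  · obtain ⟨i, hi⟩ := hT w k5
    obtain ⟨i', h5, h6⟩ := h0.ge hU i
    refine hz i' fun ζ hζ => ?_
    simpa using Γ.sub_mem (hi ζ (hU h5 hζ)) ((hR.fib _).2 (h6 hζ))
  · obtain ⟨ξ, h5, h6⟩ := Sp3_mem.1 hζ
    have h7 : k w ζ - ξ ∈ D := (hR.fib _).1 (by
      have h8 := Γ.sub_mem (hk' w ζ ξ h6) h6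
      rwa [Prod.mk_sub_mk, sub_self] at h8)
    exact Submodule.mem_sup.2 ⟨ξ, h5, _, h7, add_sub_cancel _ _⟩

end Pool.Agent.Work.MP_c4093f_al.Z
end
end
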