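import Pool.Agent.Work.MP_c4093f_al.Z.UAmb
import Pool.Agent.Work.MP_c4093f_al.Z.KerNF
import Pool.Agent.Work.MP_c4093f_al.Z.Sp3
import Pool.Agent.Work.MP_c4093f_al.Z.FinFam

-- merged part: Pool.Agent.Work.MP_c4093f_al.Z.UFree
section
/-!
The ambient ring with a family of mutually generic elements.

Plan.  Take `d, y` from `fin_fam`, `Λ = UP d`, `s q = rm (sLev q)`, and the family `rm (y j)`.
To check `FreeK`, choose `p l` with `a l = rm` of the corresponding sequence (`1 = s 1`).  Let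
`A i k = ∑ l, c l i k • (sequence of p l)`; then `lev N A = affF …` and the image of `A` acts as
`affM c a`.  Let `B` be the matrix of `v ↦ η' - η y`, and for `W`, with `q` from `exists_quot`, let
`C W` be the scalar matrix of `v ↦ (q η, q η')`; its kernels are `finB` at each level and the
preimage of `box (ten ⊤ W) (ten ⊤ W)` in the limit (`ker_bc`, `bc_apply`).  If no `W` works there
is a gap `ε > 0` (finitely many `W`); for large `N` along the ultrafilter one and the same `W`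
satisfies the inequality of `fin_fam` (`Ultrafilter.eventually_exists_iff`-type lemma for a
finite type), divide by `d N` and pass to the limit with `tendsto_ker2`.
-/

namespace Pool.Agent.Work.MP_c4093f_al.Z

open LinearMap

open Matrix Filter Topology

section
variable {d : ℕ → ℕ} {m κ L : Type} [Fintype m] [Fintype L]

/-- the matrix with coefficients `c` and parameters `a` -/
def UFreeM (c : L → m → κ → F) (a : L → Seq d) : Matrix m κ (Seq d) :=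
  fun i k => ∑ l, c l i k • a l

theorem UFree_lev (c : L → m → κ → F) (a : L → Seq d) (N : ℕ) :
    lev N (UFreeM c a) = affF c fun l => a l N := by
  refine LinearMap.ext fun v => funext fun k => ?_
  simp only [lev, affF, UFreeM, LinearMap.pi_apply, LinearMap.sum_apply, LinearMap.comp_apply,
    LinearMap.proj_apply, vecMulLinear_apply, Finset.sum_apply, Pi.smul_apply,
    LinearMap.smul_apply, Matrix.vecMul_sum, Matrix.vecMul_smul]
  exact Finset.sum_comm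

theorem UFree_rm (a : Seq d) (ζ : UP d) : rm a ζ = ζ * upMk d a := rfl

theorem UFree_map (c : L → m → κ → F) (a : L → Seq d) :
    ((UFreeM c a).map (upMk d)).vecMulLinear = affM c fun l => rm (a l) := by
  refine LinearMap.ext fun v => funext fun k => ?_
  simp only [affM, UFreeM, LinearMap.pi_apply, LinearMap.sum_apply, LinearMap.comp_apply,
    LinearMap.proj_apply, vecMulLinear_apply, LinearMap.smul_apply, vecMul, dotProduct,
    Matrix.map_apply, map_sum, upMk_smul, UFree_rm, Finset.mul_sum, mul_smul_comm]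
  exact Finset.sum_comm

end

section
variable {ι τ : Type} [Fintype ι] [Fintype τ]

/-- the coefficients of `η' - η y` -/
def UFreeB (ι τ : Type) [DecidableEq τ] : Bool → ι ⊕ τ ⊕ τ → τ → F
  | true, Sum.inr (Sum.inr s), t => if s = t then 1 else 0
  | false, Sum.inr (Sum.inl s), t => if s = t then -1 else 0
  | _, _, _ => 0

open Classical in
/-- the coefficients of `(q η, q η')` -/
noncomputable def UFreeC (ι : Type) {κ : Type} (q : (τ → F) →ₗ[F] (κ → F)) :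
    Unit → ι ⊕ τ ⊕ τ → κ ⊕ κ → F
  | _, Sum.inr (Sum.inl s), Sum.inl u => q (Pi.single s 1) u
  | _, Sum.inr (Sum.inr s), Sum.inr u => q (Pi.single s 1) u
  | _, _, _ => 0

theorem UFree_k1 [DecidableEq τ] {d : ℕ} (y : Matrix (Fin d) (Fin d) F) :
    ker (affF (UFreeB ι τ) fun b => cond b 1 y) ≤ finK ι τ y := by
  intro v hv
  refine (Submodule.mem_iInf _).2 fun t => ?_
  have h := congrFun (mem_ker.1 hv) t
  simpa [affF, UFreeB, bl, sub_eq_add_neg, ite_smul, -ZMod.neg_eq_self_mod_two] using h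

theorem UFree_k2 [DecidableEq τ] {Λ : Type} [Ring Λ] [Algebra F Λ] (y : E Λ) :
    (gx (ι → Λ) τ y).comap (spl Λ ι τ) ≤ ker (affM (UFreeB ι τ) fun b => cond b 1 y) := by
  intro v hv
  refine mem_ker.2 (funext fun t => ?_)
  have h : v (Sum.inr (Sum.inr t)) = y (v (Sum.inr (Sum.inl t))) := congrFun (mem_gx.1 hv) t
  simp [affM, UFreeB, ite_smul, h, -ZMod.neg_eq_self_mod_two]

theorem UFree_k3 {d : ℕ} {κ : Type} (q : (τ → F) →ₗ[F] (κ → F)) :
    finB ι d (ker q) ≤ ker (affF (UFreeC ι q) fun _ => (1 : Matrix (Fin d) (Fin d) F)) := by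
  intro v hv
  have h := fun u : κ => (Submodule.mem_iInf _).1 ((Submodule.mem_iInf _).1 hv (proj u ∘ₗ q))
    fun w hw => congrFun (mem_ker.1 hw) u
  refine mem_ker.2 (funext fun u => ?_)
  rcases u with u | u
  · simpa [affF, UFreeC, bl] using (h u).1
  · simpa [affF, UFreeC, bl] using (h u).2

theorem UFree_k4 {Λ : Type} [Ring Λ] [Algebra F Λ] {κ : Type} [Fintype κ]
    (q : (τ → F) →ₗ[F] (κ → F)) :
    ker (affM (UFreeC ι q) fun _ => (1 : E Λ)) ≤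
      (box (ι → Λ) (ten ⊤ (ker q)) (ten ⊤ (ker q))).comap (spl Λ ι τ) := by
  intro v hv
  have h := congrFun (mem_ker.1 hv)
  rw [Submodule.mem_comap, mem_box, ← ker_bc]
  refine ⟨funext fun u => ?_, funext fun u => ?_⟩
  · rw [bc_apply]
    simpa [affM, UFreeC, spl] using h (Sum.inl u)
  · rw [bc_apply]
    simpa [affM, UFreeC, spl] using h (Sum.inr u)

end

theorem exists_amb0 : ∃ (Λ : Type) (_ : Ring Λ) (_ : Algebra F Λ) (_ : Dim Λ) (s : ℚ → E Λ)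
    (y : (ℕ → Bool) → E Λ), Chain s ∧ Complete Λ ∧
      ∀ j, Free (Set.range s ∪ y '' {j}ᶜ) (y j) := by
  obtain ⟨d, y, hd, hy⟩ := fin_fam
  obtain ⟨D, hD⟩ := exists_good hd
  refine ⟨UP d, inferInstance, inferInstance, D, fun q => rm fun N => sLev (d N) q,
    fun j => rm (y j), up_chain hd hD, up_complete hD, fun j => free_of_freeK ?_⟩
  intro i t k n c a ha
  have h1 : ∀ l, ∃ p : ℚ ⊕ (ℕ → Bool), p ≠ Sum.inr j ∧
      rm (fun N => p.elim (sLev (d N)) fun i => y i N) = a l := by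
    intro l
    rcases ha l with (⟨q, h⟩ | ⟨j', h, h'⟩) | h
    · exact ⟨Sum.inl q, Sum.inl_ne_inr, h⟩
    · exact ⟨Sum.inr j', fun e => h (Sum.inr.inj e), h'⟩
    · refine ⟨Sum.inl 1, Sum.inl_ne_inr, ?_⟩
      rw [h, ← rm_one]
      exact congrArg rm (funext fun N => sLev_one _)
  choose p h2 h3 using h1
  obtain rfl := funext h3
  have h4 : ∀ ε : ℝ, 0 < ε → ∃ W : Submodule F (Fin t → F),
      rho (ker (affM c fun l => rm fun N => (p l).elim (sLev (d N)) fun i => y i N) ⊓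
        (gx (Fin i → UP d) (Fin t) (rm (y j))).comap (spl (UP d) _ _)) + Module.finrank F W ≤
      rho (ker (affM c fun l => rm fun N => (p l).elim (sLev (d N)) fun i => y i N) ⊓
        (box (Fin i → UP d) (ten ⊤ W) (ten ⊤ W)).comap (spl (UP d) _ _)) + ε := by
    intro ε hε
    obtain ⟨W, h5⟩ := Ultrafilter.eventually_exists_iff.1
      ((hy i t k n c p j h2 ε hε).filter_mono Nat.hyperfilter_le_atTop)
    obtain ⟨r, q, -, rfl⟩ := exists_quot W
    have t1 := tendsto_ker2 hd hD (UFreeM c fun l N => (p l).elim (sLev (d N)) fun i => y i N)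
      (UFreeM (UFreeB (Fin i) (Fin t)) fun b => cond b 1 (y j))
    have t2 := tendsto_ker2 hd hD (UFreeM c fun l N => (p l).elim (sLev (d N)) fun i => y i N)
      (UFreeM (UFreeC (Fin i) q) fun _ => 1)
    simp only [UFree_map, rm_one] at t1 t2
    have e1 : (fun b => rm (cond b 1 (y j))) = fun b => cond b 1 (rm (y j)) :=
      funext fun b => by cases b; exacts [rfl, rm_one]
    have e2 : ∀ N, (fun b => (cond b 1 (y j) : Seq d) N) = fun b => cond b 1 (y j N) :=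
      fun N => funext fun b => by cases b <;> rfl
    rw [e1] at t1
    have t3 := le_of_tendsto_of_tendsto (t1.add_const (Module.finrank F (ker q) : ℝ))
      (t2.add_const ε) (h5.mono fun N hN => ?_)
    · refine ⟨ker q, ?_⟩
      have m1 := rho_mono (inf_le_inf_left (ker (affM c fun l => rm fun N =>
        (p l).elim (sLev (d N)) fun i => y i N)) (UFree_k2 (ι := Fin i) (τ := Fin t) (rm (y j))))
      have m2 := rho_mono (inf_le_inf_left (ker (affM c fun l => rm fun N =>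
        (p l).elim (sLev (d N)) fun i => y i N)) (UFree_k4 (ι := Fin i) (Λ := UP d) q))
      linarith
    · have hp : (0 : ℝ) < d N := Nat.cast_pos.2 ((Nat.zero_le N).trans_lt (hd N))
      have m1 := (Nat.cast_le (α := ℝ)).2 (Submodule.finrank_mono (inf_le_inf_left
        (ker (affF c fun l => (p l).elim (sLev (d N)) fun i => y i N))
        (UFree_k1 (ι := Fin i) (τ := Fin t) (y j N))))
      have m2 := (Nat.cast_le (α := ℝ)).2 (Submodule.finrank_mono (inf_le_inf_left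
        (ker (affF c fun l => (p l).elim (sLev (d N)) fun i => y i N))
        (UFree_k3 (ι := Fin i) (d := d N) q)))
      beta_reduce
      rw [div_add' _ _ _ hp.ne', div_add' _ _ _ hp.ne', UFree_lev, UFree_lev, UFree_lev, e2]
      refine div_le_div_of_nonneg_right ?_ hp.le
      refine le_trans ?_ (hN.trans (add_le_add m2 le_rfl))
      rw [mul_comm]
      exact add_le_add m1 le_rfl
  obtain ⟨W, h6⟩ := Finite.exists_max fun W : Submodule F (Fin t → F) =>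
    rho (ker (affM c fun l => rm fun N => (p l).elim (sLev (d N)) fun i => y i N) ⊓
      (box (Fin i → UP d) (ten ⊤ W) (ten ⊤ W)).comap (spl (UP d) _ _)) - Module.finrank F W
  refine ⟨W, le_of_forall_pos_le_add fun ε hε => ?_⟩
  obtain ⟨W', h7⟩ := h4 ε hε
  have h8 := h6 W'
  linarith

end Pool.Agent.Work.MP_c4093f_al.Z
end

-- merged part: Pool.Agent.Work.MP_c4093f_al.Z.Final
section
-- merged part: Pool.Agent.Work.MP_c4093f_al.Z.Index
section
/-!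
The index set, and induction along closed sets.

Plan.  `exists_idx`: for instance `I = Lex (ω₁.ToType × X)` with `X = ℕ → Bool` well ordered and a
surjection from `X` onto `(ℕ → I) × (ℕ → ℕ)` (all these types have cardinality continuum); a
sequence in `ω₁.ToType` is strictly bounded.  (Or `I = continuum.ord.ToType` and cofinality.)
`chain_ind`: prove `φ (C ∪ (D ∩ Iic β))` by well founded induction on `β`, through
`C ∪ (D ∩ Iio β)`, where `hlim` applies: a finite subset lies in `C` or in `C ∪ (D ∩ Iic γ)` for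
its largest element `γ` outside `C`.  `exists_closed`: iterate `D ↦ D ∪ ⋃ γ ∈ D, C γ ∪ w D` and
take the union.
-/

namespace Pool.Agent.Work.MP_c4093f_al.Z

open LinearMap

open Cardinal in
theorem exists_idx : ∃ (I : Type) (_ : LinearOrder I) (_ : WellFoundedLT I) (_ : Nonempty I),
    Nonempty (Idx I) ∧ Nonempty (Option I × Fin 3 × ℕ ↪ (ℕ → Bool)) := by
  have hI : #(continuum.{0}.ord.ToType) = continuum := mk_ord_toType _
  have := Cardinal.noMaxOrder aleph0_le_continuum.{0}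
  refine ⟨continuum.{0}.ord.ToType, inferInstance, inferInstance,
    mk_ne_zero_iff.1 (hI.trans_ne continuum_ne_zero), ?_, ?_⟩
  · obtain ⟨g⟩ : Nonempty (continuum.{0}.ord.ToType ≃
        ((ℕ → continuum.{0}.ord.ToType) × (ℕ → ℕ)) × continuum.{0}.ord.ToType) :=
      Cardinal.eq.1 (by simp)
    refine ⟨⟨fun β => (g β).1.1, fun β => (g β).1.2, fun c' n' => ?_⟩⟩
    by_contra h
    choose b hb using fun k => exists_gt (c' k)
    have h1 : #(⋃ k, Set.Iio (b k)) < continuum :=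
      (mk_iUnion_le_sum_mk.trans_lt (sum_lt_prod _ (fun _ => continuum)
        fun k => mk_Iio_toType_ord_lt (b k))).trans_eq (by simp)
    refine h1.not_ge (hI.symm.trans_le (mk_le_of_injective
      (f := fun i => (⟨g.symm ((c', n'), i), ?_⟩ : (⋃ k, Set.Iio (b k) :))) ?_))
    · by_contra h2
      refine h ⟨g.symm ((c', n'), i), by simp, by simp, fun k => ?_⟩
      exact (hb k).trans_le (not_lt.1 fun h3 => h2 (Set.mem_iUnion.2 ⟨k, h3⟩))
    · intro i j hij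
      simpa using hij
  · exact (Cardinal.le_def _ _).1 (by simp [add_one_eq aleph0_le_continuum])

variable {I : Type} [LinearOrder I] (X : Idx I)

theorem Idx.C_lt {β γ : I} (h : γ ∈ X.C β) : γ < β := h.2
theorem Idx.countable_C (β : I) : (X.C β).Countable :=
  (Set.countable_range _).mono Set.inter_subset_left
theorem Idx.closed_empty : X.Closed ∅ := fun _ h => h.elim
theorem Idx.closed_univ : X.Closed Set.univ := fun _ _ => Set.subset_univ _
theorem Idx.closed_Iio (β : I) : X.Closed (Set.Iio β) := fun _ h _ h' => (X.C_lt h').trans h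
theorem Idx.closed_Iic (β : I) : X.Closed (Set.Iic β) := fun _ h _ h' => (X.C_lt h').le.trans h
variable {X} in
theorem Idx.Closed.inter {D D' : Set I} (h : X.Closed D) (h' : X.Closed D') :
    X.Closed (D ∩ D') := fun γ hγ => Set.subset_inter (h γ hγ.1) (h' γ hγ.2)
variable {X} in
theorem Idx.Closed.union {D D' : Set I} (h : X.Closed D) (h' : X.Closed D') :
    X.Closed (D ∪ D') := fun γ hγ => hγ.elim (fun a => (h γ a).trans Set.subset_union_left)
      fun a => (h' γ a).trans Set.subset_union_right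
variable {X} in
theorem Idx.Closed.insert {D : Set I} (h : X.Closed D) {β : I} (h' : X.C β ⊆ D) :
    X.Closed (insert β D) := fun γ hγ => hγ.elim (fun a => (a ▸ h').trans (Set.subset_insert _ _))
      fun a => (h γ a).trans (Set.subset_insert _ _)

theorem Idx.exists_C {C : Set I} (hc : C.Countable) (hn : C.Nonempty) (n : ℕ → ℕ) :
    ∃ β, X.C β = C ∧ X.n β = n := by
  obtain ⟨f, rfl⟩ := hc.exists_eq_range hn
  obtain ⟨β, h1, h2, h3⟩ := X.all f n
  refine ⟨β, ?_, h2⟩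
  rw [Idx.C, h1, Set.inter_eq_left]
  rintro _ ⟨k, rfl⟩
  exact h3 k

theorem Idx.chain_ind [WellFoundedLT I] (φ : Set I → Prop) {C D : Set I} (hC : X.Closed C)
    (hD : X.Closed D) (hCD : C ⊆ D) (h0 : φ C)
    (hlim : ∀ D', (∀ A : Finset I, ↑A ⊆ D' → ∃ D₁, ↑A ⊆ D₁ ∧ D₁ ⊆ D' ∧ φ D₁) → φ D')
    (hstep : ∀ β ∈ D, β ∉ C → φ (C ∪ D ∩ Set.Iio β) → φ (insert β (C ∪ D ∩ Set.Iio β))) :
    φ D := by
  classical
  have _ := hC
  have _ := hD
  have lim : ∀ S : Set I, (∀ γ ∈ S, Set.Iic γ ⊆ S ∧ φ (C ∪ D ∩ Set.Iic γ)) → φ (C ∪ D ∩ S) :=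
    fun S hS => hlim _ fun A hA => by
      rcases (A.filter (· ∉ C)).eq_empty_or_nonempty with h | h
      · exact ⟨C, fun a ha => not_not.1 (Finset.filter_eq_empty_iff.1 h ha),
          Set.subset_union_left, h0⟩
      · obtain ⟨h1, h2⟩ := Finset.mem_filter.1 (Finset.max'_mem _ h)
        obtain ⟨h3, h4⟩ := hS _ ((hA h1).resolve_left h2).2
        refine ⟨_, fun a ha => ?_, Set.union_subset_union_right _
          (Set.inter_subset_inter_right _ h3), h4⟩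
        by_cases haC : a ∈ C
        · exact Or.inl haC
        · exact Or.inr ⟨((hA ha).resolve_left haC).1,
            Finset.le_max' _ a (Finset.mem_filter.2 ⟨ha, haC⟩)⟩
  have key : ∀ β, φ (C ∪ D ∩ Set.Iic β) := fun β => by
    induction β using WellFoundedLT.induction with
    | ind β ih =>
      have h1 := lim (Set.Iio β) fun γ hγ => ⟨fun _ h => lt_of_le_of_lt h hγ, ih γ hγ⟩
      by_cases h : β ∈ D ∧ β ∉ C
      · convert hstep β h.1 h.2 h1 using 1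
        ext γ
        simp only [Set.mem_union, Set.mem_inter_iff, Set.mem_Iic, Set.mem_insert_iff, Set.mem_Iio,
          le_iff_lt_or_eq]
        exact ⟨fun a => a.elim (fun b => Or.inr (Or.inl b)) fun b => b.2.elim
          (fun c => Or.inr (Or.inr ⟨b.1, c⟩)) Or.inl, fun a => a.elim
          (fun b => Or.inr ⟨b ▸ h.1, Or.inr b⟩) fun b => b.imp_right fun c => ⟨c.1, Or.inl c.2⟩⟩
      · convert h1 using 1
        ext γ
        simp only [Set.mem_union, Set.mem_inter_iff, Set.mem_Iic, Set.mem_Iio, le_iff_lt_or_eq]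
        refine ⟨fun a => a.elim Or.inl fun b => b.2.elim (fun c => Or.inr ⟨b.1, c⟩) fun c => ?_,
          fun a => a.imp_right fun c => ⟨c.1, Or.inl c.2⟩⟩
        subst c
        exact Or.inl (not_not.1 fun d => h ⟨b.1, d⟩)
  have := lim Set.univ fun γ _ => ⟨Set.subset_univ _, key γ⟩
  rwa [Set.inter_univ, Set.union_eq_right.2 hCD] at this

theorem Idx.exists_closed [Nonempty I] (w : Set I → Set I)
    (hw : ∀ D, D.Countable → (w D).Countable) {D₀ : Set I} (h0 : D₀.Countable) :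
    ∃ C : Set I, C.Countable ∧ C.Nonempty ∧ X.Closed C ∧ D₀ ⊆ C ∧
      ∀ A : Finset I, ↑A ⊆ C → ∃ D, ↑A ⊆ D ∧ D.Countable ∧ w D ⊆ C := by
  obtain ⟨i⟩ := ‹Nonempty I›
  let S : ℕ → Set I := fun n =>
    Nat.rec (Insert.insert i D₀) (fun _ D => D ∪ (⋃ γ ∈ D, X.C γ) ∪ w D) n
  have hc : ∀ n, (S n).Countable := fun n => by
    induction n with
    | zero => exact h0.insert i
    | succ n ih => exact (ih.union (ih.biUnion fun γ _ => X.countable_C γ)).union (hw _ ih)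
  have hm : Monotone S := monotone_nat_of_le_succ fun n _ h => Or.inl (Or.inl h)
  refine ⟨⋃ n, S n, Set.countable_iUnion hc, ⟨i, Set.mem_iUnion.2 ⟨0, Or.inl rfl⟩⟩,
    fun γ hγ δ hδ => ?_, fun a ha => Set.mem_iUnion.2 ⟨0, Or.inr ha⟩, fun A hA => ?_⟩
  · obtain ⟨n, hn⟩ := Set.mem_iUnion.1 hγ
    exact Set.mem_iUnion.2 ⟨n + 1, Or.inl (Or.inr (Set.mem_biUnion hn hδ))⟩
  · choose f hf using fun a : A => Set.mem_iUnion.1 (hA a.2)
    refine ⟨S (Finset.univ.sup f), fun a ha => hm (Finset.le_sup (Finset.mem_univ ⟨a, ha⟩))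
      (hf ⟨a, ha⟩), hc _, fun a ha => Set.mem_iUnion.2 ⟨Finset.univ.sup f + 1, Or.inr ha⟩⟩

end Pool.Agent.Work.MP_c4093f_al.Z
end

-- merged part: Pool.Agent.Work.MP_c4093f_al.Z.SysEx
section
/-!
Elementary facts on the generators, and existence of a system.

Plan.  `exists_spec`: the two conditions exclude each other (`TSb.ts`, `TS.anti`, `GG` for the
identity); merging: `exists_mg_flags` over `P` (`TSb.anti`) and `exists_lay`; splitting:
`exists_sp_num`, `SpNum.fl_spV`, `exists_lay`.  `exists_sys`: well founded recursion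
(`WellFounded.fix`); extend the values below `β` by `0`, and use `G_congr`.
-/

namespace Pool.Agent.Work.MP_c4093f_al.Z

open LinearMap

variable {Λ : Type} [Ring Λ] [Algebra F Λ] [Dim Λ] {I : Type} (A : Amb Λ I) {x x' : I → E Λ}
  {D D' : Set I}

theorem Amb.G_mono (x : I → E Λ) (h : D ⊆ D') : A.G x D ⊆ A.G x D' :=
  Set.union_subset_union_right _ (Set.biUnion_subset_biUnion_left h)
theorem Amb.base_G (x : I → E Λ) (D : Set I) : Set.range A.s ⊆ A.G x D :=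
  Set.subset_union_left.trans Set.subset_union_left
theorem Amb.G_empty (x : I → E Λ) :
    A.G x ∅ = Set.range A.s ∪ Set.range fun n => A.y (none, 0, n) := by
  simp [Amb.G]
theorem Amb.G_insert (x : I → E Λ) (D : Set I) (β : I) : A.G x (insert β D) =
    insert (x β) ((A.G x D ∪ Set.range (A.yy β 1)) ∪ Set.range (A.yy β 0)) := by
  simp only [Amb.G, Set.biUnion_insert]
  simp only [Set.insert_eq]
  ac_rfl
theorem Amb.G_congr (h : ∀ γ ∈ D, x γ = x' γ) : A.G x D = A.G x' D := by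
  unfold Amb.G
  congr 1
  exact Set.iUnion₂_congr fun γ hγ => by rw [h γ hγ]
theorem Amb.countable_G (x : I → E Λ) (h : D.Countable) : (A.G x D).Countable :=
  ((Set.countable_range _).union (Set.countable_range _)).union
    (h.biUnion fun _ _ => ((Set.countable_range _).union (Set.countable_range _)).insert _)
theorem Amb.G_finite {Q : Finset (E Λ)} (h : ↑Q ⊆ A.G x D) :
    ∃ D₀ : Finset I, ↑D₀ ⊆ D ∧ ↑Q ⊆ A.G x ↑D₀ := by
  classical
  induction Q using Finset.induction_on with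
  | empty => exact ⟨∅, by simp, by simp⟩
  | insert a Q _ ih =>
    rw [Finset.coe_insert, Set.insert_subset_iff] at h
    obtain ⟨D₀, h1, h2⟩ := ih h.2
    rcases h.1 with h3 | h3
    · exact ⟨D₀, h1, by
        rw [Finset.coe_insert]
        exact Set.insert_subset (Or.inl h3) h2⟩
    · obtain ⟨β, hβ, h4⟩ := Set.mem_iUnion₂.1 h3
      refine ⟨insert β D₀, ?_, ?_⟩ <;> simp only [Finset.coe_insert]
      · exact Set.insert_subset hβ h1
      · exact Set.insert_subset (Or.inr (Set.mem_biUnion (Set.mem_insert _ _) h4))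
          (h2.trans (A.G_mono x (Set.subset_insert _ _)))
theorem Amb.lim {φ : Set (E Λ) → Prop} (h : Lim φ)
    (hD : ∀ Q : Finset I, ↑Q ⊆ D → ∃ D₁, ↑Q ⊆ D₁ ∧ D₁ ⊆ D ∧ φ (A.G x D₁)) : φ (A.G x D) := by
  refine h _ fun Q hQ => ?_
  obtain ⟨D₀, h1, h2⟩ := A.G_finite hQ
  obtain ⟨D₁, h3, h4, h5⟩ := hD D₀ h1
  exact ⟨_, h2.trans (A.G_mono x h3), A.G_mono x h4, h5⟩

variable [LinearOrder I]

theorem exists_spec (X : Idx I) (β : I) {P P' : Set (E Λ)} (hc : P.Countable) (hP : P ⊆ P')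
    (hs : Set.range A.s ⊆ P) (T : ℕ → Submodule Λ Λ) : ∃ a, Spec A X β P P' T a := by
  have hx : MgAct A.s P P' T → ¬ SpAct P (A.yy β 0) T := by
    rintro ⟨-, -, -, -, f, a, -, h, -⟩ h'
    refine h'.2.2.2.2.2 LinearMap.id DM.id ?_
    rw [show fmap LinearMap.id T = T from funext fun n => Submodule.map_id _]
    exact h.ts.anti hP
  by_cases h1 : X.Closed (X.C β) ∧ MgAct A.s P P' T
  · obtain ⟨-, r1, r2, r3, r4, f, a, r5, r6, r7⟩ := id h1
    obtain ⟨V, V', k1, k2, k3, k4, k5, k6, k7, k8⟩ :=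
      exists_mg_flags A.chain hs r2 r3 r4 (r6.anti hP r5)
    obtain ⟨b, hb⟩ := exists_lay A.compl r1 k1 k2 (A.yy β 2)
    exact ⟨b, fun _ => ⟨⟨f, a, V, V', r5, r6, r7, k1, k2, k3, k4, k5, k6, k7, k8, hb⟩⟩,
      fun h => absurd h.2 (hx h1.2), fun h => absurd h1 h⟩
  by_cases h2 : X.Closed (X.C β) ∧ SpAct P (A.yy β 0) T
  · obtain ⟨-, r1, r2, r3, r4, r5, -⟩ := id h2
    obtain ⟨U, g, e, k1, k2, k3⟩ := exists_sp_num hc r1 r3 r4 r5
    obtain ⟨k4, k5, -⟩ := k1.fl_spV hs (A.yy β 0)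
    obtain ⟨b, hb⟩ := exists_lay A.compl r2 k4 k5 (A.yy β 2)
    exact ⟨b, fun h => absurd h h1, fun _ => ⟨⟨U, g, e, k1, k2, k3, hb⟩⟩, fun _ h => absurd h2 h⟩
  · exact ⟨0, fun h => absurd h h1, fun h => absurd h h2, fun _ _ => rfl⟩

theorem exists_sys [WellFoundedLT I] (X : Idx I) : ∃ S : Sys Λ I, S.A = A ∧ S.X = X := by
  have key : ∀ (β : I) (x : I → E Λ),
      ∃ a, Spec A X β (A.G x (X.C β)) (A.G x (Set.Iio β)) (tgt A X x β) a := fun β x =>
    exists_spec A X β (A.countable_G x (X.countable_C β)) (A.G_mono x fun _ h => X.C_lt h)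
      (A.base_G x _) _
  choose st hst using key
  obtain ⟨x, hx⟩ : ∃ x : I → E Λ, ∀ β, x β = st β fun γ => if γ < β then x γ else 0 :=
    ⟨wellFounded_lt.fix fun β r => st β fun γ => if h : γ < β then r γ h else 0,
      fun β => by rw [WellFounded.fix_eq]; rfl⟩
  refine ⟨⟨A, X, x, fun β => ?_⟩, rfl, rfl⟩
  have h1 : ∀ D ⊆ Set.Iio β, A.G x D = A.G (fun γ => if γ < β then x γ else 0) D :=
    fun D hD => A.G_congr fun γ hγ => (if_pos (hD hγ)).symm
  have h2 := h1 _ fun _ h => X.C_lt h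
  have h3 : tgt A X x β = tgt A X (fun γ => if γ < β then x γ else 0) β :=
    funext fun k => by rw [tgt, tgt, h2]
  rw [h2, h1 _ le_rfl, h3, hx β]
  exact hst β _

end Pool.Agent.Work.MP_c4093f_al.Z
end

-- merged part: Pool.Agent.Work.MP_c4093f_al.Z.SysFree
section
/-!
Genericity of the new elements over the generators of closed sets.

Plan.  `x_mem`: `Lay.mem_Cl` in the two active cases (null target flags by `Cof.null`,
`SpNum.fl_spV`), and `0 ∈ Cl _`.  `G_subset`: well founded induction on `γ ∈ D` for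
`x γ ∈ Cl (Y D)`, with `Cl_subset`.  All other statements: the ground set lies in
`Cl (range s ∪ y '' {j}ᶜ)` for the index `j` of the generic element; use `Free.of_subset_Cl` and
the field `free` (no injectivity of `y` is needed: membership is witnessed by indices `≠ j`).
`spare_G`: a finite `Q ⊆ G D` lies in `G D₀`, `D₀` finite.  If `D₀` is empty take an unused
`(none, 0, n)`; otherwise an unused `(some β, 1, n)` for the largest `β` of `D₀`: the `x γ` with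
`γ < β` lie in `Cl (Y (Iio β))`, and `x β` is covered by `x_mem`.  Here unused means: choose for
each element of `Q` that is a spare element one index `m`, and take `n` larger.
-/

namespace Pool.Agent.Work.MP_c4093f_al.Z

open LinearMap

variable {Λ : Type} [Ring Λ] [Algebra F Λ] [Dim Λ] {I : Type} [LinearOrder I] (S : Sys Λ I)
  {D : Set I} {β : I}

/-- the chain and the generic elements with index in `D` -/
def Sys.Y (D : Set I) : Set (E Λ) :=
  Set.range S.A.s ∪ S.A.y '' {j | j.1 = none ∨ ∃ β ∈ D, j.1 = some β}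

omit [Algebra F Λ] [Dim Λ] in
theorem SysFree_unused (Q : Finset (E Λ)) (z : ℕ → E Λ) :
    ∃ n, ∀ a ∈ Q, a ∈ Set.range z → ∃ m, m ≠ n ∧ z m = a := by
  obtain ⟨n, hn⟩ := Infinite.exists_notMem_finset (Q.image (Function.invFun z))
  exact ⟨n, fun a h1 h2 => ⟨Function.invFun z a,
    fun e => hn (e ▸ Finset.mem_image_of_mem _ h1), Function.invFun_eq h2⟩⟩

theorem SysFree_G {Q : Set (E Λ)} (hs : Set.range S.A.s ⊆ Q) (h0 : ∀ n, S.A.y (none, 0, n) ∈ Q)
    (h1 : ∀ β ∈ D, S.x β ∈ Q ∧ ∀ k n, S.A.yy β k n ∈ Q) : S.G D ⊆ Q := by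
  refine Set.union_subset (Set.union_subset hs (Set.range_subset_iff.2 h0))
    (Set.iUnion₂_subset fun γ hγ => Set.insert_subset (h1 γ hγ).1 ?_)
  exact Set.union_subset (Set.range_subset_iff.2 ((h1 γ hγ).2 1))
    (Set.range_subset_iff.2 ((h1 γ hγ).2 0))

theorem SysFree_ne (β : I) {k k' : Fin 3} {n n' : ℕ} (h : k ≠ k' ∨ n ≠ n') :
    S.A.yy β k n ∈ S.A.y '' {(some β, k', n')}ᶜ :=
  ⟨(some β, k, n), fun e => by
    have e' := Prod.mk.inj (Prod.mk.inj e).2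
    exact h.elim (· e'.1) (· e'.2), rfl⟩

theorem SysFree_Y (hβ : β ∉ D) (k : Fin 3) (n : ℕ) :
    S.Y D ⊆ Set.range S.A.s ∪ S.A.y '' {(some β, k, n)}ᶜ := by
  refine Set.union_subset_union_right _ (Set.image_mono ?_)
  rintro j (hj | ⟨γ, h1, hj⟩) rfl
  · cases hj
  · exact hβ (Option.some.inj hj ▸ h1)

theorem Sys.x_mem (β : I) :
    S.x β ∈ Cl ((S.G (S.X.C β) ∪ Set.range (S.A.yy β 0)) ∪ Set.range (S.A.yy β 2)) := by
  obtain ⟨h1, h2, h3⟩ := S.spec β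
  by_cases c1 : S.Mg β
  · obtain ⟨d⟩ := h1 c1
    exact Cl_mono (Set.union_subset_union_left _ Set.subset_union_left)
      (d.lay.mem_Cl (Cof.null ⟨d.cof'.2, d.cof'.1⟩ S.A.chain.null_Zf))
  by_cases c2 : S.Sp β
  · obtain ⟨d⟩ := h2 c2
    exact d.lay.mem_Cl (d.num.fl_spV (S.A.base_G _ _) _).2.2.2
  · rw [h3 c1 c2]
    exact DM.mem_Cl DM.zero

theorem Sys.free_base : FreeSeq (Set.range S.A.s) fun n => S.A.y (none, 0, n) := fun n => by
  refine (S.A.free (none, 0, n)).mono (Set.union_subset_union_right _ ?_)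
  rintro _ ⟨m, hm, rfl⟩
  exact ⟨(none, 0, m), fun e => (ne_of_lt hm) (Prod.mk.inj (Prod.mk.inj e).2).2, rfl⟩

variable [WellFoundedLT I]

theorem Sys.G_subset (h : S.X.Closed D) : S.G D ⊆ Cl (S.Y D) := by
  have hs : Set.range S.A.s ⊆ Cl (S.Y D) := Set.subset_union_left.trans subset_Cl
  have h0 : ∀ n, S.A.y (none, 0, n) ∈ Cl (S.Y D) := fun n =>
    subset_Cl (.inr ⟨_, .inl rfl, rfl⟩)
  have h1 : ∀ γ ∈ D, ∀ k n, S.A.yy γ k n ∈ Cl (S.Y D) := fun γ hγ k n =>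
    subset_Cl (.inr ⟨_, .inr ⟨γ, hγ, rfl⟩, rfl⟩)
  refine SysFree_G S hs h0 fun γ hγ => ⟨?_, h1 γ hγ⟩
  induction γ using WellFoundedLT.induction with
  | ind γ ih =>
    refine Cl_subset (Set.union_subset (Set.union_subset (SysFree_G S hs h0 fun δ hδ => ?_)
      (Set.range_subset_iff.2 (h1 γ hγ 0))) (Set.range_subset_iff.2 (h1 γ hγ 2))) (S.x_mem γ)
    exact ⟨ih δ (S.X.C_lt hδ) (h γ hγ hδ), h1 δ (h γ hγ hδ)⟩

theorem SysFree_cl (h : S.X.Closed D) (hβ : β ∉ D) (k : Fin 3) (n : ℕ) :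
    S.G D ∪ S.A.y '' {(some β, k, n)}ᶜ ⊆ Cl (Set.range S.A.s ∪ S.A.y '' {(some β, k, n)}ᶜ) :=
  Set.union_subset ((S.G_subset h).trans (Cl_mono (SysFree_Y S hβ k n)))
    (Set.subset_union_right.trans subset_Cl)

theorem SysFree_seq (h : S.X.Closed D) (hβ : β ∉ D) (k : Fin 3) {R : Set (E Λ)}
    (hR : ∀ n, R ⊆ S.G D ∪ S.A.y '' {(some β, k, n)}ᶜ) : FreeSeq R (S.A.yy β k) := fun n => by
  refine Free.of_subset_Cl (.trans (Set.union_subset (hR n) ?_) (SysFree_cl S h hβ k n))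
    (S.A.free (some β, k, n))
  rintro _ ⟨m, hm, rfl⟩
  exact .inr (SysFree_ne S β (.inr (ne_of_lt hm)))

theorem SysFree_spare (h : S.X.Closed D) (hβ : β ∉ D) (k : Fin 3) {R : Set (E Λ)}
    (hR : ∀ n, R ⊆ S.G D ∪ S.A.y '' {(some β, k, n)}ᶜ) :
    Spare S.A.s (R ∪ Set.range (S.A.yy β k)) := fun Q hQ => by
  obtain ⟨n, hn⟩ := SysFree_unused Q (S.A.yy β k)
  refine ⟨S.A.yy β k n, .inr ⟨n, rfl⟩, Free.of_subset_Cl (.trans (Set.union_subset
    ((S.A.base_G S.x D).trans Set.subset_union_left) fun a ha => ?_) (SysFree_cl S h hβ k n))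
    (S.A.free (some β, k, n))⟩
  rcases hQ ha with h1 | h1
  · exact hR n h1
  · obtain ⟨m, h2, rfl⟩ := hn a ha h1
    exact .inr (SysFree_ne S β (.inr h2))

omit [WellFoundedLT I] in
theorem SysFree_add (β : I) {k k' : Fin 3} (hk : k ≠ k') (n : ℕ) {R : Set (E Λ)}
    (hR : R ⊆ S.G D ∪ S.A.y '' {(some β, k', n)}ᶜ) :
    R ∪ Set.range (S.A.yy β k) ⊆ S.G D ∪ S.A.y '' {(some β, k', n)}ᶜ :=
  Set.union_subset hR (Set.range_subset_iff.2 fun _ => .inr (SysFree_ne S β (.inl hk)))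

theorem Sys.free_sp (h : S.X.Closed D) (hβ : β ∉ D) : FreeSeq (S.G D) (S.A.yy β 1) :=
  SysFree_seq S h hβ 1 fun _ => Set.subset_union_left

theorem Sys.free_fl (h : S.X.Closed D) (hβ : β ∉ D) :
    FreeSeq (S.G D ∪ Set.range (S.A.yy β 1)) (S.A.yy β 0) :=
  SysFree_seq S h hβ 0 fun n => SysFree_add S β (by decide) n Set.subset_union_left

theorem Sys.free_ly (h : S.X.Closed D) (hβ : β ∉ D) : FreeSeq (S.B D β) (S.A.yy β 2) :=
  SysFree_seq S h hβ 2 fun n =>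
    SysFree_add S β (by decide) n (SysFree_add S β (by decide) n Set.subset_union_left)

theorem Sys.spare_G (D : Set I) : Spare S.A.s (S.G D) := fun Q hQ => by
  obtain ⟨D₀, h1, h2⟩ := S.A.G_finite hQ
  rcases D₀.eq_empty_or_nonempty with rfl | hne
  · obtain ⟨n, hn⟩ := SysFree_unused Q fun n => S.A.y (none, 0, n)
    refine ⟨S.A.y (none, 0, n), .inl (.inr ⟨n, rfl⟩), (S.A.free (none, 0, n)).mono
      (Set.union_subset Set.subset_union_left fun a ha => ?_)⟩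
    rw [Finset.coe_empty, S.A.G_empty] at h2
    refine (h2 ha).imp_right fun h3 => ?_
    obtain ⟨m, h4, rfl⟩ := hn a ha h3
    exact ⟨(none, 0, m), fun e => h4 (Prod.mk.inj (Prod.mk.inj e).2).2, rfl⟩
  · have hb := h1 (D₀.max'_mem hne)
    have hl : (↑D₀ : Set I) ⊆ insert (D₀.max' hne) (Set.Iio (D₀.max' hne)) := fun γ hγ =>
      (D₀.le_max' γ hγ).eq_or_lt
    generalize D₀.max' hne = β at hb hl
    obtain ⟨n, hn⟩ := SysFree_unused Q (S.A.yy β 1)
    have hc := SysFree_cl S (S.X.closed_Iio β) Set.self_notMem_Iio 1 n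
    refine ⟨S.A.yy β 1 n, .inr (Set.mem_biUnion hb (.inr (.inl ⟨n, rfl⟩))), Free.of_subset_Cl
      (Set.union_subset (Set.subset_union_left.trans subset_Cl) fun a ha => ?_)
      (S.A.free (some β, 1, n))⟩
    have h3 := S.A.G_mono S.x hl (h2 ha)
    rw [S.A.G_insert] at h3
    rcases h3 with rfl | (h3 | h3) | ⟨m, rfl⟩
    · exact Cl_subset ((SysFree_add S β (by decide) n (SysFree_add S β (by decide) n
        ((S.A.G_mono S.x Set.inter_subset_right).trans Set.subset_union_left))).trans hc)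
        (S.x_mem β)
    · exact hc (.inl h3)
    · obtain ⟨m, h4, rfl⟩ := hn a ha h3
      exact hc (.inr (SysFree_ne S β (.inr h4)))
    · exact hc (.inr (SysFree_ne S β (.inl (by decide))))

theorem Sys.spare_sp (h : S.X.Closed D) (hβ : β ∉ D) :
    Spare S.A.s (S.G D ∪ Set.range (S.A.yy β 1)) :=
  SysFree_spare S h hβ 1 fun _ => Set.subset_union_left

theorem Sys.spare_fl (h : S.X.Closed D) (hβ : β ∉ D) :
    Spare S.A.s (S.G D ∪ Set.range (S.A.yy β 0)) :=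
  SysFree_spare S h hβ 0 fun _ => Set.subset_union_left

theorem Sys.spare_B (h : S.X.Closed D) (hβ : β ∉ D) : Spare S.A.s (S.B D β) :=
  SysFree_spare S h hβ 0 fun n => SysFree_add S β (by decide) n Set.subset_union_left

end Pool.Agent.Work.MP_c4093f_al.Z
end

-- merged part: Pool.Agent.Work.MP_c4093f_al.Z.Pins
section
/-!
Persistence from the local properties `Loc` and `WLoc`.

Plan.  `Loc.hom`: apply `Loc` to `graph b`; `Reg.sec` on `D` gives `b'`, which agrees with `b` on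
`fst D`, and `fst D` contains a member of `Y` by continuity.  `gg_loc`: `d` with kernel `D`
(`Reg.exists_ker`), `b` with `b (e ξ) = d ξ` on `Y n` (`Reg.factor` over `P'`); `TS.fmap` for `b`
on `fmap e Y`, `cof_fmap_congr`, `TS.anti`.  `WLoc.bs`: shrink the member so that the finitely
many `a` map it into `Y n`.  `pers_mk`: `SemQ.self`, `SemQ.fprod`, `TSb.ts`.
`Pers.trans`: `exists_tsb` turns `ts` into persistence of `TS`.
-/

namespace Pool.Agent.Work.MP_c4093f_al.Z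

open LinearMap

variable {Λ : Type} [Ring Λ] [Algebra F Λ] {P₀ P P' P'' : Set (E Λ)} {Y Y' : ℕ → Submodule Λ Λ}

theorem Loc.simple (h : Loc P P' Y) (hY : Antitone Y) (hs : Simple P Y) : Simple P' Y := by
  refine ⟨hs.1, fun H hH => ?_⟩
  obtain ⟨D, hD, hle, n, hn⟩ := h H hH
  rcases hs.2 D hD with hb | ⟨m, hm⟩
  · exact Or.inl (hb.mono hle)
  · refine Or.inr ⟨max n m, eq_bot_iff.2 fun ξ hξ => hm.le ⟨hn ⟨hξ.1, ?_⟩, ?_⟩⟩
    exacts [hY (le_max_left n m) hξ.2, hY (le_max_right n m) hξ.2]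

theorem Loc.hom (hP : Reg P) (hY : Antitone Y) (h : Loc P P' (fprod Y Y')) {b : E Λ} (hb : DM P' b)
    (hc : Cont b Y Y') : ∃ b' : E Λ, DM P b' ∧ Cont b' Y Y' ∧ Zer (b - b') Y := by
  obtain ⟨D, hD, hle, n, hn⟩ := h _ hb
  obtain ⟨b', hb', e⟩ := hP.sec hD
  obtain ⟨k, hk, hk'⟩ := (hc n).ge hY n
  have hz : Zer (b - b') Y := ⟨k, fun ξ hξ => by
    have := hle (e ξ (b ξ) (hn ⟨(mem_graph_iff _ _).2 rfl, hY hk hξ, hk' hξ⟩))
    rw [mem_graph_iff] at this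
    exact sub_eq_zero.2 this.symm⟩
  exact ⟨b', hb', hc.congr hY hz.symm, hz⟩

theorem gg_loc (hP : Reg P) (hP' : Reg P') (hs : P ⊆ P') (hY : Fl P' Y) (hG : GG P Y) {e : E Λ}
    (he : DM P' e) {D : Submodule Λ Λ} (hD : Def P D) (h0 : ¬ Big Y D) {n : ℕ}
    (hn : ker e ⊓ Y n ≤ D) : ¬ TS P' (fmap e Y) := by
  intro hT
  obtain ⟨d, hd, rfl, -⟩ := hP.exists_ker hD
  obtain ⟨b, hb, hbe⟩ := hP'.factor he (hd.mono hs) (hY.1 n) fun ξ h1 h2 => hn ⟨h2, h1⟩
  have hz : Zer (b ∘ₗ e - d) Y := ⟨n, fun ξ hξ => sub_eq_zero.2 (hbe ξ hξ)⟩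
  have h1 := hT.fmap hP' (hY.fmap he) hb fun h => h0 (by
    have := (zer_fmap.1 h).sub hY.2 hz
    rwa [sub_sub_cancel] at this)
  rw [← fmap_comp] at h1
  exact hG d hd (((cof_fmap_congr hY.2 hz).ts h1).anti hs)

theorem WLoc.gg (h : WLoc P P' Y) (hP : Reg P) (hP' : Reg P') (hs : P ⊆ P') (hY : Fl P' Y)
    (hG : GG P Y) : GG P' Y := by
  intro e he hT
  obtain ⟨D, hD, h0, n, hn⟩ := h _ he.ker (fmap_ne_bot.1 hT.1.1)
  exact gg_loc hP hP' hs hY hG he hD h0 hn hT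

theorem WLoc.bs (h : WLoc P P' Y) (hs : P ⊆ P') (hY : Antitone Y) {I : Set (E Λ)}
    (hB : BS P Y I) : BS P' Y I := by
  refine ⟨fun a ha => (hB.dm a ha).mono hs, hB.cont, hB.mul, hB.sub, hB.inj, hB.inf,
    fun H hH h0 => ?_⟩
  obtain ⟨D, hD, h1, n, hn⟩ := h H hH h0
  obtain ⟨A, hA, m, hm⟩ := hB.bs D hD h1
  obtain ⟨k, hk, hk'⟩ := exists_common hY (fun a : A => hB.cont a (hA a a.2) n) m
  exact ⟨A, hA, k, fun ξ hξ h2 => hm ξ (hY hk hξ) fun a ha => hn ⟨h2 a ha, hk' ⟨a, ha⟩ hξ⟩⟩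

variable [Dim Λ] {ok ok' : (ℕ → Submodule Λ Λ) → Prop}

theorem WLoc.kk (h : WLoc P P' Y) (hY : Antitone Y) {g : ℕ → ℚ} (hK : KK P Y g) : KK P' Y g := by
  intro H hH h0 C
  obtain ⟨D, hD, h1, n, hn⟩ := h H hH h0
  obtain ⟨N, hN⟩ := hK D hD h1 C
  refine ⟨max N n, fun j hj => (hN j (le_of_max_le_left hj)).trans (sub_le_sub_left ?_ _)⟩
  exact rho_mono fun ξ hξ => ⟨hξ.1, hn ⟨hξ.2, hY (le_of_max_le_right hj) hξ.1⟩⟩

theorem pers_mk (hP : Reg P) (hs : P ⊆ P')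
    (hloc : ∀ (M : Type) [AddCommGroup M] [Module Λ M] [Fr Λ M] (U : ℕ → Submodule Λ M),
      Fl P₀ U → Null U → SemQ P U (fun Y => Fl P₀ Y ∧ ok Y ∧ TS P Y) → Loc P P' U)
    (gg : ∀ Y, Fl P₀ Y → Null Y → GG P Y → GG P' Y)
    (bs : ∀ Y I, Fl P₀ Y → Null Y → BS P Y I → BS P' Y I)
    (kk : ∀ Y g, Fl P₀ Y → Null Y → GG P Y → KK P Y g → KK P' Y g) : Pers P₀ P P' ok := by
  refine ⟨gg, bs, kk, fun Y f a hY h0 hk hT => ⟨(hloc _ Y hY h0 (.self ⟨hY, hk, hT.ts⟩)).simple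
    hY.2 hT.simple, fun i => (hT.dm i).mono hs, hT.cont, hT.ind, fun b hb hc => ?_⟩,
    fun Y Y' hY h0 hk hT hY' h0' hk' hT' hN b hb hc => ?_⟩
  · obtain ⟨b', h1, h2, h3⟩ := (hloc _ _ (hY.fprod hY) (h0.fprod hY.2 hY.2 h0)
      (.fprod ⟨hY, hk, hT.ts⟩ ⟨hY, hk, hT.ts⟩)).hom hP hY.2 hb hc
    obtain ⟨c, h4⟩ := hT.span b' h1 h2
    exact ⟨c, h3.trans hY.2 h4⟩
  · obtain ⟨b', h1, h2, h3⟩ := (hloc _ _ (hY.fprod hY') (h0.fprod hY.2 hY'.2 h0')
      (.fprod ⟨hY, hk, hT⟩ ⟨hY', hk', hT'⟩)).hom hP hY.2 hb hc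
    have := h3.add hY.2 (hN b' h1 h2)
    rwa [sub_add_cancel] at this

theorem pers_of_wloc (h0 : P₀ ⊆ P) (hP : Reg P) (hP' : Reg P') (hs : P ⊆ P')
    (hloc : ∀ (M : Type) [AddCommGroup M] [Module Λ M] [Fr Λ M] (U : ℕ → Submodule Λ M),
      Fl P₀ U → Null U → SemQ P U (fun Y => Fl P₀ Y ∧ ok Y ∧ TS P Y) → Loc P P' U)
    (hw : ∀ Y, Fl P₀ Y → Null Y → GG P Y → WLoc P P' Y) : Pers P₀ P P' ok :=
  pers_mk hP hs hloc
    (fun Y hY hn hG => (hw Y hY hn hG).gg hP hP' hs (hY.mono (h0.trans hs)) hG)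
    (fun Y _ hY hn hB => (hw Y hY hn (hB.gg hP (hY.mono h0))).bs hs hY.2 hB)
    fun Y _ hY hn hG hK => (hw Y hY hn hG).kk hY.2 hK

theorem Pers.ts' (h : Pers P₀ P P' ok) (hY : Fl P₀ Y) (h0 : Null Y) (hk : ok Y) (hT : TS P Y) :
    TS P' Y := by
  obtain ⟨f, a, ha⟩ := exists_tsb hY.2 hT
  exact (h.ts Y a hY h0 hk ha).ts

theorem Pers.trans (h : Pers P₀ P P' fun _ => True) (h' : Pers P₀ P' P'' ok')
    (hk : ∀ Y, Fl P₀ Y → Null Y → TS P Y → ok Y → ok' Y) : Pers P₀ P P'' ok :=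
  ⟨fun Y hY h0 hG => h'.gg Y hY h0 (h.gg Y hY h0 hG),
    fun Y I hY h0 hB => h'.bs Y I hY h0 (h.bs Y I hY h0 hB),
    fun Y g hY h0 hG hK => h'.kk Y g hY h0 (h.gg Y hY h0 hG) (h.kk Y g hY h0 hG hK),
    fun Y _ a hY h0 ho hT => h'.ts Y a hY h0 (hk Y hY h0 hT.ts ho) (h.ts Y a hY h0 trivial hT),
    fun Y Y' hY h0 ho hT hY' h0' ho' hT' hN => h'.nm Y Y' hY h0 (hk Y hY h0 hT ho)
      (h.ts' hY h0 trivial hT) hY' h0' (hk Y' hY' h0' hT' ho') (h.ts' hY' h0' trivial hT')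
      (h.nm Y Y' hY h0 trivial hT hY' h0' trivial hT' hN)⟩

theorem Pers.of_dm (hs : P ⊆ P') (h : ∀ a ∈ P', DM P a) : Pers P₀ P P' ok :=
  ⟨fun _ _ _ hG e he hT => hG e (Def.of_dm h he) (hT.anti hs),
    fun _ _ _ _ hB => ⟨fun a ha => (hB.dm a ha).mono hs, hB.cont, hB.mul, hB.sub, hB.inj, hB.inf,
      fun H hH => hB.bs H (hH.of_dm h)⟩,
    fun _ _ _ _ _ hK H hH => hK H (hH.of_dm h),
    fun _ _ _ _ _ _ hT => ⟨⟨hT.simple.1, fun H hH => hT.simple.2 H (hH.of_dm h)⟩,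
      fun i => (hT.dm i).mono hs, hT.cont, hT.ind, fun b hb => hT.span b (Def.of_dm h hb)⟩,
    fun _ _ _ _ _ _ _ _ _ _ hN b hb => hN b (Def.of_dm h hb)⟩

theorem Pers0.of_dm {s : ℚ → E Λ} (hs : P ⊆ P') (h : ∀ a ∈ P', DM P a) : Pers0 s P P' :=
  ⟨fun H hH => ⟨H, hH.of_dm h, le_rfl, fun _ _ h1 => h1⟩, fun hr Γ hΓ => hr Γ (hΓ.of_dm h),
    fun hr M _ _ _ H hH => hr M H (hH.of_dm h)⟩

omit [Dim Λ] in
theorem MinO.trans (hs : P ⊆ P') (h : MinO P P') (h' : MinO P' P'') : MinO P P'' := by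
  intro H hH
  obtain ⟨D', h1, h2, h3⟩ := h' H hH
  obtain ⟨D, h4, h5, h6⟩ := h D' h1
  exact ⟨D, h4, h5.trans h2, fun D₁ h7 h8 => h6 D₁ h7 (h3 D₁ (h7.mono hs) h8)⟩

theorem Pers0.trans {s : ℚ → E Λ} (hs : P ⊆ P') (h : Pers0 s P P') (h' : Pers0 s P' P'') :
    Pers0 s P P'' :=
  ⟨h.min.trans hs h'.min, fun h1 => h'.rp (h.rp h1), fun h1 => h'.rat (h.rat h1)⟩

end Pool.Agent.Work.MP_c4093f_al.Z
end

-- merged part: Pool.Agent.Work.MP_c4093f_al.Z.FreeExt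
section
/-!
Properties of finite character, and extensions by sequences of generic elements.

Plan.  `Lim` lemmas: `Def.finite` for the submodule or map to be tested, then monotonicity; for the
fields that do not quantify over definable objects use `A = ∅`.  `Free.loc0`: `red` for
`Free.gen`, field `loc` at `N = 1`, where `η = 0`, and `fib`.  `FreeSeq` lemmas: induction on `n`
for `P ∪ y '' Iio n` (note `P ∪ y '' Iio (n + 1) = insert (y n) (P ∪ y '' Iio n)`), then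
`Def.of_range`.
-/

namespace Pool.Agent.Work.MP_c4093f_al.Z

open LinearMap

variable {Λ : Type} [Ring Λ] [Algebra F Λ] {P₀ P P' P'' : Set (E Λ)} {Y Y' : ℕ → Submodule Λ Λ}
  {s : ℚ → E Λ}

omit [Algebra F Λ] in
theorem Lim.and {φ ψ : Set (E Λ) → Prop} (h : Lim φ) (h' : Lim ψ) : Lim fun P => φ P ∧ ψ P := by
  intro P hP
  refine ⟨h P fun A hA => ?_, h' P fun A hA => ?_⟩
  · obtain ⟨Q, h1, h2, h3⟩ := hP A hA
    exact ⟨Q, h1, h2, h3.1⟩
  · obtain ⟨Q, h1, h2, h3⟩ := hP A hA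
    exact ⟨Q, h1, h2, h3.2⟩

theorem FreeExt_def {φ : Set (E Λ) → Prop}
    (h : ∀ A : Finset (E Λ), ↑A ⊆ P → ∃ P₁, ↑A ⊆ P₁ ∧ P₁ ⊆ P ∧ φ P₁) {M : Type} [AddCommGroup M]
    [Module Λ M] [Fr Λ M] {H : Submodule Λ M} (hH : Def P H) : ∃ Q, Q ⊆ P ∧ Def Q H ∧ φ Q := by
  obtain ⟨A, h1, h2⟩ := hH.finite
  obtain ⟨Q, h3, h4, h5⟩ := h A h1
  exact ⟨Q, h4, h2.mono h3, h5⟩
theorem lim_gg (Y : ℕ → Submodule Λ Λ) : Lim fun P => GG P Y := by
  intro P h e he hT
  obtain ⟨Q, h1, h2, h3⟩ := FreeExt_def h (H := graph e) he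
  exact h3 e h2 (hT.anti h1)
theorem lim_bs (Y : ℕ → Submodule Λ Λ) (I : Set (E Λ)) : Lim fun P => BS P Y I := by
  intro P h
  obtain ⟨Q, -, h1, h2⟩ := h ∅ (by simp)
  refine ⟨fun a ha => (h2.dm a ha).mono h1, h2.cont, h2.mul, h2.sub, h2.inj, h2.inf,
    fun H hH h0 => ?_⟩
  obtain ⟨Q', -, h3, h4⟩ := FreeExt_def h hH
  exact h4.bs H h3 h0
theorem lim_tsb (Y : ℕ → Submodule Λ Λ) {f : ℕ} (a : Fin f → E Λ) : Lim fun P => TSb P Y a := by
  intro P h
  obtain ⟨Q, -, h1, h2⟩ := h ∅ (by simp)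
  refine ⟨⟨h2.simple.1, fun H hH => ?_⟩, fun i => (h2.dm i).mono h1, h2.cont, h2.ind,
    fun b hb hc => ?_⟩
  · obtain ⟨Q', -, h3, h4⟩ := FreeExt_def h hH
    exact h4.simple.2 H h3
  · obtain ⟨Q', -, h3, h4⟩ := FreeExt_def h (H := graph b) hb
    exact h4.span b h3 hc
theorem lim_noMap (Y Y' : ℕ → Submodule Λ Λ) : Lim fun P => NoMap P Y Y' := by
  intro P h b hb hc
  obtain ⟨Q, -, h3, h4⟩ := FreeExt_def h (H := graph b) hb
  exact h4 b h3 hc
theorem lim_rperp (s : ℚ → E Λ) : Lim (RPerp s) := by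
  intro P h Γ hΓ ht
  obtain ⟨Q, -, h3, h4⟩ := FreeExt_def h hΓ
  exact h4 Γ h3 ht
theorem lim_minO (P₀ : Set (E Λ)) : Lim (MinO P₀) := by
  intro P h H hH
  obtain ⟨Q, -, h3, h4⟩ := FreeExt_def h hH
  exact h4 H h3
theorem MinO.refl (P : Set (E Λ)) : MinO P P := by
  intro H hH
  exact ⟨H, hH, le_rfl, fun _ _ h => h⟩

variable [Dim Λ]

theorem lim_kk (Y : ℕ → Submodule Λ Λ) (g : ℕ → ℚ) : Lim fun P => KK P Y g := by
  intro P h H hH h0
  obtain ⟨Q, -, h3, h4⟩ := FreeExt_def h hH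
  exact h4 H h3 h0
theorem lim_ratRk : Lim (RatRk (Λ := Λ)) := by
  intro P h M _ _ _ H hH
  obtain ⟨Q, -, h3, h4⟩ := FreeExt_def h hH
  exact h4 M H h3

theorem Free.loc0 {y : E Λ} (h : Free P y) : Loc0 P (insert y P) := by
  intro M _ _ _ H hH
  obtain ⟨D, n, Γ, h1, -, -⟩ := red h.gen hH
  obtain ⟨δ, h2, h3⟩ := h1.loc 1
  refine ⟨D, h1.dD, h1.le, δ, h2, fun U hU h4 ξ hξ => ?_⟩
  obtain ⟨η, h5, h6⟩ := h3 U hU h4 ξ hξ
  obtain rfl : η = 0 := funext fun t => (Submodule.mem_bot Λ).1 (mem_pw.1 h5 t)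
  rw [map_zero] at h6
  exact (h1.fib ξ).1 h6

theorem Loc0.trans (hs : P ⊆ P') (h : Loc0 P P') (h' : Loc0 P' P'') : Loc0 P P'' := by
  intro M _ _ _ H hH
  obtain ⟨D', h1, h2, δ', h3, h4⟩ := h' M H hH
  obtain ⟨D, h5, h6, δ, h7, h8⟩ := h M D' h1
  refine ⟨D, h5, h6.trans h2, min δ δ', lt_min h7 h3, fun U hU h9 => ?_⟩
  rw [lt_min_iff] at h9
  exact (le_inf (h4 U (hU.mono hs) h9.2) inf_le_right).trans (h8 U hU h9.1)

theorem Loc0.loc (h : Loc0 P P') {M : Type} [AddCommGroup M] [Module Λ M] [Fr Λ M]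
    {U : ℕ → Submodule Λ M} (hU : Fl P U) (h0 : Null U) : Loc P P' U := by
  intro H hH
  obtain ⟨D, h1, h2, δ, h3, h4⟩ := h M H hH
  obtain ⟨n, hn⟩ := h0 δ h3
  exact ⟨D, h1, h2, n, h4 _ (hU.1 n) hn⟩

omit [Algebra F Λ] [Dim Λ] in
theorem FreeExt_zero (P : Set (E Λ)) (y : ℕ → E Λ) : P ∪ y '' Set.Iio 0 = P := by
  simp

omit [Algebra F Λ] [Dim Λ] in
theorem FreeExt_succ (P : Set (E Λ)) (y : ℕ → E Λ) (n : ℕ) :
    P ∪ y '' Set.Iio (n + 1) = insert (y n) (P ∪ y '' Set.Iio n) := by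
  have h : Set.Iio (n + 1) = insert n (Set.Iio n) := by
    ext m
    simp only [Set.mem_Iio, Set.mem_insert_iff]
    omega
  rw [h, Set.image_insert_eq, Set.union_insert]

theorem FreeSeq.loc0 {y : ℕ → E Λ} (h : FreeSeq P y) : Loc0 P (P ∪ Set.range y) := by
  have key : ∀ n, Loc0 P (P ∪ y '' Set.Iio n) := fun n => by
    induction n with
    | zero =>
      rw [FreeExt_zero]
      intro M _ _ _ H hH
      exact ⟨H, hH, le_rfl, 1, one_pos, fun _ _ _ => inf_le_left⟩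
    | succ n ih =>
      rw [FreeExt_succ]
      exact ih.trans Set.subset_union_left (h n).loc0
  intro M _ _ _ H hH
  obtain ⟨n, hn⟩ := hH.of_range
  exact key n M H hn

theorem FreeSeq.pers0 {y : ℕ → E Λ} (h : FreeSeq P y) (hs : Chain s) (hsP : Set.range s ⊆ P) :
    Pers0 s P (P ∪ Set.range y) := by
  have key : ∀ n, Pers0 s P (P ∪ y '' Set.Iio n) := fun n => by
    induction n with
    | zero =>
      rw [FreeExt_zero]
      exact ⟨MinO.refl P, id, id⟩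
    | succ n ih =>
      rw [FreeExt_succ]
      exact ih.trans Set.subset_union_left
        ((h n).gen.pers0 hs (hsP.trans Set.subset_union_left))
  refine ⟨fun H hH => ?_, fun hP Γ hΓ ht => ?_, fun hP M _ _ _ H hH => ?_⟩
  · obtain ⟨n, hn⟩ := hH.of_range
    exact (key n).min H hn
  · obtain ⟨n, hn⟩ := hΓ.of_range
    exact (key n).rp hP Γ hn ht
  · obtain ⟨n, hn⟩ := hH.of_range
    exact (key n).rat hP M H hn

theorem Loc0.pers (h : Loc0 P P') (h0 : P₀ ⊆ P) (hs : P ⊆ P') (hP : Reg P) (hP' : Reg P') :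
    Pers P₀ P P' fun _ => True := by
  refine pers_of_wloc h0 hP hP' hs (fun M _ _ _ U hU h1 _ => h.loc (hU.mono h0) h1)
    fun Y hY h1 _ H hH h2 => ?_
  obtain ⟨D, h3, h4, h5⟩ := h.loc (hY.mono h0) h1 H hH
  exact ⟨D, h3, fun h6 => h2 (h6.mono h4), h5⟩

end Pool.Agent.Work.MP_c4093f_al.Z
end

-- merged part: Pool.Agent.Work.MP_c4093f_al.Z.Mg1
section
/-!
Merging steps: the source becomes generated by the target, and the local description has no
kernel.  Write `v k = rho (V k)`, `v' k = rho (V' k)`.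

Plan.  `mg_one`: take `k ≥ 1` beyond the index of `TSb.inj_all`, `α = pi a`, and `Γ` the image of
`V k` under `ξ ↦ (ξ, α ξ, 0)`.  For `W` tight (`Gen.tight`) show `Phi ≤ 0`, so `Γ ⊓ gx = ⊥`.
A proper submodule `X` of `Fin f → F` is killed by a functional with coefficients `c ≠ 0`, and
`η ∈ ten ⊤ X ⊔ pw A` gives `∑ c i • η i ∈ A` (`mem_ten_sup_pw`).  If no `W n` is `⊤`, use the
final value (`exists_const`, `XW_le_ten`): `Γ_W = ⊥`.  Else let `n` be least with `W n = ⊤`, so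
`rho (XW V' W) ≥ f * v' n`.  If `n ≤ k`: `rho Γ_W ≤ v k = f * v' k ≤ f * v' n`.  If `n > k`:
`XW_le_ten_sup` with `X = W (n - 1)`, and `∑ c i • a i` embeds `fst Γ_W` into `V n`.
`mg_two`: the flag `G k = comap inr Γ ⊓ (pw (V k)).prod (pw (V' k))` is `Sem` over the family
indexed by `σ ⊕ σ`; show `Zer id G` by `ssa`.  Let `η` be continuous into `G`.  Source `V'`: the
first components vanish on the germ (`NoMap.symm`), the second ones are scalars `w s`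
(`TSb.one`); if `w ≠ 0` then `⊥.prod (ten (V' k) (span {w}))` contradicts `Strict`.  Source `V`:
the second components vanish, the first ones are `∑ i, c s i • a i`; let `X` be the span of the
`f` vectors `s ↦ c s i`; if `η` is not zero on the germ, it is injective on `V k`, `X ≠ ⊥`, and it
maps `V k` into `comap inr Γ ⊓ (ten (V k) X).prod ⊥` (field `inv`), of rank
`< finrank X * v' k ≤ f * v' k = v k`.
-/

namespace Pool.Agent.Work.MP_c4093f_al.Z

open LinearMap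

variable {Λ : Type} [Ring Λ] [Algebra F Λ] [Dim Λ] {M σ : Type} [AddCommGroup M] [Module Λ M]
  [Fr Λ M] [Fintype σ] {P : Set (E Λ)} {x : E Λ} {V V' : ℕ → Submodule Λ Λ} {f : ℕ}
  {a : Fin f → E Λ}

omit [Dim Λ] in
theorem Mg1_func {X : Submodule F (σ → F)} (hX : X ≠ ⊤) : ∃ c : σ → F, c ≠ 0 ∧
    ∀ (A : Submodule Λ Λ) (η : σ → Λ), η ∈ ten ⊤ X ⊔ pw σ A → ∑ s, c s • η s ∈ A := by
  classical
  obtain ⟨φ, h0, h1⟩ := X.exists_le_ker_of_lt_top hX.lt_top
  refine ⟨fun s => φ (Pi.single s 1), fun e => h0 ((Pi.basisFun F σ).ext fun s => ?_),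
    fun A η hη => mem_ten_sup_pw.1 hη φ fun w hw => h1 hw⟩
  rw [Pi.basisFun_apply]
  exact congrFun e s

theorem mg_one (h : MgSet P x V V' a) :
    Sem (insert x P) V (fun _ : Fin f => V') fun i => x * a i := by
  have tri := h.gen.tri
  refine ⟨fun i => ⟨(DM.of_mem (Set.mem_insert x P)).mul
    ((h.ts.dm i).mono (Set.subset_insert x P)), Cont.comp (k := x)
      (fun m => ⟨m, Submodule.map_le_iff_le_comap.1 (tri.maps m)⟩) (h.ts.cont i)⟩, ?_⟩
  obtain ⟨k, hk⟩ := h.ts.inj_all tri.anti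
  let g : Λ →ₗ[Λ] Λ × (Fin f → Λ) × (Fin f → Λ) :=
    LinearMap.id.prod ((LinearMap.pi a).prod 0)
  obtain ⟨W, hW, ht⟩ := h.gen.tight Λ (Fin f) ((V (k + 1)).map g)
    ((h.gen.dV _).mapD (DM.id.prod ((DM.pi h.ts.dm).prod DM.zero)))
  have key : ∀ X : Submodule F (Fin f → F), X ≠ ⊤ → ∀ A : Submodule Λ Λ,
      XW V W ≤ ten ⊤ X ⊔ pw _ A →
      rho ((V (k + 1)).map g ⊓ box Λ (XW V W) (XW V' W)) ≤ rho A := fun X hX A hA => by
    obtain ⟨c, c0, hc⟩ := Mg1_func (Λ := Λ) hX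
    refine rho_le_of_inj ((∑ i, c i • a i) ∘ₗ fst Λ _ _) ?_ ?_
    · rintro _ ⟨⟨ξ, h1, rfl⟩, -⟩ h2
      rw [hk c c0 ξ (tri.anti k.le_succ h1) h2, map_zero]
    · rintro _ ⟨⟨ξ, -, rfl⟩, h2⟩
      have h3 := hc A _ (hA (mem_box.1 h2).1)
      rw [comp_apply, LinearMap.sum_apply]
      exact h3
  have h0 : Phi V V' ((V (k + 1)).map g) W ≤ 0 := by
    refine sub_nonpos.2 ?_
    by_cases h1 : ∃ n, W n = ⊤
    · classical
      have h2 : f * rho (V' (Nat.find h1)) ≤ rho (XW V' W) := by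
        have h3 := rho_mono (ten_le_XW (V := V') (W := W) (Nat.find h1))
        rwa [Nat.find_spec h1, ten_top, rho_pw, Fintype.card_fin] at h3
      have h3 := fun m => Nat.find_min h1 (m := m)
      refine le_trans ?_ h2
      generalize Nat.find h1 = n at h3
      rcases n with _ | n
      · refine (rho_mono inf_le_left).trans ((rho_map_le _ _).trans ?_)
        rw [h.rk]
        exact mul_le_mul_of_nonneg_left (rho_mono (tri.anti' (Nat.zero_le _))) f.cast_nonneg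
      · rw [← h.rk]
        exact key (W n) (h3 n n.lt_succ_self) _
          (XW_le_ten_sup tri.anti fun m hm => hW (Nat.le_of_lt_succ hm))
    · obtain ⟨N, hN⟩ := exists_const hW
      refine (key (W N) (fun e => h1 ⟨N, e⟩) ⊥ ((XW_le_ten fun n => ?_).trans le_sup_left)).trans
        (rho_bot.trans_le (rho_nonneg _))
      exact (le_total n N).elim (fun e => hW e) fun e => (hN n e).le
  refine ⟨k + 1, fun ξ h1 h2 => ?_⟩
  have h3 : g ξ ∈ (V (k + 1)).map g ⊓ gx Λ (Fin f) x :=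
    ⟨⟨ξ, h1, rfl⟩, mem_gx.2 (funext fun i => (h2 i).symm)⟩
  rw [eq_bot_of_rho (ht.trans h0)] at h3
  exact congrArg Prod.fst ((Submodule.mem_bot Λ).1 h3)

theorem mg_two (hP : Reg P) (h : MgSet P x V V' a) (hS : TSb P V' ![1]) (hN : NoMap P V V')
    {Γ : Submodule Λ (M × (σ → Λ) × (σ → Λ))} (hΓ : Def P Γ) (hs : Strict V V' Γ) :
    ∃ k, ∀ η ∈ pw σ (V k), ∀ η' ∈ pw σ (V' k), ((0 : M), η, η') ∈ Γ → η = 0 ∧ η' = 0 := by
  have tri := h.gen.tri
  obtain ⟨N, hs⟩ := hs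
  let G : ℕ → Submodule Λ ((σ → Λ) × (σ → Λ)) := fun k =>
    Γ.comap (inr Λ M _) ⊓ (pw σ (V k)).prod (pw σ (V' k))
  have hG : Fl P G := ⟨fun k => (hΓ.comap _ RatM.inr).inf ((h.gen.dV k).pw.prod (h.gen.dV' k).pw),
    fun _ _ e => inf_le_inf_left _
      (Submodule.prod_mono (pw_mono (tri.anti e)) (pw_mono (tri.anti' e)))⟩
  let q1 : σ → (σ → Λ) × (σ → Λ) →ₗ[Λ] Λ := fun s => proj s ∘ₗ fst Λ (σ → Λ) (σ → Λ)
  let q2 : σ → (σ → Λ) × (σ → Λ) →ₗ[Λ] Λ := fun s => proj s ∘ₗ snd Λ (σ → Λ) (σ → Λ)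
  have d1 : ∀ s, DM P (q1 s) := fun s => (DM.proj s).comp DM.fst
  have d2 : ∀ s, DM P (q2 s) := fun s => (DM.proj s).comp DM.snd
  have c1 : ∀ s, Cont (q1 s) G V := fun s m => ⟨m, fun γ hγ => mem_pw.1 hγ.2.1 s⟩
  have c2 : ∀ s, Cont (q2 s) G V' := fun s m => ⟨m, fun γ hγ => mem_pw.1 hγ.2.2 s⟩
  suffices hz : Zer LinearMap.id G from
    hz.imp fun k hk η h1 η' h2 h3 => Prod.mk.inj (hk (x := (η, η')) ⟨h3, h1, h2⟩)
  refine ssa hP hG (T := Sum.elim (fun _ : σ => V) fun _ : σ => V') (p := Sum.elim q1 q2)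
    (Sum.rec (fun _ => h.ts.simple) fun _ => hS.simple)
    ⟨Sum.rec (fun s => ⟨d1 s, c1 s⟩) fun s => ⟨d2 s, c2 s⟩, 0, fun γ _ e =>
      Prod.ext (funext fun s => e (.inl s)) (funext fun s => e (.inr s))⟩ LinearMap.id ?_
  rintro (s₀ | s₀) η dη cη
  · change Zer η V
    by_contra h0
    obtain ⟨n, hn⟩ := h.ts.simple.inj dη h0
    choose c hc using fun s => h.ts.span _ ((d1 s).comp dη) ((c1 s).comp cη)
    obtain ⟨k, hk, hle⟩ := Big.ge tri.anti (Big.inf tri.anti (Big.iInf tri.anti fun s =>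
      Big.inf tri.anti (hc s) (hN _ ((d2 s).comp dη) ((c2 s).comp cη))) (cη 0)) (max N n + 1)
    obtain ⟨j, rfl⟩ : ∃ j, k = j + 1 := ⟨k - 1, by omega⟩
    have h1 : ∀ ξ ∈ V (j + 1), (η ξ).1 ∈ ten (V (j + 1))
        (Submodule.span F (Set.range fun i s => c s i)) ∧ (η ξ).2 = 0 := fun ξ hξ => by
      have h2 := (Submodule.mem_iInf _).1 (hle hξ).1
      refine ⟨?_, funext fun s => (h2 s).2⟩
      have h3 : (η ξ).1 = ∑ i, tv Λ (fun s => c s i) (a i ξ) := funext fun s => by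
        have h4 := sub_eq_zero.1 (mem_ker.1 (h2 s).1)
        rw [LinearMap.sum_apply] at h4
        rw [Finset.sum_apply]
        exact h4
      rw [h3]
      exact sum_mem fun i _ =>
        tv_mem_ten (Submodule.subset_span ⟨i, rfl⟩) (h.inv j i ⟨ξ, hξ, rfl⟩)
    have h2 := hs (j + 1) (by omega) (Submodule.span F (Set.range fun i s => c s i)) fun e =>
      h0 ⟨j + 1, fun ξ hξ => Prod.ext (by simpa [e] using (h1 ξ hξ).1) (h1 ξ hξ).2⟩
    have h4 := finrank_range_le_card (R := F) fun i s => c s i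
    rw [Fintype.card_fin] at h4
    refine absurd h2 (not_lt.2 ?_)
    refine ((mul_le_mul_of_nonneg_right (Nat.cast_le.2 h4) (rho_nonneg _)).trans
      (h.rk _).ge).trans (rho_le_of_inj η
        (fun ξ hξ => hn ξ (tri.anti (show n ≤ j + 1 by omega) hξ)) fun ξ hξ => ?_)
    exact ⟨(hle hξ).2.1, (h1 ξ hξ).1, (h1 ξ hξ).2 ▸ zero_mem _⟩
  · change Zer η V'
    have hN' := NoMap.symm hP ⟨h.gen.dV', tri.anti'⟩ tri.anti hS.simple h.ts.simple hN
    choose w n hw using fun s => hS.one ((d2 s).comp dη) ((c2 s).comp cη)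
    obtain ⟨k, hk, hle⟩ := Big.ge tri.anti' (Big.inf tri.anti' (Big.iInf tri.anti' fun s =>
      Big.inf tri.anti' (hN' _ ((d1 s).comp dη) ((c1 s).comp cη)) (Big.self V' (n s))) (cη 0)) N
    have h1 : ∀ ξ ∈ V' k, (η ξ).1 = 0 ∧ (η ξ).2 = tv Λ w ξ := fun ξ hξ => by
      have h2 := (Submodule.mem_iInf _).1 (hle hξ).1
      exact ⟨funext fun s => (h2 s).1, funext fun s => hw s ξ (h2 s).2⟩
    by_cases h0 : w = 0
    · exact ⟨k, fun ξ hξ => Prod.ext (h1 ξ hξ).1 (by simpa [h0] using (h1 ξ hξ).2)⟩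
    have h2 := hs k hk (Submodule.span F {w}) (mt Submodule.span_singleton_eq_bot.1 h0)
    rw [finrank_span_singleton h0, Nat.cast_one, one_mul] at h2
    exact absurd h2 (not_lt.2 (rho_le_of_inj η
      (fun ξ hξ e => tv_inj h0 ((h1 ξ hξ).2.symm.trans (congrArg Prod.snd e))) fun ξ hξ =>
        ⟨(hle hξ).2.1, (h1 ξ hξ).1 ▸ zero_mem _,
          (h1 ξ hξ).2 ▸ tv_mem_ten (Submodule.mem_span_singleton_self w) hξ⟩))

end Pool.Agent.Work.MP_c4093f_al.Z
end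

-- merged part: Pool.Agent.Work.MP_c4093f_al.Z.Mg2
section
/-!
Merging steps: persistence.

Plan.  Take `D, Γ` from `red` and `k` from `mg_two`.
`mg_loc`: the flag `G n = Γ ⊓ (U n).prod ((pw (V n)).prod (pw (V' n)))` is `Sem` over the family
indexed by `κ ⊕ σ ⊕ σ`.  By `ssa` the map `γ ↦ γ.2.1` vanishes on its germ: for a continuous
`θ = (θ₀, θ₁, θ₂)` with source `Y i` or `V'` the components of `θ₁` vanish by `NoMap.symm`; with
source `V`, `θ₂` and all `p i ∘ θ₀` vanish, hence `θ₀`, and then `mg_two` kills `θ₁`.  Now use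
`loc` at that level `n` on a member `U m`, `m ≥ n`, of small rank, and `fib`.
`mg_wloc`: `D` is not big.  Let `D N = fst (Γ ⊓ box (pw (V N)) (pw (V' N)))`.  If some `D N` is not
big use it with `loc`.  Otherwise `Reg.sec` on `Γ ⊓ box (pw (V k)) (pw (V' k))` gives `θ`; for
`N ≥ k` and `ξ ∈ D N`, `θ ξ` is the witness of level `N` (the difference is killed by `mg_two`),
so the components of `θ` are continuous to `V`, `V'`, and vanish on the germ (`GG.noMap`); then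
`D` is big by `fib`.
-/

namespace Pool.Agent.Work.MP_c4093f_al.Z

open LinearMap

variable {Λ : Type} [Ring Λ] [Algebra F Λ] [Dim Λ] {M : Type} [AddCommGroup M] [Module Λ M]
  [Fr Λ M] {P₀ P : Set (E Λ)} {x : E Λ} {V V' : ℕ → Submodule Λ Λ} {f : ℕ} {a : Fin f → E Λ}

theorem Mg2_loc (h : MgSet P x V V' a) {U : ℕ → Submodule Λ M} (hU : Fl P U) (h0 : Null U)
    {σ : Type} [Fintype σ] {H D : Submodule Λ M} {Γ : Submodule Λ (M × (σ → Λ) × (σ → Λ))}
    (hR : RD P x V H D Γ) (N : ℕ) : ∃ m, ∀ ξ ∈ H ⊓ U m, ∃ η, (ξ, η, dg σ x η) ∈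
      Γ ⊓ (U N).prod ((pw σ (V N)).prod (pw σ (V' N))) := by
  obtain ⟨δ, hδ, h1⟩ := hR.loc N
  obtain ⟨m, hm⟩ := h0.ev hU.2 hδ
  refine ⟨max m N, fun ξ hξ => ?_⟩
  obtain ⟨η, e1, e2⟩ := h1 _ (hU.1 _) (hm _ (le_max_left m N)) ξ hξ
  exact ⟨η, e2, hU.2 (le_max_right m N) hξ.2, e1,
    mem_pw.2 fun t => h.gen.tri.maps N ⟨_, mem_pw.1 e1 t, rfl⟩⟩

omit [Algebra F Λ] [Dim Λ] in
theorem Mg2_zer {σ : Type} [Finite σ] {Y : ℕ → Submodule Λ Λ} (hY : Antitone Y)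
    {θ : Λ →ₗ[Λ] (σ → Λ)} (h : ∀ s, Zer (proj s ∘ₗ θ : E Λ) Y) : Zer θ Y := by
  obtain ⟨m, -, hm⟩ := exists_common hY h 0
  exact ⟨m, fun ξ hξ => funext fun s => hm s hξ⟩

theorem mg_loc (hP : Reg P) (h : MgSet P x V V' a) (hS : TSb P V' ![1]) (hN : NoMap P V V')
    {U : ℕ → Submodule Λ M} (hU : Fl P U) (h0 : Null U)
    (hs : SemQ P U fun Y => Fl P Y ∧ NoMap P V Y ∧ Simple P Y) : Loc P (insert x P) U := by
  intro H hH
  obtain ⟨D, n, Γ, hR, -, hs'⟩ := red h.gen hH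
  obtain ⟨k, hk⟩ := mg_two hP h hS hN hR.dΓ hs'
  obtain ⟨κ, _, Y, p, hQ, hp, n₀, hn₀⟩ := hs
  let G : ℕ → Submodule Λ (M × (Fin n → Λ) × (Fin n → Λ)) := fun m =>
    Γ ⊓ (U m).prod ((pw (Fin n) (V m)).prod (pw (Fin n) (V' m)))
  have hA := h.gen.tri.anti
  have hA' := h.gen.tri.anti'
  have hG : Fl P G := ⟨fun m => hR.dΓ.inf ((hU.1 m).prod ((h.gen.dV m).pw.prod (h.gen.dV' m).pw)),
    fun m m' e => inf_le_inf_left _ (Submodule.prod_mono (hU.2 e)
      (Submodule.prod_mono (pw_mono (hA e)) (pw_mono (hA' e))))⟩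
  let T : κ ⊕ Fin n ⊕ Fin n → ℕ → Submodule Λ Λ :=
    Sum.elim Y (Sum.elim (fun _ => V) fun _ => V')
  let q : κ ⊕ Fin n ⊕ Fin n → (M × (Fin n → Λ) × (Fin n → Λ)) →ₗ[Λ] Λ :=
    Sum.elim (fun i => p i ∘ₗ fst Λ _ _) (Sum.elim (fun s => proj s ∘ₗ fst Λ _ _ ∘ₗ snd Λ _ _)
      fun s => proj s ∘ₗ snd Λ _ _ ∘ₗ snd Λ _ _)
  have hq : Sem P G T q := by
    refine ⟨?_, n₀, fun γ hγ e => Prod.ext (hn₀ _ hγ.2.1 fun i => e (Sum.inl i))
      (Prod.ext (funext fun s => e (Sum.inr (Sum.inl s)))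
        (funext fun s => e (Sum.inr (Sum.inr s))))⟩
    rintro (i | s | s)
    · exact ⟨(hp i).1.comp DM.fst, (hp i).2.comp fun m => ⟨m, fun γ hγ => hγ.2.1⟩⟩
    · exact ⟨(DM.proj s).comp (DM.fst.comp DM.snd),
        fun m => ⟨m, fun γ hγ => mem_pw.1 hγ.2.2.1 s⟩⟩
    · exact ⟨(DM.proj s).comp (DM.snd.comp DM.snd),
        fun m => ⟨m, fun γ hγ => mem_pw.1 hγ.2.2.2 s⟩⟩
  have key : ∀ S : ℕ → Submodule Λ Λ, Fl P S → Simple P S → NoMap P V S →
      ∀ θ : Λ →ₗ[Λ] (M × (Fin n → Λ) × (Fin n → Λ)), DM P θ → Cont θ S G →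
        Zer ((fst Λ _ _ ∘ₗ snd Λ _ _) ∘ₗ θ) S := fun S s1 s2 s3 θ t1 t2 =>
    Mg2_zer s1.2 fun s => s3.symm hP s1 hA s2 h.ts.simple _
      ((hq.1 (Sum.inr (Sum.inl s))).1.comp t1) ((hq.1 (Sum.inr (Sum.inl s))).2.comp t2)
  obtain ⟨N, hN'⟩ : Zer (fst Λ _ _ ∘ₗ snd Λ _ _) G := by
    refine ssa hP hG (T := T) ?_ hq _ ?_
    · rintro (i | s | s)
      exacts [(hQ i).2.2, h.ts.simple, hS.simple]
    · rintro (i | s | s) θ t1 t2
      · exact key _ (hQ i).1 (hQ i).2.2 (hQ i).2.1 θ t1 t2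
      · obtain ⟨m₁, m1⟩ := t2 (max n₀ k)
        obtain ⟨m, m2, m3⟩ := exists_common hA (fun i => (hQ i).2.1 _
          ((hq.1 (Sum.inl i)).1.comp t1) ((hq.1 (Sum.inl i)).2.comp t2)) m₁
        refine ⟨m, fun ξ hξ => ?_⟩
        obtain ⟨g1, g2, g3, g4⟩ := m1 (hA m2 hξ)
        have e : (θ ξ).1 = 0 := hn₀ _ (hU.2 (le_max_left n₀ k) g2) fun i => m3 i hξ
        refine (hk _ (pw_mono (hA (le_max_right n₀ k)) g3) _
          (pw_mono (hA' (le_max_right n₀ k)) g4) ?_).1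
        rw [← e]
        exact g1
      · exact key _ ⟨h.gen.dV', hA'⟩ hS.simple hN θ t1 t2
  obtain ⟨m, hm⟩ := Mg2_loc h hU h0 hR N
  refine ⟨D, hR.dD, hR.le, m, fun ξ hξ => ?_⟩
  obtain ⟨η, hη⟩ := hm ξ hξ
  obtain rfl : η = 0 := hN' hη
  rw [map_zero] at hη
  exact (hR.fib ξ).1 hη.1

theorem mg_wloc (hP : Reg P) (h : MgSet P x V V' a) (hS : TSb P V' ![1]) (hN : NoMap P V V')
    {Y : ℕ → Submodule Λ Λ} (hY : Fl P Y) (h0 : Null Y) (hG : GG P Y) :
    WLoc P (insert x P) Y := by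
  intro H hH hB
  obtain ⟨D, n, Γ, hR, -, hs'⟩ := red h.gen hH
  obtain ⟨k, hk⟩ := mg_two hP h hS hN hR.dΓ hs'
  let G : ℕ → Submodule Λ (Λ × (Fin n → Λ) × (Fin n → Λ)) := fun m =>
    Γ ⊓ box Λ (pw (Fin n) (V m)) (pw (Fin n) (V' m))
  have hm : ∀ m γ, γ ∈ G m ↔
      γ ∈ Γ ∧ γ.2.1 ∈ pw (Fin n) (V m) ∧ γ.2.2 ∈ pw (Fin n) (V' m) := fun m γ =>
    Submodule.mem_inf.trans (and_congr_right' mem_box)
  have hA : Antitone G := fun m m' e => inf_le_inf_left _ (box_mono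
    (pw_mono (τ := Fin n) (h.gen.tri.anti e)) (pw_mono (τ := Fin n) (h.gen.tri.anti' e)))
  have hd : ∀ m, Def P (G m) := fun m => hR.dΓ.inf ((h.gen.dV m).pw.box (h.gen.dV' m).pw)
  by_contra hn
  have hb : ∀ N, Big Y ((G N).map (fst Λ _ _)) := fun N => by
    by_contra hb
    obtain ⟨m, h1⟩ := Mg2_loc h hY h0 hR N
    refine hn ⟨_, (hd N).map _ RatM.fst, hb, m, fun ξ hξ => ?_⟩
    obtain ⟨η, hη⟩ := h1 ξ hξ
    exact ⟨_, (hm _ _).2 ⟨hη.1, hη.2.2⟩, rfl⟩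
  obtain ⟨θ, t1, t2⟩ := hP.sec (hd k)
  have key : ∀ m, ∃ j, ∀ ξ ∈ Y j, (ξ, θ ξ) ∈ G m := fun m => by
    obtain ⟨j, hj⟩ := hb (max m k)
    refine ⟨j, fun ξ hξ => ?_⟩
    obtain ⟨⟨ξ, η⟩, hγ, rfl⟩ := hj hξ
    have h1 : (ξ, η) ∈ G k := hA (le_max_right m k) hγ
    have h2 := sub_mem (t2 ξ η h1) h1
    rw [Prod.mk_sub_mk, sub_self, hm] at h2
    have h3 := hk _ h2.2.1 _ h2.2.2 h2.1
    have h4 : θ ξ = η := sub_eq_zero.1 (Prod.ext h3.1 h3.2)
    change (ξ, θ ξ) ∈ G m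
    rw [h4]
    exact hA (le_max_left m k) hγ
  have z1 : Zer (fst Λ _ _ ∘ₗ θ) Y := Mg2_zer hY.2 fun s =>
    hG.noMap hY h.ts.ts _ ((DM.proj s).comp (DM.fst.comp t1)) fun m =>
      (key m).imp fun j hj ξ hξ => mem_pw.1 ((hm m (ξ, θ ξ)).1 (hj ξ hξ)).2.1 s
  have z2 : Zer (snd Λ _ _ ∘ₗ θ) Y := Mg2_zer hY.2 fun s =>
    hG.noMap hY hS.ts _ ((DM.proj s).comp (DM.snd.comp t1)) fun m =>
      (key m).imp fun j hj ξ hξ => mem_pw.1 ((hm m (ξ, θ ξ)).1 (hj ξ hξ)).2.2 s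
  obtain ⟨j, hj⟩ := key 0
  obtain ⟨m, m1, m2⟩ := (Big.inf hY.2 z1 z2).ge hY.2 j
  refine hB ⟨m, fun ξ hξ => hR.le ((hR.fib ξ).1 ?_)⟩
  have e : θ ξ = (0, 0) := Prod.ext (m2 hξ).1 (m2 hξ).2
  rw [← e]
  exact (hj ξ (hY.2 m1 hξ)).1

theorem mg_pers (h0 : P₀ ⊆ P) (hP : Reg P) (hP' : Reg (insert x P)) (h : MgSet P x V V' a)
    (hS : TSb P V' ![1]) (hN : NoMap P V V') :
    Pers P₀ P (insert x P) fun Y => NoMap P V Y := by
  exact pers_of_wloc h0 hP hP' (Set.subset_insert x P)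
    (fun M _ _ _ U hU hn hs => mg_loc hP h hS hN (hU.mono h0) hn
      (hs.mono subset_rfl fun Y hY => ⟨hY.1.mono h0, hY.2.1, hY.2.2.1⟩))
    fun Y hY hn hG => mg_wloc hP h hS hN (hY.mono h0) hn hG

end Pool.Agent.Work.MP_c4093f_al.Z
end

-- merged part: Pool.Agent.Work.MP_c4093f_al.Z.Sp4
section
/-!
Splitting steps: first consequences of the local alternative.

Plan.  `ecore`: if every `k ∈ 𝒞` fails at some `m k`, take the maximum `m`; `KK` with the constant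
`C + 1` for the finitely many `comap k (A m)`, and `0 < g j`.  `sl_half`: take `N` beyond the
bounds of `KK` with the constant `3 * C` for the `comap k D`.  In the second case
`cork Y D = cork (Y ⊔ D) D ≥ cork (U j) (comap k D) - cork (U j) (comap k (Y ⊔ D)) ≥ 2 * C * g j`
(`cork_comap_le`), and `cork Y H = cork Y D - (rho (H ⊓ Y) - rho (D ⊓ Y))`.
`sl_cont`: if the first case fails, for `m, N` take `n ≥ m` with `rho (A n) < δ`; `ecore`.
`sp_sl`: `red`, `sp_str2`, `sp_loc`.  `sp_locS`: `sl_cont` and `GG.big`.  `sp_kk`: `sl_half`.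
-/

namespace Pool.Agent.Work.MP_c4093f_al.Z

open LinearMap

variable {Λ : Type} [Ring Λ] [Algebra F Λ] [Dim Λ] {s : ℚ → E Λ} {P : Set (E Λ)} {y e : ℕ → E Λ}
  {U : ℕ → Submodule Λ Λ} {g : ℕ → ℚ} {x : E Λ} {M : Type} [AddCommGroup M] [Module Λ M]
  [Fr Λ M] {H D : Submodule Λ M} {𝒞 : Finset (Λ →ₗ[Λ] M)} {C : ℝ}

theorem Sp4_kk {B : Set (E Λ)} (hK : KK B U g) (hd : ∀ k ∈ 𝒞, DM B k) {X : Submodule Λ M}
    (hX : Def B X) (h : ∀ k ∈ 𝒞, ¬ Big U (X.comap k)) (C : ℝ) :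
    ∃ N, ∀ j ≥ N, ∀ k ∈ 𝒞, C * g j ≤ cork (U j) (X.comap k) :=
  Filter.eventually_atTop.1 ((Filter.eventually_all_finset 𝒞).2 fun k hk =>
    Filter.eventually_atTop.2 (hK _ (hX.comapD (hd k hk)) (h k hk) C))

theorem ecore {B : Set (E Λ)} (hK : KK B U g) (hg : ∀ j, 0 < g j) (hd : ∀ k ∈ 𝒞, DM B k)
    {A : ℕ → Submodule Λ M} (hA : Fl B A)
    (h : ∀ m N, ∃ j ≥ N, ∃ k ∈ 𝒞, cork (U j) ((A m).comap k) ≤ C * g j) :
    ∃ k ∈ 𝒞, Cont k U A := by
  by_contra hn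
  have h1 : ∀ k ∈ 𝒞, ∃ m, ∀ n ≥ m, ¬ Big U ((A n).comap k) := fun k hk => by
    obtain ⟨m, hm⟩ := not_forall.1 fun hc => hn ⟨k, hk, hc⟩
    exact ⟨m, fun n hn' hb => hm (hb.mono (Submodule.comap_mono (hA.2 hn')))⟩
  obtain ⟨m, hm⟩ := Filter.eventually_atTop.1 ((Filter.eventually_all_finset 𝒞).2 fun k hk =>
    Filter.eventually_atTop.2 (h1 k hk))
  obtain ⟨N, hN⟩ := Sp4_kk hK hd (hA.1 m) (hm m le_rfl) (C + 1)
  obtain ⟨j, hj, k, hk, h2⟩ := h m N
  have h3 := hN j hj k hk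
  have h4 : (0 : ℝ) < g j := by exact_mod_cast hg j
  linarith

theorem sl_half (hK : KK (P ∪ Set.range y) U g) (h : SL P y U g H D 𝒞 C) (k : ℕ) :
    ∃ δ > 0, ∀ Y, Def (spB P y k) Y → rho Y < δ → cork Y D ≤ 2 * cork Y H := by
  obtain ⟨N, hN⟩ := Sp4_kk hK h.dm h.dD h.nz (3 * C)
  obtain ⟨δ, hδ, h1⟩ := h.alt k N
  refine ⟨δ, hδ, fun Y hY hY' => ?_⟩
  rcases h1 Y hY hY' with h2 | ⟨j, hj, b, hb, h2, h3⟩
  · have h3 : rho (Y ⊓ H) ≤ rho (Y ⊓ D) := rho_mono fun ξ hξ => ⟨hξ.1, h2 ⟨hξ.2, hξ.1⟩⟩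
    have h4 := cork_nonneg Y H
    simp only [cork] at h4 ⊢
    linarith
  · have h4 := hN j hj b hb
    have h5 := cork_comap_le b (U j) (Y ⊔ D) D
    rw [cork_eq_sup (Y ⊔ D), sup_assoc, sup_idem, ← cork_eq_sup] at h5
    rw [inf_comm H, inf_comm D] at h3
    have h6 : cork Y H = cork Y D - (rho (Y ⊓ H) - rho (Y ⊓ D)) := by
      simp only [cork]
      ring
    linarith

theorem sl_cont (hK : KK (P ∪ Set.range y) U g) (hg : ∀ j, 0 < g j) (h : SL P y U g H D 𝒞 C)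
    {k : ℕ} {A : ℕ → Submodule Λ M} (hA : Fl (spB P y k) A) (h0 : Null A) :
    (∃ n, H ⊓ A n ≤ D) ∨ ∃ b ∈ 𝒞, Cont b U fun n => A n ⊔ D := by
  refine or_iff_not_imp_left.2 fun hn => ecore (C := C) hK hg h.dm
    ((hA.mono (spB_subset P y k)).sup h.dD) fun m N => ?_
  obtain ⟨δ, hδ, h1⟩ := h.alt k N
  obtain ⟨n, h2⟩ := Null.ev hA.2 h0 hδ
  obtain ⟨j, hj, b, hb, h3, -⟩ := (h1 _ (hA.1 (max n m)) (h2 _ (le_max_left n m))).resolve_left
    fun h3 => hn ⟨_, h3⟩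
  exact ⟨j, hj, b, hb, (cork_mono_right _ (Submodule.comap_mono
    (sup_le_sup_right (hA.2 (le_max_right n m)) D))).trans h3⟩

theorem sp_sl (h : SpSet s P y U g e x) (hK : KK (P ∪ Set.range y) U g)
    (hH : Def (insert x (P ∪ Set.range y)) H) :
    ∃ D 𝒞 C, SL P y U g H D 𝒞 C ∧ Larg (P ∪ Set.range y) H D := by
  obtain ⟨D, n, Γ, hR, hL, hS⟩ := red h.gen hH
  obtain ⟨𝒞, C, h1, -⟩ := sp_loc h hK hR (sp_str2 h hS)
  exact ⟨D, 𝒞, C, h1, hL⟩

theorem sp_locS (h : SpSet s P y U g e x) (hG : GG (P ∪ Set.range y) U)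
    (hK : KK (P ∪ Set.range y) U g) {A : ℕ → Submodule Λ M} (hA : Fl P A) (h0 : Null A)
    (hs : SemQ (P ∪ Set.range y) A (TS (P ∪ Set.range y))) :
    Loc (P ∪ Set.range y) (insert x (P ∪ Set.range y)) A := by
  intro H hH
  obtain ⟨D, 𝒞, C, h1, -⟩ := sp_sl h hK hH
  refine ⟨D, h1.dD, h1.le,
    (sl_cont hK h.num.pos h1 (hA.mono (subset_spB P y 0)) h0).resolve_right ?_⟩
  rintro ⟨b, hb, hc⟩
  exact h1.nz b hb (GG.big h.reg (h.num.fl.mono Set.subset_union_left) hG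
    (hA.mono Set.subset_union_left) hs h1.dD (h1.dm b hb) hc)

theorem sp_kk (h : SpSet s P y U g e x) (hK : KK (P ∪ Set.range y) U g)
    {Y : ℕ → Submodule Λ Λ} (hY : Fl P Y) (h0 : Null Y) {g' : ℕ → ℚ}
    (hK' : KK (P ∪ Set.range y) Y g') : KK (insert x (P ∪ Set.range y)) Y g' := by
  intro H hH hB C'
  obtain ⟨D, 𝒞, C, h1, -⟩ := sp_sl h hK hH
  obtain ⟨N, hN⟩ := hK' D h1.dD (fun hb => hB (hb.mono h1.le)) (2 * C')
  obtain ⟨δ, hδ, h2⟩ := sl_half hK h1 0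
  obtain ⟨n, h3⟩ := Null.ev hY.2 h0 hδ
  refine ⟨max N n, fun j hj => ?_⟩
  have h4 := hN j (le_of_max_le_left hj)
  have h5 := h2 _ ((hY.1 j).mono (subset_spB P y 0)) (h3 j (le_of_max_le_right hj))
  linarith

end Pool.Agent.Work.MP_c4093f_al.Z
end

-- merged part: Pool.Agent.Work.MP_c4093f_al.Z.Sp5
section
/-!
Splitting steps: bimodule simplicity persists.

Plan.  `RD.pi`: `rho (U.map (proj i)) ≤ rho U`, apply `loc` in each coordinate.
`sp_bs`: let `H` be not big, `D, Γ` from `red`, `A₀, n₀` from the field `bs` for `D`.  Suppose the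
conclusion fails.  Let `Ω` be the finite type of types, `R = card (A₀ → Ω)`, `b` from the field
`inf`, and `α = A₀ × Option (Fin (R + 1))` with `ā (a, none) = a`, `ā (a, some r) = a * b r`.
Apply `sp_loc` to `RD.pi`, `Str2.pi`, and `sl_cont` to the flag `fmap (pi ā) Y`, definable over
some `spB P y k'`.  The first case at `max n n₀` gives the conclusion for the image of `ā`.  In
the second case we get `h` of type `w`, not zero modulo `pw α D`.  `Reg.sec` on the pairs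
`(ζ, ξ)` with `ξ ∈ Y n₀`, `h ζ - pi ā ξ ∈ pw α D` gives `η`; `ξ` is determined by `ζ`, so `η` is
continuous from `U` to `Y`, not zero on the germ, and `ā i * η` has the type `w (i, ·)` for `Γ`.
Pigeonhole: `r ≠ r'` with equal types for all `a ∈ A₀`; then `a * (b r - b r') * η` maps a member
of `U` into `D` (`fib`), so `(b r - b r') * η` is zero on the germ, and so is `η` (field `inj`).
-/

namespace Pool.Agent.Work.MP_c4093f_al.Z

open LinearMap

variable {Λ : Type} [Ring Λ] [Algebra F Λ] {M σ : Type} [AddCommGroup M] [Module Λ M]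

omit [Algebra F Λ] in
/-- the power of a local description -/
def piG (α : Type) (Γ : Submodule Λ (M × (σ → Λ) × (σ → Λ))) :
    Submodule Λ ((α → M) × (α × σ → Λ) × (α × σ → Λ)) :=
  ⨅ i : α, Γ.comap ((proj i).prodMap
    ((funLeft Λ Λ (Prod.mk i)).prodMap (funLeft Λ Λ (Prod.mk i))))

omit [Algebra F Λ] in
theorem Sp5_mem {α : Type} {Γ : Submodule Λ (M × (σ → Λ) × (σ → Λ))}
    {γ : (α → M) × (α × σ → Λ) × (α × σ → Λ)} :
    γ ∈ piG α Γ ↔ ∀ i, (γ.1 i, (fun t => γ.2.1 (i, t)), fun t => γ.2.2 (i, t)) ∈ Γ := by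
  rw [piG, Submodule.mem_iInf]
  rfl

theorem Str2.pi {α : Type} {U : ℕ → Submodule Λ Λ} {c : E Λ}
    {Γ : Submodule Λ (M × (σ → Λ) × (σ → Λ))} (h : Str2 U c Γ) : Str2 U c (piG α Γ) := by
  intro w hw j
  obtain ⟨⟨i, t⟩, hi⟩ := Function.ne_iff.1 hw
  obtain ⟨h1, h2⟩ := h (fun t => w (i, t)) (Function.ne_iff.2 ⟨t, hi⟩) j
  exact ⟨fun q => h1 fun ζ hζ => Sp5_mem.1 (q ζ hζ) i,
    fun q => h2 fun ζ hζ => ⟨Sp5_mem.1 (q ζ hζ).1 i, Sp5_mem.1 (q ζ hζ).2 i⟩⟩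

variable [Dim Λ] [Fr Λ M] [Fintype σ] {s : ℚ → E Λ} {P : Set (E Λ)} {y e : ℕ → E Λ}
  {U : ℕ → Submodule Λ Λ} {g : ℕ → ℚ} {x : E Λ}

theorem RD.pi {α : Type} [Fintype α] {V : ℕ → Submodule Λ Λ} {H D : Submodule Λ M}
    {Γ : Submodule Λ (M × (σ → Λ) × (σ → Λ))} (h : RD P x V H D Γ) :
    RD P x V (pw α H) (pw α D) (piG α Γ) where
  fg := fg_pi fun _ => h.fg
  dD := h.dD.pw
  dΓ := Def.iInf fun i => Def.comap _
    ((RatM.proj i).prodMap ((RatM.funLeft _).prodMap (RatM.funLeft _))) h.dΓ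
  le := pw_mono h.le
  fib := fun ξ => by
    rw [Sp5_mem, mem_pw]
    exact forall_congr' fun i => h.fib (ξ i)
  loc := fun N => by
    obtain ⟨δ, hδ, hl⟩ := h.loc N
    refine ⟨δ, hδ, fun X hX hr ξ hξ => ?_⟩
    choose η h1 h2 using fun i => hl (X.map (proj i)) (Def.map _ (RatM.proj i) hX)
      ((rho_map_le _ _).trans_lt hr) (ξ i) ⟨mem_pw.1 hξ.1 i, ξ, hξ.2, rfl⟩
    exact ⟨fun p => η p.1 p.2, mem_pw.2 fun p => mem_pw.1 (h1 p.1) p.2, Sp5_mem.2 h2⟩

theorem Sp5_sec {B : Set (E Λ)} (hR : Reg B) {N : Type} [AddCommGroup N] [Module Λ N] [Fr Λ N]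
    {Y : ℕ → Submodule Λ Λ} (hY : Fl B Y) {D : Submodule Λ N} (hD : Def B D)
    {k f : Λ →ₗ[Λ] N} (hk : DM B k) (hf : DM B f) {n₀ : ℕ}
    (h0 : ∀ ξ ∈ Y n₀, f ξ ∈ D → ξ = 0) (hc : Cont k U fun n => fmap f Y n ⊔ D) :
    ∃ η : E Λ, Cont η U Y ∧ ∃ j, ∀ ζ ∈ U j, k ζ - f (η ζ) ∈ D := by
  obtain ⟨η, -, hη⟩ := hR.sec (Γ := (Y n₀).comap (snd Λ Λ Λ) ⊓
    D.comap (k ∘ₗ fst Λ Λ Λ - f ∘ₗ snd Λ Λ Λ)) (Def.inf ((hY.1 n₀).comapD DM.snd)
      (hD.comapD ((hk.comp DM.fst).sub (hf.comp DM.snd))))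
  have key : ∀ m, ∃ j, ∀ ζ ∈ U j, η ζ ∈ Y m ∧ k ζ - f (η ζ) ∈ D := by
    intro m
    obtain ⟨j, hj⟩ := hc (max m n₀)
    refine ⟨j, fun ζ hζ => ?_⟩
    obtain ⟨_, ⟨ξ, h1, rfl⟩, d, h2, h3⟩ := Submodule.mem_sup.1 (hj hζ)
    have h4 : k ζ - f ξ ∈ D := by
      rw [← h3, add_sub_cancel_left]
      exact h2
    have h5 : ξ ∈ Y n₀ := hY.2 (le_max_right _ _) h1
    obtain ⟨h6, h7⟩ := hη ζ ξ ⟨h5, h4⟩
    have h6' : η ζ ∈ Y n₀ := h6
    have h7' : k ζ - f (η ζ) ∈ D := h7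
    have h8 := h0 (η ζ - ξ) (Submodule.sub_mem _ h6' h5) (by
      have := D.sub_mem h4 h7'
      rwa [sub_sub_sub_cancel_left, ← map_sub] at this)
    refine ⟨?_, h7'⟩
    rw [sub_eq_zero.1 h8]
    exact hY.2 (le_max_left _ _) h1
  refine ⟨η, fun m => ?_, ?_⟩
  · obtain ⟨j, hj⟩ := key m
    exact ⟨j, fun ζ hζ => (hj ζ hζ).1⟩
  · obtain ⟨j, hj⟩ := key 0
    exact ⟨j, fun ζ hζ => (hj ζ hζ).2⟩

theorem sp_bs (h : SpSet s P y U g e x) (hK : KK (P ∪ Set.range y) U g) {k : ℕ}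
    {Y : ℕ → Submodule Λ Λ} (hY : Fl (spB P y k) Y) (h0 : Null Y) {I : Set (E Λ)}
    (hB : BS (P ∪ Set.range y) Y I) : BS (insert x (P ∪ Set.range y)) Y I := by
  classical
  refine ⟨fun a ha => (hB.dm a ha).mono (Set.subset_insert _ _), hB.cont, hB.mul, hB.sub, hB.inj,
    hB.inf, fun H hH hn => ?_⟩
  obtain ⟨D, n, Γ, hR, -, hS⟩ := red h.gen hH
  obtain ⟨A₀, hA, n₀, hA0⟩ := hB.bs D hR.dD fun q => hn (q.mono hR.le)
  obtain ⟨b, hb, hbb⟩ := hB.inf
  obtain ⟨R, hRc⟩ : ∃ R, R = Fintype.card (A₀ → (Fin n → F) × (Fin n → F) × (Fin n → F)) :=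
    ⟨_, rfl⟩
  let a : A₀ × Option (Fin (R + 1)) → E Λ := fun i =>
    i.2.elim i.1.1 fun r => i.1.1 * b r
  have haI : ∀ i, a i ∈ I := by
    rintro ⟨i, _ | r⟩
    · exact hA _ i.2
    · exact hB.mul _ (hA _ i.2) _ (hb r)
  have hf : DM (P ∪ Set.range y) (LinearMap.pi a) := DM.pi fun i => hB.dm _ (haI i)
  have hf0 : ∀ ξ ∈ Y n₀, LinearMap.pi a ξ ∈ pw (A₀ × Option (Fin (R + 1))) D → ξ = 0 :=
    fun ξ hξ q => hA0 ξ hξ fun c hc => mem_pw.1 q (⟨c, hc⟩, none)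
  obtain ⟨k₁, hk₁⟩ := Def.spB hf
  have hfl : Fl (spB P y (max k k₁)) (fmap (LinearMap.pi a) Y) :=
    (hY.mono (spB_mono P y (le_max_left _ _))).fmap
      (Def.mono (spB_mono P y (le_max_right _ _)) hk₁)
  obtain ⟨𝒞, C, hL, hT⟩ := sp_loc h hK (hR.pi (α := A₀ × Option (Fin (R + 1))))
    (sp_str2 h hS).pi
  rcases sl_cont hK h.num.pos hL hfl (h0.fmap _) with ⟨m, hm⟩ | ⟨t, ht, hc⟩
  · refine ⟨Finset.univ.image a, fun c hc => ?_, max m n₀, fun ξ hξ q => ?_⟩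
    · obtain ⟨i, -, rfl⟩ := Finset.mem_image.1 hc
      exact haI i
    · exact hf0 ξ (hY.2 (le_max_right _ _) hξ) (hm ⟨mem_pw.2 fun i =>
        q _ (Finset.mem_image_of_mem a (Finset.mem_univ i)), ξ, hY.2 (le_max_left _ _) hξ, rfl⟩)
  exfalso
  have hU := h.num.fl.2
  obtain ⟨η, hη, j₀, hj₀⟩ := Sp5_sec h.reg (hY.mono (spB_subset P y k)) hL.dD (hL.dm t ht) hf hf0 hc
  obtain ⟨w, j₁, hw⟩ := hT t ht
  obtain ⟨r, r', hrr, hw'⟩ := Fintype.exists_ne_map_eq_of_card_lt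
    (fun (r : Fin (R + 1)) (c : A₀) => ((fun u => w.1 ((c, some r), u),
      fun u => w.2.1 ((c, some r), u), fun u => w.2.2 ((c, some r), u)) :
        (Fin n → F) × (Fin n → F) × (Fin n → F))) (by rw [← hRc]; simp)
  have hβ : b r - b r' ∈ I := hB.sub _ (hb r) _ (hb r')
  have hz : Zer ((b r - b r') ∘ₗ η) U := by
    obtain ⟨j₂, hj₂⟩ := (hB.cont _ hβ).comp hη n₀
    refine ⟨max j₀ (max j₁ j₂), fun ζ hζ => ?_⟩
    have m0 := hj₀ ζ (hU (le_max_left _ _) hζ)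
    have m1 := hw ζ (hU ((le_max_left _ _).trans (le_max_right _ _)) hζ)
    refine hA0 _ (hj₂ (hU ((le_max_right _ _).trans (le_max_right _ _)) hζ)) fun c hc => ?_
    have e := congrFun hw' ⟨c, hc⟩
    have e1 := congrArg Prod.fst e
    have e2 := congrArg (fun z => z.2.1) e
    have e3 := congrArg (fun z => z.2.2) e
    have g1 := Γ.sub_mem (Sp5_mem.1 m1 (⟨c, hc⟩, some r)) (Sp5_mem.1 m1 (⟨c, hc⟩, some r'))
    have g2 : t ζ (⟨c, hc⟩, some r) - t ζ (⟨c, hc⟩, some r') ∈ D := by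
      refine (hR.fib _).1 ?_
      convert g1 using 1
      refine Prod.ext rfl (Prod.ext (funext fun u => ?_) (funext fun u => ?_))
      · have := congrFun e1 u
        simp only at this
        simp [this]
      · have t2 := congrFun e2 u
        have t3 := congrFun e3 u
        simp only at t2 t3
        simp [t2, t3]
    have g3 : t ζ (⟨c, hc⟩, some r) - c (b r (η ζ)) ∈ D := mem_pw.1 m0 (⟨c, hc⟩, some r)
    have g4 : t ζ (⟨c, hc⟩, some r') - c (b r' (η ζ)) ∈ D := mem_pw.1 m0 (⟨c, hc⟩, some r')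
    have g5 := D.add_mem (D.sub_mem g2 g3) g4
    convert g5 using 1
    simp only [LinearMap.comp_apply, LinearMap.sub_apply, map_sub]
    abel
  rcases hB.inj _ hβ with q | ⟨m, hm⟩
  · exact hbb r r' (fun q' => hrr (Fin.ext q')) q
  · obtain ⟨j₃, hj₃⟩ : Zer η U := Zer.of_inj hU hη (n := m) (fun ξ hξ q => by
      have : ξ ∈ ker (b r - b r') ⊓ Y m := ⟨q, hξ⟩
      rwa [hm] at this) hz
    refine hL.nz t ht ⟨max j₀ j₃, fun ζ hζ => ?_⟩
    have m0 := hj₀ ζ (hU (le_max_left _ _) hζ)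
    have m1 : η ζ = 0 := hj₃ (hU (le_max_right _ _) hζ)
    rwa [m1, map_zero, sub_zero] at m0

end Pool.Agent.Work.MP_c4093f_al.Z
end

-- merged part: Pool.Agent.Work.MP_c4093f_al.Z.Sp6
section
/-!
Splitting steps: the absence of tame simple submodules persists.  Write `B = P ∪ range y`,
`B' = insert x B`.

Plan.  Let `fmap a Y` be simple and tame over `B'`, `H = ker a`, `D, 𝒞, C` from `sp_sl`, `d` from
`Reg.exists_ker` for `D` (so `a * d = a`).  `D` is not big.  First case of `sl_cont`: `gg_loc`.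
Otherwise choose among the `b ∈ 𝒞` that are continuous to `Y n ⊔ D` one that is minimal for the
preorder `b' ≼ b := Cont b' U fun n => (U n).map b ⊔ D`.  The flag `fmap (a * b) U` refines
`fmap a Y` and is proper (`Larg` and `nz`), so it is simple and tame over `B'` (`Simple.cof`).
Let `Y₁ = fmap (d * b) U`, a null flag over some `spB P y k`.
Case `Simple B Y₁`: not tame by `GG B U`; `bs_of_not_tame`, `sp_bs`, `BS.gg` give `GG B' Y₁`,
but `fmap a Y₁ = fmap (a * b) U`.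
Other case: a definable `X`, not big for `Y₁`, meets every `Y₁ n`.  Let `X' = comap (d * b) X`,
`A n = (X' ⊓ U n).map b ⊔ D`.  The flag `fmap (a * b) (X' ⊓ U n)` is proper (`Larg`), hence
cofinal with `fmap (a * b) U`: for `n` there is `j ≥ n` with `(U j).map b ≤ (X' ⊓ U n).map b ⊔ H`.
Apply `alt` to `Z = (U j).map b ⊔ (X' ⊓ U n).map b` for `n` large.  First case: `Y₁ j ≤ X`, absurd.
Second case: `Z ⊔ D = (H ⊓ Z) ⊔ A n`, so `cork (Z ⊔ D) (A n) ≤ rho (H ⊓ Z) - rho (D ⊓ Z)`, and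
`cork_comap_le` gives the hypothesis of `ecore` for `A` with `2 * C`.  The map `b'` so obtained
has `b' ≼ b` and is continuous to `Y n ⊔ D`, so `b ≼ b'`, which gives `Y₁ j ≤ X`.
-/

namespace Pool.Agent.Work.MP_c4093f_al.Z

open LinearMap

theorem Sp6_min {α : Type} (S : Finset α) (hS : S.Nonempty) (r : α → α → Prop) (hr : ∀ a, r a a)
    (ht : ∀ a b c, r a b → r b c → r a c) : ∃ b ∈ S, ∀ b' ∈ S, r b' b → r b b' := by
  classical
  obtain ⟨b, hb, h⟩ := S.exists_min_image (fun b => (S.filter fun c => r c b).card) hS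
  refine ⟨b, hb, fun b' hb' k => ?_⟩
  have e := Finset.eq_of_subset_of_card_le (s := S.filter fun c => r c b')
    (t := S.filter fun c => r c b)
    (fun c hc => Finset.mem_filter.2 ⟨(Finset.mem_filter.1 hc).1,
      ht _ _ _ (Finset.mem_filter.1 hc).2 k⟩) (h b' hb')
  exact (Finset.mem_filter.1 (e ▸ Finset.mem_filter.2 ⟨hb, hr b⟩ : b ∈ S.filter fun c => r c b')).2

theorem Sp6_trans {Λ : Type} [Ring Λ] {U W : ℕ → Submodule Λ Λ} {D : Submodule Λ Λ} {b b' : E Λ}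
    (h : Cont b' U fun n => (U n).map b ⊔ D) (h' : Cont b U fun n => W n ⊔ D) :
    Cont b' U fun n => W n ⊔ D := fun m => by
  obtain ⟨n, hn⟩ := h' m
  exact (h n).mono (Submodule.comap_mono (sup_le (Submodule.map_le_iff_le_comap.2 hn) le_sup_right))

theorem Sp6_cork {Λ : Type} [Ring Λ] [Dim Λ] {H D Z A : Submodule Λ Λ} (h1 : D ≤ H) (h2 : D ≤ A)
    (h3 : Z ≤ H ⊓ Z ⊔ A) : cork (Z ⊔ D) A ≤ rho (H ⊓ Z) - rho (D ⊓ Z) := by
  have k1 := cork_mono_left (sup_le h3 (h2.trans le_sup_right)) A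
  rw [cork_eq_sup (H ⊓ Z ⊔ A), sup_assoc, sup_idem, ← cork_eq_sup, cork.eq_1 (H ⊓ Z)] at k1
  have k2 : rho (D ⊓ Z) ≤ rho (H ⊓ Z ⊓ A) :=
    rho_mono (le_inf (inf_le_inf_right Z h1) (inf_le_left.trans h2))
  linarith

variable {Λ : Type} [Ring Λ] [Algebra F Λ] [Dim Λ] {s : ℚ → E Λ} {P₀ P : Set (E Λ)}
  {y e : ℕ → E Λ} {U : ℕ → Submodule Λ Λ} {g : ℕ → ℚ} {x : E Λ}

theorem sp_gg (h : SpSet s P y U g e x) (hP' : Reg (insert x (P ∪ Set.range y)))
    (hG : GG (P ∪ Set.range y) U) (hK : KK (P ∪ Set.range y) U g) {Y : ℕ → Submodule Λ Λ}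
    (hY : Fl P Y) (h0 : Null Y) (hGY : GG (P ∪ Set.range y) Y) :
    GG (insert x (P ∪ Set.range y)) Y := by
    intro a ha hT
    have hBB : P ∪ Set.range y ⊆ insert x (P ∪ Set.range y) := Set.subset_insert _ _
    have hPB : P ⊆ P ∪ Set.range y := Set.subset_union_left
    obtain ⟨D, 𝒞, C, hS, hL⟩ := sp_sl h hK ha.ker
    obtain ⟨d, hd, hkd, hdd⟩ := h.reg.exists_ker hS.dD
    have had : a * d = a := LinearMap.ext fun ξ => by
      have := hS.le (hdd ξ)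
      rw [mem_ker, map_sub, sub_eq_zero] at this
      exact this.symm
    have hU := h.num.fl
    have hUB := hU.mono hPB
    have hU0 := h.num.null
    rcases sl_cont hK h.num.pos hS (hY.mono (subset_spB P y 0)) h0 with ⟨n, hn⟩ | hc
    · refine gg_loc h.reg hP' hBB (hY.mono (hPB.trans hBB)) hGY ha hS.dD ?_ hn hT
      rintro ⟨m, hm⟩
      exact hT.1.1 m (le_bot_iff.1 (Submodule.map_le_iff_le_comap.2 (hm.trans hS.le)))
    classical
    obtain ⟨b, hb, hmin⟩ := Sp6_min (𝒞.filter fun b => Cont b U fun n => Y n ⊔ D)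
      (hc.imp fun b k => Finset.mem_filter.2 k) (fun b' b => Cont b' U fun n => (U n).map b ⊔ D)
      (fun b => (cont_fmap b U).mono fun _ => le_sup_left) fun _ _ _ => Sp6_trans
    obtain ⟨hb, hbc⟩ := Finset.mem_filter.1 hb
    have hbd := hS.dm b hb
    have hab : DM (insert x (P ∪ Set.range y)) (a * b) := ha.mul (hbd.mono hBB)
    have hdb : DM (P ∪ Set.range y) (d * b) := hd.mul hbd
    have hprop : ∀ Z, Def (P ∪ Set.range y) Z → Z.map (a * b) = ⊥ → Z ≤ D.comap b := fun Z k1 k2 =>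
      Submodule.map_le_iff_le_comap.1 (hL.2.2 _ (k1.mapD hbd) (by
        rintro _ ⟨ζ, k3, rfl⟩
        exact (Submodule.eq_bot_iff _).1 k2 _ ⟨ζ, k3, rfl⟩))
    have hne : ∀ n, fmap (a * b) U n ≠ ⊥ := fun n k => hS.nz b hb ⟨n, hprop _ (hUB.1 n) k⟩
    have hT1 : TS (insert x (P ∪ Set.range y)) (fmap (a * b) U) := by
      refine (hT.1.cof ((hUB.mono hBB).fmap hab) hne fun m => ?_).ts hT
      obtain ⟨n, hn⟩ := hbc m
      refine ⟨n, ?_⟩
      rintro _ ⟨ζ, k, rfl⟩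
      obtain ⟨ξ, k1, η, k2, k3⟩ := Submodule.mem_sup.1 (hn k)
      refine ⟨ξ, k1, ?_⟩
      rw [Module.End.mul_apply, ← k3, map_add, mem_ker.1 (hS.le k2), add_zero]
    have hfm : fmap a (fmap (d * b) U) = fmap (a * b) U := by
      rw [← fmap_comp, ← Module.End.mul_eq_comp, ← mul_assoc, had]
    by_cases hs : Simple (P ∪ Set.range y) (fmap (d * b) U)
    · obtain ⟨k, hk⟩ := Def.spB hdb
      have h1 := bs_of_not_tame (anti_fmap hU.2) hs fun k => hG _ hdb ⟨hs, k⟩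
      have h2 := sp_bs h hK ((hU.mono (subset_spB P y k)).fmap hk) (hU0.fmap _) h1
      exact h2.gg hP' ((hUB.fmap hdb).mono hBB) a ha (hfm ▸ hT1)
    obtain ⟨X, hX, hX1, hX2⟩ : ∃ X, Def (P ∪ Set.range y) X ∧ ¬ Big (fmap (d * b) U) X ∧
        ∀ n, X ⊓ fmap (d * b) U n ≠ ⊥ := by
      by_contra k
      refine hs ⟨fun n k1 => hne n ?_, fun X k1 => by_contra fun k2 => k ⟨X, k1, fun k3 => k2 (Or.inl k3),
        fun n k3 => k2 (Or.inr ⟨n, k3⟩)⟩⟩
      rw [← hfm, fmap, k1, Submodule.map_bot]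
    have hX' := hX.comapD hdb
    have hend : ∀ j, ¬ ∀ ζ ∈ U j, ∃ ζ' ∈ X.comap (d * b), b ζ - b ζ' ∈ D := fun j k => hX1 ⟨j, by
      rintro _ ⟨ζ, k1, rfl⟩
      obtain ⟨ζ', k2, k3⟩ := k ζ k1
      rw [← hkd, mem_ker, map_sub, sub_eq_zero] at k3
      rw [Module.End.mul_apply, k3]
      exact k2⟩
    have hXm : ∀ ζ, ζ ∈ X.comap (d * b) → d (b ζ) ∈ X := fun _ k => k
    have hX3 : ∀ n, ¬ X.comap (d * b) ⊓ U n ≤ D.comap b := fun n k => hX2 n (by
      refine (Submodule.eq_bot_iff _).2 ?_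
      rintro _ ⟨k1, ζ, k2, rfl⟩
      have := k ⟨k1, k2⟩
      rwa [← hkd] at this)
    generalize X.comap (d * b) = X' at hX' hend hX3
    have hF := hUB.inf hX'
    have hcof := hT1.1.cof ((hF.mono hBB).fmap hab) (fun n k => hX3 n (hprop _ (hF.1 n) k))
      fun m => ⟨m, Submodule.map_mono inf_le_right⟩
    obtain ⟨k1, hk1⟩ := Def.spB hbd
    obtain ⟨k2, hk2⟩ := Def.spB hX'
    have l1 : DM (spB P y (max k1 k2)) b := hk1.mono (spB_mono P y (le_max_left _ _))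
    have l2 := hk2.mono (spB_mono P y (le_max_right k1 k2))
    have l3 := hU.mono (subset_spB P y (max k1 k2))
    have hA := (hF.fmap hbd).sup hS.dD
    obtain ⟨b', hb', hc'⟩ := ecore (C := 2 * C) hK h.num.pos hS.dm hA fun m N => by
      obtain ⟨δ, hδ, halt⟩ := hS.alt (max k1 k2) N
      obtain ⟨n0, hn0⟩ := hU0.ev hU.2 hδ
      obtain ⟨j, hj, hjn⟩ := (hcof.1 (max m n0)).ge (anti_fmap hU.2) (max m n0)
      have m1 : ∀ ζ ∈ U j, ∃ ζ' ∈ X' ⊓ U (max m n0),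
          b ζ - b ζ' ∈ ker a ⊓ ((U j).map b ⊔ (X' ⊓ U (max m n0)).map b) := fun ζ k => by
        obtain ⟨ζ', k3, k4⟩ := hjn ⟨ζ, k, rfl⟩
        refine ⟨ζ', k3, ?_, sub_mem (Submodule.mem_sup_left ⟨ζ, k, rfl⟩)
          (Submodule.mem_sup_right ⟨ζ', k3, rfl⟩)⟩
        exact mem_ker.2 (by rw [map_sub]; exact sub_eq_zero.2 k4.symm)
      rcases halt ((U j).map b ⊔ (X' ⊓ U (max m n0)).map b)
        (((l3.1 j).mapD l1).sup ((l2.inf (l3.1 _)).mapD l1))
        (((rho_mono (sup_le (Submodule.map_mono (hU.2 hj)) (Submodule.map_mono inf_le_right))).trans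
          (rho_map_le b _)).trans_lt (hn0 _ (le_max_right _ _))) with k | ⟨j', hj', c, hc1, hc2, hc3⟩
      · refine absurd (fun ζ k3 => ?_) (hend j)
        obtain ⟨ζ', k4, k5⟩ := m1 ζ k3
        exact ⟨ζ', k4.1, k k5⟩
      refine ⟨j', hj', c, hc1, ?_⟩
      have m2 := cork_mono_right (U j') (Submodule.comap_mono (f := c) (hA.2 (le_max_left m n0)))
      have m3 := cork_comap_le c (U j') ((U j).map b ⊔ (X' ⊓ U (max m n0)).map b ⊔ D)
        ((X' ⊓ U (max m n0)).map b ⊔ D)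
      have m4 := Sp6_cork (Z := (U j).map b ⊔ (X' ⊓ U (max m n0)).map b)
        (A := (X' ⊓ U (max m n0)).map b ⊔ D) hS.le le_sup_right (sup_le (by
          rintro _ ⟨ζ, k3, rfl⟩
          obtain ⟨ζ', k4, k5⟩ := m1 ζ k3
          exact Submodule.mem_sup.2 ⟨_, k5, b ζ', Submodule.mem_sup_left ⟨ζ', k4, rfl⟩,
            sub_add_cancel _ _⟩) (le_sup_left.trans le_sup_right))
      refine m2.trans (m3.trans ?_)
      linarith
    have n1 : Cont b' U fun n => (U n).map b ⊔ D :=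
      hc'.mono fun n => sup_le_sup_right (Submodule.map_mono inf_le_right) D
    obtain ⟨j, hj⟩ := Sp6_trans (hmin b' (Finset.mem_filter.2 ⟨hb', Sp6_trans n1 hbc⟩) n1) hc' 0
    refine hend j fun ζ k => ?_
    obtain ⟨_, ⟨ζ', k3, rfl⟩, η, k4, k5⟩ := Submodule.mem_sup.1 (hj k)
    exact ⟨ζ', k3.1, by rw [← k5, add_sub_cancel_left]; exact k4⟩

theorem sp_pers (h0 : P₀ ⊆ P) (h : SpSet s P y U g e x) (hP' : Reg (insert x (P ∪ Set.range y)))
    (hG : GG (P ∪ Set.range y) U) (hK : KK (P ∪ Set.range y) U g) :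
    Pers P₀ (P ∪ Set.range y) (insert x (P ∪ Set.range y)) fun _ => True := by
    exact pers_mk h.reg (Set.subset_insert _ _)
      (fun _ _ _ _ _ hA hn hs => sp_locS h hG hK (hA.mono h0) hn (hs.mono subset_rfl fun _ k => k.2.2))
      (fun _ hY hn k => sp_gg h hP' hG hK (hY.mono h0) hn k)
      (fun _ _ hY hn k => sp_bs h hK (hY.mono (h0.trans (subset_spB P y 0))) hn k)
      fun _ _ hY hn _ k => sp_kk h hK (hY.mono h0) hn k

end Pool.Agent.Work.MP_c4093f_al.Z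
end

-- merged part: Pool.Agent.Work.MP_c4093f_al.Z.Step
section
/-!
One step of the system.

Plan.  `gen_mg`, `gen_sp`: `Lay.gen` with `free_ly`.  `pers0`: `FreeSeq.pers0` twice, then
`Gen.pers0` or `Pers0.of_dm` (when `x β = 0`), `Pers0.trans`, `G_insert`.  `ratRk`, `rperp`,
`minO`: `chain_ind` with `Amb.lim`, starting from `ratRk_base`, `rperp_base` and `free_base`.
`reg_*`: `reg_of_spare`.  `pers`: `Loc0.pers` from `G D` to `B D β` (`FreeSeq.loc0`,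
`Loc0.trans`) transports the hypotheses of `Valid` and the simple module to `B D β`; then
`mg_pers` (move between `T β` and `d.V`, `Zf` and `d.V'` by the `Cof` lemmas; the side condition
of `Pers.trans` is the field `nm`), `sp_pers`, or `Pers.of_dm`; join with `Pers.trans`.
`sgen`, `kill`: take `D = C β`; `mg_one` needs `TSb (B D β) d.V d.a`, which comes from `TSb.anti`
and the free extension; `sp_kill`, `Cof.kill`.
-/

namespace Pool.Agent.Work.MP_c4093f_al.Z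

open LinearMap

variable {Λ : Type} [Ring Λ] [Algebra F Λ] [Dim Λ] {I : Type} [LinearOrder I] [WellFoundedLT I]
  (S : Sys Λ I) {C D : Set I} {β : I}

theorem Sys.Step_sub (D : Set I) (β : I) : S.G D ⊆ S.B D β :=
  Set.subset_union_left.trans Set.subset_union_left

theorem Sys.Step_md (hm : S.Mg β) : Nonempty (S.MD β) := (S.spec β).1 hm

theorem Sys.Step_sd (hs : S.Sp β) : Nonempty (S.SD β) := (S.spec β).2.1 hs

theorem Sys.Step_zero (hm : ¬ S.Mg β) (hs : ¬ S.Sp β) : S.x β = 0 := (S.spec β).2.2 hm hs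

theorem Sys.Step_ins (D : Set I) (β : I) : S.G (insert β D) = insert (S.x β) (S.B D β) :=
  S.A.G_insert S.x D β

theorem Sys.Step_dm (h0 : S.x β = 0) (D : Set I) :
    ∀ a ∈ insert (S.x β) (S.B D β), DM (S.B D β) a := by
  rintro a (rfl | ha)
  · rw [h0]; exact DM.zero
  · exact DM.of_mem ha

theorem Sys.gen_mg (h : S.New D β) (hm : S.Mg β) (d : S.MD β) :
    Gen (S.B D β) (S.x β) d.V d.V' :=
  d.lay.gen d.fl d.fl' (d.cof.symm.null hm.2.2.2.2.1) (d.cof'.symm.null S.A.chain.null_Zf) d.top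
    ((S.A.G_mono S.x h.2.2).trans (S.Step_sub D β)) (S.free_ly h.1 h.2.1)

theorem Sys.gen_sp (h : S.New D β) (d : S.SD β) : Gen (S.B D β) (S.x β)
    (spV S.A.s d.U d.g d.e (S.A.yy β 0)) (spV' S.A.s d.U d.g d.e (S.A.yy β 0)) := by
  obtain ⟨h1, h2, h3, h4⟩ := d.num.fl_spV (S.A.base_G S.x _) (S.A.yy β 0)
  exact d.lay.gen h1 h2 h3 h4 rfl (Set.union_subset_union_left _
    ((S.A.G_mono S.x h.2.2).trans Set.subset_union_left)) (S.free_ly h.1 h.2.1)

theorem Sys.Step_p1 (h : S.X.Closed D) (hβ : β ∉ D) :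
    Pers0 S.A.s (S.G D) (S.G D ∪ Set.range (S.A.yy β 1)) :=
  (S.free_sp h hβ).pers0 S.A.chain (S.A.base_G S.x D)

theorem Sys.Step_p2 (h : S.X.Closed D) (hβ : β ∉ D) : Pers0 S.A.s (S.G D) (S.B D β) :=
  Pers0.trans Set.subset_union_left (S.Step_p1 h hβ) ((S.free_fl h hβ).pers0 S.A.chain
    ((S.A.base_G S.x D).trans Set.subset_union_left))

theorem Sys.pers0 (h : S.New D β) : Pers0 S.A.s (S.G D) (S.G (insert β D)) := by
  rw [S.Step_ins]
  have hb := (S.A.base_G S.x D).trans (S.Step_sub D β)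
  refine Pers0.trans (S.Step_sub D β) (S.Step_p2 h.1 h.2.1) ?_
  by_cases hm : S.Mg β
  · obtain ⟨d⟩ := S.Step_md hm
    exact (S.gen_mg h hm d).pers0 S.A.chain hb
  by_cases hs : S.Sp β
  · obtain ⟨d⟩ := S.Step_sd hs
    exact (S.gen_sp h d).pers0 S.A.chain hb
  · exact Pers0.of_dm (Set.subset_insert _ _) (S.Step_dm (S.Step_zero hm hs) D)

omit [WellFoundedLT I] in
theorem Sys.Step_new (hC : S.X.Closed C) (hD : S.X.Closed D) (hβ : β ∈ D) (hβC : β ∉ C) :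
    S.New (C ∪ D ∩ Set.Iio β) β :=
  ⟨hC.union (hD.inter (S.X.closed_Iio β)), fun h => h.elim hβC fun h => lt_irrefl _ h.2,
    fun _ hγ => Or.inr ⟨hD β hβ hγ, S.X.C_lt hγ⟩⟩

theorem Sys.Step_ind {φ : Set (E Λ) → Prop} (hφ : Lim φ) (hC : S.X.Closed C) (hD : S.X.Closed D)
    (h : C ⊆ D) (h0 : φ (S.G C))
    (hs : ∀ D' β, S.New D' β → φ (S.G D') → φ (S.G (insert β D'))) : φ (S.G D) :=
  S.X.chain_ind (fun D => φ (S.G D)) hC hD h h0 (fun _ h => S.A.lim hφ h)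
    fun β hβ hβC => hs _ β (S.Step_new hC hD hβ hβC)

theorem Sys.Step_p0 : Pers0 S.A.s (Set.range S.A.s) (S.G ∅) := by
  have := S.free_base.pers0 S.A.chain subset_rfl
  rwa [← S.A.G_empty S.x] at this

theorem Sys.ratRk (h : S.X.Closed D) : RatRk (S.G D) :=
  S.Step_ind lim_ratRk S.X.closed_empty h (Set.empty_subset _)
    (S.Step_p0.rat (ratRk_base S.A.chain)) fun _ _ hn => (S.pers0 hn).rat

theorem Sys.rperp (h : S.X.Closed D) : RPerp S.A.s (S.G D) :=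
  S.Step_ind (lim_rperp _) S.X.closed_empty h (Set.empty_subset _)
    (S.Step_p0.rp (rperp_base S.A.chain)) fun _ _ hn => (S.pers0 hn).rp

theorem Sys.minO (hC : S.X.Closed C) (hD : S.X.Closed D) (h : C ⊆ D) : MinO (S.G C) (S.G D) :=
  S.X.chain_ind (fun D => MinO (S.G C) (S.G D)) hC hD h (MinO.refl _)
    (fun _ h => S.A.lim (lim_minO _) h) fun _ hβ hβC h1 =>
      h1.trans (S.A.G_mono S.x Set.subset_union_left) (S.pers0 (S.Step_new hC hD hβ hβC)).min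

theorem Sys.reg (h : S.X.Closed D) : Reg (S.G D) :=
  reg_of_spare S.A.chain (S.A.base_G S.x D) (S.ratRk h) (S.spare_G D)

theorem Sys.reg_fl (h : S.X.Closed D) (hβ : β ∉ D) : Reg (S.G D ∪ Set.range (S.A.yy β 0)) :=
  reg_of_spare S.A.chain ((S.A.base_G S.x D).trans Set.subset_union_left)
    ((((S.free_fl h hβ).mono Set.subset_union_left).pers0 S.A.chain (S.A.base_G S.x D)).rat
      (S.ratRk h)) (S.spare_fl h hβ)

theorem Sys.reg_B (h : S.X.Closed D) (hβ : β ∉ D) : Reg (S.B D β) :=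
  reg_of_spare S.A.chain ((S.A.base_G S.x D).trans (S.Step_sub D β))
    ((S.Step_p2 h hβ).rat (S.ratRk h)) (S.spare_B h hβ)

theorem Sys.spSet (h : S.New D β) (d : S.SD β) :
    SpSet S.A.s (S.G D ∪ Set.range (S.A.yy β 1)) (S.A.yy β 0) d.U d.g d.e (S.x β) :=
  ⟨S.A.chain, (S.A.base_G S.x D).trans Set.subset_union_left,
    d.num.mono ((S.A.G_mono S.x h.2.2).trans Set.subset_union_left), S.free_fl h.1 h.2.1,
    S.reg_B h.1 h.2.1, S.gen_sp h d⟩

theorem Sys.Step_free (h : S.X.Closed D) (hβ : β ∉ D) :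
    Pers (S.G D) (S.G D) (S.B D β) fun _ => True :=
  (Loc0.trans Set.subset_union_left (S.free_sp h hβ).loc0 (S.free_fl h hβ).loc0).pers subset_rfl
    (S.Step_sub D β) (S.reg h) (S.reg_B h hβ)

theorem Sys.Step_mgSet (h : S.New D β) (hm : S.Mg β) (d : S.MD β)
    (hT : TSb (S.G D) (S.T β) d.a) : MgSet (S.B D β) (S.x β) d.V d.V' d.a :=
  ⟨S.gen_mg h hm d, d.cof.symm.tsb ((S.Step_free h.1 h.2.1).ts _ _
    (hm.2.2.2.1.mono (S.A.G_mono S.x h.2.2)) hm.2.2.2.2.1 trivial hT), d.inv, d.rk, d.top'⟩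

theorem Sys.pers (h : S.New D β) (hS : TSb (S.G D) (Zf S.A.s) ![1]) (hV : S.Valid β D) :
    Pers (S.G D) (S.G D) (S.G (insert β D)) (S.Ok β D) := by
  have hr : Reg (insert (S.x β) (S.B D β)) := by
    rw [← S.Step_ins]; exact S.reg (h.1.insert h.2.2)
  rw [S.Step_ins]
  have hf := S.Step_free h.1 h.2.1
  by_cases hm : S.Mg β
  · obtain ⟨d⟩ := S.Step_md hm
    obtain ⟨h1, h2⟩ := hV.1 hm d
    have hT := hm.2.2.2.1.mono (S.A.G_mono S.x h.2.2)
    have hZ := S.A.chain.fl_Zf (S.A.base_G S.x D)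
    refine hf.trans (mg_pers (S.Step_sub D β) (S.reg_B h.1 h.2.1) hr (S.Step_mgSet h hm d h1)
      (d.cof'.symm.tsb (hf.ts _ _ hZ S.A.chain.null_Zf trivial hS))
      (d.cof.symm.noMap d.cof'.symm (hf.nm _ _ hT hm.2.2.2.2.1 trivial h1.ts hZ S.A.chain.null_Zf
        trivial hS.ts h2))) fun Y hY h0 hts hok => ?_
    exact d.cof.symm.noMap (Cof.refl Y)
      (hf.nm _ _ hT hm.2.2.2.2.1 trivial h1.ts hY h0 trivial hts (hok hm))
  by_cases hs : S.Sp β
  · obtain ⟨d⟩ := S.Step_sd hs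
    obtain ⟨h1, h2⟩ := hV.2 hs d
    have hU := d.num.fl.mono (S.A.G_mono S.x h.2.2)
    exact hf.trans (sp_pers Set.subset_union_left (S.spSet h d) hr (hf.gg _ hU d.num.null h1)
      (hf.kk _ _ hU d.num.null h1 h2)) fun _ _ _ _ _ => trivial
  · exact hf.trans (ok' := fun _ => True) (Pers.of_dm (Set.subset_insert _ _)
      (S.Step_dm (S.Step_zero hm hs) D)) fun _ _ _ _ _ => trivial

omit [WellFoundedLT I] in
theorem Sys.Step_newC (h : S.X.Closed (S.X.C β)) : S.New (S.X.C β) β :=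
  ⟨h, fun h => lt_irrefl _ (S.X.C_lt h), subset_rfl⟩

theorem Sys.sgen (hm : S.Mg β) : SGen S.A.s (S.G (insert β (S.X.C β))) (S.T β) := by
  obtain ⟨d⟩ := S.Step_md hm
  have h := mg_one (S.Step_mgSet (S.Step_newC hm.1) hm d
    (d.ts.anti (S.A.G_mono S.x fun _ hγ => S.X.C_lt hγ) d.dm))
  rw [S.Step_ins]
  refine d.cof.sGen ⟨Fin d.f, inferInstance, fun _ => Zf S.A.s, fun i => S.x β * d.a i,
    fun _ => rfl, fun i => ⟨(h.1 i).1, ?_⟩, h.2⟩
  exact ((Cof.refl d.V).cont d.cof').1 (h.1 i).2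

theorem Sys.kill (hs : S.Sp β) : Kill (S.G (insert β (S.X.C β))) (S.T β) := by
  obtain ⟨d⟩ := S.Step_sd hs
  rw [S.Step_ins]
  exact d.cof.kill (sp_kill (S.spSet (S.Step_newC hs.1) d))

end Pool.Agent.Work.MP_c4093f_al.Z
end

-- merged part: Pool.Agent.Work.MP_c4093f_al.Z.Valid
section
/-!
All steps are valid over all closed sets.

Plan.  `valid_lower`.  Let `σ` be a lower set with `VV (Iio β)` for all `β ∈ σ`.
(a) The simple module: for closed `D ⊆ σ`, `chain_ind` from `∅` (`tsb_base`, `FreeSeq.loc0`); at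
`β ∈ D` the set `D ∩ Iio β` is covered by `VV (Iio β)`, and `Ok β _ (Zf s)` is part of `Valid`.
(b) If `C δ ⊆ Iio g` with `g ∈ σ`: `chain_ind` from `D ∩ Iio g` (covered by `VV (Iio g)`) to `D`,
separately for each `d` (`Lim.and`, `Amb.lim`).  At `β ≥ g` the set is `D' = D ∩ Iio β`.
Splitting `δ`: fields `gg`, `kk` of `Sys.pers`.  Merging `δ`: if `β < δ` use descent
(`TSb.anti`, `NoMap.anti`, since `insert β D' ⊆ Iio δ`); if `δ < β`, `Ok β D' (T δ)` holds, since a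
nonzero map from `T β` to `T δ`, `Sys.sgen` for `δ` and `SGen.exists_map` contradict the field
`NoMap` of `Mg β` over `G (Iio β)`; then fields `ts`, `nm`.
(c) Otherwise every `g ∈ σ` is below an element of `C δ`, so `D ⊆ Iio δ`: descent for merging;
for splitting `chain_ind` from `C δ` to `D`, where each step is valid by (a) and (b) with `g = β`.
-/

namespace Pool.Agent.Work.MP_c4093f_al.Z

open LinearMap

variable {Λ : Type} [Ring Λ] [Algebra F Λ] [Dim Λ] {I : Type} [LinearOrder I] [WellFoundedLT I]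
  (S : Sys Λ I) {D : Set I} {β : I}

omit [WellFoundedLT I] in
/-- validity inside `σ` -/
def Sys.VV (σ : Set I) : Prop := ∀ D ⊆ σ, S.X.Closed D →
  TSb (S.G D) (Zf S.A.s) ![1] ∧ ∀ δ, S.New D δ → S.Valid δ D

omit [WellFoundedLT I] in
theorem Sys.Valid_lim {φ : Set (E Λ) → Prop} (h : Lim φ) (D' : Set I)
    (hD : ∀ A : Finset I, ↑A ⊆ D' → ∃ D₁, ↑A ⊆ D₁ ∧ D₁ ⊆ D' ∧ φ (S.G D₁)) : φ (S.G D') :=
  S.A.lim h hD

omit [WellFoundedLT I] in
theorem Sys.Valid_new {C : Set I} (hC : S.X.Closed C) (hD : S.X.Closed D) (hβ : β ∈ D)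
    (hβC : β ∉ C) : S.New (C ∪ D ∩ Set.Iio β) β :=
  ⟨hC.union (hD.inter (S.X.closed_Iio β)), fun h => h.elim hβC fun k => lt_irrefl β k.2,
    fun _ hγ => Or.inr ⟨hD β hβ hγ, S.X.C_lt hγ⟩⟩

omit [WellFoundedLT I] in
theorem Sys.Valid_ok (hV : S.Valid β D) : S.Ok β D (Zf S.A.s) := fun hm => by
  obtain ⟨d⟩ := (S.spec β).1 hm
  exact (hV.1 hm d).2

omit [WellFoundedLT I] in
theorem Sys.Valid_desc {δ : I} (d : S.MD δ) (h1 : S.X.C δ ⊆ D) (h2 : D ⊆ Set.Iio δ) :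
    TSb (S.G D) (S.T δ) d.a ∧ NoMap (S.G D) (S.T δ) (Zf S.A.s) :=
  ⟨d.ts.anti (S.A.G_mono S.x h2) fun i => (d.dm i).mono (S.A.G_mono S.x h1),
    d.nm.anti (S.A.G_mono S.x h2)⟩

theorem Sys.Valid_sp {δ : I} (h : S.New D β) (hS : TSb (S.G D) (Zf S.A.s) ![1])
    (hV : S.Valid β D) (d : S.SD δ) (h1 : S.X.C δ ⊆ D)
    (h2 : GG (S.G D) d.U ∧ KK (S.G D) d.U d.g) :
    GG (S.G (insert β D)) d.U ∧ KK (S.G (insert β D)) d.U d.g := by
  have hP := S.pers h hS hV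
  have hf : Fl (S.G D) d.U := d.num.fl.mono (S.A.G_mono S.x h1)
  exact ⟨hP.gg _ hf d.num.null h2.1, hP.kk _ _ hf d.num.null h2.1 h2.2⟩

theorem Sys.Valid_ok2 {δ : I} (hm : S.Mg δ) (hδ : δ < β) (hD : D ⊆ Set.Iio β) :
    S.Ok β D (S.T δ) := by
  intro hβ b hb hc
  by_contra h0
  obtain ⟨-, -, -, hfl, -, f, a, -, -, hn⟩ := hβ
  obtain ⟨c, c1, c2, c3⟩ := (S.sgen hm).exists_map hfl.2 hc h0
  have hsub : insert δ (S.X.C δ) ⊆ Set.Iio β :=
    Set.insert_subset hδ fun γ hγ => (S.X.C_lt hγ).trans hδ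
  exact c3 (hn _ ((c1.mono (S.A.G_mono S.x hsub)).mul (hb.mono (S.A.G_mono S.x hD))) (c2.comp hc))

theorem Sys.Valid_mg {δ : I} (h : S.New D β) (hS : TSb (S.G D) (Zf S.A.s) ![1])
    (hV : S.Valid β D) (hD : D ⊆ Set.Iio β) (hne : β ≠ δ) (hm : S.Mg δ) (d : S.MD δ)
    (h1 : S.X.C δ ⊆ D) (h2 : TSb (S.G D) (S.T δ) d.a ∧ NoMap (S.G D) (S.T δ) (Zf S.A.s)) :
    TSb (S.G (insert β D)) (S.T δ) d.a ∧ NoMap (S.G (insert β D)) (S.T δ) (Zf S.A.s) := by
  rcases lt_or_gt_of_ne hne with hlt | hlt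
  · exact S.Valid_desc d (h1.trans (Set.subset_insert _ _))
      (Set.insert_subset hlt fun γ hγ => (hD hγ).trans hlt)
  · have hP := S.pers h hS hV
    have hf : Fl (S.G D) (S.T δ) := hm.2.2.2.1.mono (S.A.G_mono S.x h1)
    have h0 : Null (S.T δ) := hm.2.2.2.2.1
    have hok := S.Valid_ok2 hm hlt hD
    exact ⟨hP.ts _ _ hf h0 hok h2.1, hP.nm _ _ hf h0 hok h2.1.ts
      (S.A.chain.fl_Zf (S.A.base_G S.x D)) S.A.chain.null_Zf (S.Valid_ok hV) hS.ts h2.2⟩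

theorem Sys.Valid_a {σ : Set I} (h : ∀ β ∈ σ, S.VV (Set.Iio β)) (hσ : D ⊆ σ)
    (hD : S.X.Closed D) : TSb (S.G D) (Zf S.A.s) ![1] := by
  refine S.X.chain_ind (fun D' => TSb (S.G D') (Zf S.A.s) ![1]) S.X.closed_empty hD
    (Set.empty_subset _) ?_ (S.Valid_lim (lim_tsb _ _)) fun β hβ hβC ih => ?_
  · refine tsb_base S.A.chain (S.A.base_G S.x _) ?_
    change Loc0 _ (S.A.G S.x ∅)
    rw [S.A.G_empty]
    exact S.free_base.loc0
  · have hn := S.Valid_new S.X.closed_empty hD hβ hβC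
    have hV := (h β (hσ hβ) _ (fun _ k => k.elim False.elim fun k => k.2) hn.1).2 β hn
    exact (S.pers hn ih hV).ts _ _ (S.A.chain.fl_Zf (S.A.base_G S.x _)) S.A.chain.null_Zf
      (S.Valid_ok hV) ih

theorem Sys.Valid_b {σ : Set I} (h : ∀ β ∈ σ, S.VV (Set.Iio β)) (hσ : D ⊆ σ) {δ g : I}
    (hn : S.New D δ) (hg : g ∈ σ) (hC : S.X.C δ ⊆ Set.Iio g) : S.Valid δ D := by
  have hc : S.X.Closed (D ∩ Set.Iio g) := hn.1.inter (S.X.closed_Iio g)
  have hC' : S.X.C δ ⊆ D ∩ Set.Iio g := Set.subset_inter hn.2.2 hC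
  have h0 : S.Valid δ (D ∩ Set.Iio g) :=
    (h g hg _ Set.inter_subset_right hc).2 δ ⟨hc, fun k => hn.2.1 k.1, hC'⟩
  have hlt : ∀ β ∈ D, β ∉ D ∩ Set.Iio g → D ∩ Set.Iio g ∪ D ∩ Set.Iio β ⊆ Set.Iio β :=
    fun β hβ hβC γ k => k.elim
      (fun k => lt_of_lt_of_le k.2 (not_lt.1 fun k' => hβC ⟨hβ, k'⟩)) fun k => k.2
  refine ⟨fun hm d => ?_, fun _ d => ?_⟩
  · refine S.X.chain_ind (fun D' => TSb (S.G D') (S.T δ) d.a ∧ NoMap (S.G D') (S.T δ) (Zf S.A.s))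
      hc hn.1 Set.inter_subset_left (h0.1 hm d)
      (S.Valid_lim ((lim_tsb _ _).and (lim_noMap _ _))) fun β hβ hβC ih => ?_
    have hn' := S.Valid_new hc hn.1 hβ hβC
    have hv := h β (hσ hβ) _ (hlt β hβ hβC) hn'.1
    exact S.Valid_mg hn' hv.1 (hv.2 β hn') (hlt β hβ hβC) (fun e : β = δ => hn.2.1 (e ▸ hβ)) hm d
      (hC'.trans Set.subset_union_left) ih
  · refine S.X.chain_ind (fun D' => GG (S.G D') d.U ∧ KK (S.G D') d.U d.g)
      hc hn.1 Set.inter_subset_left (h0.2 ‹_› d)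
      (S.Valid_lim ((lim_gg _).and (lim_kk _ _))) fun β hβ hβC ih => ?_
    have hn' := S.Valid_new hc hn.1 hβ hβC
    have hv := h β (hσ hβ) _ (hlt β hβ hβC) hn'.1
    exact S.Valid_sp hn' hv.1 (hv.2 β hn') d (hC'.trans Set.subset_union_left) ih

theorem Sys.valid_lower {σ : Set I} (hσ : IsLowerSet σ) (h : ∀ β ∈ σ, S.VV (Set.Iio β)) :
    S.VV σ := by
  intro D hD hc
  refine ⟨S.Valid_a h hD hc, fun δ hn => ?_⟩
  by_cases hg : ∃ g ∈ σ, S.X.C δ ⊆ Set.Iio g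
  · obtain ⟨g, hg, hC⟩ := hg
    exact S.Valid_b h hD hn hg hC
  have hlt : D ⊆ Set.Iio δ := fun γ hγ => by
    by_contra k
    exact hg ⟨γ, hD hγ, fun _ k' => lt_of_lt_of_le (S.X.C_lt k') (not_lt.1 k)⟩
  refine ⟨fun _ d => S.Valid_desc d hn.2.2 hlt, fun hs d => ?_⟩
  refine S.X.chain_ind (fun D' => GG (S.G D') d.U ∧ KK (S.G D') d.U d.g)
    hs.1 hc hn.2.2 ⟨d.cof.symm.gg hs.2.2.2.2.2.2, d.kk⟩
    (S.Valid_lim ((lim_gg _).and (lim_kk _ _))) fun β hβ hβC ih => ?_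
  have hn' := S.Valid_new hs.1 hc hβ hβC
  have hsub : S.X.C δ ∪ D ∩ Set.Iio β ⊆ σ :=
    (Set.union_subset hn.2.2 Set.inter_subset_left).trans hD
  exact S.Valid_sp hn' (S.Valid_a h hsub hn'.1)
    (S.Valid_b h hsub hn' (hD hβ) fun _ k => S.X.C_lt k) d Set.subset_union_left ih

theorem Sys.vv_univ : S.VV Set.univ := by
  have h : ∀ β, S.VV (Set.Iio β) := fun β =>
    WellFoundedLT.induction (motive := fun β => S.VV (Set.Iio β)) β fun γ ih =>
      S.valid_lower (isLowerSet_Iio γ) ih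
  exact S.valid_lower isLowerSet_univ fun β _ => h β

theorem Sys.pers' (h : S.New D β) : Pers (S.G D) (S.G D) (S.G (insert β D)) (S.Ok β D) :=
  S.pers h (S.vv_univ D (Set.subset_univ _) h.1).1 ((S.vv_univ D (Set.subset_univ _) h.1).2 β h)

end Pool.Agent.Work.MP_c4093f_al.Z
end

-- merged part: Pool.Agent.Work.MP_c4093f_al.Z.Global
section
/-!
The final set of generators has the properties `Glob`.

Plan.  `kill_of_free`: take a rational `q > 0` with `2 * q ≤ rho (T n)` for all `n`,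
`z i = s q * y i`; `gs2` for `T n` and for `T n ⊓ ker z₁` (of rank at least `rho (T n) - q`), the
modular law and `eq_of_le_of_rho_le`.  `exists_tgt`: `enum_spec`, `Idx.exists_C`.
`refl`: `Idx.exists_closed` with `w D` the union of finite supports (`Def.finite`, `G_finite`) of
the `w i a` over the countably many `a` with `DM (G D) a` and `DM P a`.
`tsgen`: suppose not; `exists_tsb` over `G C`; `TSb _ T a` passes from `C` to `univ` by
`chain_ind` and `pers'`: a conflict at `γ` is a nonzero map from `T γ` to `T`, invert it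
(`inv_map`, validity gives simplicity of `T γ`) and use `Sys.sgen`, `SGen.of_map`.  For `β` from
`exists_tgt`: if `Mg β`, `Sys.sgen`; else there is a nonzero map to `Zf s` over `G (Iio β)`, which
is injective on a member (`Simple.inj`), so `SGen.of_map` with `SemQ.self`.
`kill`: `exists_tgt`, `Sys.kill`.  `kill0`: `free_fl`.  `bs`: `chain_ind`, `pers'`.
-/

namespace Pool.Agent.Work.MP_c4093f_al.Z

open LinearMap

variable {Λ : Type} [Ring Λ] [Algebra F Λ] [Dim Λ]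

theorem kill_of_free {s : ℚ → E Λ} (hs : Chain s) {Q : Set (E Λ)} (hQ : Set.range s ⊆ Q)
    {y : ℕ → E Λ} (hy : FreeSeq Q y) {T : ℕ → Submodule Λ Λ} (hT : Fl Q T) (h0 : ¬ Null T) :
    Kill (Q ∪ Set.range y) T := by
  simp only [Null, not_forall, not_exists, not_lt] at h0
  obtain ⟨ε, hε, h0⟩ := h0
  obtain ⟨q, hq0, hq⟩ := exists_rat_btwn (show (0 : ℝ) < ε / 2 by linarith)
  have hq0' : (0 : ℚ) ≤ q := by exact_mod_cast hq0.le
  have hq1 : q ≤ 1 := by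
    have := (h0 0).trans (rho_le_one _)
    exact_mod_cast (show (q : ℝ) ≤ 1 by linarith)
  have hr := hs.rk q hq0' hq1
  have hQ1 : Q ⊆ Q ∪ y '' Set.Iio 1 := Set.subset_union_left
  have hsq : DM Q (s q) := DM.of_mem (hQ ⟨q, rfl⟩)
  have f0 : Free Q (y 0) := (hy 0).mono Set.subset_union_left
  have f1 : Free Q (y 1) := (hy 1).mono hQ1
  have d0 : DM (Q ∪ y '' Set.Iio 1) (s q * y 0) :=
    (hsq.mono hQ1).mul (DM.of_mem (Or.inr ⟨0, Nat.zero_lt_one, rfl⟩))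
  have hsub : Q ∪ y '' Set.Iio 1 ⊆ Q ∪ Set.range y :=
    Set.union_subset_union_right _ (Set.image_subset_range _ _)
  have d1 : DM (Q ∪ Set.range y) (s q * y 1) :=
    (hsq.mono Set.subset_union_left).mul (DM.of_mem (Or.inr ⟨1, rfl⟩))
  have nz : ∀ z, Free Q z → ¬ Zer (s q * z) T := fun z hz ⟨n, hn⟩ => by
    have := gs2 hz hsq (hT.1 n) (by rw [hr]; linarith [h0 n])
    rw [inf_eq_left.2 hn, hr] at this
    linarith
  have low : ∀ (z : E Λ) (A : Submodule Λ Λ), rho A ≤ rho (A ⊓ ker (s q * z)) + q := fun z A => by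
    rw [← hr]
    exact rho_le_inf_ker_add _ A fun ξ _ => ⟨z ξ, rfl⟩
  refine ⟨_, _, d0.mono hsub, d1, nz _ f0, nz _ f1, fun m => ⟨m, ?_⟩⟩
  have hA : Def (Q ∪ y '' Set.Iio 1) (T m ⊓ ker (s q * y 0)) := ((hT.1 m).mono hQ1).inf d0.ker
  have h2 := gs2 (hy 1) (hsq.mono hQ1) hA (by rw [hr]; linarith [h0 m, low (y 0) (T m)])
  have h3 := rho_sup_add_inf (T m ⊓ ker (s q * y 0)) (T m ⊓ ker (s q * y 1))
  have h4 : T m ⊓ ker (s q * y 0) ⊓ (T m ⊓ ker (s q * y 1)) =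
      T m ⊓ ker (s q * y 0) ⊓ ker (s q * y 1) := by
    rw [← inf_inf_distrib_left, inf_assoc]
  rw [h4] at h3
  rw [hr] at h2
  refine (eq_of_le_of_rho_le (hA.fg.sup (((hT.1 m).mono Set.subset_union_left).inf d1.ker).fg)
    (sup_le inf_le_left inf_le_left) ?_).ge
  linarith [low (y 1) (T m)]

variable {I : Type} [LinearOrder I] [WellFoundedLT I] (S : Sys Λ I) {C : Set I}

omit [WellFoundedLT I] in
theorem Sys.exists_tgt (hc : C.Countable) (hn : C.Nonempty) {T : ℕ → Submodule Λ Λ}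
    (hT : ∀ n, Def (S.G C) (T n)) : ∃ β, S.X.C β = C ∧ S.T β = T := by
  choose n hn' using fun k => enum_spec (S.A.countable_G S.x hc) (hT k)
  obtain ⟨β, h1, h2⟩ := S.X.exists_C hc hn n
  refine ⟨β, h1, funext fun k => ?_⟩
  simp only [Sys.T, tgt, h1, h2]
  exact hn' k

theorem Sys.tsgen (hc : C.Countable) (hn : C.Nonempty) (hC : S.X.Closed C)
    {T : ℕ → Submodule Λ Λ} (hT : Fl (S.G C) T) (h0 : Null T) (h : TS (S.G C) T) :
    SGen S.A.s (S.G Set.univ) T := by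
  by_contra hno
  obtain ⟨f, a, ha⟩ := exists_tsb hT.2 h
  have hall : TSb (S.G Set.univ) T a := by
    refine S.X.chain_ind (fun D => TSb (S.G D) T a) hC S.X.closed_univ (Set.subset_univ _) ha
      (fun _ h => S.A.lim (lim_tsb T a) h) fun γ hγ hγC h1 => ?_
    have hN := S.Step_new hC S.X.closed_univ hγ hγC
    have hT' := hT.mono (S.A.G_mono S.x (Set.subset_union_left (t := Set.univ ∩ Set.Iio γ)))
    refine (S.pers' hN).ts T a hT' h0 (fun hm b hb hcb => ?_) h1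
    by_contra hz
    obtain ⟨d⟩ := S.Step_md hm
    have hv := (((S.vv_univ _ (Set.subset_univ _) hN.1).2 γ hN).1 hm d).1
    obtain ⟨b', hb', hc', n, hi⟩ := inv_map (S.reg hN.1)
      (hm.2.2.2.1.mono (S.A.G_mono S.x hN.2.2)) hv.simple h1.simple hb hcb hz
    exact hno (((S.sgen hm).mono (S.A.G_mono S.x (Set.subset_univ _))).of_map hT.2
      (hb'.mono (S.A.G_mono S.x (Set.subset_univ _))) hc' hi)
  obtain ⟨β, h1, h2⟩ := S.exists_tgt hc hn hT.1
  by_cases hm : S.Mg β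
  · exact hno (h2 ▸ (S.sgen hm).mono (S.A.G_mono S.x (Set.subset_univ _)))
  have hsub : C ⊆ Set.Iio β := fun γ hγ => S.X.C_lt (h1.symm ▸ hγ)
  refine hm ⟨h1.symm ▸ hC, ?_⟩
  rw [h1, h2]
  refine ⟨S.reg hC, S.ratRk hC, hT, h0, f, a, ha.dm, hall.anti (S.A.G_mono S.x (Set.subset_univ _))
    fun i => (ha.dm i).mono (S.A.G_mono S.x hsub), fun b hb hcb => ?_⟩
  by_contra hz
  have hb' := hb.mono (S.A.G_mono S.x (Set.subset_univ _))
  obtain ⟨n, hi⟩ := hall.simple.inj hb' hz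
  exact hno (SGen.of_map (SemQ.self rfl) hT.2 hb' hcb hi)

omit [WellFoundedLT I] in
theorem Sys.Global_supp {D : Set I} {a : E Λ} (h : DM (S.G D) a) :
    ∃ A : Finset I, ↑A ⊆ D ∧ DM (S.G ↑A) a := by
  obtain ⟨Q, hQ, hd⟩ := Def.finite h
  obtain ⟨A, hA, hQA⟩ := S.A.G_finite hQ
  exact ⟨A, hA, Def.mono hQA hd⟩

omit [WellFoundedLT I] in
theorem Sys.Global_refl [Nonempty I] (w : Bool → E Λ → E Λ) (z : ℕ → E Λ)
    (hw : ∀ i a, DM (S.G Set.univ) a → DM (S.G Set.univ) (w i a))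
    (hz : ∀ n, DM (S.G Set.univ) (z n)) : ∃ C : Set I, C.Countable ∧ C.Nonempty ∧ S.X.Closed C ∧
      (∀ n, DM (S.G C) (z n)) ∧ ∀ i a, DM (S.G C) a → DM (S.G C) (w i a) := by
  have key : ∀ a : E Λ, ∃ A : Finset I, DM (S.G Set.univ) a → DM (S.G ↑A) a := fun a => by
    by_cases h : DM (S.G Set.univ) a
    · exact (S.Global_supp h).imp fun A hA _ => hA.2
    · exact ⟨∅, fun h' => (h h').elim⟩
  choose sp hsp using key
  obtain ⟨C, h1, h2, h3, h4, h5⟩ := S.X.exists_closed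
    (fun D => ⋃ a ∈ {a : E Λ | DM (S.G D) a}, ⋃ i, (sp (w i a) : Set I))
    (fun D hD => (countable_dm (S.A.countable_G S.x hD)).biUnion fun a _ =>
      Set.countable_iUnion fun i => (sp _).countable_toSet)
    (Set.countable_iUnion fun n => (sp (z n)).countable_toSet)
  refine ⟨C, h1, h2, h3, fun n => (hsp _ (hz n)).mono (S.A.G_mono S.x
    ((Set.subset_iUnion (fun n => (sp (z n) : Set I)) n).trans h4)), fun i a ha => ?_⟩
  obtain ⟨A, hA, hd⟩ := S.Global_supp ha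
  obtain ⟨D, hD, -, hwD⟩ := h5 A hA
  refine (hsp _ (hw i a (ha.mono (S.A.G_mono S.x (Set.subset_univ _))))).mono
    (S.A.G_mono S.x fun γ hγ => hwD ?_)
  exact Set.mem_biUnion (hd.mono (S.A.G_mono S.x hD)) (Set.mem_iUnion.2 ⟨i, hγ⟩)

theorem Sys.glob [Nonempty I] : Glob S.A.s (S.G Set.univ)
    {Q | ∃ C : Set I, C.Countable ∧ C.Nonempty ∧ S.X.Closed C ∧ Q = S.G C} := by
  have hu := S.X.closed_univ
  have hG : ∀ C, S.G C ⊆ S.G Set.univ := fun C => S.A.G_mono S.x (Set.subset_univ C)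
  refine ⟨S.A.chain, S.A.base_G S.x _, S.reg hu, S.ratRk hu, S.spare_G _,
    (S.vv_univ _ subset_rfl hu).1.simple, S.rperp hu, ?_, fun w z hw hz => ?_, ?_, ?_, ?_, ?_⟩
  · rintro _ ⟨C, hc, -, hC, rfl⟩
    exact ⟨hG C, S.A.countable_G S.x hc, S.A.base_G S.x _, S.reg hC,
      S.minO hC hu (Set.subset_univ _)⟩
  · obtain ⟨C, h1, h2, h3, h4, h5⟩ := S.Global_refl w z hw hz
    exact ⟨_, ⟨C, h1, h2, h3, rfl⟩, h4, h5⟩
  · rintro _ ⟨C, hc, hn, hC, rfl⟩ T hT h0 h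
    exact S.tsgen hc hn hC hT h0 h
  · rintro _ ⟨C, hc, hn, hC, rfl⟩ T hT h0 hne h
    obtain ⟨β, rfl, rfl⟩ := S.exists_tgt hc hn hT.1
    exact (S.kill ⟨hC, S.reg hC, S.reg_fl hC (S.Step_newC hC).2.1, hT, h0, hne, h⟩).mono (hG _)
  · rintro _ ⟨C, hc, hn, hC, rfl⟩ T hT h0
    obtain ⟨β, rfl, -⟩ := S.X.exists_C hc hn fun _ => 0
    refine (kill_of_free S.A.chain (S.A.base_G S.x _)
      ((S.free_fl hC (S.Step_newC hC).2.1).mono Set.subset_union_left) hT h0).mono ?_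
    refine subset_trans ?_ (hG (insert β (S.X.C β)))
    rw [S.Step_ins]
    exact (Set.union_subset_union_left _ Set.subset_union_left).trans (Set.subset_insert _ _)
  · rintro _ ⟨C, hc, hn, hC, rfl⟩ T J hT h0 h
    exact S.X.chain_ind (fun D => BS (S.G D) T J) hC hu (Set.subset_univ _) h
      (fun _ h => S.A.lim (lim_bs T J) h) fun γ hγ hγC h1 =>
        (S.pers' (S.Step_new hC hu hγ hγC)).bs T J
          (hT.mono (S.A.G_mono S.x Set.subset_union_left)) h0 h1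

end Pool.Agent.Work.MP_c4093f_al.Z
end

-- merged part: Pool.Agent.Work.MP_c4093f_al.Z.Final
section
/-! Assembly. -/

namespace Pool.Agent.Work.MP_c4093f_al.Z

theorem final : ∃ (A : Type) (_ : Ring A), (∀ a : A, ∃ g, a * g * a = a) ∧
    ∃ X : Set (Zg Aᵐᵒᵖ), X = Set.univ ∧ DualSet X = Set.univ ∧ IsClosed X ∧ IC X ∧
      ¬ IC (DualSet X) := by
  obtain ⟨Λ, _, _, _, s, y, hs, hc, hy⟩ := exists_amb0
  obtain ⟨I, _, _, _, ⟨X⟩, ⟨j⟩⟩ := exists_idx
  let A : Amb Λ I := ⟨s, fun i => y (j i), hs, hc, fun i => (hy (j i)).mono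
    (Set.union_subset_union_right _ (by
      rintro _ ⟨i', hi, rfl⟩
      exact ⟨j i', fun h => hi (j.injective h), rfl⟩))⟩
  obtain ⟨S, -, -⟩ := exists_sys A X
  have h := S.glob
  have hnt : Nontrivial (dcl (S.G Set.univ)) := ⟨⟨1, 0, fun e => top_ne_bot_self (Λ := Λ) (by
    have := congrArg (fun a : dcl (S.G Set.univ) => LinearMap.range (a : E Λ)) e
    simpa [Module.End.one_eq_id] using this)⟩⟩
  have hR : SR (dcl (S.G Set.univ)) := ⟨hnt, dcl_mreg h.reg, dcl_simple h, dcl_split h⟩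
  obtain ⟨I₁, I₂, h1, h2, hp⟩ := dcl_perp h
  obtain ⟨h3, h4, h5⟩ := zg_main hR (zerI_max h.reg (h.chain.fl_Zf h.base) h.simple)
    (fun K hK hU => thmB h hK hU) h1 h2 hp
  exact ⟨_, inferInstance, hR.reg1, _, rfl, h3, isClosed_univ, h4, h3.symm ▸ h5⟩

end Pool.Agent.Work.MP_c4093f_al.Z
end
end
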