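import Pool.Agent.Work.MP_c4093f_al.Z.FinFam
import Pool.Agent.Work.MP_c4093f_al.Z.Lin
import Pool.Agent.Work.MP_c4093f_al.Z.Sp3

-- merged part: Pool.Agent.Work.MP_c4093f_al.Z.Red1
section
/-!
The largest definable submodule of `H = fst (Γ ⊓ gx x)`.  Write `Γ⁰ = Γ ⊓ ker fst`, let `W` be
the largest tight sequence for `Γ⁰`, and `D = fst (Γ ⊓ box (XW V W) (XW V' W))`.

Plan.  `red_lift`: `γ.2.2 - x γ.2.1 = (γ.2.2 - x γ.2.1)` lies in `XW V' W` by hypothesis;
`Tight.onto` for `Γ⁰` gives `γ₀ ∈ Γ⁰` with the same value, and `γ - γ₀ ∈ Γ ⊓ gx`.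
`red_larg`: `D ≤ H` by `red_lift` and `dg_mem_XW`.  For `D' ≤ H` definable put
`Γ¹ = Γ ⊓ comap fst D'` and take `W'` tight for `Γ¹` (`Gen.tight`).  By `rho_map_add` for `fst`,
`rho (Γ¹ ⊓ gx) = rho D' + rho (Γ⁰ ⊓ gx)` and `rho Γ¹_W' ≤ rho D' + rho Γ⁰_W'`, so `W'` is tight
for `Γ⁰`, `W' ≤ W`; and `D' = fst (Γ¹ ⊓ gx) ≤ fst Γ¹_W'` by `Tight.le_box`.
`red_loc`: take `δ` from `near_tight` for `Γ⁰`; for `Γ^U = Γ ⊓ comap fst U` and `W'` tight for it,
`Phi Γ⁰ W' ≥ Phi Γ^U W' - rho U > rho (Γ⁰ ⊓ gx) - δ`; so `W' n ≤ W n` for `n < N`; use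
`Tight.le_box` and `XW_le_of_agree`.
-/

namespace Pool.Agent.Work.MP_c4093f_al.Z

open LinearMap

variable {Λ : Type} [Ring Λ] [Algebra F Λ] [Dim Λ] {M τ : Type} [AddCommGroup M] [Module Λ M]
  [Fr Λ M] [Fintype τ] {P : Set (E Λ)} {x : E Λ} {V V' : ℕ → Submodule Λ Λ}
  {Γ : Submodule Λ (M × (τ → Λ) × (τ → Λ))} {W : ℕ → Submodule F (τ → F)}

omit [Algebra F Λ] [Dim Λ] [Fr Λ M] [Fintype τ] in
theorem Red1_le (Γ : Submodule Λ (M × (τ → Λ) × (τ → Λ))) (U : Submodule Λ M) :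
    Γ ⊓ ker (fst Λ M _) ≤ Γ ⊓ U.comap (fst Λ M _) :=
  inf_le_inf_left _ (LinearMap.ker_le_comap _)

theorem Red1_phi (V V' : ℕ → Submodule Λ Λ) (Γ : Submodule Λ (M × (τ → Λ) × (τ → Λ)))
    (U : Submodule Λ M) (W : ℕ → Submodule F (τ → F)) :
    Phi V V' (Γ ⊓ U.comap (fst Λ M _)) W ≤ Phi V V' (Γ ⊓ ker (fst Λ M _)) W + rho U := by
  have h1 := rho_le_inf_ker_add (fst Λ M _)
    ((Γ ⊓ U.comap (fst Λ M _)) ⊓ box M (XW V W) (XW V' W)) (B := U) fun γ hγ => hγ.1.2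
  have h2 : rho (((Γ ⊓ U.comap (fst Λ M _)) ⊓ box M (XW V W) (XW V' W)) ⊓ ker (fst Λ M _)) ≤
      rho ((Γ ⊓ ker (fst Λ M _)) ⊓ box M (XW V W) (XW V' W)) :=
    rho_mono fun γ hγ => ⟨⟨hγ.1.1.1, hγ.2⟩, hγ.1.2⟩
  unfold Phi
  linarith

theorem red_lift (h : Tri x V V') (hΓ : Γ.FG) (hW : Tight x V V' (Γ ⊓ ker (fst Λ M _)) W)
    {γ : M × (τ → Λ) × (τ → Λ)} (hγ : γ ∈ Γ) (hx : γ.2.2 - dg τ x γ.2.1 ∈ XW V' W) :
    γ.1 ∈ (Γ ⊓ gx M τ x).map (fst Λ M _) := by
  obtain ⟨γ₀, ⟨⟨h1, h2⟩, -⟩, h3⟩ := Tight.onto h (fg_inf hΓ (fg_ker _)) hW hx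
  refine ⟨γ - γ₀, ⟨Γ.sub_mem hγ h1, mem_gx.2 ?_⟩, ?_⟩
  · rw [Prod.snd_sub, Prod.snd_sub, Prod.fst_sub, map_sub, sub_eq_sub_iff_sub_eq_sub]
    exact h3.symm
  · rw [map_sub, mem_ker.1 h2, sub_zero]
    rfl

theorem red_larg (h : Gen P x V V') (hΓ : Def P Γ) (hW : Tight x V V' (Γ ⊓ ker (fst Λ M _)) W)
    (hmax : ∀ W', Tight x V V' (Γ ⊓ ker (fst Λ M _)) W' → W' ≤ W) :
    Larg P ((Γ ⊓ gx M τ x).map (fst Λ M _))
      ((Γ ⊓ box M (XW V W) (XW V' W)).map (fst Λ M _)) := by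
  refine ⟨Def.map _ RatM.fst (Def.inf hΓ (Def.box (Def.XW h.dV h.tri.anti hW.1)
    (Def.XW h.dV' h.tri.anti' hW.1))), ?_, fun D hD hle => ?_⟩
  · rintro _ ⟨γ, hγ, rfl⟩
    exact red_lift h.tri hΓ.fg hW hγ.1 (Core_mem h.tri hγ)
  · have hΓ₁ : Def P (Γ ⊓ D.comap (fst Λ M _)) := Def.inf hΓ (Def.comap _ RatM.fst hD)
    obtain ⟨W', hW'⟩ := h.tight M τ _ hΓ₁
    have h1 : D ≤ ((Γ ⊓ D.comap (fst Λ M _)) ⊓ gx M τ x).map (fst Λ M _) := fun ξ hξ => by
      obtain ⟨γ, hγ, rfl⟩ := hle hξ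
      exact ⟨γ, ⟨⟨hγ.1, hξ⟩, hγ.2⟩, rfl⟩
    have h2 := rho_map_add (fst Λ M _) ((Γ ⊓ D.comap (fst Λ M _)) ⊓ gx M τ x)
    have h3 := rho_mono h1
    have h4 : rho ((Γ ⊓ ker (fst Λ M _)) ⊓ gx M τ x) ≤
        rho (((Γ ⊓ D.comap (fst Λ M _)) ⊓ gx M τ x) ⊓ ker (fst Λ M _)) :=
      rho_mono (le_inf (inf_le_inf_right _ (Red1_le Γ D)) (inf_le_left.trans inf_le_right))
    have h5 := Red1_phi V V' Γ D W'
    have h6 := hW'.2
    have h7 : W' ≤ W := hmax W' ⟨hW'.1, by linarith⟩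
    refine h1.trans (Submodule.map_mono (le_inf (inf_le_left.trans inf_le_left) ?_))
    exact (Tight.le_box h.tri hΓ₁.fg hW').trans (box_mono (XW_mono h7) (XW_mono h7))

theorem red_loc (h : Gen P x V V') (hΓ : Def P Γ)
    (hmax : ∀ W', Tight x V V' (Γ ⊓ ker (fst Λ M _)) W' → W' ≤ W) (N : ℕ) :
    ∃ δ > 0, ∀ U : Submodule Λ M, Def P U → rho U < δ → ∀ γ ∈ Γ ⊓ gx M τ x, γ.1 ∈ U →
      γ ∈ box M (XW V W ⊔ pw τ (V N)) (XW V' W ⊔ pw τ (V' N)) := by
  obtain ⟨δ, hδ, h0⟩ := near_tight h.tri (Γ ⊓ ker (fst Λ M _)) N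
  refine ⟨δ, hδ, fun U hU hr γ hγ hγ' => ?_⟩
  have hΓ₁ : Def P (Γ ⊓ U.comap (fst Λ M _)) := Def.inf hΓ (Def.comap _ RatM.fst hU)
  obtain ⟨W', hW'⟩ := h.tight M τ _ hΓ₁
  have h1 := rho_mono (inf_le_inf_right (gx M τ x) (Red1_le Γ U))
  have h2 := Red1_phi V V' Γ U W'
  have h3 := hW'.2
  obtain ⟨W₁, h4, h5⟩ := h0 W' hW'.1 (by linarith)
  have h6 : ∀ n < N, W' n ≤ W n := fun n hn => (h5 n hn).ge.trans (hmax W₁ h4 n)
  exact box_mono (XW_le_of_agree h.tri.anti h6) (XW_le_of_agree h.tri.anti' h6)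
    (Tight.le_box h.tri hΓ₁.fg hW' ⟨⟨hγ.1, hγ'⟩, hγ.2⟩)

end Pool.Agent.Work.MP_c4093f_al.Z
end

-- merged part: Pool.Agent.Work.MP_c4093f_al.Z.Red2
section
/-!
The local description of a submodule definable from a generic element.

Plan.  Take `Γ` from `lin`, `W` from `Gen.tight` and `exists_max` for `Γ⁰ = Γ ⊓ ker fst`, `D` as in
`red_larg`, `N₀` from `exists_const`, `q` from `exists_quot (W N₀)`, and
`Γ' = (Γ ⊓ box (XW V W ⊔ pw (V N₀)) (XW V' W ⊔ pw (V' N₀))).map (id × bc q × bc q)`.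
Key identity (modular law, `ker_bc`, `ten_eq_inf`, `XW_le_ten`):
`(XW V W ⊔ pw (V N₀)) ⊓ ker (bc q) = XW V W`.  It gives `fib`.  `loc`: `red_loc` at `max N N₀`,
`bc q` kills `XW V W`, `bc_mem_pw`, `bc_dg`.
`Strict`: for `k ≥ N₀`, `X ≠ ⊥` put `W₁ n = if n < k then W n else X.comap q`.  It is monotone,
`W ≤ W₁`, `W₁ ≠ W`, so it is not tight for `Γ⁰`:
`rho Γ⁰_W₁ - rho (XW V' W₁) < rho Γ⁰_W - rho (XW V' W)`.  Apply `rho_map_add` twice:
`bc q` on `XW V' W₁` has image in `ten (V' k) X` and kernel part in `XW V' W`; the map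
`γ ↦ (bc q γ.2.1, bc q γ.2.2)` on `Γ⁰_W₁` has kernel part containing `Γ⁰_W` and image containing
the submodule to be bounded (if `η ∈ XW V W ⊔ pw (V N₀)` and `bc q η ∈ ten (V k) X =
(ten (V k) (X.comap q)).map (bc q)`, then `η ∈ XW V W₁` by the key identity).
-/

namespace Pool.Agent.Work.MP_c4093f_al.Z

open LinearMap

variable {Λ : Type} [Ring Λ] [Algebra F Λ] [Dim Λ] {M : Type} [AddCommGroup M] [Module Λ M]
  [Fr Λ M] {P : Set (E Λ)} {x : E Λ} {V V' : ℕ → Submodule Λ Λ}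

section

variable {σ τ : Type} [Fintype τ] {W : ℕ → Submodule F (τ → F)} {q : (τ → F) →ₗ[F] (σ → F)}
  {N₀ k : ℕ} {X : Submodule F (σ → F)} {η : τ → Λ}

omit [Dim Λ] in
theorem Red2_kill [Fintype σ] (hq : ∀ n, W n ≤ ker q) (h : η ∈ XW V W) : bc Λ q η = 0 := by
  rw [← mem_ker, ker_bc]
  exact XW_le_ten hq h

omit [Dim Λ] in
theorem Red2_key [Fintype σ] (hq : ∀ n, W n ≤ ker q) (h0 : ker q = W N₀)
    (h : η ∈ XW V W ⊔ pw τ (V N₀)) (h1 : bc Λ q η = 0) : η ∈ XW V W := by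
  obtain ⟨a, ha, b, hb, rfl⟩ := Submodule.mem_sup.1 h
  rw [map_add, Red2_kill hq ha, zero_add, ← mem_ker, ker_bc, h0] at h1
  refine add_mem ha (ten_le_XW N₀ ?_)
  rw [ten_eq_inf]
  exact ⟨h1, hb⟩

omit [Dim Λ] in
theorem Red2_lift [Fintype σ] (hV : Antitone V) (hq : ∀ n, W n ≤ ker q) (h0 : ker q = W N₀)
    (hs : Function.Surjective q) (hk : N₀ ≤ k) (h : η ∈ XW V W ⊔ pw τ (V N₀))
    (h1 : bc Λ q η ∈ ten (V k) X) : η ∈ XW V fun n => if n < k then W n else X.comap q := by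
  rw [← Submodule.map_comap_eq_of_surjective hs X, ← map_bc_ten] at h1
  obtain ⟨a, ha, h2⟩ := h1
  have h3 : η - a ∈ XW V W := Red2_key hq h0
    (sub_mem h (Submodule.mem_sup_right (pw_mono (hV hk) (ten_le_pw ha))))
    (by rw [map_sub, h2, sub_self])
  rw [← sub_add_cancel η a]
  refine add_mem (XW_mono (fun n => ?_) h3) (ten_le_XW k ?_)
  · dsimp only
    split_ifs
    · exact le_rfl
    · exact (hq n).trans (ker_le_comap q)
  · rwa [if_neg (lt_irrefl k)]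

theorem Red2_rho [Fintype σ] (hV : Antitone V) (hq : ∀ n, W n ≤ ker q) (h0 : ker q = W N₀)
    (hk : N₀ ≤ k) : rho (XW V fun n => if n < k then W n else X.comap q) ≤
      rho (XW V W) + Module.finrank F X * rho (V k) := by
  rw [← rho_ten]
  refine (rho_le_inf_ker_add (bc Λ q) _ (B := ten (V k) X) ?_).trans
    (add_le_add (rho_mono fun η hη => Red2_key hq h0 ?_ hη.2) le_rfl)
  · refine (XW_le_iff (X := (ten (V k) X).comap (bc Λ q))).2 fun n => ?_
    split_ifs with h1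
    · intro η hη
      rw [Submodule.mem_comap, Red2_kill hq (ten_le_XW n hη)]
      exact zero_mem _
    · rw [← Submodule.map_le_iff_le_comap, map_bc_ten]
      exact ten_mono (hV (not_lt.1 h1)) (Submodule.map_comap_le _ _)
  · exact sup_le_sup_left (pw_mono (hV hk)) _
      (XW_le_of_agree hV (N := k) (fun n hn => (if_pos hn).le) hη.1)

end

theorem red (h : Gen P x V V') {H : Submodule Λ M} (hH : Def (insert x P) H) :
    ∃ (D : Submodule Λ M) (n : ℕ) (Γ : Submodule Λ (M × (Fin n → Λ) × (Fin n → Λ))),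
      RD P x V H D Γ ∧ Larg P H D ∧ Strict V V' Γ := by
  obtain ⟨n, Γ, hΓ, rfl⟩ := lin hH
  obtain ⟨W₀, hW₀⟩ := h.tight M (Fin n) _ (hΓ.inf (DM.ker DM.fst))
  obtain ⟨W, hW, hmax⟩ := exists_max h.tri hW₀
  obtain ⟨N₀, hN₀⟩ := exists_const hW.1
  obtain ⟨m, q, hs, h0⟩ := exists_quot (W N₀)
  have hq : ∀ j, W j ≤ ker q := fun j => by
    rw [h0]
    rcases le_total j N₀ with h1 | h1
    · exact hW.1 h1
    · exact (hN₀ j h1).le
  have hL := red_larg h hΓ hW hmax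
  refine ⟨_, m, (Γ ⊓ box M (XW V W ⊔ pw (Fin n) (V N₀)) (XW V' W ⊔ pw (Fin n) (V' N₀))).map
    (LinearMap.id.prodMap ((bc Λ q).prodMap (bc Λ q))),
    ⟨hH.fg, hL.1, ?_, hL.2.1, fun ξ => ⟨?_, ?_⟩, fun N => ?_⟩, hL, N₀, fun k hk X hX => ?_⟩
  · exact .map _ (RatM.id.prodMap ((RatM.bc q).prodMap (RatM.bc q))) (hΓ.inf (Def.box
      ((Def.XW h.dV h.tri.anti hW.1).sup (h.dV N₀).pw)
      ((Def.XW h.dV' h.tri.anti' hW.1).sup (h.dV' N₀).pw)))
  · rintro ⟨γ, ⟨h1, h2⟩, h3⟩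
    obtain ⟨h4, h5⟩ := mem_box.1 h2
    exact ⟨γ, ⟨h1, mem_box.2 ⟨Red2_key hq h0 h4 (congrArg (·.2.1) h3),
      Red2_key hq h0 h5 (congrArg (·.2.2) h3)⟩⟩, congrArg (·.1) h3⟩
  · rintro ⟨γ, ⟨h1, h2⟩, rfl⟩
    obtain ⟨h4, h5⟩ := mem_box.1 h2
    exact ⟨γ, ⟨h1, box_mono le_sup_left le_sup_left h2⟩,
      Prod.ext rfl (Prod.ext (Red2_kill hq h4) (Red2_kill hq h5))⟩
  · obtain ⟨δ, hδ, h1⟩ := red_loc h hΓ hmax (max N N₀)
    refine ⟨δ, hδ, fun U hU hr ξ hξ => ?_⟩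
    obtain ⟨⟨γ, h2, rfl⟩, h3⟩ := hξ
    have h4 := h1 U hU hr γ h2 h3
    refine ⟨bc Λ q γ.2.1, ?_, γ, ⟨h2.1, box_mono
      (sup_le_sup_left (pw_mono (h.tri.anti (le_max_right _ _))) _)
      (sup_le_sup_left (pw_mono (h.tri.anti' (le_max_right _ _))) _) h4⟩,
      Prod.ext rfl (Prod.ext rfl ?_)⟩
    · obtain ⟨a, ha, b, hb, h5⟩ := Submodule.mem_sup.1 (mem_box.1 h4).1
      rw [← h5, map_add, Red2_kill hq ha, zero_add]
      exact bc_mem_pw q (pw_mono (h.tri.anti (le_max_left _ _)) hb)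
    · change bc Λ q γ.2.2 = _
      rw [mem_gx.1 h2.2, bc_dg]
  · have h1 : Monotone fun j => if j < k then W j else X.comap q := fun i j hij => by
      dsimp only
      split_ifs with h2 h3 h3
      · exact hW.1 hij
      · exact (hq i).trans (ker_le_comap q)
      · omega
      · exact le_rfl
    have h2 : W ≤ fun j => if j < k then W j else X.comap q := fun j => by
      dsimp only
      split_ifs
      · exact le_rfl
      · exact (hq j).trans (ker_le_comap q)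
    have h3 : Phi V V' (Γ ⊓ ker (fst Λ M _)) (fun j => if j < k then W j else X.comap q) <
        Phi V V' (Γ ⊓ ker (fst Λ M _)) W := by
      refine lt_of_lt_of_le (not_le.1 fun h3 => hX (eq_bot_iff.2 fun y hy => ?_)) hW.2
      obtain ⟨w, rfl⟩ := hs y
      have h4 := hmax _ ⟨h1, h3⟩ k
      dsimp only at h4
      rw [if_neg (lt_irrefl k)] at h4
      exact hq k (h4 hy)
    have h4 := Red2_rho (X := X) h.tri.anti' hq h0 hk
    have h5 := rho_map_add (((bc Λ q).prodMap (bc Λ q)) ∘ₗ snd Λ M _) (Γ ⊓ ker (fst Λ M _) ⊓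
      box M (XW V fun j => if j < k then W j else X.comap q)
        (XW V' fun j => if j < k then W j else X.comap q))
    have h6 : rho (Γ ⊓ ker (fst Λ M _) ⊓ box M (XW V W) (XW V' W)) ≤ _ :=
      rho_mono (B := Γ ⊓ ker (fst Λ M _) ⊓
        box M (XW V fun j => if j < k then W j else X.comap q)
          (XW V' fun j => if j < k then W j else X.comap q) ⊓
        ker (((bc Λ q).prodMap (bc Λ q)) ∘ₗ snd Λ M _)) fun γ hγ =>
        ⟨⟨hγ.1, box_mono (XW_mono h2) (XW_mono h2) hγ.2⟩,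
          Prod.ext (Red2_kill hq (mem_box.1 hγ.2).1) (Red2_kill hq (mem_box.1 hγ.2).2)⟩
    rw [Phi, Phi] at h3
    refine lt_of_le_of_lt (rho_mono (B := (Γ ⊓ ker (fst Λ M _) ⊓
      box M (XW V fun j => if j < k then W j else X.comap q)
        (XW V' fun j => if j < k then W j else X.comap q)).map
        (((bc Λ q).prodMap (bc Λ q)) ∘ₗ snd Λ M _)) ?_) (by linarith)
    rintro t ⟨⟨γ, ⟨h7, h8⟩, h9⟩, h10, h11⟩
    obtain ⟨a1, a2⟩ := mem_box.1 h8
    have a3 : bc Λ q γ.2.1 = t.1 := congrArg (·.2.1) h9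
    have a4 : bc Λ q γ.2.2 = t.2 := congrArg (·.2.2) h9
    have a5 : γ.1 = 0 := congrArg (·.1) h9
    exact ⟨γ, ⟨⟨h7, a5⟩, mem_box.2
      ⟨Red2_lift h.tri.anti hq h0 hs hk a1 (a3 ▸ h10),
        Red2_lift h.tri.anti' hq h0 hs hk a2 (a4 ▸ h11)⟩⟩, Prod.ext a3 a4⟩

end Pool.Agent.Work.MP_c4093f_al.Z
end

-- merged part: Pool.Agent.Work.MP_c4093f_al.Z.Right
section
/-!
Behaviour on submodules of small codimension, rational ranks, and the unconditional persistence.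

Plan.  `right`: `Γ` from `lin`, `W` the least tight sequence (`exists_min`), constant from `N₀`,
`Γ₁ = Γ ⊓ box (XW V W) (XW V' W)`, `I = fst Γ₁`, `δ` from `near_tight h Γ (N₀ + 1)`.  For `X` put
`Γ₂ = Γ₁ ⊓ comap fst X`, and take `W'` tight for `Γ₂`.  `Γ ⊓ gx ≤ Γ₁` (`Tight.le_box`), so
`rho (Γ₂ ⊓ gx) ≥ rho (Γ ⊓ gx) - cork ⊤ X` and `Phi Γ W' ≥ Phi Γ₂ W' > rho (Γ ⊓ gx) - δ`; hence
`W n ≤ W' n` for `n ≤ N₀`, and then for all `n`.  So `rho (Γ₂ ⊓ gx) ≤ rho Γ₂ - rho (XW V' W)`, the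
map `ψ γ = γ.2.2 - x γ.2.1` sends `Γ₂` onto `XW V' W` (`eq_of_le_of_rho_le`), and
`Γ₁ ≤ (Γ ⊓ gx) ⊔ Γ₂`.
`Gen.ratRk`: `rho H = rho (Γ ⊓ gx) - rho (Γ⁰ ⊓ gx)` and both are values of `Phi` (`phi_le`).
`Gen.rperp`: `right` with `X = (Ha s k).prod (Hb s k)`, of codimension `2 / (k + 2)`; `Ha`, `Hb`
are monotone.
-/

namespace Pool.Agent.Work.MP_c4093f_al.Z

open LinearMap

variable {Λ : Type} [Ring Λ] [Algebra F Λ] [Dim Λ] {M : Type} [AddCommGroup M] [Module Λ M]
  [Fr Λ M] {P : Set (E Λ)} {x : E Λ} {V V' : ℕ → Submodule Λ Λ} {s : ℚ → E Λ}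

theorem right (h : Gen P x V V') {H : Submodule Λ M} (hH : Def (insert x P) H) :
    ∃ I, Def P I ∧ H ≤ I ∧ ∃ δ > 0, ∀ X, Def P X → cork ⊤ X < δ → I ≤ H ⊔ X := by
  obtain ⟨n, Γ, hΓ, rfl⟩ := lin hH
  obtain ⟨W₀, hW₀⟩ := h.tight M (Fin n) Γ hΓ
  obtain ⟨W, hW, hmin⟩ := exists_min h.tri hW₀
  obtain ⟨N₀, hN₀⟩ := exists_const hW.1
  have hΓ₁ : Def P (Γ ⊓ box M (XW V W) (XW V' W)) :=
    .inf hΓ (.box (.XW h.dV h.tri.anti hW.1) (.XW h.dV' h.tri.anti' hW.1))
  have hle : Γ ⊓ gx M (Fin n) x ≤ Γ ⊓ box M (XW V W) (XW V' W) :=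
    le_inf inf_le_left (hW.le_box h.tri hΓ.fg)
  obtain ⟨δ, hδ, hn⟩ := near_tight h.tri Γ (N₀ + 1)
  refine ⟨_, .map (fst Λ M _) RatM.fst hΓ₁, Submodule.map_mono hle, δ, hδ, fun X hX hc => ?_⟩
  have hΓ₂ : Def P (Γ ⊓ box M (XW V W) (XW V' W) ⊓ X.comap (fst Λ M _)) :=
    .inf hΓ₁ (.comap _ RatM.fst hX)
  obtain ⟨W', hW'⟩ := h.tight M (Fin n) _ hΓ₂
  have h1 := cork_comap_le (fst Λ M _) (Γ ⊓ gx M (Fin n) x) ⊤ X
  rw [Submodule.comap_top, cork_of_le le_top, zero_add] at h1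
  have h2 : rho (Γ ⊓ gx M (Fin n) x ⊓ X.comap (fst Λ M _)) ≤
      rho (Γ ⊓ box M (XW V W) (XW V' W) ⊓ X.comap (fst Λ M _) ⊓ gx M (Fin n) x) :=
    rho_mono fun γ hγ => ⟨⟨hle hγ.1, hγ.2⟩, hγ.1.2⟩
  have h3 : Phi V V' (Γ ⊓ box M (XW V W) (XW V' W) ⊓ X.comap (fst Λ M _)) W' ≤ Phi V V' Γ W' :=
    sub_le_sub_right (rho_mono (inf_le_inf_right _ (inf_le_left.trans inf_le_left))) _
  obtain ⟨W'', h4, h5⟩ := hn W' hW'.1 (by
    have := hW'.2
    unfold cork at h1 hc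
    linarith)
  have h6 : W ≤ W' := fun m => by
    rcases le_total m N₀ with c | c
    · exact (hmin W'' h4 m).trans (h5 m (Nat.lt_succ_of_le c)).le
    · exact (hN₀ m c).le.trans
        (((hmin W'' h4 N₀).trans (h5 N₀ (Nat.lt_succ_self _)).le).trans (hW'.1 c))
  rintro _ ⟨γ, hγ, rfl⟩
  obtain ⟨γ', h7, h8⟩ := hW'.onto h.tri hΓ₂.fg (XW_mono h6 (Submodule.sub_mem _
    (mem_box.1 hγ.2).2 (dg_mem_XW h.tri.maps (mem_box.1 hγ.2).1)))
  refine Submodule.mem_sup.2 ⟨(γ - γ').1, ⟨γ - γ', ⟨Γ.sub_mem hγ.1 h7.1.1.1, mem_gx.2 ?_⟩, rfl⟩,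
    γ'.1, h7.1.2, sub_add_cancel _ _⟩
  rw [Prod.snd_sub, Prod.snd_sub, Prod.fst_sub, map_sub, sub_eq_sub_iff_sub_eq_sub, h8]

theorem Right_rat (h : Gen P x V V') (hP : RatRk P) {τ : Type} [Fintype τ]
    {Γ : Submodule Λ (M × (τ → Λ) × (τ → Λ))} (hΓ : Def P Γ) :
    ∃ q : ℚ, rho (Γ ⊓ gx M τ x) = q := by
  obtain ⟨W, hW⟩ := h.tight M τ Γ hΓ
  have h1 := Def.XW h.dV' h.tri.anti' hW.1
  obtain ⟨q₁, h2⟩ := hP _ _ (Def.inf hΓ (.box (.XW h.dV h.tri.anti hW.1) h1))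
  obtain ⟨q₂, h3⟩ := hP _ _ h1
  refine ⟨q₁ - q₂, ?_⟩
  rw [le_antisymm hW.2 (phi_le h.tri Γ W), Phi, h2, h3, Rat.cast_sub]

theorem Gen.ratRk (h : Gen P x V V') (hP : RatRk P) : RatRk (insert x P) := by
  intro M _ _ _ H hH
  obtain ⟨n, Γ, hΓ, rfl⟩ := lin hH
  obtain ⟨q₁, h1⟩ := Right_rat h hP hΓ
  obtain ⟨q₂, h2⟩ := Right_rat h hP (Def.inf hΓ (DM.ker (DM.fst (M := M))))
  have h3 := rho_map_add (fst Λ M _) (Γ ⊓ gx M (Fin n) x)
  rw [inf_right_comm, h1, h2] at h3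
  exact ⟨q₁ - q₂, by rw [Rat.cast_sub, ← h3, add_sub_cancel_right]⟩

theorem Right_le {k k' : ℕ} (h : k ≤ k') : (1 : ℚ) / (k' + 2) ≤ 1 / (k + 2) := by
  have : (k : ℚ) ≤ k' := Nat.cast_le.2 h
  exact one_div_le_one_div_of_le (by positivity) (by linarith)

theorem Right_le_one (k : ℕ) : (1 : ℚ) / (k + 2) ≤ 1 := by
  have : (0 : ℚ) ≤ k := Nat.cast_nonneg k
  rw [div_le_one (by positivity)]
  linarith

omit [Algebra F Λ] in
theorem Ha_mono (hs : Chain s) : Monotone (Ha s) := by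
  intro k k' h ξ hξ
  have e := hs.mul (1 / (k' + 2)) (1 / (k + 2))
  rw [min_eq_left (Right_le h)] at e
  have h0 : s (1 / (k + 2)) ξ = 0 := hξ
  show s (1 / (k' + 2)) ξ = 0
  rw [← e, Module.End.mul_apply, h0, map_zero]

omit [Algebra F Λ] in
theorem Hb_mono (hs : Chain s) : Monotone (Hb s) := by
  rintro k k' h _ ⟨ξ, rfl⟩
  have e := hs.mul (1 - 1 / (k' + 2)) (1 - 1 / (k + 2))
  rw [min_eq_right (sub_le_sub_left (Right_le h) 1)] at e
  exact ⟨s (1 - 1 / (k + 2)) ξ, by rw [← Module.End.mul_apply, e]⟩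

omit [Algebra F Λ] in
theorem cork_Ha (hs : Chain s) (k : ℕ) : cork ⊤ (Ha s k) = 1 / (k + 2) := by
  have h1 := rho_range_add_ker (s (1 / (k + 2)))
  rw [hs.rk _ (by positivity) (Right_le_one k)] at h1
  rw [cork, top_inf_eq, Ha, ← h1]
  push_cast
  ring

omit [Algebra F Λ] in
theorem cork_Hb (hs : Chain s) (k : ℕ) : cork ⊤ (Hb s k) = 1 / (k + 2) := by
  rw [cork, top_inf_eq, Hb, rho_top_self, hs.rk _ (sub_nonneg.2 (Right_le_one k))
    (sub_le_self _ (by positivity))]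
  push_cast
  ring

theorem Gen.rperp (h : Gen P x V V') (hs : Chain s) (hsP : Set.range s ⊆ P) (hP : RPerp s P) :
    RPerp s (insert x P) := by
  intro Γ hΓ ht
  obtain ⟨I, hI, h1, δ, hδ, h2⟩ := right h hΓ
  obtain ⟨k, hk⟩ := hP I hI (top_le_iff.1 (ht.ge.trans (Submodule.map_mono h1)))
  obtain ⟨m, hm⟩ := exists_nat_gt (2 / δ)
  have h3 := h2 ((Ha s (max k m)).prod (Hb s (max k m)))
    (.prod (DM.ker (.of_mem (hsP ⟨_, rfl⟩))) (DM.range (.of_mem (hsP ⟨_, rfl⟩)))) (by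
      rw [cork_top_prod, cork_Ha hs, cork_Hb hs, ← add_div, div_lt_iff₀ (by positivity)]
      rw [div_lt_iff₀ hδ] at hm
      have : (m : ℝ) ≤ (max k m : ℕ) := Nat.cast_le.2 (le_max_right _ _)
      nlinarith)
  refine ⟨max k m, fun ξ => sup_le h3 (le_sup_of_le_right ?_) (hk ξ)⟩
  exact Submodule.prod_mono (Ha_mono hs (le_max_left _ _)) (Hb_mono hs (le_max_left _ _))

theorem Gen.pers0 (h : Gen P x V V') (hs : Chain s) (hsP : Set.range s ⊆ P) :
    Pers0 s P (insert x P) := by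
  refine ⟨fun H hH => ?_, h.rperp hs hsP, h.ratRk⟩
  obtain ⟨D, -, -, -, hD, -⟩ := red h hH
  exact ⟨D, hD⟩

end Pool.Agent.Work.MP_c4093f_al.Z
end

-- merged part: Pool.Agent.Work.MP_c4093f_al.Z.RingP
section
/-!
Ring theoretic properties of the ring of definable endomorphisms.

Plan.  `dcl_mreg`: a matrix `b` acts by `ξ ↦ fun i => ∑ j, b i j (ξ j)`, a definable map `f`;
`Reg.lift` with `U = ⊤`, `g = id` gives a definable `g` with `f (g (f ξ)) = f ξ`; its entries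
`proj j ∘ g ∘ single i` are definable.  `dcl_simple`: let `1 / n ≤ rho (range a)`,
`t i = s ((i + 1) / n) - s (i / n)`, `a * g * a = a`, `e = a * g`; with `y` from `Spare` for the
finite set `{e}` (use `Spare.free` for `graph e`), `gs0` shows that `e * y` is injective on
`range (t i)`, `Reg.factor` gives `b` with `b * e * y * t i = t i`; the `t i` sum to `1`.
`dcl_split`: `exists_half` for `range e`, a projection `π` onto the half, `e₁ = π * e`.
`dcl_perp`: `I₁`, `I₂` are the elements whose range lies in some `Ha s k`, resp. `Hb s k`.  `RPerp`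
for `graph b` and `Reg.sec` for the pairs `(ξ, η)` with `ξ - η ∈ Ha s k`, `b η ∈ Hb s k` give `m`,
and `l = 1 - m`.
-/

namespace Pool.Agent.Work.MP_c4093f_al.Z

open LinearMap

variable {Λ : Type} [Ring Λ] [Algebra F Λ] {s : ℚ → E Λ} {P : Set (E Λ)} {𝒬 : Set (Set (E Λ))}

theorem dcl_mreg (h : Reg P) (m l : ℕ) (b : Matrix (Fin m) (Fin l) (dcl P)) :
    ∃ g : Matrix (Fin l) (Fin m) (dcl P), b * g * b = b := by
  let f : (Fin l → Λ) →ₗ[Λ] (Fin m → Λ) :=
    LinearMap.pi fun i => ∑ j, (b i j : E Λ) ∘ₗ (LinearMap.proj j : (Fin l → Λ) →ₗ[Λ] Λ)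
  have hf : DM P f := DM.pi fun i => DM.sum _ fun j _ => DM.comp (b i j).2 (DM.proj j)
  have fa : ∀ ξ i, f ξ i = ∑ j, (b i j : E Λ) (ξ j) := by
    intro ξ i
    simp [f, LinearMap.sum_apply]
  obtain ⟨g, hg, hfg⟩ := h.lift hf (DM.id (M := Fin m → Λ)) (Def.top (Fin l → Λ))
  refine ⟨fun j i => ⟨(LinearMap.proj j : (Fin l → Λ) →ₗ[Λ] Λ) ∘ₗ g ∘ₗ
    LinearMap.single Λ (fun _ : Fin m => Λ) i,
    DM.comp (DM.proj j) (DM.comp hg (RatM.single i).dm)⟩, ?_⟩
  refine Matrix.ext fun i j => Subtype.ext (LinearMap.ext fun ξ : Λ => ?_)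
  have h1 : ∀ k, f (Pi.single j ξ) k = (b k j : E Λ) ξ := by
    intro k
    rw [fa, Finset.sum_eq_single j]
    · rw [Pi.single_eq_same]
    · intro j' _ hj
      rw [Pi.single_eq_of_ne hj, map_zero]
    · intro hj
      exact absurd (Finset.mem_univ j) hj
  have h2 := congrFun (hfg (f (Pi.single j ξ)) ⟨_, Submodule.mem_top, rfl⟩).2 i
  rw [LinearMap.id_apply, h1, fa] at h2
  have h3 : g (f (Pi.single j ξ)) = ∑ k, g (Pi.single k ((b k j : E Λ) ξ)) := by
    rw [← map_sum]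
    congr 1
    rw [← Finset.univ_sum_single (f (Pi.single j ξ))]
    simp only [h1]
  rw [h3] at h2
  rw [← h2]
  simp only [Matrix.mul_apply, Finset.sum_mul, Finset.sum_apply, map_sum,
    AddSubmonoidClass.coe_finsetSum, LinearMap.sum_apply, Subring.coe_mul, Module.End.mul_apply]
  rw [Finset.sum_comm]
  rfl

variable [Dim Λ]

theorem dcl_simple (h : Glob s P 𝒬) (a : dcl P) (ha : a ≠ 0) :
    ∃ (n : ℕ) (b c : Fin n → dcl P), ∑ i, b i * a * c i = 1 := by
  have h0 : range (a : E Λ) ≠ ⊥ := fun h' => ha (Subtype.ext (range_eq_bot.1 h'))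
  obtain ⟨n, hn⟩ := exists_nat_one_div_lt (rho_pos h0)
  obtain ⟨Q, y, hsQ, haQ, hy, hyP⟩ := h.spare.free (H := graph (a : E Λ)) a.2
  let u : ℕ → E Λ := fun i => s (i / (n + 1))
  have hn0 : (0 : ℚ) < n + 1 := by positivity
  have key : ∀ i : Fin (n + 1), ∃ b c : dcl P, ((b * a * c : dcl P) : E Λ) = u (i + 1) - u i := by
    intro i
    have hQ : DM Q (u (i + 1) - u i) :=
      DM.sub (DM.of_mem (hsQ ⟨_, rfl⟩)) (DM.of_mem (hsQ ⟨_, rfl⟩))
    have hP : DM P (u (i + 1) - u i) :=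
      DM.sub (DM.of_mem (h.base ⟨_, rfl⟩)) (DM.of_mem (h.base ⟨_, rfl⟩))
    have hi : ((i : ℕ) : ℚ) + 1 ≤ n + 1 := by exact_mod_cast i.2
    have hr : rho (range (u (i + 1) - u i)) ≤ rho (range (a : E Λ)) := by
      simp only [u]
      rw [h.chain.rho_sub (by positivity) (by push_cast; gcongr; linarith)
        (by push_cast; rw [div_le_one hn0]; exact hi)]
      push_cast
      rw [← sub_div]
      simpa using hn.le
    obtain ⟨b, hb, hb'⟩ := h.reg.factor (f := (a : E Λ) ∘ₗ y) (DM.comp a.2 (DM.of_mem hyP))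
      (DM.id (M := Λ)) hP.range (gs0 hy haQ hQ hr).1
    exact ⟨⟨b, hb⟩, ⟨y * (u (i + 1) - u i), DM.mul (DM.of_mem hyP) hP⟩,
      LinearMap.ext fun ξ => hb' _ ⟨ξ, rfl⟩⟩
  choose b c hbc using key
  refine ⟨n + 1, b, c, Subtype.ext ?_⟩
  rw [AddSubmonoidClass.coe_finsetSum]
  simp only [hbc]
  rw [Fin.sum_univ_eq_sum_range (fun i => u (i + 1) - u i), Finset.sum_range_sub]
  simp only [u]
  rw [h.chain.one (by push_cast; rw [div_self hn0.ne']), h.chain.zero (by simp), sub_zero]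
  rfl

theorem dcl_split (h : Glob s P 𝒬) (e : dcl P) (he : e * e = e) (h0 : e ≠ 0) :
    ∃ e₁ : dcl P, e₁ * e₁ = e₁ ∧ e * e₁ = e₁ ∧ e₁ * e = e₁ ∧ e₁ ≠ 0 ∧ e₁ ≠ e := by
  have h1 : range (e : E Λ) ≠ ⊥ := fun h' => h0 (Subtype.ext (range_eq_bot.1 h'))
  have h2 := rho_pos h1
  obtain ⟨H, hle, hH, hr⟩ := exists_half h.chain h.base h.rat h.spare (DM.range e.2)
  obtain ⟨π, hπ, hp⟩ := h.reg Λ H hH
  have hee : ∀ ξ, (e : E Λ) ((e : E Λ) ξ) = (e : E Λ) ξ := fun ξ =>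
    congrArg (fun x : dcl P => (x : E Λ) ξ) he
  have hfix : ∀ ξ ∈ H, (e : E Λ) ξ = ξ := by
    intro ξ hξ
    obtain ⟨η, rfl⟩ := hle hξ
    exact hee η
  refine ⟨⟨π * e, DM.mul hπ e.2⟩, Subtype.ext (LinearMap.ext fun ξ => ?_),
    Subtype.ext (LinearMap.ext fun ξ => ?_), Subtype.ext (LinearMap.ext fun ξ => ?_), ?_, ?_⟩
  · change π ((e : E Λ) (π ((e : E Λ) ξ))) = π ((e : E Λ) ξ)
    rw [hfix _ (hp.map_mem _), hp.map_id _ (hp.map_mem _)]
  · exact hfix _ (hp.map_mem _)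
  · change π ((e : E Λ) ((e : E Λ) ξ)) = π ((e : E Λ) ξ)
    rw [hee]
  · intro h3
    have h4 : H = ⊥ := by
      refine (Submodule.eq_bot_iff H).2 fun ξ hξ => ?_
      have h5 : π ((e : E Λ) ξ) = 0 := congrArg (fun x : dcl P => (x : E Λ) ξ) h3
      rwa [hfix ξ hξ, hp.map_id ξ hξ] at h5
    rw [h4, rho_bot] at hr
    linarith
  · intro h3
    have h4 : range (e : E Λ) ≤ H := by
      rintro _ ⟨ξ, rfl⟩
      have h5 : π ((e : E Λ) ξ) = (e : E Λ) ξ := congrArg (fun x : dcl P => (x : E Λ) ξ) h3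
      rw [← h5]
      exact hp.map_mem _
    have := rho_mono h4
    linarith

omit [Dim Λ] in
/-- the elements whose range lies in a member of an increasing flag -/
def rngRingP (P : Set (E Λ)) (U : ℕ → Submodule Λ Λ) (hU : Monotone U) :
    Submodule (dcl P)ᵐᵒᵖ (dcl P) where
  carrier := {a | ∃ k, ∀ ξ, (a : E Λ) ξ ∈ U k}
  zero_mem' := ⟨0, fun _ => (U 0).zero_mem⟩
  add_mem' := by
    rintro a b ⟨k, hk⟩ ⟨l, hl⟩
    exact ⟨max k l, fun ξ => (U _).add_mem (hU (le_max_left k l) (hk ξ))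
      (hU (le_max_right k l) (hl ξ))⟩
  smul_mem' := by
    rintro c a ⟨k, hk⟩
    exact ⟨k, fun ξ => hk _⟩

theorem one_not_mem_rngRingP {U : ℕ → Submodule Λ Λ} (hU : Monotone U)
    (h : ∀ k : ℕ, cork ⊤ (U k) = 1 / (k + 2)) : (1 : dcl P) ∉ rngRingP P U hU := by
  rintro ⟨k, hk⟩
  have h1 := h k
  rw [cork_of_le fun ξ _ => hk ξ] at h1
  have h2 : (0 : ℝ) < 1 / (k + 2) := by positivity
  linarith

theorem dcl_perp (h : Glob s P 𝒬) : ∃ I₁ I₂ : Submodule (dcl P)ᵐᵒᵖ (dcl P),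
    (1 : dcl P) ∉ I₁ ∧ (1 : dcl P) ∉ I₂ ∧ ∀ b, ∃ l ∈ I₁, b - b * l ∈ I₂ := by
  refine ⟨rngRingP P _ (Ha_mono h.chain), rngRingP P _ (Hb_mono h.chain),
    one_not_mem_rngRingP _ (cork_Ha h.chain), one_not_mem_rngRingP _ (cork_Hb h.chain),
    fun b => ?_⟩
  obtain ⟨k, hk⟩ := h.rp (graph (b : E Λ)) b.2
    (eq_top_iff.2 fun ξ _ => ⟨(ξ, (b : E Λ) ξ), rfl, rfl⟩)
  have ha : Def P (Ha s k) := DM.ker (DM.of_mem (h.base ⟨_, rfl⟩))
  have hb : Def P (Hb s k) := DM.range (DM.of_mem (h.base ⟨_, rfl⟩))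
  obtain ⟨m, hm, hm'⟩ := h.reg.sec (Γ := (Ha s k).comap (fst Λ Λ Λ - snd Λ Λ Λ) ⊓
    (Hb s k).comap ((b : E Λ) ∘ₗ snd Λ Λ Λ))
    ((ha.comapD (DM.sub DM.fst DM.snd)).inf (hb.comapD (DM.comp b.2 DM.snd)))
  have key : ∀ ξ, ξ - m ξ ∈ Ha s k ∧ (b : E Λ) (m ξ) ∈ Hb s k := by
    intro ξ
    obtain ⟨⟨η, η'⟩, h1, ⟨α, β⟩, ⟨h2, h3⟩, h4⟩ := Submodule.mem_sup.1 (hk ξ)
    have h5 : η' = (b : E Λ) η := h1
    have h6 : η + α = ξ := congrArg Prod.fst h4
    have h7 : η' + β = 0 := congrArg Prod.snd h4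
    refine hm' ξ η ⟨?_, ?_⟩
    · change ξ - η ∈ Ha s k
      rw [← h6, add_sub_cancel_left]
      exact h2
    · change (b : E Λ) η ∈ Hb s k
      rw [← h5, eq_neg_of_add_eq_zero_left h7]
      exact (Hb s k).neg_mem h3
  refine ⟨1 - ⟨m, hm⟩, ⟨k, fun ξ => (key ξ).1⟩, k, fun ξ => ?_⟩
  rw [mul_sub, mul_one, sub_sub_cancel]
  exact (key ξ).2

end Pool.Agent.Work.MP_c4093f_al.Z
end

-- merged part: Pool.Agent.Work.MP_c4093f_al.Z.Ultra
section
/-!
The rank ultraproduct of matrix rings over the field with two elements.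

Plan.  `nr d N A ∈ [0, card m]`, so the limit along the ultrafilter exists
(`isCompact_Icc.ultrafilter_le_nhds`).  `lev N (A * B) = lev N B ∘ lev N A`.  Subadditivity of the
rank gives the congruence `nullCon` and `rk0_congr` (write `A - B` as the sum of the matrices with
one nonzero entry; such a matrix factors through the one by one matrix).  `exists_sylv`: put
`rk A = rk0 (A.map Quotient.out)`; regularity holds at each level, since every linear map
`(m → V) → (n → V)` has a quasi inverse and is `lev` of a matrix (`LinearMap.toMatrixRight'` on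
the blocks `proj j ∘ g ∘ single i`).
-/

namespace Pool.Agent.Work.MP_c4093f_al.Z

open LinearMap

open Matrix Filter Topology

/-- sequences of matrices -/
abbrev Seq (d : ℕ → ℕ) := ∀ N, Matrix (Fin (d N)) (Fin (d N)) F

variable {d : ℕ → ℕ} {m n : Type}

/-- the linear map given by a matrix of sequences at level `N` -/
def lev [Fintype m] (N : ℕ) (A : Matrix m n (Seq d)) :
    (m → Fin (d N) → F) →ₗ[F] (n → Fin (d N) → F) :=
  LinearMap.pi fun j => ∑ i, (A i j N).vecMulLinear ∘ₗ proj i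

/-- normalised rank at level `N` -/
noncomputable def nr [Fintype m] (N : ℕ) (A : Matrix m n (Seq d)) : ℝ :=
  Module.finrank F (range (lev N A)) / d N

/-- limit rank -/
noncomputable def rk0 [Fintype m] (A : Matrix m n (Seq d)) : ℝ :=
  limUnder (hyperfilter ℕ) fun N => nr N A

theorem Ultra_lev [Fintype m] (N : ℕ) (A : Matrix m n (Seq d)) (x : m → Fin (d N) → F) (j : n) :
    lev N A x j = ∑ i, x i ᵥ* A i j N := by
  simp [lev]

theorem Ultra_nr_nonneg [Fintype m] (N : ℕ) (A : Matrix m n (Seq d)) : 0 ≤ nr N A := by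
  unfold nr
  positivity

theorem Ultra_nr_le [Fintype m] (N : ℕ) (A : Matrix m n (Seq d)) : nr N A ≤ Fintype.card m := by
  refine div_le_of_le_mul₀ (Nat.cast_nonneg _) (Nat.cast_nonneg _) ?_
  have := finrank_range_le (lev N A)
  rw [Module.finrank_pi_fintype] at this
  simp only [Module.finrank_fin_fun, Finset.sum_const, Finset.card_univ, smul_eq_mul] at this
  exact_mod_cast this

theorem tendsto_nr [Fintype m] [Fintype n] (A : Matrix m n (Seq d)) :
    Tendsto (fun N => nr N A) (hyperfilter ℕ) (𝓝 (rk0 A)) := by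
  obtain ⟨x, -, hx⟩ := (isCompact_Icc (a := (0 : ℝ)) (b := Fintype.card m)).ultrafilter_le_nhds
    ((hyperfilter ℕ).map fun N => nr N A)
    (le_principal_iff.2 (mem_map.2 (univ_mem' fun N => ⟨Ultra_nr_nonneg N A, Ultra_nr_le N A⟩)))
  exact tendsto_nhds_limUnder ⟨x, hx⟩

section rk

variable [Fintype m] [Fintype n] {k l : Type} [Fintype k] [Fintype l]

omit [Fintype k] in
theorem Ultra_lev_mul (N : ℕ) (A : Matrix m n (Seq d)) (B : Matrix n k (Seq d)) :
    lev N (A * B) = lev N B ∘ₗ lev N A := by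
  refine LinearMap.ext fun x => funext fun j => ?_
  simp only [LinearMap.comp_apply, Ultra_lev, Matrix.mul_apply, Finset.sum_apply, Pi.mul_apply, sum_vecMul,
    vecMul_sum, vecMul_vecMul]
  exact Finset.sum_comm

omit [Fintype n] in
theorem Ultra_lev_add (N : ℕ) (A B : Matrix m n (Seq d)) : lev N (A + B) = lev N A + lev N B := by
  refine LinearMap.ext fun x => funext fun j => ?_
  simp only [LinearMap.add_apply, Pi.add_apply, Ultra_lev, Matrix.add_apply, vecMul_add,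
    Finset.sum_add_distrib]

omit [Fintype n] in
theorem Ultra_lev_single [DecidableEq m] (N : ℕ) (A : Matrix m n (Seq d)) (i : m)
    (x : Fin (d N) → F) (j : n) : lev N A (Pi.single i x) j = x ᵥ* A i j N := by
  rw [Ultra_lev, Finset.sum_eq_single i (fun b _ hb => by rw [Pi.single_eq_of_ne hb, zero_vecMul])
    (by simp), Pi.single_eq_same]

theorem Ultra_nonneg (A : Matrix m n (Seq d)) : 0 ≤ rk0 A :=
  ge_of_tendsto' (tendsto_nr A) fun N => Ultra_nr_nonneg N A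

theorem Ultra_mul_left (A : Matrix m n (Seq d)) (B : Matrix n k (Seq d)) : rk0 (A * B) ≤ rk0 A := by
  refine le_of_tendsto_of_tendsto' (tendsto_nr _) (tendsto_nr _) fun N => ?_
  refine div_le_div_of_nonneg_right (Nat.cast_le.2 ?_) (Nat.cast_nonneg _)
  rw [Ultra_lev_mul, range_comp]
  exact Submodule.finrank_map_le _ _

theorem Ultra_mul_right (A : Matrix m n (Seq d)) (B : Matrix n k (Seq d)) :
    rk0 (A * B) ≤ rk0 B := by
  refine le_of_tendsto_of_tendsto' (tendsto_nr _) (tendsto_nr _) fun N => ?_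
  refine div_le_div_of_nonneg_right (Nat.cast_le.2 ?_) (Nat.cast_nonneg _)
  rw [Ultra_lev_mul]
  exact Submodule.finrank_mono (range_comp_le_range _ _)

theorem Ultra_add (A B : Matrix m n (Seq d)) : rk0 (A + B) ≤ rk0 A + rk0 B := by
  refine le_of_tendsto_of_tendsto' (tendsto_nr _) ((tendsto_nr A).add (tendsto_nr B)) fun N => ?_
  unfold nr
  rw [← add_div, ← Nat.cast_add]
  refine div_le_div_of_nonneg_right (Nat.cast_le.2 ?_) (Nat.cast_nonneg _)
  refine le_trans (Submodule.finrank_mono ?_) (Submodule.finrank_add_le_finrank_add_finrank _ _)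
  rintro _ ⟨x, rfl⟩
  rw [Ultra_lev_add]
  exact Submodule.add_mem_sup ⟨x, rfl⟩ ⟨x, rfl⟩

theorem Ultra_zero : rk0 (0 : Matrix m n (Seq d)) = 0 := by
  refine tendsto_nhds_unique (tendsto_nr _) (tendsto_const_nhds.congr fun N => ?_)
  have : lev N (0 : Matrix m n (Seq d)) = 0 :=
    LinearMap.ext fun x => funext fun j => by simp [Ultra_lev]
  rw [nr, this, range_zero, finrank_bot, Nat.cast_zero, zero_div]

theorem Ultra_prod {V W : Type} [AddCommGroup V] [Module F V] [AddCommGroup W] [Module F W]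
    [Module.Finite F V] [Module.Finite F W] (p : Submodule F V) (q : Submodule F W) :
    Module.finrank F (p.prod q) = Module.finrank F p + Module.finrank F q := by
  have := finrank_range_of_inj (f := p.subtype.prodMap q.subtype)
    (p.injective_subtype.prodMap q.injective_subtype)
  rwa [range_prodMap, Submodule.range_subtype, Submodule.range_subtype, Module.finrank_prod] at this

theorem Ultra_equiv {V W V' W' : Type} [AddCommGroup V] [Module F V] [AddCommGroup W] [Module F W]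
    [AddCommGroup V'] [Module F V'] [AddCommGroup W'] [Module F W'] {e : V ≃ₗ[F] V'}
    {e' : W ≃ₗ[F] W'} {f : V →ₗ[F] W} {g : V' →ₗ[F] W'}
    (h : e'.toLinearMap ∘ₗ f = g ∘ₗ e.toLinearMap) :
    Module.finrank F (range f) = Module.finrank F (range g) := by
  rw [← e'.finrank_map_eq, ← range_comp, h, range_comp, e.range, Submodule.map_top]

theorem Ultra_block (A : Matrix m n (Seq d)) (B : Matrix k l (Seq d)) :
    rk0 (fromBlocks A 0 0 B) = rk0 A + rk0 B := by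
  refine tendsto_nhds_unique (tendsto_nr _) (((tendsto_nr A).add (tendsto_nr B)).congr fun N => ?_)
  have h : (LinearEquiv.sumArrowLequivProdArrow n l F (Fin (d N) → F)).toLinearMap ∘ₗ
      lev N (fromBlocks A 0 0 B) = (lev N A).prodMap (lev N B) ∘ₗ
        (LinearEquiv.sumArrowLequivProdArrow m k F (Fin (d N) → F)).toLinearMap :=
    LinearMap.ext fun x => Prod.ext (funext fun j => by simp [Ultra_lev])
      (funext fun j => by simp [Ultra_lev])
  have := Ultra_equiv h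
  rw [range_prodMap, Ultra_prod] at this
  unfold nr
  rw [this, Nat.cast_add, add_div]

theorem Ultra_reg (A : Matrix m n (Seq d)) : ∃ G : Matrix n m (Seq d), A * G * A = A := by
  classical
  have h : ∀ N, ∃ g : (n → Fin (d N) → F) →ₗ[F] (m → Fin (d N) → F),
      ∀ x, lev N A (g (lev N A x)) = lev N A x := fun N => by
    obtain ⟨s, hs⟩ := (lev N A).rangeRestrict.exists_rightInverse_of_surjective
      (lev N A).range_rangeRestrict
    obtain ⟨p, hp⟩ := (range (lev N A)).subtype.exists_leftInverse_of_injective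
      (Submodule.ker_subtype _)
    refine ⟨s ∘ₗ p, fun x => ?_⟩
    have h1 : p (lev N A x) = ⟨lev N A x, x, rfl⟩ := LinearMap.congr_fun hp ⟨_, x, rfl⟩
    rw [LinearMap.comp_apply, h1]
    exact congrArg Subtype.val (LinearMap.congr_fun hs _)
  choose g hg using h
  have h2 : ∀ j i N, ∃ M : Matrix (Fin (d N)) (Fin (d N)) F, ∀ x, x ᵥ* M = g N (Pi.single j x) i :=
    fun j i N => by
      obtain ⟨M, hM⟩ := toLinearMapRight'.surjective (proj (φ := fun _ => Fin (d N) → F) i ∘ₗ g N ∘ₗ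
        LinearMap.single F (fun _ => Fin (d N) → F) j)
      exact ⟨M, LinearMap.congr_fun hM⟩
  choose G0 hG0 using h2
  obtain ⟨G, hG⟩ : ∃ G : Matrix n m (Seq d), ∀ j i N x, x ᵥ* G j i N = g N (Pi.single j x) i :=
    ⟨G0, hG0⟩
  have h1 : ∀ N x, lev N G x = g N x := fun N x => funext fun i => by
    rw [Ultra_lev, Finset.sum_congr rfl fun j _ => hG j i N _, ← Finset.sum_apply, ← map_sum,
      Finset.univ_sum_single]
  refine ⟨G, Matrix.ext fun i j => funext fun N =>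
    toLinearMapRight'.injective (LinearMap.ext fun x => ?_)⟩
  rw [toLinearMapRight'_apply, toLinearMapRight'_apply, ← Ultra_lev_single, ← Ultra_lev_single,
    Ultra_lev_mul, Ultra_lev_mul, LinearMap.comp_apply, LinearMap.comp_apply, h1, hg]

end rk

/-- the one by one matrix -/
def one1 (a : Seq d) : Matrix Unit Unit (Seq d) := fun _ _ => a

theorem nr_one1 (N : ℕ) (a : Seq d) :
    nr N (one1 a) = Module.finrank F (range (a N).vecMulLinear) / d N := by
  have h : (LinearEquiv.funUnique Unit F (Fin (d N) → F)).toLinearMap ∘ₗ lev N (one1 a) =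
      (a N).vecMulLinear ∘ₗ (LinearEquiv.funUnique Unit F (Fin (d N) → F)).toLinearMap :=
    LinearMap.ext fun x => by simp [Ultra_lev, one1]
  rw [nr, Ultra_equiv h]

theorem Ultra_one1_mul (a b : Seq d) : one1 (a * b) = one1 a * one1 b := by
  ext : 2
  simp [one1, Matrix.mul_apply]

theorem Ultra_null_add {a b c : Seq d} (ha : rk0 (one1 a) = 0) (hb : rk0 (one1 b) = 0)
    (h : c = a + b) : rk0 (one1 c) = 0 :=
  le_antisymm (h ▸ (Ultra_add (one1 a) (one1 b)).trans (by rw [ha, hb, add_zero])) (Ultra_nonneg _)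

theorem Ultra_null_mul {a : Seq d} (ha : rk0 (one1 a) = 0) (b c : Seq d) :
    rk0 (one1 (b * a * c)) = 0 := by
  rw [Ultra_one1_mul, Ultra_one1_mul]
  exact le_antisymm ((Ultra_mul_left _ _).trans ((Ultra_mul_right _ _).trans ha.le))
    (Ultra_nonneg _)

/-- sequences that differ by a sequence of rank zero -/
def nullCon (d : ℕ → ℕ) : RingCon (Seq d) where
  r a b := rk0 (one1 (a - b)) = 0
  iseqv := ⟨fun a => by rw [sub_self]; exact Ultra_zero,
    fun {a b} h => by simpa using Ultra_null_mul h (-1) 1,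
    fun h h' => Ultra_null_add h h' (sub_add_sub_cancel _ _ _).symm⟩
  mul' {w x y z} h h' :=
    Ultra_null_add (Ultra_null_mul h 1 y) (Ultra_null_mul h' x 1) (by noncomm_ring)
  add' h h' := Ultra_null_add h h' (add_sub_add_comm _ _ _ _)

/-- the rank ultraproduct -/
def UP (d : ℕ → ℕ) : Type := (nullCon d).Quotient

noncomputable instance : Ring (UP d) := inferInstanceAs (Ring (nullCon d).Quotient)

noncomputable instance : Algebra F (UP d) := inferInstanceAs (Algebra F (nullCon d).Quotient)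

/-- the quotient map -/
noncomputable def upMk (d : ℕ → ℕ) : Seq d →+* UP d := (nullCon d).mk'

theorem upMk_surj : Function.Surjective (upMk d) := (nullCon d).mk'_surjective

theorem upMk_smul (c : F) (a : Seq d) : upMk d (c • a) = c • upMk d a := rfl

theorem Ultra_eq {a b : Seq d} : upMk d a = upMk d b ↔ rk0 (one1 (a - b)) = 0 := (nullCon d).eq

theorem Ultra_le [Fintype m] [Fintype n] {A B : Matrix m n (Seq d)}
    (h : A.map (upMk d) = B.map (upMk d)) : rk0 A ≤ rk0 B := by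
  classical
  have h0 : rk0 (A - B) ≤ 0 := by
    have hs : ∀ X Y : Matrix m n (Seq d), rk0 X ≤ 0 → rk0 Y ≤ 0 → rk0 (X + Y) ≤ 0 :=
      fun X Y hX hY => (Ultra_add X Y).trans (add_nonpos hX hY)
    rw [matrix_eq_sum_single (A - B)]
    refine Finset.sum_induction _ (rk0 · ≤ 0) hs Ultra_zero.le fun i _ => ?_
    refine Finset.sum_induction _ (rk0 · ≤ 0) hs Ultra_zero.le fun j _ => ?_
    have := single_mul_mul_single i () () j 1 (one1 (A i j - B i j)) 1
    rw [one_mul, mul_one] at this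
    exact this ▸ (Ultra_mul_left _ _).trans ((Ultra_mul_right _ _).trans
      (Ultra_eq.1 (congrFun (congrFun h i) j)).le)
  have := Ultra_add (A - B) B
  rw [sub_add_cancel] at this
  linarith

theorem rk0_congr [Fintype m] [Fintype n] {A B : Matrix m n (Seq d)}
    (h : A.map (upMk d) = B.map (upMk d)) : rk0 A = rk0 B :=
  le_antisymm (Ultra_le h) (Ultra_le h.symm)

theorem exists_sylv (hd : ∀ N, N < d N) : ∃ S : Sylv (UP d),
    ∀ {m n : Type} [Fintype m] [Fintype n] (A : Matrix m n (Seq d)),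
      S.rk (A.map (upMk d)) = rk0 A := by
  classical
  have hs : ∀ {m n : Type} (A : Matrix m n (UP d)),
      (A.map (Function.surjInv upMk_surj)).map (upMk d) = A :=
    fun A => Matrix.ext fun i j => Function.surjInv_eq upMk_surj _
  have key : ∀ {m n : Type} [Fintype m] [Fintype n] (A : Matrix m n (Seq d)),
      rk0 ((A.map (upMk d)).map (Function.surjInv upMk_surj)) = rk0 A := fun A => rk0_congr (hs _)
  have sur : ∀ {m n : Type} (A : Matrix m n (UP d)), ∃ B : Matrix m n (Seq d),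
      B.map (upMk d) = A := fun A => ⟨_, hs A⟩
  refine ⟨⟨fun A => rk0 (A.map (Function.surjInv upMk_surj)), fun A => Ultra_nonneg _,
    fun A B => ?_, fun A B => ?_, fun A B => ?_, ?_, fun A h => ?_, fun A => ?_⟩, key⟩
  · obtain ⟨A, rfl⟩ := sur A
    obtain ⟨B, rfl⟩ := sur B
    rw [← Matrix.map_mul, key, key]
    exact Ultra_mul_left A B
  · obtain ⟨A, rfl⟩ := sur A
    obtain ⟨B, rfl⟩ := sur B
    rw [← Matrix.map_mul, key, key]
    exact Ultra_mul_right A B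
  · obtain ⟨A, rfl⟩ := sur A
    obtain ⟨B, rfl⟩ := sur B
    rw [key, key, ← Ultra_block, ← key (fromBlocks A 0 0 B), fromBlocks_map A,
      Matrix.map_zero _ (map_zero _), Matrix.map_zero _ (map_zero _)]
  · rw [← Matrix.map_one (upMk d) (map_zero _) (map_one _), key]
    refine tendsto_nhds_unique (tendsto_nr _) (tendsto_const_nhds.congr fun N => ?_)
    have : lev N (1 : Matrix Unit Unit (Seq d)) = LinearMap.id :=
      LinearMap.ext fun x => funext fun j => by simp [Ultra_lev]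
    have h0 : (d N : ℝ) ≠ 0 := Nat.cast_ne_zero.2 (Nat.ne_zero_of_lt (hd N))
    rw [nr, this, range_id, finrank_top, Module.finrank_pi_fintype]
    simp [h0]
  · obtain ⟨A, rfl⟩ := sur A
    rw [key] at h
    refine Matrix.ext fun i j => (Ultra_eq.2 (le_antisymm ?_ (Ultra_nonneg _))).trans (map_zero _)
    have : one1 (A i j - 0) = single () i (1 : Seq d) * A * single j () (1 : Seq d) := by
      rw [single_mul_mul_single]
      ext : 2
      simp [one1]
    exact this ▸ (Ultra_mul_left _ _).trans ((Ultra_mul_right _ _).trans h)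
  · obtain ⟨A, rfl⟩ := sur A
    obtain ⟨G, hG⟩ := Ultra_reg A
    exact ⟨G.map (upMk d), by rw [← Matrix.map_mul, ← Matrix.map_mul, hG]⟩

end Pool.Agent.Work.MP_c4093f_al.Z
end

-- merged part: Pool.Agent.Work.MP_c4093f_al.Z.UAmb
section
/-!
The dimension function of the ultraproduct: transfer, completeness, the chain of idempotents.

Plan.  `rho_eq_r`: `Dim.map` for the frame, which is injective.  `tendsto_ker`:
`rho_range_add_ker`, `rho_pw` (with `pw m ⊤ = ⊤`) and `LinearMap.finrank_range_add_finrank_ker`.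
`tendsto_ker2`: `tendsto_ker` for `Matrix.fromCols A B`.  Every endomorphism is `rm` of its value
at `1`.  `up_complete`: lift `a m` to sequences; the sets
`S k = {N | ∀ m ≤ n ≤ k, nr N (one1 (a n - a m)) < ε m + 1 / (k + 1)}` are large; let `k N` be the
largest `k ≤ N` with `N ∈ S k` (`Nat.findGreatest`) and `x N = a (k N) N`.
-/

namespace Pool.Agent.Work.MP_c4093f_al.Z

open LinearMap

open Matrix Filter Topology

theorem rho_eq_r {Λ : Type} [Ring Λ] [D : Dim Λ] {n : Type} [Fintype n] (H : Submodule Λ (n → Λ)) :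
    rho H = D.r H := by
  have h0 : D.r (⊥ : Submodule Λ (n → Λ)) = 0 := by
    have := D.map (LinearMap.id : (n → Λ) →ₗ[Λ] (n → Λ)) ⊥
    rw [Submodule.map_bot, bot_inf_eq] at this
    linarith
  have := D.map (Fr.e : (n → Λ) ≃ₗ[Λ] (Fr.ι Λ (n → Λ) → Λ)).toLinearMap H
  rw [LinearEquiv.ker, inf_bot_eq, h0, add_zero] at this
  exact this

variable {d : ℕ → ℕ}

/-- right multiplication by the class of a sequence -/
noncomputable def rm (a : Seq d) : E (UP d) := toSpanSingleton (UP d) (UP d) (upMk d a)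

theorem rm_mul (a b : Seq d) : rm a * rm b = rm (b * a) :=
  LinearMap.ext fun x => by simp [rm, mul_assoc]

theorem rm_sub (a b : Seq d) : rm a - rm b = rm (a - b) :=
  LinearMap.ext fun x => by simp [rm, mul_sub]

theorem rm_one : rm (1 : Seq d) = 1 :=
  LinearMap.ext fun x => by simp [rm]

theorem rm_surj (x : E (UP d)) : ∃ a, rm a = x := by
  obtain ⟨a, ha⟩ := upMk_surj (d := d) (x 1)
  refine ⟨a, LinearMap.ext fun y => ?_⟩
  rw [rm, toSpanSingleton_apply, ha, ← map_smul, smul_eq_mul, mul_one]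

/-- the dimension function is the limit rank -/
def Good (d : ℕ → ℕ) [D : Dim (UP d)] : Prop :=
  ∀ {m n : Type} [Fintype m] [Fintype n] (A : Matrix m n (Seq d)),
    D.r (range (A.map (upMk d)).vecMulLinear) = rk0 A

theorem exists_good (hd : ∀ N, N < d N) : ∃ D : Dim (UP d), @Good d D := by
  obtain ⟨S, hS⟩ := exists_sylv hd
  obtain ⟨D, hD⟩ := S.exists_dim
  exact ⟨D, fun A => (hD _).trans (hS A)⟩

variable [Dim (UP d)] {m n k : Type} [Fintype m] [Fintype n] [Fintype k]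

theorem tendsto_ker (hd : ∀ N, N < d N) (h : Good d) (A : Matrix m n (Seq d)) :
    Tendsto (fun N => (Module.finrank F (ker (lev N A)) : ℝ) / d N) (hyperfilter ℕ)
      (𝓝 (rho (ker (A.map (upMk d)).vecMulLinear))) := by
  have h1 := rho_range_add_ker (A.map (upMk d)).vecMulLinear
  have h2 : (⊤ : Submodule (UP d) (m → UP d)) = pw m ⊤ := by
    unfold pw
    rw [Submodule.pi_top]
  rw [h2, rho_pw, rho_top_self, mul_one, rho_eq_r, h] at h1
  rw [eq_sub_of_add_eq' h1]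
  refine (tendsto_const_nhds.sub (tendsto_nr A)).congr fun N => ?_
  have h0 : (d N : ℝ) ≠ 0 := Nat.cast_ne_zero.2 (Nat.ne_zero_of_lt (hd N))
  have h3 := finrank_range_add_finrank_ker (lev N A)
  rw [Module.finrank_pi_fintype] at h3
  simp only [Module.finrank_fin_fun, Finset.sum_const, Finset.card_univ, smul_eq_mul] at h3
  have h4 : (Module.finrank F (range (lev N A)) : ℝ) + Module.finrank F (ker (lev N A)) =
      Fintype.card m * d N := by exact_mod_cast h3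
  rw [nr, eq_div_iff h0, sub_mul, div_mul_cancel₀ _ h0]
  linarith

theorem tendsto_ker2 (hd : ∀ N, N < d N) (h : Good d) (A : Matrix m n (Seq d))
    (B : Matrix m k (Seq d)) :
    Tendsto (fun N => (Module.finrank F ↥(ker (lev N A) ⊓ ker (lev N B)) : ℝ) / d N)
      (hyperfilter ℕ)
      (𝓝 (rho (ker (A.map (upMk d)).vecMulLinear ⊓ ker (B.map (upMk d)).vecMulLinear))) := by
  have h1 : ker ((fromCols A B).map (upMk d)).vecMulLinear =
      ker (A.map (upMk d)).vecMulLinear ⊓ ker (B.map (upMk d)).vecMulLinear := by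
    ext x
    simp only [LinearMap.mem_ker, vecMulLinear_apply, fromCols_map, vecMul_fromCols,
      Submodule.mem_inf]
    refine ⟨fun hx => ⟨funext fun j => congrFun hx (Sum.inl j),
      funext fun j => congrFun hx (Sum.inr j)⟩, fun hx => funext fun j => ?_⟩
    cases j with
    | inl j => exact congrFun hx.1 j
    | inr j => exact congrFun hx.2 j
  have h2 : ∀ N, ker (lev N (fromCols A B)) = ker (lev N A) ⊓ ker (lev N B) := fun N => by
    ext x
    simp only [LinearMap.mem_ker, Submodule.mem_inf]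
    refine ⟨fun hx => ⟨funext fun j => ?_, funext fun j => ?_⟩, fun hx => funext fun j => ?_⟩
    · simpa [Ultra_lev] using congrFun hx (Sum.inl j)
    · simpa [Ultra_lev] using congrFun hx (Sum.inr j)
    · cases j with
      | inl j => simpa [Ultra_lev] using congrFun hx.1 j
      | inr j => simpa [Ultra_lev] using congrFun hx.2 j
  have := tendsto_ker hd h (fromCols A B)
  rw [h1] at this
  exact this.congr fun N => by rw [h2]

theorem rho_rm (h : Good d) (a : Seq d) : rho (range (rm a)) = rk0 (one1 a) := by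
  rw [← h]
  unfold rho
  congr 1
  ext x
  constructor
  · rintro ⟨_, ⟨y, rfl⟩, rfl⟩
    refine ⟨fun _ => y, funext fun j => ?_⟩
    simp [vecMul, dotProduct, one1, rm, Fr.e]
  · rintro ⟨y, rfl⟩
    refine ⟨_, ⟨y (), rfl⟩, funext fun j => ?_⟩
    simp [vecMul, dotProduct, one1, rm, Fr.e]

theorem up_complete (h : Good d) : Complete (UP d) := by
  classical
  intro a ε ha
  choose b hb using fun m => rm_surj (a m)
  have hr : ∀ m n, m ≤ n → rk0 (one1 (b n - b m)) ≤ ε m := fun m n hmn => by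
    rw [← rho_rm h, ← rm_sub, hb, hb]
    exact ha m n hmn
  let S : ℕ → ℕ → Prop := fun N k => ∀ n ≤ k, ∀ m ≤ n,
    nr N (one1 (b n - b m)) < ε m + 1 / ((k : ℝ) + 1)
  have hS : ∀ k, ∀ᶠ N in hyperfilter ℕ, S N k := fun k => by
    refine (eventually_all_finite (Set.finite_le_nat k)).2 fun n _ => ?_
    refine (eventually_all_finite (Set.finite_le_nat n)).2 fun m hm => ?_
    exact (tendsto_nr _).eventually_lt_const
      (lt_add_of_le_of_pos (hr m n hm) Nat.one_div_pos_of_nat)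
  let x : Seq d := fun N => b (Nat.findGreatest (S N) N) N
  refine ⟨rm x, fun m => ?_⟩
  rw [← hb, rm_sub, rho_rm h]
  refine le_of_forall_pos_le_add fun δ hδ => ?_
  obtain ⟨k0, hk0⟩ := exists_nat_one_div_lt hδ
  refine le_of_tendsto (tendsto_nr _) ?_
  filter_upwards [hS (max m k0), Nat.hyperfilter_le_atTop (eventually_ge_atTop (max m k0))]
    with N h1 h2
  have h3 : max m k0 ≤ Nat.findGreatest (S N) N := Nat.le_findGreatest h2 h1
  have h4 := Nat.findGreatest_spec (P := S N) h2 h1 _ le_rfl m ((le_max_left _ _).trans h3)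
  have h5 : nr N (one1 (x - b m)) = nr N (one1 (b (Nat.findGreatest (S N) N) - b m)) := by
    rw [nr_one1, nr_one1]
    rfl
  have h6 : 1 / ((Nat.findGreatest (S N) N : ℝ) + 1) ≤ 1 / ((k0 : ℝ) + 1) :=
    Nat.one_div_le_one_div ((le_max_right _ _).trans h3)
  linarith

theorem up_chain (hd : ∀ N, N < d N) (h : Good d) :
    Chain fun q => rm (fun N => sLev (d N) q : Seq d) := by
  refine ⟨fun q r => ?_, fun q h0 h1 => ?_⟩
  · rw [rm_mul]
    congr 1
    funext N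
    rw [Pi.mul_apply, sLev_mul, min_comm]
  · rw [rho_rm h]
    refine tendsto_nhds_unique (tendsto_nr _) ?_
    have h2 : Tendsto (fun N => (d N : ℝ)) atTop atTop :=
      tendsto_natCast_atTop_atTop.comp (tendsto_atTop_mono (fun N => (hd N).le) tendsto_id)
    have h3 := (tendsto_nat_floor_mul_div_atTop (R := ℝ) (a := q) (Rat.cast_nonneg.2 h0)).comp h2
    refine (h3.mono_left Nat.hyperfilter_le_atTop).congr fun N => ?_
    rw [nr_one1, rank_sLev _ h1, Function.comp_apply]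
    congr 2
    rw [← Int.floor_toNat, ← Int.floor_toNat, ← Rat.floor_cast (α := ℝ)]
    push_cast
    rfl

end Pool.Agent.Work.MP_c4093f_al.Z
end
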